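import Pool.Agent.Helper985.CP.Base

set_option autoImplicit false

open MeasureTheory
open scoped Topology

namespace Pool.Agent.Helper985.CP

section

variable {S : Type} (D : Species S) {I : Type} [Fintype I] [DecidableEq I] (sp : I → S)

/-- The inner product `⟨Φ, Ψ⟩`. -/
noncomputable def ip (Φ Ψ : Wave D I) : ℂ := ∑ τ, ∫ x, (starRingEnd ℂ) (Φ τ x) * Ψ τ x

/-- Finite orthonormal families of states. -/
def Ortho (ℓ : ℝ) {k : ℕ} (ψ : Fin k → Wave D I) : Prop :=
  (∀ i, IsState D sp ℓ (ψ i)) ∧ ∀ i j, ip D (ψ i) (ψ j) = if i = j then 1 else 0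

/-- The sums `∑ⱼ exp(-⟨ψⱼ, H ψⱼ⟩ / T)` over finite orthonormal families of states. -/
def peierls (ℓ T : ℝ) : Set ℝ :=
  {z : ℝ | ∃ (k : ℕ) (ψ : Fin k → Wave D I), Ortho D sp ℓ ψ ∧
    z = ∑ j, Real.exp (-(energy D sp (ψ j)) / T)}

end

/-- The partition function `Tr e^{-H/T}`, by Peierls' variational principle the supremum of the
sums `∑ⱼ exp(-⟨ψⱼ, H ψⱼ⟩ / T)` over orthonormal families. -/
noncomputable def partition {S : Type} [Fintype S] [DecidableEq S] (D : Species S) (ℓ T : ℝ)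
    (n : S → ℕ) : ℝ :=
  sSup (peierls D (fun i : (Σ s, Fin (n s)) => i.1) ℓ T)

/-- The free energy `F_Λ(n, T) = -T log Tr e^{-H/T}`. -/
noncomputable def freeEnergy {S : Type} [Fintype S] [DecidableEq S] (D : Species S) (ℓ T : ℝ)
    (n : S → ℕ) : ℝ :=
  -T * Real.log (partition D ℓ T n)

end Pool.Agent.Helper985.CP
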