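import Pool.Agent.Helper985.CT.Base
import Pool.Agent.Helper985.CP.Defs
import Pool.Agent.Helper985.CP.M_comb

set_option autoImplicit false

open MeasureTheory
open scoped Topology

namespace Pool.Agent.Helper985.CP

/-- kinetic energy of particle `i` -/
noncomputable def kinE {S : Type} (D : Species S) {I : Type} [Fintype I] [DecidableEq I]
    (sp : I → S) (i : I) (Ψ : Wave D I) : ℝ :=
  ∑ τ, ∫ x, kin D sp i (Ψ τ) x

/-- plane waves of the cube -/
noncomputable def pwave (ℓ : ℝ) (m : Fin 3 → ℤ) (z : E3) : ℂ :=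
  Complex.exp (2 * Real.pi * Complex.I * ((∑ i, (m i : ℝ) * z i : ℝ) : ℂ) / (ℓ : ℂ)) /
    ((Real.sqrt (ℓ ^ 3) : ℝ) : ℂ)

/-- their energies -/
noncomputable def pen (ℓ : ℝ) (m : Fin 3 → ℤ) : ℝ :=
  (2 * Real.pi / ℓ) ^ 2 * ∑ i, (m i : ℝ) ^ 2

/-- logarithm of the one-particle partition function -/
noncomputable def lz (ℓ t : ℝ) : ℝ := Real.log (∑' m : Fin 3 → ℤ, Real.exp (-(t * pen ℓ m)))

/-- partial inner product with a one-particle function -/
noncomputable def psl {S : Type} (D : Species S) {I : Type} (u : E3 → ℂ) (σ : Fin D.g)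
    (Φ : Wave D (Option I)) : Wave D I :=
  fun τ x => ∫ z, (starRingEnd ℂ) (u z) * slice D σ z Φ τ x

/-- normalised insertion of a particle -/
noncomputable def insN {S : Type} [DecidableEq S] (D : Species S) {I : Type} [Fintype I]
    [DecidableEq I] (sp : I → S) (s : S) (σ0 : Fin D.g) (φ : E3 → ℝ) (Ψ : Wave D I) :
    Wave D (Option I) :=
  fun τ x => ((1 / Real.sqrt ((cnt sp s : ℝ) + 1) : ℝ) : ℂ) * ins1 D sp s σ0 φ Ψ τ x

/-- expected number of particles near `x0` -/
noncomputable def near {S : Type} (D : Species S) {I : Type} [Fintype I] [DecidableEq I]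
    (r : ℝ) (x0 : E3) (Ψ : Wave D I) : ℝ :=
  ∑ τ, ∫ x, (∑ i, Set.indicator (Metric.ball x0 (2 * r)) (fun _ => (1 : ℝ)) (x i)) *
    ‖Ψ τ x‖ ^ 2

end Pool.Agent.Helper985.CP
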