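import Pool.Agent.Helper985.CP.M_int_state
import Pool.Agent.Helper985.CT.Defs

set_option autoImplicit false

open MeasureTheory
open scoped Topology

namespace Pool.Agent.Helper985.CP



theorem near_ind_nonneg (r : ℝ) (x0 y : E3) :
    0 ≤ Set.indicator (Metric.ball x0 (2 * r)) (fun _ => (1 : ℝ)) y :=
  Set.indicator_nonneg (fun _ _ => zero_le_one) _

theorem near_ind_le (r : ℝ) (x0 y : E3) :
    Set.indicator (Metric.ball x0 (2 * r)) (fun _ => (1 : ℝ)) y ≤ 1 := by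
  by_cases h : y ∈ Metric.ball x0 (2 * r)
  · rw [Set.indicator_of_mem h]
  · rw [Set.indicator_of_notMem h]; exact zero_le_one

theorem near_int {S : Type} (D : Species S) {I : Type} [Fintype I] [DecidableEq I]
    (sp : I → S) (ℓ r : ℝ) (x0 : E3) (Ψ : Wave D I) (hΨ : IsState D sp ℓ Ψ) (τ : I → Fin D.g) :
    Integrable (fun x : I → E3 =>
      (∑ i, Set.indicator (Metric.ball x0 (2 * r)) (fun _ => (1 : ℝ)) (x i)) * ‖Ψ τ x‖ ^ 2) := by
  have h1 := (int_state D sp ℓ Ψ hΨ τ).1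
  have hm : Measurable (fun x : I → E3 =>
      ∑ i, Set.indicator (Metric.ball x0 (2 * r)) (fun _ => (1 : ℝ)) (x i)) := by
    refine Finset.measurable_sum _ fun i _ => ?_
    exact (measurable_const.indicator measurableSet_ball).comp (measurable_pi_apply i)
  refine (h1.const_mul (Fintype.card I : ℝ)).mono' (hm.aestronglyMeasurable.mul h1.1) ?_
  refine Filter.Eventually.of_forall fun x => ?_
  have h2 : 0 ≤ ∑ i, Set.indicator (Metric.ball x0 (2 * r)) (fun _ => (1 : ℝ)) (x i) :=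
    Finset.sum_nonneg fun i _ => near_ind_nonneg r x0 (x i)
  have h3 : ∑ i, Set.indicator (Metric.ball x0 (2 * r)) (fun _ => (1 : ℝ)) (x i)
      ≤ (Fintype.card I : ℝ) := by
    calc _ ≤ ∑ _i : I, (1:ℝ) := Finset.sum_le_sum fun i _ => near_ind_le r x0 (x i)
      _ = _ := by simp
  have h4 : (0:ℝ) ≤ ‖Ψ τ x‖ ^ 2 := by positivity
  rw [Real.norm_eq_abs, abs_of_nonneg (mul_nonneg h2 h4)]
  exact mul_le_mul_of_nonneg_right h3 h4

theorem near_grid {S : Type} (D : Species S) {I : Type} [Fintype I] [DecidableEq I]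
    (sp : I → S) (ℓ r : ℝ) (G : Finset E3)
    (hG : ∀ y : E3, ∑ x0 ∈ G, Set.indicator (Metric.ball x0 (2 * r)) (fun _ => (1 : ℝ)) y ≤ 1)
    (Ψ : Wave D I) (hΨ : IsState D sp ℓ Ψ) :
    ∑ x0 ∈ G, near D r x0 Ψ ≤ (Fintype.card I : ℝ) * nrm2 D Ψ ∧ ∀ x0, 0 ≤ near D r x0 Ψ := by
  constructor
  · unfold near nrm2
    rw [Finset.sum_comm, Finset.mul_sum]
    refine Finset.sum_le_sum fun τ _ => ?_
    rw [← integral_finsetSum G (fun x0 _ => near_int D sp ℓ r x0 Ψ hΨ τ), ← integral_const_mul]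
    refine integral_mono (integrable_finsetSum G (fun x0 _ => near_int D sp ℓ r x0 Ψ hΨ τ))
      ((int_state D sp ℓ Ψ hΨ τ).1.const_mul _) ?_
    intro x
    show ∑ x0 ∈ G, (∑ i, Set.indicator (Metric.ball x0 (2 * r)) (fun _ => (1 : ℝ)) (x i)) *
        ‖Ψ τ x‖ ^ 2 ≤ (Fintype.card I : ℝ) * ‖Ψ τ x‖ ^ 2
    rw [← Finset.sum_mul, Finset.sum_comm]
    refine mul_le_mul_of_nonneg_right ?_ (by positivity)
    calc _ ≤ ∑ _i : I, (1:ℝ) := Finset.sum_le_sum fun i _ => hG (x i)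
      _ = _ := by simp
  · intro x0
    unfold near
    refine Finset.sum_nonneg fun τ _ => integral_nonneg fun x => ?_
    exact mul_nonneg (Finset.sum_nonneg fun i _ => near_ind_nonneg r x0 (x i)) (by positivity)

end Pool.Agent.Helper985.CP
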