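import Pool.Agent.Helper985.CT.Defs

set_option autoImplicit false

open MeasureTheory
open scoped Topology

namespace Pool.Agent.Helper985.CP


theorem jensen_tangent_aux (w x Y : ℝ) (hw : 0 ≤ w) (h0 : w = 0 → x = 0) :
    Real.exp Y * (w + x - Y * w) ≤ w * Real.exp (x / w) := by
  rcases hw.eq_or_lt with h | h
  · subst h
    simp [h0 rfl]
  · have h1 := Real.add_one_le_exp (x / w - Y)
    have h2 : Real.exp (x / w) = Real.exp Y * Real.exp (x/w - Y) := by
      rw [← Real.exp_add]; congr 1; ring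
    rw [h2]
    have h3 : w + x - Y * w = w * (x / w - Y + 1) := by field_simp; ring
    rw [h3]
    calc Real.exp Y * (w * (x / w - Y + 1)) = (Real.exp Y * w) * (x / w - Y + 1) := by ring
      _ ≤ (Real.exp Y * w) * Real.exp (x / w - Y) :=
          mul_le_mul_of_nonneg_left h1 (mul_nonneg (Real.exp_pos Y).le h.le)
      _ = w * (Real.exp Y * Real.exp (x / w - Y)) := by ring

/-- Jensen's inequality for a finite family of infinite sums -/
theorem jensen_family {ι : Type} {k : ℕ} (w x : Fin k → ι → ℝ) (W X : Fin k → ℝ) (B : ℝ)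
    (hw : ∀ j i, 0 ≤ w j i) (h0 : ∀ j i, w j i = 0 → x j i = 0)
    (hW : ∀ j, HasSum (w j) (W j)) (hX : ∀ j, HasSum (x j) (X j))
    (hB : ∀ K : Finset ι, ∑ j, ∑ i ∈ K, w j i * Real.exp (x j i / w j i) ≤ B) :
    ∑ j, W j * Real.exp (X j / W j) ≤ B := by
  have hWt : ∀ j, Filter.Tendsto (fun K : Finset ι => ∑ i ∈ K, w j i) Filter.atTop (𝓝 (W j)) :=
    fun j => hW j
  have hXt : ∀ j, Filter.Tendsto (fun K : Finset ι => ∑ i ∈ K, x j i) Filter.atTop (𝓝 (X j)) :=
    fun j => hX j
  have hlim : Filter.Tendsto (fun K : Finset ι => ∑ j, Real.exp (X j / W j) *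
      (∑ i ∈ K, w j i + ∑ i ∈ K, x j i - X j / W j * ∑ i ∈ K, w j i)) Filter.atTop
      (𝓝 (∑ j, Real.exp (X j / W j) * (W j + X j - X j / W j * W j))) := by
    apply tendsto_finset_sum
    intro j _
    exact ((((hWt j).add (hXt j)).sub ((hWt j).const_mul _))).const_mul _
  have hle : ∑ j, Real.exp (X j / W j) * (W j + X j - X j / W j * W j) ≤ B := by
    refine le_of_tendsto' hlim fun K => ?_
    refine le_trans ?_ (hB K)
    refine Finset.sum_le_sum fun j _ => ?_
    have e1 : Real.exp (X j / W j) *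
        (∑ i ∈ K, w j i + ∑ i ∈ K, x j i - X j / W j * ∑ i ∈ K, w j i)
        = ∑ i ∈ K, Real.exp (X j / W j) * (w j i + x j i - X j / W j * w j i) := by
      rw [← Finset.mul_sum, Finset.sum_sub_distrib, Finset.sum_add_distrib, ← Finset.mul_sum]
    rw [e1]
    exact Finset.sum_le_sum fun i _ => jensen_tangent_aux _ _ _ (hw j i) (h0 j i)
  refine le_trans (le_of_eq ?_) hle
  refine Finset.sum_congr rfl fun j _ => ?_
  by_cases hj : W j = 0
  · have hwz : ∀ i, w j i = 0 := by
      have h1 := hW j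
      rw [hj] at h1
      have h2 := (hasSum_zero_iff_of_nonneg (fun i => hw j i)).mp h1
      intro i; exact congrFun h2 i
    have hxz : x j = fun _ => 0 := funext fun i => h0 j i (hwz i)
    have hX0 : X j = 0 := by
      have h1 := hX j
      rw [hxz] at h1
      exact h1.unique hasSum_zero
    rw [hj, hX0]; simp
  · have : X j / W j * W j = X j := div_mul_cancel₀ _ hj
    rw [this]; ring

end Pool.Agent.Helper985.CP
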