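import Pool.Agent.Helper985.CT.Defs

set_option autoImplicit false

open MeasureTheory
open scoped Topology

namespace Pool.Agent.Helper985.CP



theorem lz_bounds_aux_summable (a : ℝ) (ha : 0 < a) :
    Summable (fun n : ℤ => Real.exp (-(a * (n : ℝ) ^ 2))) := by
  have hn : Summable (fun n : ℕ => Real.exp (-(a * (n : ℝ) ^ 2))) := by
    have h1 : Summable (fun n : ℕ => ((n : ℝ) ^ 0) * Real.exp (-(a * (n : ℝ)))) := by
      have := Real.summable_pow_mul_exp_neg_nat_mul 0 ha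
      refine this.congr ?_
      intro n
      congr 2
      ring
    refine Summable.of_nonneg_of_le (fun n => (Real.exp_pos _).le) (fun n => ?_) h1
    rw [pow_zero, one_mul]
    apply Real.exp_le_exp.mpr
    have : (n : ℝ) ≤ (n : ℝ) ^ 2 := by
      rcases Nat.eq_zero_or_pos n with h | h
      · subst h; simp
      · have : (1 : ℝ) ≤ n := by exact_mod_cast h
        nlinarith
    nlinarith
  refine Summable.of_nat_of_neg ?_ ?_
  · simpa using hn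
  · simpa using hn

theorem lz_bounds_aux_theta (a : ℝ) (ha : 0 < a) :
    (∑' n : ℤ, Real.exp (-(Real.pi * a * (n : ℝ) ^ 2))) =
      (1 / Real.sqrt a) * ∑' n : ℤ, Real.exp (-(Real.pi / a * (n : ℝ) ^ 2)) := by
  have h := Real.tsum_exp_neg_mul_int_sq ha
  rw [← Real.sqrt_eq_rpow] at h
  have e1 : ∀ n : ℤ, Real.exp (-(Real.pi * a * (n : ℝ) ^ 2)) = Real.exp (-Real.pi * a * (n : ℝ) ^ 2) := by
    intro n; congr 1; ring
  have e2 : ∀ n : ℤ, Real.exp (-(Real.pi / a * (n : ℝ) ^ 2)) = Real.exp (-Real.pi / a * (n : ℝ) ^ 2) := by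
    intro n; congr 1; ring
  simp_rw [e1, e2]
  exact h

def lz_bounds_aux_equiv : (Fin 3 → ℤ) ≃ ℤ × ℤ × ℤ where
  toFun m := (m 0, m 1, m 2)
  invFun p := ![p.1, p.2.1, p.2.2]
  left_inv m := by
    funext i
    fin_cases i <;> rfl
  right_inv p := by
    rfl

theorem lz_bounds_aux_prod (f : ℤ → ℝ) (hf : Summable f) (h0 : ∀ n, 0 ≤ f n) :
    HasSum (fun m : Fin 3 → ℤ => f (m 0) * (f (m 1) * f (m 2))) ((∑' n, f n) ^ 3) := by
  have h2s : Summable (fun p : ℤ × ℤ => f p.1 * f p.2) := hf.mul_of_nonneg hf h0 h0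
  have h2 : HasSum (fun p : ℤ × ℤ => f p.1 * f p.2) ((∑' n, f n) * (∑' n, f n)) :=
    hf.hasSum.mul hf.hasSum h2s
  have h3s : Summable (fun p : ℤ × ℤ × ℤ => f p.1 * (f p.2.1 * f p.2.2)) :=
    hf.mul_of_nonneg h2s h0 (fun p => mul_nonneg (h0 _) (h0 _))
  have h3 : HasSum (fun p : ℤ × ℤ × ℤ => f p.1 * (f p.2.1 * f p.2.2))
      ((∑' n, f n) * ((∑' n, f n) * (∑' n, f n))) :=
    hf.hasSum.mul h2 h3s
  have h4 := (lz_bounds_aux_equiv.hasSum_iff (f := fun p : ℤ × ℤ × ℤ => f p.1 * (f p.2.1 * f p.2.2))).mpr h3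
  have e : (∑' n, f n) ^ 3 = (∑' n, f n) * ((∑' n, f n) * (∑' n, f n)) := by ring
  rw [e]
  exact h4

theorem lz_bounds (t ℓ0 : ℝ) (ht : 0 < t) (h0 : 0 < ℓ0) : ∃ C : ℝ, 0 < C ∧ ∀ ℓ : ℝ, ℓ0 ≤ ℓ →
    HasSum (fun m => Real.exp (-(t * pen ℓ m) - lz ℓ t)) 1 ∧
    Real.exp (lz ℓ t) ≤ C * ℓ ^ 3 ∧ ℓ ^ 3 ≤ C * Real.exp (lz ℓ t) := by
  have hpi := Real.pi_pos
  set K : ℝ := ∑' n : ℤ, Real.exp (-(ℓ0 ^ 2 / (4 * t) * (n : ℝ) ^ 2)) with hK
  have hKs : Summable (fun n : ℤ => Real.exp (-(ℓ0 ^ 2 / (4 * t) * (n : ℝ) ^ 2))) :=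
    lz_bounds_aux_summable _ (by positivity)
  have hK1 : 1 ≤ K := by
    have := hKs.le_tsum 0 (fun n _ => (Real.exp_pos _).le)
    simpa using this
  set q : ℝ := Real.sqrt (4 * Real.pi * t) with hq
  have hqpos : 0 < q := Real.sqrt_pos.mpr (by positivity)
  have hq2 : q ^ 2 = 4 * Real.pi * t := Real.sq_sqrt (by positivity)
  refine ⟨K ^ 3 / q ^ 3 + q ^ 3, by positivity, ?_⟩
  intro ℓ hℓ
  have hlpos : 0 < ℓ := lt_of_lt_of_le h0 hℓ
  -- the one-dimensional sum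
  set a : ℝ := t * (2 * Real.pi / ℓ) ^ 2 with ha
  have hapos : 0 < a := by positivity
  have hs := lz_bounds_aux_summable a hapos
  set θ : ℝ := ∑' n : ℤ, Real.exp (-(a * (n : ℝ) ^ 2)) with hθ
  set S : ℝ := ∑' n : ℤ, Real.exp (-(ℓ ^ 2 / (4 * t) * (n : ℝ) ^ 2)) with hS
  have hSs : Summable (fun n : ℤ => Real.exp (-(ℓ ^ 2 / (4 * t) * (n : ℝ) ^ 2))) :=
    lz_bounds_aux_summable _ (by positivity)
  have hS1 : 1 ≤ S := by
    have := hSs.le_tsum 0 (fun n _ => (Real.exp_pos _).le)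
    simpa using this
  have hSK : S ≤ K := by
    refine hSs.tsum_le_tsum (fun n => ?_) hKs
    apply Real.exp_le_exp.mpr
    have h1 : ℓ0 ^ 2 ≤ ℓ ^ 2 := pow_le_pow_left₀ h0.le hℓ 2
    have h2 : ℓ0 ^ 2 / (4 * t) ≤ ℓ ^ 2 / (4 * t) := by gcongr
    have h3 := mul_le_mul_of_nonneg_right h2 (sq_nonneg (n : ℝ))
    linarith
  have hθS : θ = ℓ / q * S := by
    have hb : 0 < 4 * Real.pi * t / ℓ ^ 2 := by positivity
    have h := lz_bounds_aux_theta (4 * Real.pi * t / ℓ ^ 2) hb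
    have e1 : Real.pi * (4 * Real.pi * t / ℓ ^ 2) = a := by
      rw [ha]; field_simp; ring
    have e2 : Real.pi / (4 * Real.pi * t / ℓ ^ 2) = ℓ ^ 2 / (4 * t) := by
      field_simp
    have e3 : Real.sqrt (4 * Real.pi * t / ℓ ^ 2) = q / ℓ := by
      rw [Real.sqrt_div' _ (by positivity), Real.sqrt_sq hlpos.le]
    rw [e1, e2, e3] at h
    rw [hθ, h, hS]
    congr 1
    field_simp
  have hprod := lz_bounds_aux_prod (fun n : ℤ => Real.exp (-(a * (n : ℝ) ^ 2))) hs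
    (fun n => (Real.exp_pos _).le)
  have hterm : ∀ m : Fin 3 → ℤ, Real.exp (-(a * (m 0 : ℝ) ^ 2)) *
      (Real.exp (-(a * (m 1 : ℝ) ^ 2)) * Real.exp (-(a * (m 2 : ℝ) ^ 2))) =
      Real.exp (-(t * pen ℓ m)) := by
    intro m
    rw [← Real.exp_add, ← Real.exp_add]
    congr 1
    unfold pen
    rw [Fin.sum_univ_three, ha]
    ring
  have hsum : HasSum (fun m : Fin 3 → ℤ => Real.exp (-(t * pen ℓ m))) (θ ^ 3) := by
    have := hprod
    simp only [hterm] at this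
    exact this
  have hθpos : 0 < θ := by
    rw [hθS]
    have : 0 < S := lt_of_lt_of_le one_pos hS1
    positivity
  have hZ : Real.exp (lz ℓ t) = θ ^ 3 := by
    unfold lz
    rw [hsum.tsum_eq, Real.exp_log (by positivity)]
  refine ⟨?_, ?_, ?_⟩
  · have h1 := hsum.div_const (θ ^ 3)
    rw [div_self (by positivity)] at h1
    refine h1.congr_fun ?_ |> fun h => h
    intro m
    rw [Real.exp_sub, hZ]
  · rw [hZ, hθS]
    have h1 : (ℓ / q * S) ^ 3 ≤ (ℓ / q * K) ^ 3 := by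
      have : 0 ≤ ℓ / q * S := by positivity
      gcongr
    have h2 : (ℓ / q * K) ^ 3 = K ^ 3 / q ^ 3 * ℓ ^ 3 := by
      field_simp
    have h3 : 0 ≤ q ^ 3 * ℓ ^ 3 := by positivity
    nlinarith
  · rw [hZ, hθS]
    have h1 : ℓ ^ 3 = q ^ 3 * (ℓ / q * 1) ^ 3 := by
      field_simp
    have h2 : (ℓ / q * 1) ^ 3 ≤ (ℓ / q * S) ^ 3 := by
      have : 0 ≤ ℓ / q * 1 := by positivity
      gcongr
    have h4 : q ^ 3 * (ℓ / q * 1) ^ 3 ≤ q ^ 3 * (ℓ / q * S) ^ 3 := by gcongr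
    have h5 : 0 ≤ K ^ 3 / q ^ 3 * (ℓ / q * S) ^ 3 := by positivity
    calc ℓ ^ 3 = q ^ 3 * (ℓ / q * 1) ^ 3 := h1
      _ ≤ q ^ 3 * (ℓ / q * S) ^ 3 := h4
      _ ≤ (K ^ 3 / q ^ 3 + q ^ 3) * (ℓ / q * S) ^ 3 := by linarith

end Pool.Agent.Helper985.CP
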