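import Pool.Agent.Helper985.CT.M_psl_deriv
import Pool.Agent.Helper985.CT.Defs

set_option autoImplicit false

open MeasureTheory
open scoped Topology

namespace Pool.Agent.Helper985.CP



theorem h290_swap_some {I : Type} [DecidableEq I] {β : Type*} (i j : I) (a : β) (t : I → β) :
    (fun o : Option I => o.elim a (fun k => t (Equiv.swap i j k))) =
      fun k : Option I => (fun o : Option I => o.elim a t) (Equiv.swap (some i) (some j) k) := by
  funext o
  cases o with
  | none =>
    have : Equiv.swap (some i) (some j) (none : Option I) = none :=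
      Equiv.swap_apply_of_ne_of_ne (by simp) (by simp)
    simp only [this]
    rfl
  | some m =>
    have : Equiv.swap (some i) (some j) (some m : Option I) = some (Equiv.swap i j m) := by
      by_cases h1 : m = i
      · subst h1; rw [Equiv.swap_apply_left, Equiv.swap_apply_left]
      · by_cases h2 : m = j
        · subst h2; rw [Equiv.swap_apply_right, Equiv.swap_apply_right]
        · rw [Equiv.swap_apply_of_ne_of_ne h1 h2,
            Equiv.swap_apply_of_ne_of_ne (by simpa using h1) (by simpa using h2)]
    simp only [this]
    rfl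

theorem psl_state {S : Type} (D : Species S) {I : Type} [Fintype I] [DecidableEq I]
    (sp : Option I → S) (ℓ : ℝ) (Φ : Wave D (Option I)) (hΦ : IsState D sp ℓ Φ) (u : E3 → ℂ)
    (hu : Continuous u) (σ : Fin D.g) : IsState D (fun i => sp (some i)) ℓ (psl D u σ Φ) := by
  have key := fun τ : I → Fin D.g => psl_deriv ℓ (Φ (fun o => o.elim σ τ)) (hΦ.smooth _) (hΦ.compact _)
    (hΦ.support _) u hu
  refine ⟨fun τ => (key τ).1, fun τ => (key τ).2.1, fun τ => (key τ).2.2.1, ?_, ?_⟩
  · intro τ hτ i
    have h1 : Φ (fun o => o.elim σ τ) ≠ 0 := by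
      intro h0
      apply hτ
      funext x
      show ∫ z, (starRingEnd ℂ) (u z) * Φ (fun o => o.elim σ τ) (fun o => o.elim z x) = 0
      rw [h0]
      simp
    exact hΦ.spin _ h1 (some i)
  · intro i j hij hs τ x
    show ∫ z, (starRingEnd ℂ) (u z) * Φ (fun o => o.elim σ (fun k => τ (Equiv.swap i j k)))
        (fun o => o.elim z (fun k => x (Equiv.swap i j k))) =
      exch D (sp (some i)) * ∫ z, (starRingEnd ℂ) (u z) * Φ (fun o => o.elim σ τ) (fun o => o.elim z x)
    rw [← integral_const_mul]
    congr 1
    ext z
    rw [h290_swap_some i j σ τ, h290_swap_some i j z x]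
    have hsym := hΦ.symm (some i) (some j) (by simpa using hij) hs (fun o => o.elim σ τ)
      (fun o => o.elim z x)
    rw [hsym]
    ring

end Pool.Agent.Helper985.CP
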