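import Pool.Agent.Helper985.CT.Defs

set_option autoImplicit false

open MeasureTheory
open scoped Topology

namespace Pool.Agent.Helper985.CP



section PWaux
open Set

noncomputable local instance pwaux_ms : MeasureSpace UnitAddCircle := ⟨AddCircle.haarAddCircle⟩
local instance pwaux_haar : Measure.IsAddHaarMeasure (volume : Measure UnitAddCircle) :=
  inferInstanceAs (Measure.IsAddHaarMeasure AddCircle.haarAddCircle)
local instance pwaux_prob : IsProbabilityMeasure (volume : Measure UnitAddCircle) :=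
  inferInstanceAs (IsProbabilityMeasure AddCircle.haarAddCircle)

theorem pwaux_scale {F : Type*} [NormedAddCommGroup F] [NormedSpace ℝ F] (ℓ : ℝ) (hℓ : 0 < ℓ)
    (H : E3 → F) :
    ∫ x : Fin 3 → ℝ, H (WithLp.toLp 2 (ℓ • x)) = (ℓ ^ 3)⁻¹ • ∫ z, H z := by
  have h1 := Measure.integral_comp_smul (volume : Measure (Fin 3 → ℝ))
    (fun x : Fin 3 → ℝ => H (WithLp.toLp 2 x)) ℓ
  simp only [Module.finrank_fin_fun] at h1
  rw [h1, abs_of_pos (by positivity)]
  congr 1
  have hmp := (EuclideanSpace.volume_preserving_symm_measurableEquiv_toLp (Fin 3)).symm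
  exact hmp.integral_comp' (g := H)

theorem pwaux_exp (ℓ : ℝ) (hℓ : 0 < ℓ) (n : Fin 3 → ℤ) (x : Fin 3 → ℝ) :
    UnitAddTorus.mFourier (-n) (fun j => ((x j : ℝ) : UnitAddCircle)) =
      ((Real.sqrt (ℓ ^ 3) : ℝ) : ℂ) * (starRingEnd ℂ) (pwave ℓ n (WithLp.toLp 2 (ℓ • x))) := by
  have hsq : ((Real.sqrt (ℓ ^ 3) : ℝ) : ℂ) ≠ 0 := by
    have : Real.sqrt (ℓ ^ 3) ≠ 0 := (Real.sqrt_pos.2 (by positivity)).ne'
    exact_mod_cast this
  have hl : (ℓ : ℂ) ≠ 0 := by exact_mod_cast hℓ.ne'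
  simp only [UnitAddTorus.mFourier, ContinuousMap.coe_mk, fourier_coe_apply, pwave, map_div₀,
    Complex.conj_ofReal, ← Complex.exp_conj]
  rw [mul_div_cancel₀ _ hsq, ← Complex.exp_sum]
  congr 1
  simp only [map_mul, map_div₀, Complex.conj_ofReal, Complex.conj_I, map_ofNat]
  simp only [Fin.sum_univ_three, Pi.neg_apply, Pi.smul_apply, smul_eq_mul]
  push_cast
  field_simp
  ring

theorem pwaux_parseval (ℓ : ℝ) (hℓ : 0 < ℓ) (f : E3 → ℂ) (hf : Continuous f)
    (C : ℝ) (hC : ∀ z, ‖f z‖ ≤ C) (h0 : ∀ z, z ∉ cube ℓ → f z = 0) :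
    HasSum (fun m => ‖∫ z, (starRingEnd ℂ) (pwave ℓ m z) * f z‖ ^ 2) (∫ z, ‖f z‖ ^ 2) := by
  let g : UnitAddTorus (Fin 3) → ℂ := fun t =>
    f (WithLp.toLp 2 (ℓ • (UnitAddTorus.measurableEquivPiIoc (0 : Fin 3 → ℝ) t).1))
  let S : Set (Fin 3 → ℝ) := {x | ∀ i, x i ∈ Ioc ((0 : Fin 3 → ℝ) i) ((0 : Fin 3 → ℝ) i + 1)}
  have hg1 : ∀ x ∈ S, g (fun i => ((x i : ℝ) : UnitAddCircle)) = f (WithLp.toLp 2 (ℓ • x)) := by
    intro x hx
    have h1 : (UnitAddTorus.measurableEquivPiIoc (0 : Fin 3 → ℝ))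
        (fun i => ((x i : ℝ) : UnitAddCircle)) = ⟨x, hx⟩ := by
      have h2 : (fun i => ((x i : ℝ) : UnitAddCircle)) =
          (UnitAddTorus.measurableEquivPiIoc (0 : Fin 3 → ℝ)).symm ⟨x, hx⟩ := by
        rw [UnitAddTorus.coe_symm_measurableEquivPiIoc_apply]
      rw [h2, MeasurableEquiv.apply_symm_apply]
    show f (WithLp.toLp 2 (ℓ • ((UnitAddTorus.measurableEquivPiIoc (0 : Fin 3 → ℝ))
        (fun i => ((x i : ℝ) : UnitAddCircle))).1)) = _
    rw [h1]
  have hout : ∀ x, x ∉ S → f (WithLp.toLp 2 (ℓ • x)) = 0 := by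
    intro x hx
    apply h0
    intro hc
    apply hx
    intro i
    have h1 := hc i
    simp only [PiLp.toLp_apply, Pi.smul_apply, smul_eq_mul] at h1
    have h2 : 0 < x i := by
      by_contra hneg
      push Not at hneg
      nlinarith [h1.1]
    have h3 : x i < 1 := by
      by_contra hneg
      push Not at hneg
      nlinarith [h1.2]
    simp only [Pi.zero_apply, zero_add, mem_Ioc]
    exact ⟨h2, h3.le⟩
  have hcont : Continuous (fun y : Fin 3 → ℝ => f (WithLp.toLp 2 (ℓ • y))) :=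
    hf.comp ((PiLp.continuous_toLp 2 _).comp (continuous_const_smul ℓ))
  have hgm : Measurable g :=
    hcont.measurable.comp (measurable_subtype_coe.comp
      (UnitAddTorus.measurableEquivPiIoc (0 : Fin 3 → ℝ)).measurable)
  have hgL : MemLp g 2 (volume : Measure (UnitAddTorus (Fin 3))) :=
    MemLp.of_bound hgm.aestronglyMeasurable C (Filter.Eventually.of_forall fun t => hC _)
  have hP := UnitAddTorus.hasSum_sq_mFourierCoeff (hgL.toLp g)
  have hcoef : ∀ n, UnitAddTorus.mFourierCoeff (hgL.toLp g) n =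
      (((Real.sqrt (ℓ ^ 3) : ℝ) : ℂ) * ((ℓ ^ 3)⁻¹ : ℝ)) *
        ∫ z, (starRingEnd ℂ) (pwave ℓ n z) * f z := by
    intro n
    have e1 : UnitAddTorus.mFourierCoeff (hgL.toLp g) n = UnitAddTorus.mFourierCoeff g n := by
      apply integral_congr_ae
      filter_upwards [hgL.coeFn_toLp] with t ht
      rw [ht]
    rw [e1, UnitAddTorus.mFourierCoeff_eq_integral g n (0 : Fin 3 → ℝ)]
    have hS : MeasurableSet S := MeasurableSet.univ_pi' (fun i => measurableSet_Ioc)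
    have e2 : ∫ x in S, UnitAddTorus.mFourier (-n) (fun i => ((x i : ℝ) : UnitAddCircle)) •
        g (fun i => ((x i : ℝ) : UnitAddCircle)) =
        ∫ x in S, ((Real.sqrt (ℓ ^ 3) : ℝ) : ℂ) *
          ((starRingEnd ℂ) (pwave ℓ n (WithLp.toLp 2 (ℓ • x))) * f (WithLp.toLp 2 (ℓ • x))) := by
      apply setIntegral_congr_fun hS
      intro x hx
      simp only
      rw [hg1 x hx, pwaux_exp ℓ hℓ n x, smul_eq_mul, mul_assoc]
    have e3 : ∫ x in S, ((Real.sqrt (ℓ ^ 3) : ℝ) : ℂ) *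
          ((starRingEnd ℂ) (pwave ℓ n (WithLp.toLp 2 (ℓ • x))) * f (WithLp.toLp 2 (ℓ • x))) =
        ∫ x : Fin 3 → ℝ, ((Real.sqrt (ℓ ^ 3) : ℝ) : ℂ) *
          ((starRingEnd ℂ) (pwave ℓ n (WithLp.toLp 2 (ℓ • x))) * f (WithLp.toLp 2 (ℓ • x))) := by
      apply setIntegral_eq_integral_of_forall_compl_eq_zero
      intro x hx
      rw [hout x hx]
      simp
    refine (e2.trans e3).trans ?_
    rw [pwaux_scale ℓ hℓ (fun z => ((Real.sqrt (ℓ ^ 3) : ℝ) : ℂ) *
          ((starRingEnd ℂ) (pwave ℓ n z) * f z)), integral_const_mul, Complex.real_smul]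
    ring
  have hnorm : ∫ t, ‖(hgL.toLp g) t‖ ^ 2 = (ℓ ^ 3)⁻¹ * ∫ z, ‖f z‖ ^ 2 := by
    have e1 : ∫ t, ‖(hgL.toLp g) t‖ ^ 2 = ∫ t, ‖g t‖ ^ 2 := by
      apply integral_congr_ae
      filter_upwards [hgL.coeFn_toLp] with t ht
      rw [ht]
    rw [e1, UnitAddTorus.integral_preimage (fun t => ‖g t‖ ^ 2) (0 : Fin 3 → ℝ)]
    have hS : MeasurableSet S := MeasurableSet.univ_pi' (fun i => measurableSet_Ioc)
    have e2 : ∫ x in S, ‖g (fun i => ((x i : ℝ) : UnitAddCircle))‖ ^ 2 =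
        ∫ x in S, ‖f (WithLp.toLp 2 (ℓ • x))‖ ^ 2 := by
      apply setIntegral_congr_fun hS
      intro x hx
      simp only
      rw [hg1 x hx]
    have e3 : ∫ x in S, ‖f (WithLp.toLp 2 (ℓ • x))‖ ^ 2 =
        ∫ x : Fin 3 → ℝ, ‖f (WithLp.toLp 2 (ℓ • x))‖ ^ 2 := by
      apply setIntegral_eq_integral_of_forall_compl_eq_zero
      intro x hx
      rw [hout x hx]
      simp
    refine (e2.trans e3).trans ?_
    rw [pwaux_scale ℓ hℓ (fun z => ‖f z‖ ^ 2), smul_eq_mul]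
  rw [hnorm] at hP
  have hl3 : (0:ℝ) < ℓ ^ 3 := by positivity
  have hP2 := hP.mul_left (ℓ ^ 3)
  have e4 : ℓ ^ 3 * ((ℓ ^ 3)⁻¹ * ∫ z, ‖f z‖ ^ 2) = ∫ z, ‖f z‖ ^ 2 := by
    field_simp
  rw [e4] at hP2
  refine hP2.congr_fun ?_
  intro n
  rw [hcoef n, norm_mul, norm_mul, mul_pow, mul_pow, Complex.norm_real, Complex.norm_real,
    Real.norm_eq_abs, Real.norm_eq_abs, sq_abs, sq_abs, Real.sq_sqrt hl3.le]
  field_simp

end PWaux


theorem pwaux_deriv (ℓ : ℝ) (m : Fin 3 → ℤ) (z : E3) :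
    HasFDerivAt (fun z => (starRingEnd ℂ) (pwave ℓ m z))
      ((-(2 * Real.pi * Complex.I / ℓ) * (starRingEnd ℂ) (pwave ℓ m z)) •
        (Complex.ofRealCLM.comp (∑ i, (m i : ℝ) • (EuclideanSpace.proj i : E3 →L[ℝ] ℝ)))) z := by
  have hfun : (fun z : E3 => (starRingEnd ℂ) (pwave ℓ m z)) = fun z : E3 =>
      Complex.exp (-(2 * Real.pi * Complex.I / ℓ) * (Complex.ofRealCLM.comp
        (∑ i, (m i : ℝ) • (EuclideanSpace.proj i : E3 →L[ℝ] ℝ))) z) *
        (((Real.sqrt (ℓ ^ 3) : ℝ) : ℂ))⁻¹ := by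
    funext w
    simp only [pwave, map_div₀, Complex.conj_ofReal, ← Complex.exp_conj, div_eq_mul_inv, map_mul,
      Complex.conj_I, map_ofNat, map_inv₀]
    congr 2
    simp
    ring
  rw [hfun]
  have h1 := ((((Complex.ofRealCLM.comp
        (∑ i, (m i : ℝ) • (EuclideanSpace.proj i : E3 →L[ℝ] ℝ))).hasFDerivAt
          (x := z)).const_mul (-(2 * Real.pi * Complex.I / ℓ))).cexp).mul_const
            ((((Real.sqrt (ℓ ^ 3) : ℝ) : ℂ))⁻¹)
  refine h1.congr_fderiv ?_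
  have h2 := congrFun hfun z
  simp only at h2
  ext v
  simp only [ContinuousLinearMap.smul_apply, smul_eq_mul]
  rw [h2]
  ring

theorem pw_parseval (ℓ : ℝ) (hℓ : 0 < ℓ) (f : E3 → ℂ) (hf : ContDiff ℝ SM f)
    (hc : HasCompactSupport f) (hs : tsupport f ⊆ cube ℓ) :
    HasSum (fun m => ‖∫ z, (starRingEnd ℂ) (pwave ℓ m z) * f z‖ ^ 2) (∫ z, ‖f z‖ ^ 2) ∧
    HasSum (fun m => pen ℓ m * ‖∫ z, (starRingEnd ℂ) (pwave ℓ m z) * f z‖ ^ 2)
      (∫ z, ∑ k : Fin 3, ‖fderiv ℝ f z (EuclideanSpace.single k (1 : ℝ))‖ ^ 2) := by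
  have h0 : ∀ z, z ∉ cube ℓ → f z = 0 := fun z hz =>
    image_eq_zero_of_notMem_tsupport fun h => hz (hs h)
  obtain ⟨C, hC⟩ := hc.exists_bound_of_continuous hf.continuous
  refine ⟨pwaux_parseval ℓ hℓ f hf.continuous C hC h0, ?_⟩
  have hcontk : ∀ k : Fin 3,
      Continuous (fun z => fderiv ℝ f z (EuclideanSpace.single k (1 : ℝ))) := by
    intro k
    exact (hf.continuous_fderiv (by simp)).clm_apply continuous_const
  have hck : ∀ k : Fin 3,
      HasCompactSupport (fun z => fderiv ℝ f z (EuclideanSpace.single k (1 : ℝ))) := by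
    intro k
    exact hc.fderiv_apply (𝕜 := ℝ) _
  have h0k : ∀ k : Fin 3, ∀ z, z ∉ cube ℓ →
      fderiv ℝ f z (EuclideanSpace.single k (1 : ℝ)) = 0 := by
    intro k z hz
    have h1 : fderiv ℝ f z = 0 := by
      by_contra hne
      exact hz (hs (support_fderiv_subset ℝ hne))
    rw [h1]
    simp
  have hmk : ∀ (k : Fin 3) (m : Fin 3 → ℤ),
      ‖∫ z, (starRingEnd ℂ) (pwave ℓ m z) * fderiv ℝ f z (EuclideanSpace.single k (1 : ℝ))‖ ^ 2 =
        (2 * Real.pi / ℓ) ^ 2 * (m k : ℝ) ^ 2 *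
          ‖∫ z, (starRingEnd ℂ) (pwave ℓ m z) * f z‖ ^ 2 := by
    intro k m
    have hd := fun z => pwaux_deriv ℓ m z
    have hudiff : Differentiable ℝ (fun z => (starRingEnd ℂ) (pwave ℓ m z)) :=
      fun z => (hd z).differentiableAt
    have hucont := hudiff.continuous
    have hfd : ∀ z, fderiv ℝ (fun z => (starRingEnd ℂ) (pwave ℓ m z)) z
        (EuclideanSpace.single k (1 : ℝ)) =
          (-(2 * Real.pi * Complex.I / ℓ) * (m k : ℂ)) * (starRingEnd ℂ) (pwave ℓ m z) := by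
      intro z
      rw [(hd z).fderiv]
      simp only [ContinuousLinearMap.smul_apply, ContinuousLinearMap.comp_apply,
        ContinuousLinearMap.sum_apply, smul_eq_mul]
      have : (∑ i, (m i : ℝ) * (EuclideanSpace.proj i : E3 →L[ℝ] ℝ)
          (EuclideanSpace.single k (1 : ℝ))) = (m k : ℝ) := by
        simp
      rw [this]
      simp only [Complex.ofRealCLM_apply]
      push_cast
      ring
    have hI1 : Integrable (fun z => fderiv ℝ (fun z => (starRingEnd ℂ) (pwave ℓ m z)) z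
        (EuclideanSpace.single k (1 : ℝ)) * f z) := by
      simp only [hfd]
      exact ((continuous_const.mul hucont).mul hf.continuous).integrable_of_hasCompactSupport
        (hc.mul_left)
    have hI2 : Integrable (fun z => (starRingEnd ℂ) (pwave ℓ m z) *
        fderiv ℝ f z (EuclideanSpace.single k (1 : ℝ))) :=
      (hucont.mul (hcontk k)).integrable_of_hasCompactSupport ((hck k).mul_left)
    have hI3 : Integrable (fun z => (starRingEnd ℂ) (pwave ℓ m z) * f z) :=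
      (hucont.mul hf.continuous).integrable_of_hasCompactSupport (hc.mul_left)
    have hibp := integral_mul_fderiv_eq_neg_fderiv_mul_of_integrable hI1 hI2 hI3
      (fun x _ => hudiff x) (fun x _ => (hf.differentiable (by simp)) x)
    rw [hibp]
    have e0 : ∫ z, fderiv ℝ (fun z => (starRingEnd ℂ) (pwave ℓ m z)) z
        (EuclideanSpace.single k (1 : ℝ)) * f z =
        (-(2 * Real.pi * Complex.I / ℓ) * (m k : ℂ)) *
          ∫ z, (starRingEnd ℂ) (pwave ℓ m z) * f z := by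
      rw [← integral_const_mul]
      congr 1
      funext z
      rw [hfd z, mul_assoc]
    rw [e0, norm_neg, norm_mul, norm_mul, mul_pow, mul_pow]
    have e1 : ‖-(2 * (Real.pi : ℂ) * Complex.I / (ℓ : ℂ))‖ = 2 * Real.pi / ℓ := by
      rw [norm_neg, norm_div, norm_mul, norm_mul, Complex.norm_I, Complex.norm_real,
        Complex.norm_real, Real.norm_eq_abs, Real.norm_eq_abs, abs_of_pos Real.pi_pos,
        abs_of_pos hℓ]
      simp
    have e2 : ‖(m k : ℂ)‖ ^ 2 = (m k : ℝ) ^ 2 := by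
      rw [Complex.norm_intCast, sq_abs]
    rw [e1, e2]
  have hpar : ∀ k : Fin 3, HasSum (fun m : Fin 3 → ℤ => (2 * Real.pi / ℓ) ^ 2 * (m k : ℝ) ^ 2 *
          ‖∫ z, (starRingEnd ℂ) (pwave ℓ m z) * f z‖ ^ 2)
      (∫ z, ‖fderiv ℝ f z (EuclideanSpace.single k (1 : ℝ))‖ ^ 2) := by
    intro k
    obtain ⟨C', hC'⟩ := (hck k).exists_bound_of_continuous (hcontk k)
    have := pwaux_parseval ℓ hℓ _ (hcontk k) C' hC' (h0k k)
    simpa only [hmk k] using this
  have hsum := hasSum_sum (s := Finset.univ) (fun k _ => hpar k)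
  rw [integral_finset_sum]
  · refine hsum.congr_fun ?_
    intro m
    simp only [pen]
    rw [Finset.mul_sum, Finset.sum_mul]
  · intro k _
    have h1 : Continuous (fun z => ‖fderiv ℝ f z (EuclideanSpace.single k (1 : ℝ))‖ ^ 2) :=
      ((hcontk k).norm).pow 2
    apply h1.integrable_of_hasCompactSupport
    exact (hck k).comp_left (g := fun w : ℂ => ‖w‖ ^ 2) (by simp)

end Pool.Agent.Helper985.CP
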