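import Pool.Agent.Helper985.CP.M_int_coul
import Pool.Agent.Helper985.CT.M_pw_parseval
import Pool.Agent.Helper985.CT.Defs

set_option autoImplicit false

open MeasureTheory
open scoped Topology

namespace Pool.Agent.Helper985.CP




theorem psl_mp {I : Type} [Fintype I] :
    MeasurePreserving (MeasurableEquiv.piOptionEquivProd (fun _ : Option I => E3)).symm
      ((volume : Measure (I → E3)).prod (volume : Measure E3))
      (volume : Measure (Option I → E3)) := by
  refine ⟨MeasurableEquiv.measurable _, ?_⟩
  exact Measure.pi_map_piOptionEquivProd (fun _ : Option I => (volume : Measure E3))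

theorem psl_T_eq {I : Type} (q : (I → E3) × E3) :
    (MeasurableEquiv.piOptionEquivProd (fun _ : Option I => E3)).symm q =
      fun o => o.elim q.2 q.1 := by
  funext o
  cases o <;> rfl

theorem psl_fubini {I : Type} [Fintype I] (G : (Option I → E3) → ℝ) (hG : Integrable G) :
    Integrable (fun q : (I → E3) × E3 => G (fun o => o.elim q.2 q.1))
      ((volume : Measure (I → E3)).prod volume) ∧
    ∫ y, G y = ∫ x : I → E3, ∫ z : E3, G (fun o => o.elim z x) := by
  have h1 : Integrable (fun q : (I → E3) × E3 => G (fun o => o.elim q.2 q.1))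
      ((volume : Measure (I → E3)).prod volume) := by
    have := (psl_mp (I := I)).integrable_comp_of_integrable hG
    simpa only [Function.comp_def, psl_T_eq] using this
  refine ⟨h1, ?_⟩
  have h2 := (psl_mp (I := I)).integral_comp' G
  rw [← h2]
  simp_rw [psl_T_eq]
  exact integral_prod _ h1

theorem psl_cont {I : Type} :
    Continuous (fun q : (I → E3) × E3 => (fun o : Option I => o.elim q.2 q.1)) := by
  refine continuous_pi fun o => ?_
  cases o with
  | none => exact continuous_snd
  | some i => exact (continuous_apply i).comp continuous_fst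

theorem psl_slice {I : Type} [Fintype I] [DecidableEq I] (ℓ : ℝ)
    (F : (Option I → E3) → ℂ) (hF : ContDiff ℝ SM F) (hc : HasCompactSupport F)
    (hs : tsupport F ⊆ {x | x none ∈ cube ℓ}) (x : I → E3) :
    ContDiff ℝ SM (fun z : E3 => F (fun o => o.elim z x)) ∧
    HasCompactSupport (fun z : E3 => F (fun o => o.elim z x)) ∧
    tsupport (fun z : E3 => F (fun o => o.elim z x)) ⊆ cube ℓ ∧
    ∀ z v : E3, fderiv ℝ (fun z : E3 => F (fun o => o.elim z x)) z v =
      fderiv ℝ F (fun o => o.elim z x) (Pi.single none v) := by
  have hιc : Continuous (fun z : E3 => (fun o : Option I => o.elim z x)) :=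
    psl_cont.comp (continuous_const.prodMk continuous_id)
  have hι : ContDiff ℝ SM (fun z : E3 => (fun o : Option I => o.elim z x)) := by
    refine contDiff_pi.2 fun o => ?_
    cases o with
    | none => exact contDiff_id
    | some i => exact contDiff_const
  refine ⟨hF.comp hι, ?_, ?_, ?_⟩
  · refine HasCompactSupport.intro (K := (fun y : Option I → E3 => y none) '' tsupport F)
      (hc.isCompact.image (continuous_apply none)) ?_
    intro z hz
    by_contra hne
    exact hz ⟨fun o => o.elim z x, subset_tsupport F hne, rfl⟩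
  · have h1 : tsupport (fun z : E3 => F (fun o => o.elim z x)) ⊆
        (fun z : E3 => (fun o : Option I => o.elim z x)) ⁻¹' tsupport F := by
      refine closure_minimal ?_ ((isClosed_tsupport F).preimage hιc)
      intro z hz
      exact subset_tsupport F hz
    intro z hz
    exact hs (h1 hz)
  · intro z v
    have hd : HasFDerivAt (fun z : E3 => (fun o : Option I => o.elim z x))
        (ContinuousLinearMap.pi fun o : Option I =>
          o.elim (ContinuousLinearMap.id ℝ E3) (fun _ => 0)) z := by
      refine hasFDerivAt_pi.2 fun o => ?_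
      cases o with
      | none => exact hasFDerivAt_id z
      | some i => exact hasFDerivAt_const _ _
    have hFd : HasFDerivAt F (fderiv ℝ F (fun o => o.elim z x)) (fun o => o.elim z x) :=
      (hF.differentiable (by simp) _).hasFDerivAt
    have h2 := (hFd.comp z hd).fderiv
    have h3 : fderiv ℝ (fun z : E3 => F (fun o => o.elim z x)) z =
        (fderiv ℝ F (fun o => o.elim z x)).comp (ContinuousLinearMap.pi fun o : Option I =>
          o.elim (ContinuousLinearMap.id ℝ E3) (fun _ => 0)) := h2
    rw [h3, ContinuousLinearMap.comp_apply]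
    congr 1
    funext o
    cases o with
    | none => simp
    | some i => simp

theorem psl_pwave_cont (ℓ : ℝ) (m : Fin 3 → ℤ) : Continuous (pwave ℓ m) := by
  unfold pwave
  fun_prop

theorem psl_meas {I : Type} [Fintype I] (ℓ : ℝ) (m : Fin 3 → ℤ)
    (F : (Option I → E3) → ℂ) (hF : Continuous F) :
    Measurable (fun x : I → E3 =>
      ‖∫ z, (starRingEnd ℂ) (pwave ℓ m z) * F (fun o => o.elim z x)‖ ^ 2) := by
  have h1 : Continuous (fun q : (I → E3) × E3 =>
      (starRingEnd ℂ) (pwave ℓ m q.2) * F (fun o => o.elim q.2 q.1)) :=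
    ((Complex.continuous_conj.comp (psl_pwave_cont ℓ m)).comp continuous_snd).mul
      (hF.comp psl_cont)
  have h2 : StronglyMeasurable (fun x : I → E3 =>
      ∫ z, (starRingEnd ℂ) (pwave ℓ m z) * F (fun o => o.elim z x)) :=
    (h1.stronglyMeasurable).integral_prod_right
  exact (h2.measurable.norm).pow_const 2

/-- expansion in the variable `none` with a weight in the other variables -/
theorem psl_weight {I : Type} [Fintype I] [DecidableEq I] (ℓ : ℝ) (hℓ : 0 < ℓ)
    (F : (Option I → E3) → ℂ) (hF : ContDiff ℝ SM F) (hc : HasCompactSupport F)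
    (hs : tsupport F ⊆ {x | x none ∈ cube ℓ}) (w : (I → E3) → ℝ) (hwm : Measurable w)
    (hw : Integrable (fun x : Option I → E3 => w (fun i => x (some i)) * ‖F x‖ ^ 2)) :
    HasSum (fun m => ∫ x : I → E3, w x *
        ‖∫ z, (starRingEnd ℂ) (pwave ℓ m z) * F (fun o => o.elim z x)‖ ^ 2)
      (∫ x : Option I → E3, w (fun i => x (some i)) * ‖F x‖ ^ 2) ∧
    HasSum (fun m => pen ℓ m * ∫ x : I → E3,
        ‖∫ z, (starRingEnd ℂ) (pwave ℓ m z) * F (fun o => o.elim z x)‖ ^ 2)
      (∫ x : Option I → E3, ∑ k : Fin 3,
        ‖fderiv ℝ F x (Pi.single none (EuclideanSpace.single k (1 : ℝ)))‖ ^ 2) := by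
  have hFc : Continuous F := hF.continuous
  constructor
  · have hfub := psl_fubini (fun x : Option I → E3 => w (fun i => x (some i)) * ‖F x‖ ^ 2) hw
    have hmain : HasSum (fun m => ∫ x : I → E3, w x *
        ‖∫ z, (starRingEnd ℂ) (pwave ℓ m z) * F (fun o => o.elim z x)‖ ^ 2)
        (∫ x : I → E3, w x * ∫ z : E3, ‖F (fun o => o.elim z x)‖ ^ 2) := by
      refine hasSum_integral_of_dominated_convergence (fun m x => |w x| *
        ‖∫ z, (starRingEnd ℂ) (pwave ℓ m z) * F (fun o => o.elim z x)‖ ^ 2) ?_ ?_ ?_ ?_ ?_
      · intro m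
        exact (hwm.mul (psl_meas ℓ m F hFc)).aestronglyMeasurable
      · intro m
        refine Filter.Eventually.of_forall fun x => ?_
        rw [norm_mul, Real.norm_eq_abs, Real.norm_of_nonneg (by positivity)]
      · refine Filter.Eventually.of_forall fun x => ?_
        obtain ⟨h1, h2, h3, _⟩ := psl_slice ℓ F hF hc hs x
        exact ((pw_parseval ℓ hℓ _ h1 h2 h3).1.summable).mul_left _
      · have h4 := hfub.1.integral_norm_prod_left
        refine h4.congr (Filter.Eventually.of_forall fun x => ?_)
        obtain ⟨h1, h2, h3, _⟩ := psl_slice ℓ F hF hc hs x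
        have h5 := ((pw_parseval ℓ hℓ _ h1 h2 h3).1.mul_left |w x|).tsum_eq
        simp only
        rw [h5, ← integral_const_mul]
        refine integral_congr_ae (Filter.Eventually.of_forall fun z => ?_)
        simp only [norm_mul, Real.norm_eq_abs, norm_pow, abs_norm]
        rfl
      · refine Filter.Eventually.of_forall fun x => ?_
        obtain ⟨h1, h2, h3, _⟩ := psl_slice ℓ F hF hc hs x
        exact (pw_parseval ℓ hℓ _ h1 h2 h3).1.mul_left (w x)
    have e : (∫ x : I → E3, w x * ∫ z : E3, ‖F (fun o => o.elim z x)‖ ^ 2) =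
        ∫ x : Option I → E3, w (fun i => x (some i)) * ‖F x‖ ^ 2 := by
      rw [hfub.2]
      refine integral_congr_ae (Filter.Eventually.of_forall fun x => ?_)
      simp only
      rw [← integral_const_mul]
      rfl
    rw [← e]
    exact hmain
  · -- second part
    set G2 : (Option I → E3) → ℝ := fun y => ∑ k : Fin 3,
        ‖fderiv ℝ F y (Pi.single none (EuclideanSpace.single k (1 : ℝ)))‖ ^ 2 with hG2
    have hG2c : Continuous G2 := by
      refine continuous_finsetSum _ fun k _ => ?_
      have h1 : Continuous (fderiv ℝ F) := hF.continuous_fderiv (by simp)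
      exact ((h1.clm_apply continuous_const).norm).pow 2
    have hG2s : HasCompactSupport G2 := by
      refine HasCompactSupport.intro (K := tsupport F) hc.isCompact ?_
      intro y hy
      have h1 : fderiv ℝ F y = 0 := by
        by_contra hne
        exact hy (support_fderiv_subset ℝ hne)
      simp [hG2, h1]
    have hG2i : Integrable G2 := hG2c.integrable_of_hasCompactSupport hG2s
    have hfub := psl_fubini G2 hG2i
    have hG2n : ∀ y, 0 ≤ G2 y := fun y => Finset.sum_nonneg fun k _ => by positivity
    have hslice : ∀ x : I → E3, HasSum (fun m => pen ℓ m *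
        ‖∫ z, (starRingEnd ℂ) (pwave ℓ m z) * F (fun o => o.elim z x)‖ ^ 2)
        (∫ z : E3, G2 (fun o => o.elim z x)) := by
      intro x
      obtain ⟨h1, h2, h3, h4⟩ := psl_slice ℓ F hF hc hs x
      have h5 := (pw_parseval ℓ hℓ _ h1 h2 h3).2
      simp only [h4] at h5
      exact h5
    have hpen : ∀ m, 0 ≤ pen ℓ m := by
      intro m
      unfold pen
      positivity
    have hmain : HasSum (fun m => ∫ x : I → E3, pen ℓ m *
        ‖∫ z, (starRingEnd ℂ) (pwave ℓ m z) * F (fun o => o.elim z x)‖ ^ 2)
        (∫ x : I → E3, ∫ z : E3, G2 (fun o => o.elim z x)) := by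
      refine hasSum_integral_of_dominated_convergence (fun m x => pen ℓ m *
        ‖∫ z, (starRingEnd ℂ) (pwave ℓ m z) * F (fun o => o.elim z x)‖ ^ 2) ?_ ?_ ?_ ?_ ?_
      · intro m
        exact (measurable_const.mul (psl_meas ℓ m F hFc)).aestronglyMeasurable
      · intro m
        refine Filter.Eventually.of_forall fun x => ?_
        rw [Real.norm_of_nonneg (mul_nonneg (hpen m) (by positivity))]
      · exact Filter.Eventually.of_forall fun x => (hslice x).summable
      · refine hfub.1.integral_prod_left.congr (Filter.Eventually.of_forall fun x => ?_)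
        exact (hslice x).tsum_eq.symm
      · exact Filter.Eventually.of_forall fun x => hslice x
    rw [hfub.2]
    simpa only [integral_const_mul] using hmain


end Pool.Agent.Helper985.CP
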