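import Pool.Agent.Helper985.CP.M_int_state
import Pool.Agent.Helper985.CT.M_psl_deriv
import Pool.Agent.Helper985.CT.M_psl_state
import Pool.Agent.Helper985.CT.M_psl_weight
import Pool.Agent.Helper985.CT.Defs

set_option autoImplicit false

open MeasureTheory
open scoped Topology

namespace Pool.Agent.Helper985.CP






theorem pslx_sum {I : Type} [Fintype I] [DecidableEq I] {g : ℕ}
    (f : (Option I → Fin g) → ℝ) :
    ∑ τ', f τ' = ∑ σ : Fin g, ∑ τ : I → Fin g, f (fun o => o.elim σ τ) := by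
  rw [← Fintype.sum_prod_type' (f := fun (σ : Fin g) (τ : I → Fin g) => f (fun o => o.elim σ τ))]
  let e : (Option I → Fin g) ≃ Fin g × (I → Fin g) :=
    { toFun := fun τ' => (τ' none, fun i => τ' (some i))
      invFun := fun p o => o.elim p.1 p.2
      left_inv := fun τ' => by
        funext o
        cases o <;> rfl
      right_inv := fun p => rfl }
  refine Fintype.sum_equiv e _ _ fun τ' => ?_
  congr 1
  exact (e.left_inv τ').symm

theorem pslx_int {J : Type} [Fintype J] (F : (J → E3) → ℂ) (hF : Continuous F)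
    (hc : HasCompactSupport F) : Integrable (fun x : J → E3 => ‖F x‖ ^ 2) := by
  refine Continuous.integrable_of_hasCompactSupport (by fun_prop) ?_
  exact hc.norm.comp_left (g := fun t : ℝ => t ^ 2) (by norm_num)

theorem pslx_pwave (ℓ : ℝ) (m : Fin 3 → ℤ) : Continuous (pwave ℓ m) := by
  unfold pwave
  fun_prop

/-- directional derivatives -/
theorem pslx_dir {J : Type} [Fintype J] [DecidableEq J] (F : (J → E3) → ℂ) (hF : ContDiff ℝ SM F)
    (hc : HasCompactSupport F) (v : J → E3) :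
    ContDiff ℝ SM (fun x => fderiv ℝ F x v) ∧ HasCompactSupport (fun x => fderiv ℝ F x v) ∧
      tsupport (fun x => fderiv ℝ F x v) ⊆ tsupport F := by
  refine ⟨?_, ?_, ?_⟩
  · exact (hF.fderiv_right (m := SM) (by simp)).clm_apply contDiff_const
  · exact hc.fderiv_apply (𝕜 := ℝ) v
  · exact tsupport_fderiv_apply_subset ℝ v

theorem psl_nrm {S : Type} (D : Species S) (hD : D.Valid) {I : Type} [Fintype I] [DecidableEq I]
    (sp : Option I → S) (ℓ : ℝ) (hℓ : 0 < ℓ) (Φ : Wave D (Option I)) (hΦ : IsState D sp ℓ Φ) :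
    HasSum (fun m => ∑ σ, nrm2 D (psl D (pwave ℓ m) σ Φ)) (nrm2 D Φ) ∧
    HasSum (fun m => pen ℓ m * ∑ σ, nrm2 D (psl D (pwave ℓ m) σ Φ))
      (2 * D.mass (sp none) * kinE D sp none Φ) ∧
    (∀ j : I, HasSum (fun m => ∑ σ, kinE D (fun i => sp (some i)) j (psl D (pwave ℓ m) σ Φ))
      (kinE D sp (some j) Φ)) := by
  classical
  have hsm : ∀ τ', ContDiff ℝ SM (Φ τ') := hΦ.smooth
  have hcp : ∀ τ', HasCompactSupport (Φ τ') := hΦ.compact
  have hsu : ∀ τ', tsupport (Φ τ') ⊆ {x | ∀ o, x o ∈ cube ℓ} := hΦ.support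
  have hW : ∀ (F : (Option I → E3) → ℂ), ContDiff ℝ SM F → HasCompactSupport F →
      tsupport F ⊆ {x | ∀ o, x o ∈ cube ℓ} →
      HasSum (fun m => ∫ x : I → E3,
        ‖∫ z, (starRingEnd ℂ) (pwave ℓ m z) * F (fun o => o.elim z x)‖ ^ 2)
      (∫ x : Option I → E3, ‖F x‖ ^ 2) ∧
      HasSum (fun m => pen ℓ m * ∫ x : I → E3,
        ‖∫ z, (starRingEnd ℂ) (pwave ℓ m z) * F (fun o => o.elim z x)‖ ^ 2)
      (∫ x : Option I → E3, ∑ k : Fin 3,
        ‖fderiv ℝ F x (Pi.single none (EuclideanSpace.single k (1 : ℝ)))‖ ^ 2) := by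
    intro F hF hc hs
    have h := psl_weight ℓ hℓ F hF hc (fun x hx => hs hx none) (fun _ => (1 : ℝ))
      measurable_const (by simpa using pslx_int F hF.continuous hc)
    simpa using h
  refine ⟨?_, ?_, ?_⟩
  · have h : HasSum (fun m => ∑ σ : Fin D.g, ∑ τ : I → Fin D.g, ∫ x : I → E3,
        ‖∫ z, (starRingEnd ℂ) (pwave ℓ m z) * Φ (fun o => o.elim σ τ) (fun o => o.elim z x)‖ ^ 2)
        (∑ σ : Fin D.g, ∑ τ : I → Fin D.g, ∫ x, ‖Φ (fun o => o.elim σ τ) x‖ ^ 2) :=
      hasSum_sum fun σ _ => hasSum_sum fun τ _ => (hW _ (hsm _) (hcp _) (hsu _)).1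
    have e : nrm2 D Φ = ∑ σ : Fin D.g, ∑ τ : I → Fin D.g, ∫ x, ‖Φ (fun o => o.elim σ τ) x‖ ^ 2 := by
      unfold nrm2
      rw [pslx_sum]
    rw [e]
    exact h
  · have h : HasSum (fun m => ∑ σ : Fin D.g, ∑ τ : I → Fin D.g, (pen ℓ m * ∫ x : I → E3,
        ‖∫ z, (starRingEnd ℂ) (pwave ℓ m z) * Φ (fun o => o.elim σ τ) (fun o => o.elim z x)‖ ^ 2))
        (∑ σ : Fin D.g, ∑ τ : I → Fin D.g, ∫ x : Option I → E3, ∑ k : Fin 3,
        ‖fderiv ℝ (Φ (fun o => o.elim σ τ)) x
          (Pi.single none (EuclideanSpace.single k (1 : ℝ)))‖ ^ 2) :=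
      hasSum_sum fun σ _ => hasSum_sum fun τ _ => (hW _ (hsm _) (hcp _) (hsu _)).2
    have e : 2 * D.mass (sp none) * kinE D sp none Φ =
        ∑ σ : Fin D.g, ∑ τ : I → Fin D.g, ∫ x : Option I → E3, ∑ k : Fin 3,
        ‖fderiv ℝ (Φ (fun o => o.elim σ τ)) x
          (Pi.single none (EuclideanSpace.single k (1 : ℝ)))‖ ^ 2 := by
      unfold kinE
      rw [pslx_sum, Finset.mul_sum]
      refine Finset.sum_congr rfl fun σ _ => ?_
      rw [Finset.mul_sum]
      refine Finset.sum_congr rfl fun τ _ => ?_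
      unfold kin
      rw [integral_const_mul]
      have hm := (hD.mass_pos (sp none)).ne'
      field_simp
    have e2 : (fun m => pen ℓ m * ∑ σ, nrm2 D (psl D (pwave ℓ m) σ Φ)) =
        (fun m => ∑ σ : Fin D.g, ∑ τ : I → Fin D.g, (pen ℓ m * ∫ x : I → E3,
        ‖∫ z, (starRingEnd ℂ) (pwave ℓ m z) *
          Φ (fun o => o.elim σ τ) (fun o => o.elim z x)‖ ^ 2)) := by
      funext m
      rw [Finset.mul_sum]
      refine Finset.sum_congr rfl fun σ _ => ?_
      unfold nrm2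
      rw [Finset.mul_sum]
      rfl
    rw [e, e2]
    exact h
  · intro j
    have h : HasSum (fun m => ∑ σ : Fin D.g, ∑ τ : I → Fin D.g,
        (1 / (2 * D.mass (sp (some j)))) * ∑ k : Fin 3, ∫ x : I → E3,
        ‖∫ z, (starRingEnd ℂ) (pwave ℓ m z) *
          fderiv ℝ (Φ (fun o => o.elim σ τ)) (fun o => o.elim z x)
            (Pi.single (some j) (EuclideanSpace.single k (1 : ℝ)))‖ ^ 2)
        (∑ σ : Fin D.g, ∑ τ : I → Fin D.g, (1 / (2 * D.mass (sp (some j)))) *
          ∑ k : Fin 3, ∫ x : Option I → E3,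
          ‖fderiv ℝ (Φ (fun o => o.elim σ τ)) x
            (Pi.single (some j) (EuclideanSpace.single k (1 : ℝ)))‖ ^ 2) := by
      refine hasSum_sum fun σ _ => hasSum_sum fun τ _ => HasSum.mul_left _ ?_
      refine hasSum_sum fun k _ => ?_
      obtain ⟨a1, a2, a3⟩ := pslx_dir (Φ (fun o => o.elim σ τ)) (hsm _) (hcp _)
        (Pi.single (some j) (EuclideanSpace.single k (1 : ℝ)))
      exact (hW _ a1 a2 (a3.trans (hsu _))).1
    have e : kinE D sp (some j) Φ =
        ∑ σ : Fin D.g, ∑ τ : I → Fin D.g, (1 / (2 * D.mass (sp (some j)))) *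
          ∑ k : Fin 3, ∫ x : Option I → E3,
          ‖fderiv ℝ (Φ (fun o => o.elim σ τ)) x
            (Pi.single (some j) (EuclideanSpace.single k (1 : ℝ)))‖ ^ 2 := by
      unfold kinE
      rw [pslx_sum]
      refine Finset.sum_congr rfl fun σ _ => Finset.sum_congr rfl fun τ _ => ?_
      unfold kin
      rw [integral_const_mul, integral_finset_sum]
      intro k _
      obtain ⟨a1, a2, a3⟩ := pslx_dir (Φ (fun o => o.elim σ τ)) (hsm _) (hcp _)
        (Pi.single (some j) (EuclideanSpace.single k (1 : ℝ)))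
      exact pslx_int _ a1.continuous a2
    have e2 : (fun m => ∑ σ, kinE D (fun i => sp (some i)) j (psl D (pwave ℓ m) σ Φ)) =
        (fun m => ∑ σ : Fin D.g, ∑ τ : I → Fin D.g,
        (1 / (2 * D.mass (sp (some j)))) * ∑ k : Fin 3, ∫ x : I → E3,
        ‖∫ z, (starRingEnd ℂ) (pwave ℓ m z) *
          fderiv ℝ (Φ (fun o => o.elim σ τ)) (fun o => o.elim z x)
            (Pi.single (some j) (EuclideanSpace.single k (1 : ℝ)))‖ ^ 2) := by
      funext m
      refine Finset.sum_congr rfl fun σ _ => ?_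
      unfold kinE
      refine Finset.sum_congr rfl fun τ _ => ?_
      obtain ⟨b1, b2, b3, b4⟩ := psl_deriv ℓ (Φ (fun o => o.elim σ τ)) (hsm _) (hcp _) (hsu _)
        (pwave ℓ m) (pslx_pwave ℓ m)
      have hpsl : psl D (pwave ℓ m) σ Φ τ =
          fun x : I → E3 => ∫ z, (starRingEnd ℂ) (pwave ℓ m z) *
            Φ (fun o => o.elim σ τ) (fun o => o.elim z x) := rfl
      unfold kin
      rw [integral_const_mul, integral_finset_sum]
      · congr 1
        refine Finset.sum_congr rfl fun k _ => ?_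
        refine integral_congr_ae (Filter.Eventually.of_forall fun x => ?_)
        show ‖fderiv ℝ (psl D (pwave ℓ m) σ Φ τ) x (Pi.single j (EuclideanSpace.single k (1 : ℝ)))‖ ^ 2
          = _
        rw [hpsl, b4]
      · intro k _
        obtain ⟨a1, a2, a3⟩ := pslx_dir (psl D (pwave ℓ m) σ Φ τ) b1 b2
          (Pi.single j (EuclideanSpace.single k (1 : ℝ)))
        exact pslx_int _ a1.continuous a2
    rw [e, e2]
    exact h

end Pool.Agent.Helper985.CP
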