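import Pool.Agent.Helper985.CT.Defs

set_option autoImplicit false

open MeasureTheory
open scoped Topology

namespace Pool.Agent.Helper985.CP


/-- linear combinations of states -/
theorem state_comb {S : Type} (D : Species S) {I : Type} [Fintype I] [DecidableEq I]
    (sp : I → S) (ℓ : ℝ) {A : Type} [Fintype A] (v : A → Wave D I)
    (hv : ∀ a, IsState D sp ℓ (v a)) (γ : A → ℂ) :
    IsState D sp ℓ (fun τ x => ∑ a, γ a * v a τ x) := by
  have hts : ∀ τ, tsupport (fun x => ∑ a, γ a * v a τ x) ⊆ ⋃ a, tsupport (v a τ) := by
    intro τ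
    apply closure_minimal
    · intro x hx
      rw [Function.mem_support] at hx
      obtain ⟨a, -, ha⟩ := Finset.exists_ne_zero_of_sum_ne_zero hx
      refine Set.mem_iUnion.mpr ⟨a, subset_tsupport _ ?_⟩
      rw [Function.mem_support]
      exact right_ne_zero_of_mul ha
    · exact isClosed_iUnion_of_finite (fun a => isClosed_tsupport _)
  refine ⟨?_, ?_, ?_, ?_, ?_⟩
  · intro τ
    apply ContDiff.sum
    intro a _
    exact contDiff_const.mul ((hv a).smooth τ)
  · intro τ
    exact IsCompact.of_isClosed_subset (isCompact_iUnion (fun a => (hv a).compact τ))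
      (isClosed_tsupport _) (hts τ)
  · intro τ
    exact (hts τ).trans (Set.iUnion_subset (fun a => (hv a).support τ))
  · intro τ hne i
    have : ∃ a, v a τ ≠ 0 := by
      by_contra hcon
      push Not at hcon
      apply hne
      funext x
      simp [hcon]
    obtain ⟨a, ha⟩ := this
    exact (hv a).spin τ ha i
  · intro i j hij hs τ x
    simp only [Finset.mul_sum]
    apply Finset.sum_congr rfl
    intro a _
    rw [(hv a).symm i j hij hs τ x]
    ring

end Pool.Agent.Helper985.CP
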