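import Pool.Agent.Helper985.CP.M_int_state
import Pool.Agent.Helper985.CP.M_sum_pe
import Pool.Agent.Helper985.CT.Defs

set_option autoImplicit false

open MeasureTheory
open scoped Topology

namespace Pool.Agent.Helper985.CP




section scaling

variable {S : Type} (D : Species S) {I : Type} [Fintype I] [DecidableEq I] (sp : I → S)

/-- scaled wave function -/
noncomputable def sphScal (lam : ℝ) (Ψ : Wave D I) : Wave D I := fun τ x => Ψ τ (lam • x)

theorem sph_isState (lam : ℝ) (hlam : 0 < lam) (ℓ : ℝ) (Ψ : Wave D I) (hΨ : IsState D sp ℓ Ψ) :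
    IsState D sp (ℓ / lam) (sphScal D lam Ψ) where
  smooth := fun τ => (hΨ.smooth τ).comp (contDiff_const_smul lam)
  compact := fun τ => (hΨ.compact τ).comp_smul hlam.ne'
  support := by
    intro τ x hx i
    have h1 : lam • x ∈ tsupport (Ψ τ) := by
      have h2 : tsupport (sphScal D lam Ψ τ) ⊆ (fun x : I → E3 => lam • x) ⁻¹' tsupport (Ψ τ) := by
        refine closure_minimal ?_ ((isClosed_tsupport _).preimage (continuous_const_smul lam))
        intro y hy
        exact subset_tsupport _ hy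
      exact h2 hx
    have h3 := hΨ.support τ h1 i
    intro k
    have h4 := h3 k
    have h5 : (lam • x) i k = lam * x i k := rfl
    rw [h5] at h4
    constructor
    · exact (mul_pos_iff_of_pos_left hlam).1 h4.1
    · rw [lt_div_iff₀ hlam, mul_comm]
      exact h4.2
  spin := by
    intro τ hτ
    refine hΨ.spin τ fun h0 => hτ ?_
    funext x
    show Ψ τ (lam • x) = 0
    rw [h0]
    rfl
  symm := by
    intro i j hij hs τ x
    exact hΨ.symm i j hij hs τ (lam • x)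

theorem sph_kin (lam : ℝ) (i : I) (u : (I → E3) → ℂ) (hu : Differentiable ℝ u) (x : I → E3) :
    kin D sp i (fun x => u (lam • x)) x = lam ^ 2 * kin D sp i u (lam • x) := by
  have h : ∀ v, fderiv ℝ (fun x => u (lam • x)) x v = lam • fderiv ℝ u (lam • x) v := by
    intro v
    have h1 : HasFDerivAt (fun x : I → E3 => lam • x)
        (lam • ContinuousLinearMap.id ℝ (I → E3)) x := by
      exact (hasFDerivAt_id x).const_smul lam
    have h2 := ((hu (lam • x)).hasFDerivAt).comp x h1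
    have h3 := h2.fderiv
    have h4 : fderiv ℝ (fun x => u (lam • x)) x =
        (fderiv ℝ u (lam • x)).comp (lam • ContinuousLinearMap.id ℝ (I → E3)) := h3
    rw [h4]
    simp
  have h5 : ∑ k : Fin 3, ‖fderiv ℝ (fun x => u (lam • x)) x
      (Pi.single i (EuclideanSpace.single k (1 : ℝ)))‖ ^ 2 =
      lam ^ 2 * ∑ k : Fin 3, ‖fderiv ℝ u (lam • x)
        (Pi.single i (EuclideanSpace.single k (1 : ℝ)))‖ ^ 2 := by
    rw [Finset.mul_sum]
    refine Finset.sum_congr rfl fun k _ => ?_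
    rw [h, norm_smul, mul_pow, Real.norm_eq_abs, sq_abs]
  unfold kin
  rw [h5]
  ring

theorem sph_coul (lam : ℝ) (hlam : 0 < lam) (x : I → E3) :
    coul D sp x = lam * coul D sp (lam • x) := by
  have h5 : (∑ i, ∑ j, if i = j then 0 else
      D.charge (sp i) * D.charge (sp j) / ‖x i - x j‖) =
      lam * ∑ i, ∑ j, if i = j then 0 else
        D.charge (sp i) * D.charge (sp j) / ‖(lam • x) i - (lam • x) j‖ := by
    rw [Finset.mul_sum]
    refine Finset.sum_congr rfl fun i _ => ?_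
    rw [Finset.mul_sum]
    refine Finset.sum_congr rfl fun j _ => ?_
    split_ifs with h
    · simp
    · have h1 : (lam • x) i - (lam • x) j = lam • (x i - x j) := by
        simp [smul_sub]
      rw [h1, norm_smul, Real.norm_eq_abs, abs_of_pos hlam]
      by_cases h2 : ‖x i - x j‖ = 0
      · rw [h2]; simp
      · field_simp
  unfold coul
  rw [h5]
  ring

/-- the Jacobian -/
noncomputable def sphJ (I : Type) [Fintype I] (lam : ℝ) : ℝ :=
  |(lam ^ Module.finrank ℝ (I → E3))⁻¹|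

theorem sph_J_pos (lam : ℝ) (hlam : 0 < lam) : 0 < sphJ I lam := by
  unfold sphJ
  positivity

theorem sph_int (lam : ℝ) (F : (I → E3) → ℝ) :
    ∫ x, F (lam • x) = sphJ I lam * ∫ x, F x := by
  have := MeasureTheory.Measure.integral_comp_smul (volume : Measure (I → E3)) F lam
  rw [this]
  rfl

theorem sph_nrm2 (lam : ℝ) (Ψ : Wave D I) :
    nrm2 D (sphScal D lam Ψ) = sphJ I lam * nrm2 D Ψ := by
  unfold nrm2
  rw [Finset.mul_sum]
  refine Finset.sum_congr rfl fun τ _ => ?_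
  exact sph_int lam (fun x => ‖Ψ τ x‖ ^ 2)

/-- kinetic part -/
noncomputable def sphK (Ψ : Wave D I) : ℝ := ∑ τ, ∫ x, ∑ i, kin D sp i (Ψ τ) x

/-- Coulomb part -/
noncomputable def sphC (Ψ : Wave D I) : ℝ := ∑ τ, ∫ x, coul D sp x * ‖Ψ τ x‖ ^ 2

theorem sph_energy (ℓ : ℝ) (Ψ : Wave D I) (hΨ : IsState D sp ℓ Ψ) :
    energy D sp Ψ = sphK D sp Ψ + sphC D sp Ψ := by
  unfold energy sphK sphC
  rw [← Finset.sum_add_distrib]
  refine Finset.sum_congr rfl fun τ _ => ?_
  obtain ⟨-, h2, h3, -, -⟩ := int_state D sp ℓ Ψ hΨ τ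
  exact integral_add (integrable_finset_sum _ fun i _ => h2 i) h3

theorem sph_K (lam : ℝ) (ℓ : ℝ) (Ψ : Wave D I) (hΨ : IsState D sp ℓ Ψ) :
    sphK D sp (sphScal D lam Ψ) = sphJ I lam * (lam ^ 2 * sphK D sp Ψ) := by
  unfold sphK
  rw [Finset.mul_sum, Finset.mul_sum]
  refine Finset.sum_congr rfl fun τ _ => ?_
  have h1 : ∀ x, ∑ i, kin D sp i (sphScal D lam Ψ τ) x =
      (fun y => lam ^ 2 * ∑ i, kin D sp i (Ψ τ) y) (lam • x) := by
    intro x
    simp only
    rw [Finset.mul_sum]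
    refine Finset.sum_congr rfl fun i _ => ?_
    exact sph_kin D sp lam i (Ψ τ) ((hΨ.smooth τ).differentiable (by decide)) x
  simp_rw [h1]
  rw [sph_int lam (fun y => lam ^ 2 * ∑ i, kin D sp i (Ψ τ) y), integral_const_mul]

theorem sph_C (lam : ℝ) (hlam : 0 < lam) (Ψ : Wave D I) :
    sphC D sp (sphScal D lam Ψ) = sphJ I lam * (lam * sphC D sp Ψ) := by
  unfold sphC
  rw [Finset.mul_sum, Finset.mul_sum]
  refine Finset.sum_congr rfl fun τ _ => ?_
  have h1 : ∀ x, coul D sp x * ‖sphScal D lam Ψ τ x‖ ^ 2 =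
      (fun y => lam * (coul D sp y * ‖Ψ τ y‖ ^ 2)) (lam • x) := by
    intro x
    simp only
    rw [sph_coul D sp lam hlam x, mul_assoc]
    rfl
  simp_rw [h1]
  rw [sph_int lam (fun y => lam * (coul D sp y * ‖Ψ τ y‖ ^ 2)), integral_const_mul]

theorem sph_sum (ℓ : ℝ) (Ψ : Wave D I) (hΨ : IsState D sp ℓ Ψ) :
    ∑ i, (pe D sp i Ψ - (1 / 2) * kinE D sp i Ψ) = sphK D sp Ψ / 2 + 2 * sphC D sp Ψ := by
  have hint : ∀ τ (i j : I), Integrable (fun x : I → E3 =>
      (if i = j then 0 else D.charge (sp i) * D.charge (sp j) / ‖x i - x j‖) * ‖Ψ τ x‖ ^ 2) := by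
    intro τ i j
    by_cases h : i = j
    · simp [h]
    · simp only [if_neg h]
      exact (int_state D sp ℓ Ψ hΨ τ).2.2.2.1 i j h
  have hint2 : ∀ τ (i : I), Integrable (fun x : I → E3 =>
      (∑ j, if i = j then 0 else D.charge (sp i) * D.charge (sp j) / ‖x i - x j‖) *
        ‖Ψ τ x‖ ^ 2) := by
    intro τ i
    simp_rw [Finset.sum_mul]
    exact integrable_finset_sum _ fun j _ => hint τ i j
  have hK : ∑ i, kinE D sp i Ψ = sphK D sp Ψ := by
    unfold kinE sphK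
    rw [Finset.sum_comm]
    refine Finset.sum_congr rfl fun τ _ => ?_
    rw [integral_finset_sum _ fun i _ => (int_state D sp ℓ Ψ hΨ τ).2.1 i]
  have hC : ∑ i, ∑ τ, ∫ x, (∑ j, if i = j then 0 else
      D.charge (sp i) * D.charge (sp j) / ‖x i - x j‖) * ‖Ψ τ x‖ ^ 2 = 2 * sphC D sp Ψ := by
    unfold sphC
    rw [Finset.sum_comm, Finset.mul_sum]
    refine Finset.sum_congr rfl fun τ _ => ?_
    rw [← integral_finset_sum _ fun i _ => hint2 τ i, ← integral_const_mul]
    congr 1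
    funext x
    rw [← Finset.sum_mul]
    unfold coul
    ring
  have hpe : ∀ i, pe D sp i Ψ = kinE D sp i Ψ + ∑ τ, ∫ x, (∑ j, if i = j then 0 else
      D.charge (sp i) * D.charge (sp j) / ‖x i - x j‖) * ‖Ψ τ x‖ ^ 2 := by
    intro i
    unfold pe kinE
    rw [← Finset.sum_add_distrib]
    refine Finset.sum_congr rfl fun τ _ => ?_
    exact integral_add ((int_state D sp ℓ Ψ hΨ τ).2.1 i) (hint2 τ i)
  simp_rw [hpe]
  rw [Finset.sum_sub_distrib, Finset.sum_add_distrib, ← Finset.mul_sum, hK, hC]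
  ring

end scaling

/-- stability with part of the kinetic energy left out -/
theorem sum_pe_half {S : Type} (D : Species S) (hD : D.Valid) (A : ℝ) {I : Type} [Fintype I]
    [DecidableEq I] (sp : I → S)
    (hA : ∀ ℓ : ℝ, 0 < ℓ → ∀ Ψ : Wave D I, IsState D sp ℓ Ψ →
      -A * (Fintype.card I : ℝ) * nrm2 D Ψ ≤ energy D sp Ψ)
    (ℓ : ℝ) (hℓ : 0 < ℓ) (Ψ : Wave D I) (hΨ : IsState D sp ℓ Ψ) :
    -(8 * A) * (Fintype.card I : ℝ) * nrm2 D Ψ ≤
      ∑ i, (pe D sp i Ψ - (1 / 2) * kinE D sp i Ψ) := by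
  have h4 : (0 : ℝ) < 1 / 4 := by norm_num
  have h1 := hA (ℓ / (1 / 4)) (by positivity) (sphScal D (1 / 4) Ψ)
    (sph_isState D sp (1 / 4) h4 ℓ Ψ hΨ)
  rw [sph_energy D sp (ℓ / (1 / 4)) (sphScal D (1 / 4) Ψ) (sph_isState D sp (1 / 4) h4 ℓ Ψ hΨ),
    sph_K D sp (1 / 4) ℓ Ψ hΨ, sph_C D sp (1 / 4) h4, sph_nrm2] at h1
  rw [sph_sum D sp ℓ Ψ hΨ]
  have hJ := sph_J_pos (I := I) (1 / 4) h4
  have h2 : sphJ I (1 / 4) * (-A * (Fintype.card I : ℝ) * nrm2 D Ψ) ≤
      sphJ I (1 / 4) * ((1 / 4) ^ 2 * sphK D sp Ψ + (1 / 4) * sphC D sp Ψ) := by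
    linarith
  have h3 := le_of_mul_le_mul_left h2 hJ
  linarith

end Pool.Agent.Helper985.CP
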