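import Pool.Agent.Helper985.CP.M_int_state
import Pool.Agent.Helper985.CP.M_nrm2_pos
import Pool.Agent.Helper985.CT.M_state_comb
import Pool.Agent.Helper985.CT.Defs

set_option autoImplicit false

open MeasureTheory
open scoped Topology

namespace Pool.Agent.Helper985.CP






section traceBoundAux
open scoped ComplexOrder


open Matrix in
theorem trace_bound_eig {J : Type} [Fintype J] [DecidableEq J] (M : Matrix J J ℂ)
    (hM : M.IsHermitian) : ∃ (V : J → J → ℂ),
      (∀ k l, star (V k) ⬝ᵥ V l = if k = l then 1 else 0) ∧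
      (∀ k, M *ᵥ (V k) = ((hM.eigenvalues k : ℝ) : ℂ) • V k) ∧
      (∀ s : J → ℂ, s = ∑ k, (star (V k) ⬝ᵥ s) • V k) := by
  refine ⟨fun k => (hM.eigenvectorBasis k).ofLp, ?_, ?_, ?_⟩
  · intro k l
    have h := orthonormal_iff_ite.1 hM.eigenvectorBasis.orthonormal k l
    rw [EuclideanSpace.inner_eq_star_dotProduct, dotProduct_comm] at h
    exact h
  · intro k
    have h := hM.mulVec_eigenvectorBasis k
    exact h
  · intro s
    have h := hM.eigenvectorBasis.sum_repr' (WithLp.toLp 2 s)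
    have h2 := congrArg WithLp.ofLp h
    rw [WithLp.ofLp_sum] at h2
    simp only [WithLp.ofLp_smul, EuclideanSpace.inner_eq_star_dotProduct] at h2
    refine h2.symm.trans (Finset.sum_congr rfl fun k _ => ?_)
    rw [dotProduct_comm]

theorem trace_bound_sumJ {A : Type} [Fintype A] (g : A → ℝ) (F : A → ℂ)
    (h : ∀ i, ¬ 0 < g i → F i = 0) : ∑ i, F i = ∑ i : {i // 0 < g i}, F i := by
  classical
  rw [← Finset.sum_subtype (Finset.univ.filter (fun i => 0 < g i)) (by simp) F,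
    Finset.sum_filter_of_ne]
  intro i _ hi
  by_contra hc
  exact hi (h i hc)

open Matrix in
theorem trace_bound_form {J : Type} [Fintype J] [DecidableEq J] (M : Matrix J J ℂ)
    (lam : J → ℝ) (V : J → J → ℂ)
    (h2 : ∀ k, M *ᵥ (V k) = ((lam k : ℝ) : ℂ) • V k)
    (h3 : ∀ s : J → ℂ, s = ∑ k, (star (V k) ⬝ᵥ s) • V k) (s t : J → ℂ) :
    star s ⬝ᵥ t = ∑ k, star (star (V k) ⬝ᵥ s) * (star (V k) ⬝ᵥ t) ∧
    star s ⬝ᵥ (M *ᵥ t) = ∑ k, (lam k : ℂ) * (star (star (V k) ⬝ᵥ s) * (star (V k) ⬝ᵥ t)) := by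
  have e : ∀ k, star s ⬝ᵥ V k = star (star (V k) ⬝ᵥ s) := by
    intro k
    exact star_dotProduct s (V k)
  constructor
  · conv_lhs => rw [h3 t]
    rw [dotProduct_sum]
    refine Finset.sum_congr rfl fun k _ => ?_
    rw [dotProduct_smul, e, smul_eq_mul]
    ring
  · conv_lhs => rw [h3 t]
    rw [mulVec_sum, dotProduct_sum]
    refine Finset.sum_congr rfl fun k _ => ?_
    rw [mulVec_smul, h2, dotProduct_smul, dotProduct_smul, e, smul_eq_mul, smul_eq_mul]
    ring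


open Matrix in
theorem trace_bound_diag {A : Type} [Fintype A] [DecidableEq A] (G H : Matrix A A ℂ)
    (hG : G.PosSemidef) (hH : H.IsHermitian)
    (hker : ∀ γ : A → ℂ, G *ᵥ γ = 0 → H *ᵥ γ = 0) :
    ∃ (J : Type) (_ : Fintype J) (_ : DecidableEq J) (Γ : J → A → ℂ) (lam : J → ℝ),
      (∀ k l, star (Γ k) ⬝ᵥ (G *ᵥ Γ l) = if k = l then 1 else 0) ∧
      (∀ k, star (Γ k) ⬝ᵥ (H *ᵥ Γ k) = (lam k : ℂ)) ∧
      (∀ γ, star γ ⬝ᵥ (G *ᵥ γ) = ∑ k, star (star (Γ k) ⬝ᵥ (G *ᵥ γ)) * (star (Γ k) ⬝ᵥ (G *ᵥ γ))) ∧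
      (∀ γ, star γ ⬝ᵥ (H *ᵥ γ) = ∑ k, (lam k : ℂ) *
        (star (star (Γ k) ⬝ᵥ (G *ᵥ γ)) * (star (Γ k) ⬝ᵥ (G *ᵥ γ)))) := by
  classical
  obtain ⟨b, b1, b2, b3⟩ := trace_bound_eig G hG.isHermitian
  set g : A → ℝ := hG.isHermitian.eigenvalues with hg
  have hg0 : ∀ i, 0 ≤ g i := fun i => hG.eigenvalues_nonneg i
  have hHb : ∀ i, ¬ 0 < g i → H *ᵥ (b i) = 0 := by
    intro i hi
    apply hker
    have : g i = 0 := le_antisymm (not_lt.1 hi) (hg0 i)
    rw [b2, this]
    simp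
  -- coordinates
  let s : (A → ℂ) → ({i // 0 < g i} → ℂ) := fun γ i => ((Real.sqrt (g i) : ℝ) : ℂ) * (star (b i) ⬝ᵥ γ)
  let M : Matrix {i // 0 < g i} {i // 0 < g i} ℂ := Matrix.of fun i j =>
    (star (b i) ⬝ᵥ (H *ᵥ (b j))) / (((Real.sqrt (g i) : ℝ) : ℂ) * ((Real.sqrt (g j) : ℝ) : ℂ))
  have hsq : ∀ i : {i // 0 < g i}, ((Real.sqrt (g i) : ℝ) : ℂ) ≠ 0 := fun i => by
    exact_mod_cast (Real.sqrt_pos.2 i.2).ne'
  have hsq2 : ∀ i : {i // 0 < g i}, ((Real.sqrt (g i) : ℝ) : ℂ) * ((Real.sqrt (g i) : ℝ) : ℂ) = (g i : ℂ) :=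
    fun i => by exact_mod_cast Real.mul_self_sqrt i.2.le
  have hHsym : ∀ x y : A → ℂ, star x ⬝ᵥ (H *ᵥ y) = star (star y ⬝ᵥ (H *ᵥ x)) := by
    intro x y
    rw [← star_dotProduct, star_mulVec, hH.eq, dotProduct_mulVec]
  have hM : M.IsHermitian := by
    ext i j
    simp only [M, conjTranspose_apply, of_apply]
    rw [hHsym (b i) (b j)]
    simp only [star_div₀, star_mul', Complex.star_def, Complex.conj_ofReal]
    rw [mul_comm ((Real.sqrt (g j) : ℝ) : ℂ)]
  have SG : ∀ γ δ : A → ℂ, star γ ⬝ᵥ (G *ᵥ δ) = star (s γ) ⬝ᵥ s δ := by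
    intro γ δ
    rw [(trace_bound_form G g b b2 b3 γ δ).2, trace_bound_sumJ g _ (by
      intro i hi
      have : g i = 0 := le_antisymm (not_lt.1 hi) (hg0 i)
      rw [this]; simp)]
    simp only [dotProduct, s, Pi.star_apply]
    refine Finset.sum_congr rfl fun i _ => ?_
    rw [← hsq2 i]
    simp only [star_mul', Complex.star_def, Complex.conj_ofReal]
    ring
  have hHexp : ∀ δ : A → ℂ, H *ᵥ δ = ∑ j : {i // 0 < g i}, (star (b j) ⬝ᵥ δ) • (H *ᵥ b j) := by
    intro δ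
    funext x
    conv_lhs => rw [b3 δ]
    rw [mulVec_sum, Finset.sum_apply, Finset.sum_apply]
    rw [trace_bound_sumJ g _ (by
      intro i hi
      rw [mulVec_smul, hHb i hi]
      simp)]
    refine Finset.sum_congr rfl fun i _ => ?_
    rw [mulVec_smul]
  have SH : ∀ γ δ : A → ℂ, star γ ⬝ᵥ (H *ᵥ δ) = star (s γ) ⬝ᵥ (M *ᵥ s δ) := by
    intro γ δ
    rw [hHexp δ, dotProduct_sum]
    have e1 : ∀ j : {i // 0 < g i}, star γ ⬝ᵥ (H *ᵥ b j) =
        ∑ i : {i // 0 < g i}, star (star (b i) ⬝ᵥ γ) * (star (b i) ⬝ᵥ (H *ᵥ b j)) := by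
      intro j
      rw [hHsym γ (b j), hHexp γ, dotProduct_sum, star_sum]
      refine Finset.sum_congr rfl fun i _ => ?_
      rw [dotProduct_smul, smul_eq_mul, star_mul', ← hHsym (b i) (b j)]
    have e2 : star (s γ) ⬝ᵥ (M *ᵥ s δ) = ∑ i : {i // 0 < g i}, ∑ j : {i // 0 < g i},
        star (star (b i) ⬝ᵥ γ) * (star (b i) ⬝ᵥ (H *ᵥ b j)) * (star (b j) ⬝ᵥ δ) := by
      rw [dotProduct]
      refine Finset.sum_congr rfl fun i _ => ?_
      rw [mulVec, dotProduct, Finset.mul_sum]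
      refine Finset.sum_congr rfl fun j _ => ?_
      simp only [s, M, of_apply, Pi.star_apply, star_mul']
      have h1 := hsq i
      have h2 := hsq j
      have h3 : star ((Real.sqrt (g i) : ℝ) : ℂ) = ((Real.sqrt (g i) : ℝ) : ℂ) := by
        rw [Complex.star_def, Complex.conj_ofReal]
      rw [h3]
      field_simp
    rw [e2, Finset.sum_comm]
    refine Finset.sum_congr rfl fun j _ => ?_
    rw [dotProduct_smul, e1, smul_eq_mul, Finset.mul_sum]
    refine Finset.sum_congr rfl fun i _ => ?_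
    ring
  obtain ⟨V, V1, V2, V3⟩ := trace_bound_eig M hM
  let Γ : {i // 0 < g i} → A → ℂ := fun k =>
    ∑ i : {i // 0 < g i}, (V k i / ((Real.sqrt (g i) : ℝ) : ℂ)) • b i
  have hsΓ : ∀ k, s (Γ k) = V k := by
    intro k
    funext j
    simp only [s, Γ]
    rw [dotProduct_sum]
    simp only [dotProduct_smul, b1, smul_eq_mul]
    rw [Finset.sum_eq_single j]
    · rw [if_pos rfl, mul_one, mul_div_cancel₀]
      exact hsq j
    · intro i _ hij
      rw [if_neg (fun h => hij (Subtype.ext h.symm)), mul_zero]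
    · intro h
      exact absurd (Finset.mem_univ _) h
  have hcf : ∀ k γ, star (Γ k) ⬝ᵥ (G *ᵥ γ) = star (V k) ⬝ᵥ s γ := by
    intro k γ
    rw [SG, hsΓ]
  refine ⟨{i // 0 < g i}, inferInstance, inferInstance, Γ, hM.eigenvalues, ?_, ?_, ?_, ?_⟩
  · intro k l
    rw [SG, hsΓ, hsΓ, V1]
  · intro k
    rw [SH, hsΓ, V2, dotProduct_smul, V1, if_pos rfl, smul_eq_mul, mul_one]
  · intro γ
    simp only [hcf]
    rw [SG, (trace_bound_form M hM.eigenvalues V V2 V3 (s γ) (s γ)).1]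
  · intro γ
    simp only [hcf]
    rw [SH, (trace_bound_form M hM.eigenvalues V V2 V3 (s γ) (s γ)).2]


open Matrix in
theorem trace_bound_abs {A : Type} [Fintype A] [DecidableEq A] (G H : Matrix A A ℂ)
    (hG : G.PosSemidef) (hH : H.IsHermitian)
    (hker : ∀ γ : A → ℂ, G *ᵥ γ = 0 → H *ᵥ γ = 0) (c T : ℝ) (hc : 0 ≤ c)
    (hB : ∀ γ : A → ℂ, (star γ ⬝ᵥ (G *ᵥ γ)).re ≤ c * ∑ a, ‖γ a‖ ^ 2) :
    ∃ (J : Type) (_ : Fintype J) (_ : DecidableEq J) (Γ : J → A → ℂ) (lam : J → ℝ),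
      (∀ k l, star (Γ k) ⬝ᵥ (G *ᵥ Γ l) = if k = l then 1 else 0) ∧
      (∀ k, star (Γ k) ⬝ᵥ (H *ᵥ Γ k) = (lam k : ℂ)) ∧
      ∑ a, (G a a).re * Real.exp (-(H a a).re / ((G a a).re * T)) ≤
        c * ∑ k, Real.exp (-(lam k) / T) := by
  obtain ⟨J, i1, i2, Γ, lam, h1, h2, h3, h4⟩ := trace_bound_diag G H hG hH hker
  refine ⟨J, i1, i2, Γ, lam, h1, h2, ?_⟩
  have hn : ∀ z : ℂ, star z * z = ((‖z‖ ^ 2 : ℝ) : ℂ) := by
    intro z
    rw [Complex.star_def, Complex.conj_mul']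
    push_cast
    rfl
  let p : A → J → ℝ := fun a k => ‖star (Γ k) ⬝ᵥ (G *ᵥ (Pi.single a 1))‖ ^ 2
  have hp : ∀ a k, 0 ≤ p a k := fun a k => sq_nonneg _
  have hq : ∀ (M : Matrix A A ℂ) a, star (Pi.single a (1:ℂ)) ⬝ᵥ (M *ᵥ (Pi.single a 1)) = M a a := by
    intro M a
    simp
  have e1 : ∀ a, (G a a).re = ∑ k, p a k := by
    intro a
    rw [← hq G a, h3]
    simp only [hn, p]
    rw [← Complex.ofReal_sum, Complex.ofReal_re]
  have e2 : ∀ a, (H a a).re = ∑ k, lam k * p a k := by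
    intro a
    rw [← hq H a, h4]
    simp only [hn, p]
    rw [← Complex.ofReal_re (∑ k, lam k * ‖star (Γ k) ⬝ᵥ (G *ᵥ (Pi.single a 1))‖ ^ 2)]
    congr 1
    push_cast
    rfl
  have e3 : ∀ a, (G a a).re * Real.exp (-(H a a).re / ((G a a).re * T)) ≤
      ∑ k, p a k * Real.exp (-(lam k) / T) := by
    intro a
    have hg : 0 ≤ (G a a).re := by rw [e1]; exact Finset.sum_nonneg fun k _ => hp a k
    rcases hg.lt_or_eq with hg | hg
    · have hj := convexOn_exp.map_sum_le (t := Finset.univ) (w := fun k => p a k / (G a a).re)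
        (p := fun k => -(lam k) / T) (fun k _ => div_nonneg (hp a k) hg.le)
        (by rw [← Finset.sum_div, ← e1, div_self hg.ne']) (fun k _ => Set.mem_univ _)
      simp only [smul_eq_mul] at hj
      have hx : ∑ k, p a k / (G a a).re * (-(lam k) / T) =
          -(H a a).re / ((G a a).re * T) := by
        rw [e2, ← Finset.sum_neg_distrib, Finset.sum_div]
        refine Finset.sum_congr rfl fun k _ => ?_
        rw [div_mul_div_comm]
        congr 1
        ring
      rw [hx] at hj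
      have := mul_le_mul_of_nonneg_left hj hg.le
      refine this.trans (le_of_eq ?_)
      rw [Finset.mul_sum]
      refine Finset.sum_congr rfl fun k _ => ?_
      rw [← mul_assoc, mul_div_cancel₀ _ hg.ne']
    · rw [← hg, zero_mul]
      exact Finset.sum_nonneg fun k _ => mul_nonneg (hp a k) (Real.exp_pos _).le
  have hGs : ∀ x y : A → ℂ, star x ⬝ᵥ (G *ᵥ y) = star (G *ᵥ x) ⬝ᵥ y := by
    intro x y
    rw [star_mulVec, hG.isHermitian.eq, dotProduct_mulVec]
  have hyy : ∀ y : A → ℂ, star y ⬝ᵥ y = ((∑ a, ‖y a‖ ^ 2 : ℝ) : ℂ) := by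
    intro y
    rw [dotProduct, Complex.ofReal_sum]
    refine Finset.sum_congr rfl fun a _ => ?_
    rw [Pi.star_apply, hn]
  have e4 : ∀ k, ∑ a, p a k ≤ c := by
    intro k
    set y : A → ℂ := G *ᵥ Γ k with hy
    have hpa : ∀ a, p a k = ‖y a‖ ^ 2 := by
      intro a
      simp only [p]
      rw [hGs, ← hy]
      simp
    simp only [hpa]
    set X : ℝ := ∑ a, ‖y a‖ ^ 2 with hX
    have hX0 : 0 ≤ X := Finset.sum_nonneg fun a _ => sq_nonneg _
    have hck : star (Γ k) ⬝ᵥ (G *ᵥ y) = (X : ℂ) := by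
      rw [hGs, ← hy, hyy]
    have hle : X ^ 2 ≤ (star y ⬝ᵥ (G *ᵥ y)).re := by
      rw [h3]
      simp only [hn]
      rw [← Complex.ofReal_sum, Complex.ofReal_re]
      have := Finset.single_le_sum (f := fun k => ‖star (Γ k) ⬝ᵥ (G *ᵥ y)‖ ^ 2)
        (fun i _ => sq_nonneg _) (Finset.mem_univ k)
      refine le_trans (le_of_eq ?_) this
      simp only [hck, Complex.norm_real, Real.norm_eq_abs, sq_abs]
    have hle2 := hB y
    rw [← hX] at hle2
    have h5 : X * X ≤ c * X := by nlinarith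
    rcases hX0.lt_or_eq with h | h
    · exact le_of_mul_le_mul_right h5 h
    · rw [← h]; exact hc
  calc ∑ a, (G a a).re * Real.exp (-(H a a).re / ((G a a).re * T))
      ≤ ∑ a, ∑ k, p a k * Real.exp (-(lam k) / T) := Finset.sum_le_sum fun a _ => e3 a
    _ = ∑ k, (∑ a, p a k) * Real.exp (-(lam k) / T) := by
        rw [Finset.sum_comm]
        exact Finset.sum_congr rfl fun k _ => (Finset.sum_mul _ _ _).symm
    _ ≤ ∑ k, c * Real.exp (-(lam k) / T) :=
        Finset.sum_le_sum fun k _ => mul_le_mul_of_nonneg_right (e4 k) (Real.exp_pos _).le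
    _ = c * ∑ k, Real.exp (-(lam k) / T) := by rw [Finset.mul_sum]


open Matrix in
theorem trace_bound_rank {A : Type} [Fintype A] (d γ δ : A → ℂ) :
    star (∑ a, γ a * d a) * (∑ b, δ b * d b) =
      star γ ⬝ᵥ ((Matrix.of fun a b => star (d a) * d b) *ᵥ δ) := by
  simp only [dotProduct, mulVec, of_apply, Pi.star_apply, star_sum, star_mul', Finset.sum_mul,
    Finset.mul_sum]
  rw [Finset.sum_comm]
  refine Finset.sum_congr rfl fun a _ => Finset.sum_congr rfl fun b _ => ?_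
  ring

open Matrix in
theorem trace_bound_exp2 {A : Type} [Fintype A] [DecidableEq A] (M : Matrix A A ℂ)
    (x y : A → ℂ) (s : ℂ) : star (x + s • y) ⬝ᵥ (M *ᵥ (x + s • y)) =
      star x ⬝ᵥ (M *ᵥ x) + s * (star x ⬝ᵥ (M *ᵥ y)) + star s * (star y ⬝ᵥ (M *ᵥ x)) +
        (star s * s) * (star y ⬝ᵥ (M *ᵥ y)) := by
  rw [star_add, star_smul, mulVec_add, mulVec_smul, add_dotProduct, dotProduct_add, dotProduct_add,
    smul_dotProduct, smul_dotProduct, dotProduct_smul, dotProduct_smul]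
  simp only [smul_eq_mul]
  ring

open Matrix in
theorem trace_bound_pol2 {A : Type} [Fintype A] [DecidableEq A] (M : Matrix A A ℂ)
    (x y : A → ℂ) : star x ⬝ᵥ (M *ᵥ y) = (1 / 2 : ℂ) *
      (star (x + (1 : ℂ) • y) ⬝ᵥ (M *ᵥ (x + (1 : ℂ) • y)) -
        Complex.I * (star (x + Complex.I • y) ⬝ᵥ (M *ᵥ (x + Complex.I • y))) -
        (1 - Complex.I) * (star x ⬝ᵥ (M *ᵥ x) + star y ⬝ᵥ (M *ᵥ y))) := by
  rw [trace_bound_exp2, trace_bound_exp2]
  simp only [star_one, Complex.star_def, Complex.conj_I]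
  ring_nf
  simp only [Complex.I_sq, show Complex.I ^ 3 = -Complex.I by
    rw [pow_succ, Complex.I_sq]; ring]
  ring

open Matrix in
theorem trace_bound_herm {A : Type} [Fintype A] [DecidableEq A] (M : Matrix A A ℂ)
    (q : (A → ℂ) → ℝ) (hq : ∀ γ, (q γ : ℂ) = star γ ⬝ᵥ (M *ᵥ γ)) : M.IsHermitian := by
  have hs : ∀ x y : A → ℂ, star x ⬝ᵥ (M *ᵥ y) = star (star y ⬝ᵥ (M *ᵥ x)) := by
    intro x y
    have h1 := hq (x + (1 : ℂ) • y)
    have h2 := hq (x + Complex.I • y)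
    rw [trace_bound_exp2, ← hq x, ← hq y] at h1 h2
    simp only [star_one, Complex.star_def, Complex.conj_I] at h1 h2
    have i1 := congrArg Complex.im h1
    have i2 := congrArg Complex.im h2
    simp at i1 i2
    rw [Complex.star_def]
    apply Complex.ext
    · rw [Complex.conj_re]; linarith
    · rw [Complex.conj_im]; linarith
  ext a b
  have := hs (Pi.single a 1) (Pi.single b 1)
  rw [conjTranspose_apply]
  simpa using this.symm

open Matrix in
theorem trace_bound_int {X : Type*} [MeasurableSpace X] (μ : Measure X) {A : Type} [Fintype A]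
    [DecidableEq A] (q : (A → ℂ) → X → ℝ) (h : X → Matrix A A ℂ)
    (hq : ∀ γ x, (q γ x : ℂ) = star γ ⬝ᵥ (h x *ᵥ γ)) (hi : ∀ γ, Integrable (q γ) μ) :
    (∀ γ δ, ∫ x, star γ ⬝ᵥ (h x *ᵥ δ) ∂μ =
      star γ ⬝ᵥ ((Matrix.of fun a b => ∫ x, h x a b ∂μ) *ᵥ δ)) := by
  have hab : ∀ a b, Integrable (fun x => h x a b) μ := by
    intro a b
    have e : (fun x => h x a b) = fun x => (1 / 2 : ℂ) *
      ((q (Pi.single a 1 + (1 : ℂ) • Pi.single b 1) x : ℂ) -
        Complex.I * (q (Pi.single a 1 + Complex.I • Pi.single b 1) x : ℂ) -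
        (1 - Complex.I) * ((q (Pi.single a 1) x : ℂ) + (q (Pi.single b 1) x : ℂ))) := by
      funext x
      rw [hq, hq, hq, hq, ← trace_bound_pol2]
      simp
    rw [e]
    exact (((hi _).ofReal.sub ((hi _).ofReal.const_mul _)).sub
      (((hi _).ofReal.add (hi _).ofReal).const_mul _)).const_mul _
  intro γ δ
  simp only [dotProduct, mulVec, of_apply]
  rw [integral_finsetSum]
  · refine Finset.sum_congr rfl fun a _ => ?_
    rw [integral_const_mul, integral_finsetSum]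
    · congr 1
      refine Finset.sum_congr rfl fun b _ => ?_
      rw [integral_mul_const]
    · intro b _
      exact (hab a b).mul_const _
  · intro a _
    refine Integrable.const_mul ?_ _
    refine integrable_finsetSum _ fun b _ => ?_
    exact (hab a b).mul_const _


open Matrix in
theorem trace_bound_psd {A : Type} [Fintype A] [DecidableEq A] (M : Matrix A A ℂ)
    (hM : M.IsHermitian) (q : (A → ℂ) → ℝ) (h0 : ∀ γ, 0 ≤ q γ)
    (hq : ∀ γ, (q γ : ℂ) = star γ ⬝ᵥ (M *ᵥ γ)) : M.PosSemidef := by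
  refine Matrix.PosSemidef.of_dotProduct_mulVec_nonneg hM fun x => ?_
  rw [← hq]
  exact_mod_cast h0 x

end traceBoundAux

open Matrix in
/-- matrix of the energy density -/
theorem trace_bound_dens {S : Type} (D : Species S) {I : Type} [Fintype I] [DecidableEq I]
    (sp : I → S) {A : Type} [Fintype A] (u : A → (I → E3) → ℂ)
    (hu : ∀ a, ContDiff ℝ SM (u a)) (x : I → E3) (γ : A → ℂ) :
    (((∑ i, kin D sp i (fun x => ∑ a, γ a * u a x) x) +
      coul D sp x * ‖∑ a, γ a * u a x‖ ^ 2 : ℝ) : ℂ) =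
      star γ ⬝ᵥ (((∑ i, ((1 / (2 * D.mass (sp i)) : ℝ) : ℂ) • ∑ k : Fin 3,
        Matrix.of fun a b =>
          star (fderiv ℝ (u a) x (Pi.single i (EuclideanSpace.single k (1 : ℝ)))) *
            fderiv ℝ (u b) x (Pi.single i (EuclideanSpace.single k (1 : ℝ)))) +
        ((coul D sp x : ℝ) : ℂ) • Matrix.of fun a b => star (u a x) * u b x) *ᵥ γ) := by
  have hn : ∀ z : ℂ, ((‖z‖ ^ 2 : ℝ) : ℂ) = star z * z := by
    intro z
    rw [Complex.star_def, Complex.conj_mul']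
    push_cast
    rfl
  have hd : ∀ w, fderiv ℝ (fun x => ∑ a, γ a * u a x) x w = ∑ a, γ a * fderiv ℝ (u a) x w := by
    intro w
    have hda : ∀ a, DifferentiableAt ℝ (u a) x := fun a =>
      ((hu a).differentiable (by simp)).differentiableAt
    rw [fderiv_fun_sum (fun a _ => (hda a).const_mul (γ a))]
    rw [ContinuousLinearMap.sum_apply]
    refine Finset.sum_congr rfl fun a _ => ?_
    rw [fderiv_const_mul (hda a)]
    rfl
  rw [add_mulVec, dotProduct_add, sum_mulVec, dotProduct_sum, smul_mulVec, dotProduct_smul,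
    ← trace_bound_rank]
  rw [Complex.ofReal_add, Complex.ofReal_mul, hn, smul_eq_mul, Complex.ofReal_sum]
  congr 1
  refine Finset.sum_congr rfl fun i _ => ?_
  rw [smul_mulVec, dotProduct_smul, sum_mulVec, dotProduct_sum, kin, Complex.ofReal_mul,
    Complex.ofReal_sum, smul_eq_mul]
  congr 1
  refine Finset.sum_congr rfl fun k _ => ?_
  rw [← trace_bound_rank, hd, hn]

/-- Peierls' inequality for families that are not orthonormal -/
theorem trace_bound {S : Type} (D : Species S) {I : Type} [Fintype I] [DecidableEq I]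
    (sp : I → S) (ℓ T : ℝ) (hT : 0 < T) (Z : ℝ) (hZ : ∀ z ∈ peierls D sp ℓ T, z ≤ Z)
    {A : Type} [Fintype A] (v : A → Wave D I) (hv : ∀ a, IsState D sp ℓ (v a)) (c : ℝ)
    (hc : 0 ≤ c)
    (hB : ∀ γ : A → ℂ, nrm2 D (fun τ x => ∑ a, γ a * v a τ x) ≤ c * ∑ a, ‖γ a‖ ^ 2) :
    ∑ a, nrm2 D (v a) * Real.exp (-(energy D sp (v a)) / (nrm2 D (v a) * T)) ≤ c * Z := by
  classical
  have hs : ∀ γ : A → ℂ, IsState D sp ℓ (fun τ x => ∑ a, γ a * v a τ x) :=
    fun γ => state_comb D sp ℓ v hv γ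
  let gx : (I → Fin D.g) → (I → E3) → Matrix A A ℂ := fun τ x =>
    Matrix.of fun a b => star (v a τ x) * v b τ x
  let hx : (I → Fin D.g) → (I → E3) → Matrix A A ℂ := fun τ x =>
    (∑ i, ((1 / (2 * D.mass (sp i)) : ℝ) : ℂ) • ∑ k : Fin 3,
        Matrix.of fun a b =>
          star (fderiv ℝ (v a τ) x (Pi.single i (EuclideanSpace.single k (1 : ℝ)))) *
            fderiv ℝ (v b τ) x (Pi.single i (EuclideanSpace.single k (1 : ℝ)))) +
        ((coul D sp x : ℝ) : ℂ) • Matrix.of fun a b => star (v a τ x) * v b τ x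
  have hGint : ∀ τ (γ δ : A → ℂ), ∫ x, star γ ⬝ᵥ (Matrix.mulVec (gx τ x) δ) =
      star γ ⬝ᵥ (Matrix.mulVec (Matrix.of fun a b => ∫ x, gx τ x a b) δ) := by
    intro τ
    apply trace_bound_int volume (fun γ x => ‖∑ a, γ a * v a τ x‖ ^ 2)
    · intro γ x
      rw [← trace_bound_rank, Complex.star_def, Complex.conj_mul']
      push_cast
      rfl
    · intro γ
      exact (int_state D sp ℓ _ (hs γ) τ).1
  have hHint : ∀ τ (γ δ : A → ℂ), ∫ x, star γ ⬝ᵥ (Matrix.mulVec (hx τ x) δ) =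
      star γ ⬝ᵥ (Matrix.mulVec (Matrix.of fun a b => ∫ x, hx τ x a b) δ) := by
    intro τ
    apply trace_bound_int volume (fun γ x => (∑ i, kin D sp i (fun x => ∑ a, γ a * v a τ x) x) +
      coul D sp x * ‖∑ a, γ a * v a τ x‖ ^ 2)
    · intro γ x
      exact trace_bound_dens D sp (fun a => v a τ) (fun a => (hv a).smooth τ) x γ
    · intro γ
      obtain ⟨_, k, l, _⟩ := int_state D sp ℓ _ (hs γ) τ
      exact (integrable_finsetSum _ fun i _ => k i).add l
  let G : Matrix A A ℂ := ∑ τ, Matrix.of fun a b => ∫ x, gx τ x a b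
  let H : Matrix A A ℂ := ∑ τ, Matrix.of fun a b => ∫ x, hx τ x a b
  have ipG : ∀ γ δ : A → ℂ, ip D (fun τ x => ∑ a, γ a * v a τ x)
      (fun τ x => ∑ a, δ a * v a τ x) = star γ ⬝ᵥ (Matrix.mulVec G δ) := by
    intro γ δ
    simp only [ip, G]
    rw [Matrix.sum_mulVec, dotProduct_sum]
    refine Finset.sum_congr rfl fun τ _ => ?_
    rw [← hGint]
    refine integral_congr_ae (ae_of_all _ fun x => ?_)
    exact trace_bound_rank _ _ _
  have NG : ∀ γ : A → ℂ, ((nrm2 D (fun τ x => ∑ a, γ a * v a τ x) : ℝ) : ℂ) =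
      star γ ⬝ᵥ (Matrix.mulVec G γ) := by
    intro γ
    rw [← ipG, nrm2, ip, Complex.ofReal_sum]
    refine Finset.sum_congr rfl fun τ _ => ?_
    rw [← integral_complex_ofReal]
    refine integral_congr_ae (ae_of_all _ fun x => ?_)
    beta_reduce
    rw [Complex.conj_mul']
    push_cast
    rfl
  have EH : ∀ γ : A → ℂ, ((energy D sp (fun τ x => ∑ a, γ a * v a τ x) : ℝ) : ℂ) =
      star γ ⬝ᵥ (Matrix.mulVec H γ) := by
    intro γ
    simp only [H]
    rw [Matrix.sum_mulVec, dotProduct_sum, energy, Complex.ofReal_sum]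
    refine Finset.sum_congr rfl fun τ _ => ?_
    rw [← hHint, ← integral_complex_ofReal]
    refine integral_congr_ae (ae_of_all _ fun x => ?_)
    exact trace_bound_dens D sp (fun a => v a τ) (fun a => (hv a).smooth τ) x γ
  have hGH : G.IsHermitian := trace_bound_herm G _ NG
  have hHH : H.IsHermitian := trace_bound_herm H _ EH
  have hnn : ∀ Ψ : Wave D I, 0 ≤ nrm2 D Ψ := by
    intro Ψ
    exact Finset.sum_nonneg fun τ _ => integral_nonneg fun x => sq_nonneg _
  have hz : ∀ γ : A → ℂ, Matrix.mulVec G γ = 0 →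
      (fun τ x => ∑ a, γ a * v a τ x) = (0 : Wave D I) := by
    intro γ h
    by_contra hne
    have h1 := nrm2_pos D sp ℓ _ (hs γ) hne
    have h2 := NG γ
    rw [h, dotProduct_zero] at h2
    have h3 : nrm2 D (fun τ x => ∑ a, γ a * v a τ x) = 0 := by exact_mod_cast h2
    linarith
  have hker : ∀ γ : A → ℂ, Matrix.mulVec G γ = 0 → Matrix.mulVec H γ = 0 := by
    intro γ h
    have h0 := hz γ h
    have hE : ∀ (δ : A → ℂ) (s : ℂ), star (δ + s • γ) ⬝ᵥ (Matrix.mulVec H (δ + s • γ)) =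
        star δ ⬝ᵥ (Matrix.mulVec H δ) := by
      intro δ s
      rw [← EH, ← EH]
      have h1 : (fun τ x => ∑ a, (δ + s • γ) a * v a τ x) =
          (fun τ x => ∑ a, δ a * v a τ x : Wave D I) := by
        funext τ x
        have h2 : ∑ a, γ a * v a τ x = 0 := congrFun (congrFun h0 τ) x
        simp only [Pi.add_apply, Pi.smul_apply, smul_eq_mul, add_mul, Finset.sum_add_distrib,
          mul_assoc, ← Finset.mul_sum]
        rw [h2]
        simp
      rw [h1]
    have hγγ : star γ ⬝ᵥ (Matrix.mulVec H γ) = 0 := by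
      have := hE 0 1
      simpa using this
    have hB0 : ∀ δ : A → ℂ, star δ ⬝ᵥ (Matrix.mulVec H γ) = 0 := by
      intro δ
      have h1 := hE δ 1
      have h2 := hE δ Complex.I
      rw [trace_bound_exp2, hγγ] at h1 h2
      simp only [star_one, Complex.star_def, Complex.conj_I] at h1 h2
      have h3 : star δ ⬝ᵥ (Matrix.mulVec H γ) + star γ ⬝ᵥ (Matrix.mulVec H δ) = 0 := by
        linear_combination h1
      have h4 : Complex.I * (star δ ⬝ᵥ (Matrix.mulVec H γ) - star γ ⬝ᵥ (Matrix.mulVec H δ)) = 0 := by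
        linear_combination h2
      linear_combination (1 / 2) * h3 - (Complex.I / 2) * h4 +
        (1 / 2) * (star δ ⬝ᵥ (Matrix.mulVec H γ) - star γ ⬝ᵥ (Matrix.mulVec H δ)) * Complex.I_sq
    funext a
    have := hB0 (Pi.single a 1)
    simpa using this
  obtain ⟨J, i1, i2, Γ, lam, h1, h2, h3⟩ := trace_bound_abs G H
    (trace_bound_psd G hGH (fun γ => nrm2 D (fun τ x => ∑ a, γ a * v a τ x)) (fun γ => hnn _) NG)
    hHH hker c T hc (by
    intro γ
    rw [← NG, Complex.ofReal_re]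
    exact hB γ)
  have hv1 : ∀ a, (fun τ x => ∑ b, (Pi.single a 1 : A → ℂ) b * v b τ x) = v a := by
    intro a
    funext τ x
    simp [Pi.single_apply]
  have g1 : ∀ a, (G a a).re = nrm2 D (v a) := by
    intro a
    have h := NG (Pi.single a 1)
    rw [hv1] at h
    have e : star (Pi.single a (1:ℂ)) ⬝ᵥ (Matrix.mulVec G (Pi.single a 1)) = G a a := by simp
    rw [← e, ← h, Complex.ofReal_re]
  have e1 : ∀ a, (H a a).re = energy D sp (v a) := by
    intro a
    have h := EH (Pi.single a 1)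
    rw [hv1] at h
    have e : star (Pi.single a (1:ℂ)) ⬝ᵥ (Matrix.mulVec H (Pi.single a 1)) = H a a := by simp
    rw [← e, ← h, Complex.ofReal_re]
  simp only [g1, e1] at h3
  refine h3.trans (mul_le_mul_of_nonneg_left ?_ hc)
  let e := (Fintype.equivFin J).symm
  apply hZ
  refine ⟨Fintype.card J, fun j => (fun τ x => ∑ a, Γ (e j) a * v a τ x),
    ⟨fun i => hs _, fun i j => ?_⟩, ?_⟩
  · rw [ipG, h1]
    simp [e.injective.eq_iff]
  · rw [← e.sum_comp]
    refine Finset.sum_congr rfl fun j _ => ?_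
    have h := EH (Γ (e j))
    rw [h2] at h
    have h' : energy D sp (fun τ x => ∑ a, Γ (e j) a * v a τ x) = lam (e j) := by
      exact_mod_cast h
    rw [h']

end Pool.Agent.Helper985.CP
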