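import Pool.Agent.Helper985.CP.M_exists_equiv
import Pool.Agent.Helper985.CP.M_int_state
import Pool.Agent.Helper985.CP.M_nrm2_pos
import Pool.Agent.Helper985.CP.M_relabel_num
import Pool.Agent.Helper985.CP.M_relabel_state
import Pool.Agent.Helper985.CP.M_stable_any
import Pool.Agent.Helper985.CT.M_jensen_family
import Pool.Agent.Helper985.CT.M_lz_bounds
import Pool.Agent.Helper985.CT.M_psl_deriv
import Pool.Agent.Helper985.CT.M_psl_nrm
import Pool.Agent.Helper985.CT.M_psl_state
import Pool.Agent.Helper985.CT.M_psl_weight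
import Pool.Agent.Helper985.CT.M_pw_parseval
import Pool.Agent.Helper985.CT.M_state_comb
import Pool.Agent.Helper985.CT.M_sum_pe_half
import Pool.Agent.Helper985.CT.M_trace_bound
import Pool.Agent.Helper985.CT.Defs

set_option autoImplicit false

open MeasureTheory
open scoped Topology

namespace Pool.Agent.Helper985.CP


















/-- the species with all charges set to zero -/
abbrev pbD {S : Type} (D : Species S) : Species S :=
  { charge := fun _ => 0, mass := D.mass, fermion := D.fermion, g := D.g, spin := D.spin }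

theorem pb_st0 {S : Type} (D : Species S) {I : Type} [Fintype I] [DecidableEq I] (sp : I → S)
    (ℓ : ℝ) (Ψ : Wave D I) (h : IsState D sp ℓ Ψ) : IsState (pbD D) sp ℓ Ψ :=
  ⟨h.smooth, h.compact, h.support, h.spin, h.symm⟩

theorem pb_st1 {S : Type} (D : Species S) {I : Type} [Fintype I] [DecidableEq I] (sp : I → S)
    (ℓ : ℝ) (Ψ : Wave D I) (h : IsState (pbD D) sp ℓ Ψ) : IsState D sp ℓ Ψ :=
  ⟨h.smooth, h.compact, h.support, h.spin, h.symm⟩

theorem pb_en0 {S : Type} (D : Species S) {I : Type} [Fintype I] [DecidableEq I] (sp : I → S)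
    (ℓ : ℝ) (Ψ : Wave D I) (h : IsState D sp ℓ Ψ) :
    energy (pbD D) sp Ψ = ∑ i, kinE D sp i Ψ := by
  have hc : ∀ x, coul (pbD D) sp x = 0 := by
    intro x
    unfold coul
    simp
  have h1 : energy (pbD D) sp Ψ = ∑ τ, ∫ x, (∑ i, kin D sp i (Ψ τ) x) := by
    unfold energy
    refine Finset.sum_congr rfl (fun τ _ => ?_)
    congr 1
    funext x
    rw [hc, zero_mul, add_zero]
    rfl
  rw [h1]
  unfold kinE
  rw [Finset.sum_comm]
  refine Finset.sum_congr rfl (fun τ _ => ?_)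
  exact MeasureTheory.integral_finset_sum _ (fun i _ => (int_state D sp ℓ Ψ h τ).2.1 i)

theorem pb_lb {S : Type} (D : Species S) (hD : D.Valid) (A : ℝ)
    {I : Type} [Fintype I] [DecidableEq I] (sp : I → S)
    (hA : ∀ ℓ : ℝ, 0 < ℓ → ∀ Ψ : Wave D I, IsState D sp ℓ Ψ →
      -A * (Fintype.card I : ℝ) * nrm2 D Ψ ≤ energy D sp Ψ)
    (ℓ : ℝ) (hℓ : 0 < ℓ) (Ψ : Wave D I) (hΨ : IsState D sp ℓ Ψ) :
    (3 / 4) * ∑ i, kinE D sp i Ψ - 4 * A * (Fintype.card I : ℝ) * nrm2 D Ψ ≤ energy D sp Ψ := by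
  have h0 := sum_pe_half D hD A sp hA ℓ hℓ Ψ hΨ
  have hI := fun τ => int_state D sp ℓ Ψ hΨ τ
  have hV : ∀ τ i, Integrable (fun x : I → E3 => (∑ j, if i = j then 0 else
      D.charge (sp i) * D.charge (sp j) / ‖x i - x j‖) * ‖Ψ τ x‖ ^ 2) := by
    intro τ i
    have hr : (fun x : I → E3 => (∑ j, if i = j then 0 else
        D.charge (sp i) * D.charge (sp j) / ‖x i - x j‖) * ‖Ψ τ x‖ ^ 2) =
        fun x => ∑ j, (if i = j then 0 else
          D.charge (sp i) * D.charge (sp j) / ‖x i - x j‖) * ‖Ψ τ x‖ ^ 2 := by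
      funext x
      rw [Finset.sum_mul]
    rw [hr]
    apply integrable_finset_sum
    intro j _
    by_cases hij : i = j
    · simp [hij]
    · simp only [hij, if_false]
      exact (hI τ).2.2.2.1 i j hij
  have hE : energy D sp Ψ = (∑ i, kinE D sp i Ψ) + ∑ τ, ∫ x, coul D sp x * ‖Ψ τ x‖ ^ 2 := by
    unfold energy kinE
    rw [Finset.sum_comm (s := (Finset.univ : Finset I)), ← Finset.sum_add_distrib]
    refine Finset.sum_congr rfl (fun τ _ => ?_)
    rw [integral_add (integrable_finset_sum _ (fun i _ => (hI τ).2.1 i)) (hI τ).2.2.1,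
      integral_finset_sum _ (fun i _ => (hI τ).2.1 i)]
  have hP : ∑ i, pe D sp i Ψ =
      (∑ i, kinE D sp i Ψ) + 2 * ∑ τ, ∫ x, coul D sp x * ‖Ψ τ x‖ ^ 2 := by
    have h1 : ∀ τ, ∑ i, ∫ x, (kin D sp i (Ψ τ) x +
        (∑ j, if i = j then 0 else D.charge (sp i) * D.charge (sp j) / ‖x i - x j‖) *
          ‖Ψ τ x‖ ^ 2)
        = (∑ i, ∫ x, kin D sp i (Ψ τ) x) + 2 * ∫ x, coul D sp x * ‖Ψ τ x‖ ^ 2 := by
      intro τ
      have h2 : ∀ i, ∫ x, (kin D sp i (Ψ τ) x +
          (∑ j, if i = j then 0 else D.charge (sp i) * D.charge (sp j) / ‖x i - x j‖) *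
            ‖Ψ τ x‖ ^ 2) = (∫ x, kin D sp i (Ψ τ) x) +
          ∫ x, (∑ j, if i = j then 0 else
            D.charge (sp i) * D.charge (sp j) / ‖x i - x j‖) * ‖Ψ τ x‖ ^ 2 :=
        fun i => integral_add ((hI τ).2.1 i) (hV τ i)
      rw [Finset.sum_congr rfl (fun i _ => h2 i), Finset.sum_add_distrib,
        ← integral_finset_sum _ (fun i _ => hV τ i), ← integral_const_mul]
      congr 2
      funext x
      unfold coul
      rw [← Finset.sum_mul]
      ring
    unfold pe kinE
    rw [Finset.sum_comm (s := (Finset.univ : Finset I)),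
      Finset.sum_comm (s := (Finset.univ : Finset I)), Finset.mul_sum, ← Finset.sum_add_distrib]
    exact Finset.sum_congr rfl (fun τ _ => h1 τ)
  rw [Finset.sum_sub_distrib, ← Finset.mul_sum, hP] at h0
  rw [hE]
  linarith

theorem pb_self {S : Type} (D : Species S) {I : Type} [Fintype I] [DecidableEq I] (Φ : Wave D I) :
    ip D Φ Φ = ((nrm2 D Φ : ℝ) : ℂ) := by
  unfold ip nrm2
  rw [Complex.ofReal_sum]
  refine Finset.sum_congr rfl (fun τ _ => ?_)
  rw [← integral_complex_ofReal]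
  congr 1
  funext x
  rw [Complex.conj_mul']
  push_cast
  rfl

theorem pb_comb {S : Type} (D : Species S) {I : Type} [Fintype I] [DecidableEq I] (sp : I → S)
    (ℓ : ℝ) {k : ℕ} (ψ : Fin k → Wave D I) (h : Ortho D sp ℓ ψ) (γ : Fin k → ℂ) :
    nrm2 D (fun τ x => ∑ a, γ a * ψ a τ x) = ∑ a, ‖γ a‖ ^ 2 := by
  have hint : ∀ a b τ, Integrable (fun x => (starRingEnd ℂ) (ψ a τ x) * ψ b τ x) := by
    intro a b τ
    apply Continuous.integrable_of_hasCompactSupport
    · exact (Complex.continuous_conj.comp ((h.1 a).smooth τ).continuous).mul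
        ((h.1 b).smooth τ).continuous
    · exact ((h.1 b).compact τ).mul_left
  have hexp : ip D (fun τ x => ∑ a, γ a * ψ a τ x) (fun τ x => ∑ a, γ a * ψ a τ x) =
      ∑ a, ∑ b, ((starRingEnd ℂ) (γ a) * γ b) * ip D (ψ a) (ψ b) := by
    unfold ip
    have h1 : ∀ τ, ∫ x, (starRingEnd ℂ) (∑ a, γ a * ψ a τ x) * (∑ a, γ a * ψ a τ x) =
       ∑ a, ∑ b, ((starRingEnd ℂ) (γ a) * γ b) *
         ∫ x, (starRingEnd ℂ) (ψ a τ x) * ψ b τ x := by
      intro τ
      have h2 : ∀ x, (starRingEnd ℂ) (∑ a, γ a * ψ a τ x) * (∑ a, γ a * ψ a τ x) =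
        ∑ a, ∑ b, ((starRingEnd ℂ) (γ a) * γ b) *
          ((starRingEnd ℂ) (ψ a τ x) * ψ b τ x) := by
        intro x
        rw [map_sum, Finset.sum_mul_sum]
        refine Finset.sum_congr rfl (fun a _ => Finset.sum_congr rfl (fun b _ => ?_))
        rw [map_mul]
        ring
      rw [integral_congr_ae (Filter.Eventually.of_forall h2)]
      rw [integral_finset_sum _ (fun a _ =>
        integrable_finset_sum _ (fun b _ => (hint a b τ).const_mul _))]
      refine Finset.sum_congr rfl (fun a _ => ?_)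
      rw [integral_finset_sum _ (fun b _ => (hint a b τ).const_mul _)]
      refine Finset.sum_congr rfl (fun b _ => ?_)
      rw [integral_const_mul]
    rw [Finset.sum_congr rfl (fun τ _ => h1 τ), Finset.sum_comm]
    refine Finset.sum_congr rfl (fun a _ => ?_)
    rw [Finset.sum_comm]
    refine Finset.sum_congr rfl (fun b _ => ?_)
    rw [Finset.mul_sum]
  have hs := pb_self D (fun τ x => ∑ a, γ a * ψ a τ x)
  rw [hexp] at hs
  have h3 : ∑ a, ∑ b, ((starRingEnd ℂ) (γ a) * γ b) * ip D (ψ a) (ψ b) =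
      ((∑ a, ‖γ a‖ ^ 2 : ℝ) : ℂ) := by
    rw [Complex.ofReal_sum]
    refine Finset.sum_congr rfl (fun a _ => ?_)
    rw [Finset.sum_congr rfl (fun b _ => by rw [h.2 a b])]
    simp only [mul_ite, mul_one, mul_zero, Finset.sum_ite_eq, Finset.mem_univ, if_true]
    rw [Complex.conj_mul']
    push_cast
    rfl
  rw [h3] at hs
  exact (Complex.ofReal_injective hs).symm

theorem pb_one {S : Type} (D : Species S) {I : Type} [Fintype I] [DecidableEq I] (sp : I → S)
    (ℓ : ℝ) {k : ℕ} (ψ : Fin k → Wave D I) (h : Ortho D sp ℓ ψ) (a : Fin k) :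
    nrm2 D (ψ a) = 1 := by
  have h1 := h.2 a a
  rw [if_pos rfl, pb_self] at h1
  exact_mod_cast h1

theorem pb_base {S : Type} (D : Species S) {I : Type} [Fintype I] [DecidableEq I] [IsEmpty I]
    (sp : I → S) (ℓ T : ℝ) : BddAbove (peierls (pbD D) sp ℓ T) := by
  refine ⟨1, ?_⟩
  rintro z ⟨k, ψ, h, rfl⟩
  have hen : ∀ j, energy (pbD D) sp (ψ j) = 0 := by
    intro j
    unfold energy coul
    simp
  have e1 : ∀ (τ τ' : I → Fin (pbD D).g) (x x' : I → E3) (Φ : Wave (pbD D) I),
      Φ τ x = Φ τ' x' := by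
    intro τ τ' x x' Φ
    rw [Subsingleton.elim τ τ', Subsingleton.elim x x']
  have key : ∀ Φ Ψ : Wave (pbD D) I, ip (pbD D) Φ Ψ =
      ((volume.real (Set.univ : Set (I → E3)) : ℝ) : ℂ) *
        ((starRingEnd ℂ) (Φ (fun i => isEmptyElim i) (fun i => isEmptyElim i)) *
          Ψ (fun i => isEmptyElim i) (fun i => isEmptyElim i)) := by
    intro Φ Ψ
    unfold ip
    rw [Fintype.sum_unique, MeasureTheory.integral_unique]
    rw [Complex.real_smul]
    rw [e1 _ (fun i => isEmptyElim i) _ (fun i => isEmptyElim i) Φ,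
      e1 _ (fun i => isEmptyElim i) _ (fun i => isEmptyElim i) Ψ]
  have hk : k ≤ 1 := by
    by_contra hk
    have hk2 : 2 ≤ k := by omega
    have hab : (⟨0, by omega⟩ : Fin k) ≠ ⟨1, by omega⟩ := by
      intro h'
      have := congrArg Fin.val h'
      simp at this
    have h1 := h.2 ⟨0, by omega⟩ ⟨1, by omega⟩
    rw [if_neg hab, key] at h1
    have h2 := h.2 ⟨0, by omega⟩ ⟨0, by omega⟩
    rw [if_pos rfl, key] at h2
    have h3 := h.2 ⟨1, by omega⟩ ⟨1, by omega⟩
    rw [if_pos rfl, key] at h3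
    rcases mul_eq_zero.mp h1 with h4 | h4
    · rw [h4, zero_mul] at h2
      exact zero_ne_one h2
    · rcases mul_eq_zero.mp h4 with h5 | h5
      · rw [h5, zero_mul, mul_zero] at h2
        exact zero_ne_one h2
      · rw [h5, mul_zero, mul_zero] at h3
        exact zero_ne_one h3
  have hs : ∑ j, Real.exp (-(energy (pbD D) sp (ψ j)) / T) = (k : ℝ) := by
    rw [Finset.sum_congr rfl (fun j _ => by rw [hen j])]
    simp
  rw [hs]
  exact_mod_cast hk

theorem pb_hs {α β : Type} [Fintype β] (f : α × β → ℝ) (hf : ∀ p, 0 ≤ f p) (a : ℝ)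
    (h : HasSum (fun m => ∑ σ, f (m, σ)) a) : HasSum f a := by
  have h1 : Summable f := by
    rw [summable_prod_of_nonneg hf]
    refine ⟨fun x => (hasSum_fintype _).summable, ?_⟩
    simpa [tsum_fintype] using h.summable
  have h2 := h1.hasSum.prod_fiberwise (fun m => hasSum_fintype (fun σ => f (m, σ)))
  rw [h.unique h2]
  exact h1.hasSum

theorem pb_nn {S : Type} (D : Species S) {I : Type} [Fintype I] [DecidableEq I] (Φ : Wave D I) :
    0 ≤ nrm2 D Φ := by
  unfold nrm2
  exact Finset.sum_nonneg (fun τ _ => integral_nonneg (fun x => by positivity))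

theorem pb_kn {S : Type} (D : Species S) (hD : D.Valid) {I : Type} [Fintype I] [DecidableEq I]
    (sp : I → S) (i : I) (Φ : Wave D I) : 0 ≤ kinE D sp i Φ := by
  unfold kinE
  refine Finset.sum_nonneg (fun τ _ => integral_nonneg (fun x => ?_))
  unfold kin
  have := hD.mass_pos (sp i)
  positivity

theorem pb_transfer {S : Type} (D : Species S) {I J : Type} [Fintype I] [DecidableEq I]
    [Fintype J] [DecidableEq J] (e : I ≃ J) (sp : I → S) (ℓ T : ℝ) (hT : 0 < T)
    (hJ : BddAbove (peierls D (fun j => sp (e.symm j)) ℓ T)) :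
    BddAbove (peierls D sp ℓ T) := by
  obtain ⟨Z, hZ⟩ := hJ
  refine ⟨Z, ?_⟩
  rintro z ⟨k, ψ, h, rfl⟩
  have hsp : ∀ i, (fun j => sp (e.symm j)) (e i) = sp i := by
    intro i
    simp
  have hnum := fun a => relabel_num D e sp (fun j => sp (e.symm j)) hsp (ψ a)
  have hstt : ∀ a, IsState D (fun j => sp (e.symm j)) ℓ (relab D e (ψ a)) :=
    fun a => relabel_state D e sp (fun j => sp (e.symm j)) hsp ℓ (ψ a) (h.1 a)
  have htb := trace_bound D (fun j => sp (e.symm j)) ℓ T hT Z (fun z hz => hZ hz)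
    (fun a => relab D e (ψ a)) hstt 1 zero_le_one (by
      intro γ
      have h1 : (fun τ x => ∑ a, γ a * relab D e (ψ a) τ x) =
          relab D e (fun τ x => ∑ a, γ a * ψ a τ x) := rfl
      rw [h1, (relabel_num D e sp (fun j => sp (e.symm j)) hsp
        (fun τ x => ∑ a, γ a * ψ a τ x)).1, pb_comb D sp ℓ ψ h γ, one_mul])
  rw [one_mul] at htb
  refine le_trans (le_of_eq ?_) htb
  refine Finset.sum_congr rfl (fun a _ => ?_)
  rw [(hnum a).1, (hnum a).2.1, pb_one D sp ℓ ψ h a, one_mul, one_mul]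

theorem pb_pw (ℓ : ℝ) (m : Fin 3 → ℤ) : Continuous (pwave ℓ m) := by
  unfold pwave
  fun_prop

theorem pb_psl {S : Type} (D : Species S) {I : Type} [Fintype I] [DecidableEq I]
    (sp : Option I → S) (ℓ : ℝ) {k : ℕ} (ψ : Fin k → Wave D (Option I))
    (h : ∀ a, IsState D sp ℓ (ψ a)) (u : E3 → ℂ) (hu : Continuous u) (σ : Fin D.g)
    (γ : Fin k → ℂ) :
    (fun τ x => ∑ a, γ a * psl D u σ (ψ a) τ x) =
      psl D u σ (fun τ x => ∑ a, γ a * ψ a τ x) := by
  funext τ x
  unfold psl slice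
  have hel : Continuous (fun z : E3 => (fun o : Option I => o.elim z x)) := by
    refine continuous_pi (fun o => ?_)
    cases o with
    | none => exact continuous_id
    | some i => exact continuous_const
  have hint : ∀ a, Integrable (fun z => (starRingEnd ℂ) (u z) *
      ψ a (fun o => o.elim σ τ) (fun o => o.elim z x)) := by
    intro a
    apply Continuous.integrable_of_hasCompactSupport
    · exact (Complex.continuous_conj.comp hu).mul
        (((h a).smooth _).continuous.comp hel)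
    · have hK : IsCompact ((fun y : Option I → E3 => y none) ''
          (tsupport (ψ a (fun o => o.elim σ τ)))) :=
        IsCompact.image ((h a).compact _) (continuous_apply none)
      refine HasCompactSupport.intro hK (fun z hz => ?_)
      have : (fun o : Option I => o.elim z x) ∉ tsupport (ψ a (fun o => o.elim σ τ)) := by
        intro h'
        exact hz ⟨_, h', rfl⟩
      rw [image_eq_zero_of_notMem_tsupport this, mul_zero]
  have h2 : ∀ z : E3, (starRingEnd ℂ) (u z) *
      ∑ a, γ a * ψ a (fun o => o.elim σ τ) (fun o => o.elim z x) =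
      ∑ a, γ a * ((starRingEnd ℂ) (u z) *
        ψ a (fun o => o.elim σ τ) (fun o => o.elim z x)) := by
    intro z
    rw [Finset.mul_sum]
    refine Finset.sum_congr rfl (fun a _ => ?_)
    ring
  rw [integral_congr_ae (Filter.Eventually.of_forall h2),
    integral_finset_sum _ (fun a _ => (hint a).const_mul _)]
  refine Finset.sum_congr rfl (fun a _ => ?_)
  rw [integral_const_mul]

theorem pb_kz {S : Type} (D : Species S) {I : Type} [Fintype I] [DecidableEq I]
    (sp : I → S) (ℓ : ℝ) (Ψ : Wave D I) (hΨ : IsState D sp ℓ Ψ) (h : nrm2 D Ψ = 0) (i : I) :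
    kinE D sp i Ψ = 0 := by
  have h0 : Ψ = 0 := by
    by_contra h0
    exact absurd h (nrm2_pos D sp ℓ Ψ hΨ h0).ne'
  rw [h0]
  unfold kinE kin
  simp

theorem pb_step {S : Type} (D : Species S) (hD : D.Valid) {I : Type} [Fintype I]
    [DecidableEq I] (sp : Option I → S) (ℓ T : ℝ) (hℓ : 0 < ℓ) (hT : 0 < T)
    (hI : BddAbove (peierls (pbD D) (fun i => sp (some i)) ℓ T)) :
    BddAbove (peierls (pbD D) sp ℓ T) := by
  obtain ⟨Z, hZ0⟩ := hI
  have hZ : ∀ z ∈ peierls (pbD D) (fun i => sp (some i)) ℓ T, z ≤ Z := fun z hz => hZ0 hz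
  have hZnn : 0 ≤ Z := hZ 0 ⟨0, fun i => i.elim0, ⟨fun i => i.elim0, fun i => i.elim0⟩, by simp⟩
  have hm := hD.mass_pos (sp none)
  obtain ⟨t, htt⟩ : ∃ t, t = 1 / (2 * D.mass (sp none) * T) := ⟨_, rfl⟩
  have ht : 0 < t := by
    rw [htt]
    positivity
  obtain ⟨C, hC, hlz⟩ := lz_bounds t ℓ ht hℓ
  have hq := (hlz ℓ le_rfl).1
  have hq1 : HasSum (fun m => Real.exp (-(t * pen ℓ m))) (Real.exp (lz ℓ t)) := by
    have h1 := hq.mul_left (Real.exp (lz ℓ t))
    rw [mul_one] at h1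
    have h2 : (fun m => Real.exp (-(t * pen ℓ m))) =
        fun m => Real.exp (lz ℓ t) * Real.exp (-(t * pen ℓ m) - lz ℓ t) := by
      funext m
      rw [← Real.exp_add]
      congr 1
      ring
    rw [h2]
    exact h1
  have hq2 : HasSum (fun p : (Fin 3 → ℤ) × Fin D.g => Real.exp (-(t * pen ℓ p.1)))
      ((D.g : ℝ) * Real.exp (lz ℓ t)) := by
    apply pb_hs
    · intro p
      exact (Real.exp_pos _).le
    · have h1 := hq1.mul_left (D.g : ℝ)
      have h2 : (fun m : Fin 3 → ℤ => ∑ σ : Fin D.g,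
          Real.exp (-(t * pen ℓ ((m, σ) : (Fin 3 → ℤ) × Fin D.g).1))) =
          fun m => (D.g : ℝ) * Real.exp (-(t * pen ℓ m)) := by
        funext m
        simp
      rw [h2]
      exact h1
  refine ⟨((D.g : ℝ) * Real.exp (lz ℓ t)) * Z, ?_⟩
  rintro z ⟨k, ψ, h, rfl⟩
  have hs : ∀ j, IsState D sp ℓ (ψ j) := fun j => pb_st1 D sp ℓ (ψ j) (h.1 j)
  have h1 : ∀ j, nrm2 D (ψ j) = 1 := fun j => pb_one (pbD D) sp ℓ ψ h j
  have hv : ∀ j (p : (Fin 3 → ℤ) × Fin D.g), IsState D (fun i => sp (some i)) ℓ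
      (psl D (pwave ℓ p.1) p.2 (ψ j)) :=
    fun j p => psl_state D sp ℓ (ψ j) (hs j) (pwave ℓ p.1) (pb_pw ℓ p.1) p.2
  have hn := fun j => psl_nrm D hD sp ℓ hℓ (ψ j) (hs j)
  have hw : ∀ j, HasSum (fun p : (Fin 3 → ℤ) × Fin D.g =>
      nrm2 D (psl D (pwave ℓ p.1) p.2 (ψ j))) 1 := by
    intro j
    apply pb_hs
    · intro p
      exact pb_nn D _
    · rw [← h1 j]
      exact (hn j).1
  have hy : ∀ j, HasSum (fun p : (Fin 3 → ℤ) × Fin D.g =>
      1 / (2 * D.mass (sp none)) * (pen ℓ p.1 * nrm2 D (psl D (pwave ℓ p.1) p.2 (ψ j))) +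
        ∑ i, kinE D (fun i => sp (some i)) i (psl D (pwave ℓ p.1) p.2 (ψ j)))
      (∑ o, kinE D sp o (ψ j)) := by
    intro j
    apply pb_hs
    · intro p
      have e1 := pb_nn D (psl D (pwave ℓ p.1) p.2 (ψ j))
      have e2 : 0 ≤ pen ℓ p.1 := by
        unfold pen
        positivity
      have e3 : 0 ≤ ∑ i, kinE D (fun i => sp (some i)) i (psl D (pwave ℓ p.1) p.2 (ψ j)) :=
        Finset.sum_nonneg (fun i _ => pb_kn D hD _ i _)
      positivity
    · have e4 := ((hn j).2.1.mul_left (1 / (2 * D.mass (sp none)))).add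
        (hasSum_sum (s := Finset.univ) (fun i _ => (hn j).2.2 i))
      have e5 : 1 / (2 * D.mass (sp none)) * (2 * D.mass (sp none) * kinE D sp none (ψ j)) +
          ∑ i, kinE D sp (some i) (ψ j) = ∑ o, kinE D sp o (ψ j) := by
        rw [Fintype.sum_option]
        congr 1
        field_simp
      rw [e5] at e4
      refine Eq.mpr (congrArg (fun F => HasSum F (∑ o, kinE D sp o (ψ j))) ?_) e4
      funext m
      dsimp only
      rw [Finset.sum_add_distrib, ← Finset.mul_sum, ← Finset.mul_sum, Finset.sum_comm]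
  have hJ := jensen_family
    (fun j (p : (Fin 3 → ℤ) × Fin D.g) => nrm2 D (psl D (pwave ℓ p.1) p.2 (ψ j)))
    (fun j p => -(1 / (2 * D.mass (sp none)) *
      (pen ℓ p.1 * nrm2 D (psl D (pwave ℓ p.1) p.2 (ψ j))) +
        ∑ i, kinE D (fun i => sp (some i)) i (psl D (pwave ℓ p.1) p.2 (ψ j))) / T)
    (fun _ => 1) (fun j => -(∑ o, kinE D sp o (ψ j)) / T)
    (((D.g : ℝ) * Real.exp (lz ℓ t)) * Z) (fun j p => pb_nn D _) (by
      intro j p h0
      have e1 : ∑ i, kinE D (fun i => sp (some i)) i (psl D (pwave ℓ p.1) p.2 (ψ j)) = 0 :=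
        Finset.sum_eq_zero (fun i _ => pb_kz D _ ℓ _ (hv j p) h0 i)
      rw [e1, h0]
      simp) hw (fun j => (hy j).neg.div_const T) (by
      intro K
      rw [Finset.sum_comm]
      have hp : ∀ p ∈ K, ∑ j, nrm2 D (psl D (pwave ℓ p.1) p.2 (ψ j)) *
          Real.exp (-(1 / (2 * D.mass (sp none)) *
            (pen ℓ p.1 * nrm2 D (psl D (pwave ℓ p.1) p.2 (ψ j))) +
            ∑ i, kinE D (fun i => sp (some i)) i (psl D (pwave ℓ p.1) p.2 (ψ j))) / T /
            nrm2 D (psl D (pwave ℓ p.1) p.2 (ψ j))) ≤ Real.exp (-(t * pen ℓ p.1)) * Z := by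
        intro p _
        have htb := trace_bound (pbD D) (fun i => sp (some i)) ℓ T hT Z hZ
          (fun j => psl D (pwave ℓ p.1) p.2 (ψ j))
          (fun j => pb_st0 D _ ℓ _ (hv j p)) 1 zero_le_one (by
            intro γ
            have e1 := pb_psl D sp ℓ ψ hs (pwave ℓ p.1) (pb_pw ℓ p.1) p.2 γ
            have e2 : IsState D sp ℓ (fun τ x => ∑ a, γ a * ψ a τ x) :=
              state_comb D sp ℓ ψ hs γ
            have e3 := (psl_nrm D hD sp ℓ hℓ _ e2).1
            have e4 : nrm2 D (psl D (pwave ℓ p.1) p.2 (fun τ x => ∑ a, γ a * ψ a τ x)) ≤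
                nrm2 D (fun τ x => ∑ a, γ a * ψ a τ x) := by
              refine le_trans ?_ (le_hasSum e3 p.1
                (fun m _ => Finset.sum_nonneg (fun σ _ => pb_nn D _)))
              exact Finset.single_le_sum
                (f := fun σ => nrm2 D (psl D (pwave ℓ p.1) σ (fun τ x => ∑ a, γ a * ψ a τ x)))
                (fun σ _ => pb_nn D _) (Finset.mem_univ p.2)
            have e5 : nrm2 D (fun τ x => ∑ a, γ a * ψ a τ x) = ∑ a, ‖γ a‖ ^ 2 :=
              pb_comb (pbD D) sp ℓ ψ h γ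
            rw [one_mul, ← e5]
            show nrm2 D (fun τ x => ∑ a, γ a * psl D (pwave ℓ p.1) p.2 (ψ a) τ x) ≤ _
            rw [e1]
            exact e4)
        rw [one_mul] at htb
        have e : ∀ j, nrm2 D (psl D (pwave ℓ p.1) p.2 (ψ j)) *
          Real.exp (-(1 / (2 * D.mass (sp none)) *
            (pen ℓ p.1 * nrm2 D (psl D (pwave ℓ p.1) p.2 (ψ j))) +
            ∑ i, kinE D (fun i => sp (some i)) i (psl D (pwave ℓ p.1) p.2 (ψ j))) / T /
            nrm2 D (psl D (pwave ℓ p.1) p.2 (ψ j))) =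
            Real.exp (-(t * pen ℓ p.1)) * (nrm2 (pbD D) (psl D (pwave ℓ p.1) p.2 (ψ j)) *
              Real.exp (-(energy (pbD D) (fun i => sp (some i))
                (psl D (pwave ℓ p.1) p.2 (ψ j))) /
                (nrm2 (pbD D) (psl D (pwave ℓ p.1) p.2 (ψ j)) * T))) := by
          intro j
          rw [pb_en0 D _ ℓ _ (hv j p)]
          have e0 : nrm2 (pbD D) (psl D (pwave ℓ p.1) p.2 (ψ j)) =
            nrm2 D (psl D (pwave ℓ p.1) p.2 (ψ j)) := rfl
          rw [e0]
          generalize nrm2 D (psl D (pwave ℓ p.1) p.2 (ψ j)) = W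
          generalize ∑ i, kinE D (fun i => sp (some i)) i
            (psl D (pwave ℓ p.1) p.2 (ψ j)) = E
          by_cases hw0 : W = 0
          · rw [hw0]
            simp
          · have e6 : -(1 / (2 * D.mass (sp none)) * (pen ℓ p.1 * W) + E) / T / W =
                -(t * pen ℓ p.1) + -E / (W * T) := by
              rw [htt]
              field_simp
              ring
            rw [e6, Real.exp_add]
            ring
        rw [Finset.sum_congr rfl (fun j _ => e j), ← Finset.mul_sum]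
        exact mul_le_mul_of_nonneg_left htb (Real.exp_pos _).le
      refine le_trans (Finset.sum_le_sum hp) ?_
      rw [← Finset.sum_mul]
      exact mul_le_mul_of_nonneg_right
        (sum_le_hasSum K (fun _ _ => (Real.exp_pos _).le) hq2) hZnn)
  refine le_trans (le_of_eq ?_) hJ
  refine Finset.sum_congr rfl (fun j _ => ?_)
  rw [pb_en0 D sp ℓ (ψ j) (hs j), one_mul, div_one]

theorem pb_all {S : Type} (D : Species S) (hD : D.Valid) (ℓ T : ℝ) (hℓ : 0 < ℓ) (hT : 0 < T) :
    ∀ (n : ℕ) (I : Type) [Fintype I] [DecidableEq I] (sp : I → S), Fintype.card I = n →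
      BddAbove (peierls (pbD D) sp ℓ T) := by
  intro n
  induction n with
  | zero =>
    intro I _ _ sp hI
    haveI : IsEmpty I := Fintype.card_eq_zero_iff.mp hI
    exact pb_base D sp ℓ T
  | succ n ih =>
    intro I _ _ sp hI
    have e : I ≃ Option (Fin n) := Fintype.equivOfCardEq (by simp [hI])
    apply pb_transfer (pbD D) e sp ℓ T hT
    apply pb_step D hD _ ℓ T hℓ hT
    exact ih (Fin n) _ (by simp)

/-- the partition function is finite -/
theorem peierls_bdd {S : Type} [Fintype S] [DecidableEq S] (D : Species S) (hD : D.Valid)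
    (hst : HStable D) {I : Type} [Fintype I] [DecidableEq I] (sp : I → S) (ℓ T : ℝ)
    (hℓ : 0 < ℓ) (hT : 0 < T) : BddAbove (peierls D sp ℓ T) := by
  obtain ⟨A, hA⟩ := hst
  obtain ⟨Z, hZ⟩ := pb_all D hD ℓ (4 * T / 3) hℓ (by positivity) (Fintype.card I) I sp rfl
  refine ⟨Real.exp (4 * A * (Fintype.card I : ℝ) / T) * Z, ?_⟩
  rintro z ⟨k, ψ, h, rfl⟩
  have h' : Ortho (pbD D) sp ℓ ψ := ⟨fun a => pb_st0 _ _ _ _ (h.1 a), h.2⟩
  have hz := hZ ⟨k, ψ, h', rfl⟩
  have hA' : ∀ ℓ : ℝ, 0 < ℓ → ∀ Ψ : Wave D I, IsState D sp ℓ Ψ →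
      -A * (Fintype.card I : ℝ) * nrm2 D Ψ ≤ energy D sp Ψ :=
    fun ℓ hℓ Ψ hΨ => stable_any D A hA sp ℓ hℓ Ψ hΨ
  calc ∑ j, Real.exp (-(energy D sp (ψ j)) / T)
      ≤ ∑ j, Real.exp (4 * A * (Fintype.card I : ℝ) / T) *
          Real.exp (-(energy (pbD D) sp (ψ j)) / (4 * T / 3)) := by
        apply Finset.sum_le_sum
        intro j _
        rw [← Real.exp_add]
        apply Real.exp_le_exp.mpr
        rw [pb_en0 D sp ℓ (ψ j) (h.1 j)]
        have h1 := pb_lb D hD A sp hA' ℓ hℓ (ψ j) (h.1 j)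
        rw [pb_one D sp ℓ ψ h j] at h1
        have h2 : -(∑ i, kinE D sp i (ψ j)) / (4 * T / 3) =
            -((3 / 4) * ∑ i, kinE D sp i (ψ j)) / T := by
          field_simp
        rw [h2, ← add_div]
        exact div_le_div_of_nonneg_right (by linarith) hT.le
    _ = Real.exp (4 * A * (Fintype.card I : ℝ) / T) *
          ∑ j, Real.exp (-(energy (pbD D) sp (ψ j)) / (4 * T / 3)) := by rw [Finset.mul_sum]
    _ ≤ _ := mul_le_mul_of_nonneg_left hz (Real.exp_pos _).le

end Pool.Agent.Helper985.CP
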