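import Pool.Agent.Helper985.CP.M_int_state
import Pool.Agent.Helper985.CP.M_nrm2_pos
import Pool.Agent.Helper985.CP.M_states_nonempty
import Pool.Agent.Helper985.CT.M_peierls_bdd
import Pool.Agent.Helper985.CT.M_state_comb
import Pool.Agent.Helper985.CT.Defs

set_option autoImplicit false

open MeasureTheory
open scoped Topology

namespace Pool.Agent.Helper985.CP







/-- the partition function is positive -/
theorem peierls_pos {S : Type} [Fintype S] [DecidableEq S] (D : Species S) (hD : D.Valid)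
    (hst : HStable D) {I : Type} [Fintype I] [DecidableEq I] (sp : I → S) (ℓ T : ℝ)
    (hℓ : 0 < ℓ) (hT : 0 < T) : (peierls D sp ℓ T).Nonempty ∧ 0 < sSup (peierls D sp ℓ T) := by
  obtain ⟨e, Ψ, hΨ, h0, -⟩ := states_nonempty D hD hst sp ℓ hℓ
  have hn := nrm2_pos D sp ℓ Ψ hΨ h0
  have hst0 := state_comb D sp ℓ (A := Unit) (fun _ => Ψ) (fun _ => hΨ)
    (fun _ => ((1 / Real.sqrt (nrm2 D Ψ) : ℝ) : ℂ))
  set ψ0 : Wave D I := fun τ x => ∑ a : Unit, ((1 / Real.sqrt (nrm2 D Ψ) : ℝ) : ℂ) * Ψ τ x with hψ0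
  have hip : ip D ψ0 ψ0 = 1 := by
    have key : ∀ τ x, (starRingEnd ℂ) (ψ0 τ x) * ψ0 τ x =
        (((nrm2 D Ψ)⁻¹ * ‖Ψ τ x‖ ^ 2 : ℝ) : ℂ) := by
      intro τ x
      rw [← Complex.normSq_eq_conj_mul_self, Complex.normSq_eq_norm_sq]
      simp only [hψ0, Finset.univ_unique, Finset.sum_const, Finset.card_singleton, one_smul,
        norm_mul, Complex.norm_real, mul_pow]
      congr 2
      rw [Real.norm_eq_abs, sq_abs, div_pow, Real.sq_sqrt hn.le, one_pow, one_div]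
    unfold ip
    have e1 : ∀ τ : I → Fin D.g, ∫ x, (starRingEnd ℂ) (ψ0 τ x) * ψ0 τ x =
        (((nrm2 D Ψ)⁻¹ * ∫ x, ‖Ψ τ x‖ ^ 2 : ℝ) : ℂ) := by
      intro τ
      rw [← integral_const_mul, ← integral_complex_ofReal]
      congr 1
      funext x
      exact key τ x
    rw [Finset.sum_congr rfl (fun τ _ => e1 τ), ← Complex.ofReal_sum, ← Finset.mul_sum]
    change (((nrm2 D Ψ)⁻¹ * nrm2 D Ψ : ℝ) : ℂ) = 1
    rw [inv_mul_cancel₀ hn.ne', Complex.ofReal_one]
  have hmem : Real.exp (-(energy D sp ψ0) / T) ∈ peierls D sp ℓ T := by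
    refine ⟨1, fun _ => ψ0, ⟨fun _ => hst0, ?_⟩, by simp⟩
    intro i j
    rw [if_pos (Subsingleton.elim i j)]
    exact hip
  exact ⟨⟨_, hmem⟩, (Real.exp_pos _).trans_le (le_csSup (peierls_bdd D hD hst sp ℓ T hℓ hT) hmem)⟩

end Pool.Agent.Helper985.CP
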