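import Pool.Agent.Helper985.CT.M_center_lower
import Pool.Agent.Helper985.CT.M_grid_avg
import Pool.Agent.Helper985.CT.M_peierls_bdd
import Pool.Agent.Helper985.CT.M_peierls_pos
import Pool.Agent.Helper985.CT.Defs

set_option autoImplicit false

open MeasureTheory
open scoped Topology

namespace Pool.Agent.Helper985.CP






theorem lowerT_general {S : Type} [Fintype S] [DecidableEq S] (D : Species S) (hD : D.Valid)
    (hst : HStable D) (r T c V : ℝ) (hr : 0 < r) (hT : 0 < T) (hc : 0 < c) (hV : 0 < V) :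
    ∃ K : ℝ, 0 < K ∧ ∀ (a b : S), D.charge b = -D.charge a → a ≠ b →
      ∀ {I J : Type} [Fintype I] [DecidableEq I] [Fintype J] [DecidableEq J] (sp : I → S)
        (sp' : J → S) (ℓ : ℝ), 8 * r ≤ ℓ → (Fintype.card I : ℝ) * (1024 * r ^ 3) ≤ ℓ ^ 3 →
      ℓ ^ 3 ≤ V * (Fintype.card I : ℝ) →
      (∑ i, D.charge (sp i) = 0) →
      (∀ s, cnt sp s = cnt sp' s + (if s = a then 1 else 0) + (if s = b then 1 else 0)) →
      c * (Fintype.card I : ℝ) ≤ cnt sp a → c * (Fintype.card I : ℝ) ≤ cnt sp b →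
      sSup (peierls D sp ℓ T) ≤ K * sSup (peierls D sp' ℓ T) := by
  obtain ⟨C, hC, HC⟩ := center_lower D hD hst r T c V hr hT hc hV
  obtain ⟨K, hK, HK⟩ := grid_avg C T hC hT
  refine ⟨K, hK, ?_⟩
  intro a b hab hne I J _ _ _ _ sp sp' ℓ h8 hcard hvol hneu hcnt hca hcb
  have hℓ : 0 < ℓ := by linarith
  refine HK D sp ℓ r (sSup (peierls D sp' ℓ T)) hr h8 hcard
    (peierls_pos D hD hst sp' ℓ T hℓ hT).2.le (peierls_bdd D hD hst sp ℓ T hℓ hT) ?_
  intro x0 hx0 k ψ hψ ν hν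
  exact HC a b hab hne sp sp' ℓ h8 hcard hvol hneu hcnt hca hcb x0 hx0 _ _
    (fun z hz => le_csSup (peierls_bdd D hD hst sp ℓ T hℓ hT) hz)
    (fun z hz => le_csSup (peierls_bdd D hD hst sp' ℓ T hℓ hT) hz) ψ hψ ν hν


end Pool.Agent.Helper985.CP
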