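import Pool.Agent.Helper985.CP.M_relabel_num
import Pool.Agent.Helper985.CP.M_relabel_state
import Pool.Agent.Helper985.CT.Defs

set_option autoImplicit false

open MeasureTheory
open scoped Topology

namespace Pool.Agent.Helper985.CP




-- auxiliary
theorem prl_cov {I J : Type} [Fintype I] [Fintype J] (e : I ≃ J) {G : Type*}
    [NormedAddCommGroup G] [NormedSpace ℝ G] (F : (I → E3) → G) :
    ∫ x : J → E3, F (fun i => x (e i)) = ∫ y : I → E3, F y := by
  have h := (volume_measurePreserving_piCongrLeft (fun _ : J => E3) e).integral_comp'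
    (g := fun x : J → E3 => F (fun i => x (e i)))
  rw [← h]
  congr 1
  funext y
  congr 1
  funext i
  exact MeasurableEquiv.piCongrLeft_apply_apply (β := fun _ : J => E3) e y i

theorem prl_sum {g : ℕ} {I J : Type} [Fintype I] [DecidableEq I] [Fintype J] [DecidableEq J]
    (e : I ≃ J) {G : Type*} [AddCommMonoid G] (H : (I → Fin g) → G) :
    ∑ τ : J → Fin g, H (fun i => τ (e i)) = ∑ τ : I → Fin g, H τ :=
  Fintype.sum_equiv (e.symm.arrowCongr (Equiv.refl (Fin g))) _ _ (fun τ => rfl)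

theorem prl_ip {S : Type} (D : Species S) {I J : Type} [Fintype I] [DecidableEq I]
    [Fintype J] [DecidableEq J] (e : I ≃ J) (Φ Ψ : Wave D I) :
    ip D (relab D e Φ) (relab D e Ψ) = ip D Φ Ψ := by
  unfold ip
  rw [← prl_sum e (fun τ => ∫ x, (starRingEnd ℂ) (Φ τ x) * Ψ τ x)]
  refine Finset.sum_congr rfl fun τ _ => ?_
  exact prl_cov e (fun x => (starRingEnd ℂ) (Φ (fun i => τ (e i)) x) * Ψ (fun i => τ (e i)) x)

theorem prl_sub {S : Type} (D : Species S) {I J : Type} [Fintype I] [DecidableEq I]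
    [Fintype J] [DecidableEq J] (e : I ≃ J) (sp : I → S) (sp' : J → S)
    (h : ∀ i, sp' (e i) = sp i) (ℓ T : ℝ) : peierls D sp ℓ T ⊆ peierls D sp' ℓ T := by
  rintro z ⟨k, ψ, ⟨h1, h2⟩, rfl⟩
  refine ⟨k, fun j => relab D e (ψ j), ⟨fun j => relabel_state D e sp sp' h ℓ _ (h1 j),
    fun i j => ?_⟩, ?_⟩
  · rw [prl_ip]
    exact h2 i j
  · refine Finset.sum_congr rfl fun j _ => ?_
    rw [(relabel_num D e sp sp' h (ψ j)).2.1]

theorem prl_kin {S : Type} (D : Species S) {I J : Type} [Fintype I] [DecidableEq I]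
    [Fintype J] [DecidableEq J] (e : I ≃ J) (sp : I → S) (sp' : J → S)
    (h : ∀ i, sp' (e i) = sp i) (u : (I → E3) → ℂ) (i : I) (x : J → E3) :
    kin D sp' (e i) (fun x : J → E3 => u (fun i => x (e i))) x =
      kin D sp i u (fun i => x (e i)) := by
  unfold kin
  rw [h i]
  congr 1
  refine Finset.sum_congr rfl fun k _ => ?_
  have h1 : (fun x : J → E3 => u (fun i => x (e i))) =
      u ∘ ((LinearEquiv.funCongrLeft ℝ E3 e).toContinuousLinearEquiv) := rfl
  rw [h1, ContinuousLinearEquiv.comp_right_fderiv]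
  have h2 : ((LinearEquiv.funCongrLeft ℝ E3 e).toContinuousLinearEquiv)
      (Pi.single (e i) (EuclideanSpace.single k (1 : ℝ))) =
      Pi.single i (EuclideanSpace.single k (1 : ℝ)) := by
    funext j
    change (Pi.single (e i) (EuclideanSpace.single k (1 : ℝ)) : J → E3) (e j) =
      (Pi.single i (EuclideanSpace.single k (1 : ℝ)) : I → E3) j
    by_cases hj : j = i
    · subst hj
      rw [Pi.single_eq_same, Pi.single_eq_same]
    · rw [Pi.single_eq_of_ne hj, Pi.single_eq_of_ne (fun h => hj (e.injective h))]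
  have h3 : (((LinearEquiv.funCongrLeft ℝ E3 e).toContinuousLinearEquiv) x) =
      (fun i => x (e i)) := rfl
  rw [ContinuousLinearMap.comp_apply, h3]
  congr 3

theorem peierls_relabel {S : Type} (D : Species S) {I J : Type} [Fintype I] [DecidableEq I]
    [Fintype J] [DecidableEq J] (e : I ≃ J) (sp : I → S) (sp' : J → S)
    (h : ∀ i, sp' (e i) = sp i) (ℓ T : ℝ) : peierls D sp ℓ T = peierls D sp' ℓ T ∧
      (∀ (Ψ : Wave D I) (i : I), kinE D sp' (e i) (relab D e Ψ) = kinE D sp i Ψ) := by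
  refine ⟨Set.Subset.antisymm (prl_sub D e sp sp' h ℓ T)
    (prl_sub D e.symm sp' sp (fun j => ?_) ℓ T), fun Ψ i => ?_⟩
  · rw [← h, Equiv.apply_symm_apply]
  · unfold kinE
    rw [← prl_sum e (fun τ => ∫ x, kin D sp i (Ψ τ) x)]
    refine Finset.sum_congr rfl fun τ _ => ?_
    rw [← prl_cov e (fun x => kin D sp i (Ψ (fun i => τ (e i))) x)]
    refine integral_congr_ae (Filter.Eventually.of_forall fun x => ?_)
    exact prl_kin D e sp sp' h (Ψ (fun i => τ (e i))) i x

end Pool.Agent.Helper985.CP
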