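import Pool.Agent.Helper985.CT.M_center_upper
import Pool.Agent.Helper985.CT.M_grid_avg
import Pool.Agent.Helper985.CT.M_peierls_bdd
import Pool.Agent.Helper985.CT.M_peierls_pos
import Pool.Agent.Helper985.CT.Defs

set_option autoImplicit false

open MeasureTheory
open scoped Topology

namespace Pool.Agent.Helper985.CP






theorem upperT_general {S : Type} [Fintype S] [DecidableEq S] (D : Species S) (hD : D.Valid)
    (hst : HStable D) (r T : ℝ) (hr : 0 < r) (hT : 0 < T) :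
    ∃ K : ℝ, 0 < K ∧ ∀ (a b : S), D.charge b = -D.charge a →
      ∀ {I : Type} [Fintype I] [DecidableEq I] (sp : I → S) (ℓ : ℝ),
      8 * r ≤ ℓ → (Fintype.card I : ℝ) * (1024 * r ^ 3) ≤ ℓ ^ 3 →
      sSup (peierls D sp ℓ T) ≤ K * sSup (peierls D
        (fun o : Option (Option I) => o.elim b (fun o' => o'.elim a sp)) ℓ T) := by
  obtain ⟨C, hC, hcen⟩ := center_upper D hD r T hr hT
  obtain ⟨K, hK, hgrid⟩ := grid_avg C T hC hT
  refine ⟨K, hK, ?_⟩
  intro a b hab I _ _ sp ℓ h8 hcard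
  have hℓ : 0 < ℓ := by linarith
  have hb1 := peierls_bdd D hD hst sp ℓ T hℓ hT
  have hb2 := peierls_bdd D hD hst
    (fun o : Option (Option I) => o.elim b (fun o' => o'.elim a sp)) ℓ T hℓ hT
  have hp2 := peierls_pos D hD hst
    (fun o : Option (Option I) => o.elim b (fun o' => o'.elim a sp)) ℓ T hℓ hT
  refine hgrid D sp ℓ r _ hr h8 hcard hp2.2.le hb1 ?_
  intro x0 hx0 k ψ hψ ν hν
  exact hcen a b hab sp ℓ x0 hx0 _ _ (fun z hz => le_csSup hb1 hz)
    (fun z hz => le_csSup hb2 hz) ψ hψ ν hν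

end Pool.Agent.Helper985.CP
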