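import Pool.Agent.Helper985.CP.Final
import Pool.Agent.Helper985.CT.M_upperT_general
import Pool.Agent.Helper985.CT.M_lowerT_general
import Pool.Agent.Helper985.CT.M_peierls_bdd
import Pool.Agent.Helper985.CT.M_peierls_pos
import Pool.Agent.Helper985.CT.M_peierls_relabel

set_option autoImplicit false

open MeasureTheory
open scoped Topology

namespace Pool.Agent.Helper985.CP

theorem upperT_final {S : Type} [Fintype S] [DecidableEq S] (D : Species S) (hD : D.Valid)
    (hst : HStable D) (a b : S) (hb : D.charge b = -D.charge a) (ρ T : ℝ) (hρ : 0 < ρ)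
    (hT : 0 < T) :
    ∃ C : ℝ, ∀ n : S → ℕ, 1 ≤ ∑ s, (n s : ℝ) →
      freeEnergy D (((∑ s, (n s : ℝ)) / ρ) ^ (1 / 3 : ℝ)) T (addPair n a b) ≤
        freeEnergy D (((∑ s, (n s : ℝ)) / ρ) ^ (1 / 3 : ℝ)) T n + C := by
  obtain ⟨K, hK, h⟩ := upperT_general D hD hst ((1 / (4096 * ρ)) ^ (1 / 3 : ℝ)) T (by positivity)
    hT
  refine ⟨T * Real.log K, fun n hn => ?_⟩
  obtain ⟨h0, h1, h2⟩ := final_radius (∑ s, (n s : ℝ)) ρ hn hρ
  have h3 := h a b hb (fun i : (Σ s, Fin (n s)) => i.1) _ h1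
    (by rw [card_sigma]; exact h2 _ (by linarith))
  obtain ⟨e, he⟩ := addPair_equiv n a b
  rw [(peierls_relabel D e _ (fun i => i.1) he _ T).1] at h3
  have hℓ : 0 < ((∑ s, (n s : ℝ)) / ρ) ^ (1 / 3 : ℝ) := by
    have : 0 < (∑ s, (n s : ℝ)) / ρ := by positivity
    positivity
  have p1 := (peierls_pos D hD hst (fun i : (Σ s, Fin (n s)) => i.1) _ T hℓ hT).2
  have p2 := (peierls_pos D hD hst (fun i : (Σ s, Fin (addPair n a b s)) => i.1) _ T hℓ hT).2
  have h4 := Real.log_le_log p1 h3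
  rw [Real.log_mul hK.ne' p2.ne'] at h4
  unfold freeEnergy partition
  nlinarith

theorem lowerT_final {S : Type} [Fintype S] [DecidableEq S] (D : Species S) (hD : D.Valid)
    (hst : HStable D) (a b : S) (hb : D.charge b = -D.charge a) (ρ T : ℝ) (hρ : 0 < ρ)
    (hT : 0 < T) (c : ℝ) (hc : 0 < c) :
    ∃ C : ℝ, ∀ n : S → ℕ, 1 ≤ ∑ s, (n s : ℝ) → ∑ s, (n s : ℝ) * D.charge s = 0 →
      c * ∑ s, (n s : ℝ) ≤ n a + 1 → c * ∑ s, (n s : ℝ) ≤ n b + 1 →
      freeEnergy D (((∑ s, (n s : ℝ)) / ρ) ^ (1 / 3 : ℝ)) T n ≤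
        freeEnergy D (((∑ s, (n s : ℝ)) / ρ) ^ (1 / 3 : ℝ)) T (addPair n a b) + C := by
  have hab : a ≠ b := by
    rintro rfl
    have := hD.charge_ne a
    apply this
    linarith
  obtain ⟨K, hK, h⟩ := lowerT_general D hD hst ((1 / (4096 * ρ)) ^ (1 / 3 : ℝ)) T (c / 3) (1 / ρ)
    (by positivity) hT (by positivity) (by positivity)
  refine ⟨T * Real.log K, fun n hn hneu ha' hb' => ?_⟩
  obtain ⟨h0, h1, h2⟩ := final_radius (∑ s, (n s : ℝ)) ρ hn hρ
  have hcard : (Fintype.card (Σ s, Fin (addPair n a b s)) : ℝ) = ∑ s, (n s : ℝ) + 2 := by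
    rw [card_sigma, sum_addPair]
  have hℓ : 0 < ((∑ s, (n s : ℝ)) / ρ) ^ (1 / 3 : ℝ) := by
    have : 0 < (∑ s, (n s : ℝ)) / ρ := by positivity
    positivity
  have h3 : sSup (peierls D (fun i : (Σ s, Fin (addPair n a b s)) => i.1)
      (((∑ s, (n s : ℝ)) / ρ) ^ (1 / 3 : ℝ)) T) ≤
      K * sSup (peierls D (fun i : (Σ s, Fin (n s)) => i.1)
        (((∑ s, (n s : ℝ)) / ρ) ^ (1 / 3 : ℝ)) T) := by
    refine h a b hb hab (fun i : (Σ s, Fin (addPair n a b s)) => i.1)
      (fun i : (Σ s, Fin (n s)) => i.1) _ h1 (by rw [hcard]; exact h2 _ (by linarith)) ?_ ?_ ?_ ?_ ?_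
    · rw [side_cube _ ρ (by linarith) hρ, hcard]
      rw [div_eq_mul_one_div, mul_comm]
      have : 0 < 1 / ρ := by positivity
      nlinarith
    · rw [Fintype.sum_sigma]
      simp only [Finset.sum_const, Finset.card_univ, Fintype.card_fin, nsmul_eq_mul,
        addPair_apply]
      push_cast
      simp only [add_mul, ite_mul, one_mul, zero_mul, Finset.sum_add_distrib,
        Finset.sum_ite_eq', Finset.mem_univ, if_true, hneu, hb]
      ring
    · intro s
      rw [cnt_sigma, cnt_sigma, addPair_apply]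
    · rw [cnt_sigma, hcard, addPair_apply]
      simp only [if_true, if_neg hab]
      push_cast
      nlinarith
    · rw [cnt_sigma, hcard, addPair_apply]
      simp only [if_true, if_neg hab.symm]
      push_cast
      nlinarith
  have p1 := (peierls_pos D hD hst (fun i : (Σ s, Fin (n s)) => i.1) _ T hℓ hT).2
  have p2 := (peierls_pos D hD hst (fun i : (Σ s, Fin (addPair n a b s)) => i.1) _ T hℓ hT).2
  have h4 := Real.log_le_log p2 h3
  rw [Real.log_mul hK.ne' p1.ne'] at h4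
  unfold freeEnergy partition
  nlinarith

end Pool.Agent.Helper985.CP
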