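import Pool.Agent.Helper985.CT.Defs

set_option autoImplicit false

open MeasureTheory
open scoped Topology

namespace Pool.Agent.Helper985.CP


/-- Dickson's lemma for the neutral occupation numbers -/
theorem neutral_dickson {S : Type} [Fintype S] [DecidableEq S] (q : S → ℝ) (a b : S)
    (h : ∀ n : S → ℕ, n ≠ 0 → ∑ s, (n s : ℝ) * q s = 0 → 1 ≤ n a ∧ 1 ≤ n b) :
    ∃ c : ℝ, 0 < c ∧ ∀ n : S → ℕ, ∑ s, (n s : ℝ) * q s = 0 →
      c * ∑ s, (n s : ℝ) ≤ n a ∧ c * ∑ s, (n s : ℝ) ≤ n b := by
  classical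
  let P : (S → ℕ) → Prop := fun n => n ≠ 0 ∧ ∑ s, (n s : ℝ) * q s = 0
  have hfin : {m : S → ℕ | Minimal P m}.Finite := by
    have hanti : IsAntichain (· ≤ ·) {m : S → ℕ | Minimal P m} := by
      intro x hx y hy hxy hle
      exact hxy (le_antisymm hle (hy.2 hx.1 hle))
    exact hanti.finite_of_partiallyWellOrderedOn (Set.isPWO_of_wellQuasiOrderedLE _)
  obtain ⟨B, hB⟩ := (hfin.image (fun m : S → ℕ => ∑ s, (m s : ℝ))).bddAbove
  set B' : ℝ := max B 1 with hB'
  have hB1 : 1 ≤ B' := le_max_right _ _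
  have hmB : ∀ m : S → ℕ, Minimal P m → ∑ s, (m s : ℝ) ≤ B' := fun m hm =>
    (hB ⟨m, hm, rfl⟩).trans (le_max_left _ _)
  have main : ∀ N : ℕ, ∀ n : S → ℕ, ∑ s, n s = N → ∑ s, (n s : ℝ) * q s = 0 →
      ∑ s, (n s : ℝ) ≤ B' * n a ∧ ∑ s, (n s : ℝ) ≤ B' * n b := by
    intro N
    induction N using Nat.strong_induction_on with
    | _ N ih =>
      intro n hN hn
      by_cases h0 : n = 0
      · subst h0
        simp
      · obtain ⟨m, hmn, hm⟩ := exists_minimal_le_of_wellFoundedLT P n ⟨h0, hn⟩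
        have hle : ∀ s, m s ≤ n s := fun s => hmn s
        have hsub : ∀ s, (((n - m) s : ℕ) : ℝ) = (n s : ℝ) - (m s : ℝ) := by
          intro s
          rw [Pi.sub_apply, Nat.cast_sub (hle s)]
        have hneut : ∑ s, (((n - m) s : ℕ) : ℝ) * q s = 0 := by
          have : ∑ s, (((n - m) s : ℕ) : ℝ) * q s = ∑ s, (n s : ℝ) * q s - ∑ s, (m s : ℝ) * q s := by
            rw [← Finset.sum_sub_distrib]
            refine Finset.sum_congr rfl fun s _ => ?_
            rw [hsub]; ring
          rw [this, hn, hm.1.2, sub_zero]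
        have hlt : ∑ s, (n - m) s < N := by
          rw [← hN]
          obtain ⟨s, hs⟩ := Function.ne_iff.1 hm.1.1
          apply Finset.sum_lt_sum
          · intro i _
            exact Nat.sub_le _ _
          · refine ⟨s, Finset.mem_univ s, ?_⟩
            have h1 : m s ≠ 0 := hs
            have h2 := hle s
            show n s - m s < n s
            omega
        obtain ⟨i1, i2⟩ := ih _ hlt (n - m) rfl hneut
        obtain ⟨k1, k2⟩ := h m hm.1.1 hm.1.2
        have hmB' := hmB m hm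
        have hsum : ∑ s, (((n - m) s : ℕ) : ℝ) = ∑ s, (n s : ℝ) - ∑ s, (m s : ℝ) := by
          rw [← Finset.sum_sub_distrib]
          exact Finset.sum_congr rfl fun s _ => hsub s
        rw [hsum, hsub] at i1 i2
        have k1' : (1:ℝ) ≤ m a := by exact_mod_cast k1
        have k2' : (1:ℝ) ≤ m b := by exact_mod_cast k2
        constructor
        · nlinarith
        · nlinarith
  refine ⟨1 / B', by positivity, fun n hn => ?_⟩
  have hBp : 0 < B' := by linarith
  obtain ⟨h1, h2⟩ := main _ n rfl hn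
  constructor
  · rw [one_div, inv_mul_le_iff₀ hBp]; exact h1
  · rw [one_div, inv_mul_le_iff₀ hBp]; exact h2

end Pool.Agent.Helper985.CP
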