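import Pool.Agent.Helper985.CP.M_exists_bump
import Pool.Agent.Helper985.CP.M_exists_cut
import Pool.Agent.Helper985.CP.M_ims
import Pool.Agent.Helper985.CP.M_int_state
import Pool.Agent.Helper985.CP.M_nrm2_pos
import Pool.Agent.Helper985.CP.M_pot_props
import Pool.Agent.Helper985.CT.M_insN_props
import Pool.Agent.Helper985.CT.M_near_grid
import Pool.Agent.Helper985.CT.M_state_comb
import Pool.Agent.Helper985.CT.M_trace_bound
import Pool.Agent.Helper985.CT.Defs

set_option autoImplicit false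

open MeasureTheory
open scoped Topology

namespace Pool.Agent.Helper985.CP













section CUaux

variable {S : Type} (D : Species S) {I : Type} [Fintype I] [DecidableEq I] (sp : I → S)

theorem cu_nrm2_ip (Ψ : Wave D I) : ((nrm2 D Ψ : ℝ) : ℂ) = ip D Ψ Ψ := by
  unfold nrm2 ip
  rw [Complex.ofReal_sum]
  refine Finset.sum_congr rfl fun τ _ => ?_
  rw [← integral_complex_ofReal]
  congr 1
  funext x
  rw [Complex.conj_mul']
  push_cast
  rfl

theorem cu_int (ℓ : ℝ) (Φ Ψ : Wave D I) (hΦ : IsState D sp ℓ Φ) (hΨ : IsState D sp ℓ Ψ)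
    (τ : I → Fin D.g) : Integrable (fun x => (starRingEnd ℂ) (Φ τ x) * Ψ τ x) := by
  refine Continuous.integrable_of_hasCompactSupport ?_ ?_
  · exact (Complex.continuous_conj.comp (hΦ.smooth τ).continuous).mul (hΨ.smooth τ).continuous
  · exact (hΨ.compact τ).mul_left

theorem cu_comb (ℓ : ℝ) {k : ℕ} (ψ : Fin k → Wave D I) (hψ : Ortho D sp ℓ ψ) (γ : Fin k → ℂ) :
    nrm2 D (fun τ x => ∑ a, γ a * ψ a τ x) = ∑ a, ‖γ a‖ ^ 2 := by
  have h1 : ((nrm2 D (fun τ x => ∑ a, γ a * ψ a τ x) : ℝ) : ℂ) = ((∑ a, ‖γ a‖ ^ 2 : ℝ) : ℂ) := by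
    rw [cu_nrm2_ip]
    unfold ip
    have h2 : ∀ τ : I → Fin D.g, ∫ x, (starRingEnd ℂ) (∑ a, γ a * ψ a τ x) * ∑ a, γ a * ψ a τ x
        = ∑ a, ∑ b, ((starRingEnd ℂ) (γ a) * γ b) *
          ∫ x, (starRingEnd ℂ) (ψ a τ x) * ψ b τ x := by
      intro τ
      have h3 : ∀ x, (starRingEnd ℂ) (∑ a, γ a * ψ a τ x) * ∑ a, γ a * ψ a τ x =
          ∑ a, ∑ b, ((starRingEnd ℂ) (γ a) * γ b) * ((starRingEnd ℂ) (ψ a τ x) * ψ b τ x) := by
        intro x
        rw [map_sum, Finset.sum_mul_sum]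
        refine Finset.sum_congr rfl fun a _ => Finset.sum_congr rfl fun b _ => ?_
        rw [map_mul]
        ring
      simp_rw [h3]
      rw [integral_finset_sum]
      · refine Finset.sum_congr rfl fun a _ => ?_
        rw [integral_finset_sum]
        · refine Finset.sum_congr rfl fun b _ => ?_
          rw [integral_const_mul]
        · intro b _
          exact (cu_int D sp ℓ _ _ (hψ.1 a) (hψ.1 b) τ).const_mul _
      · intro a _
        refine integrable_finset_sum _ fun b _ => ?_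
        exact (cu_int D sp ℓ _ _ (hψ.1 a) (hψ.1 b) τ).const_mul _
    rw [Finset.sum_congr rfl fun τ _ => h2 τ]
    rw [Finset.sum_comm]
    have h4 : ∀ a : Fin k, ∑ τ : I → Fin D.g, ∑ b, ((starRingEnd ℂ) (γ a) * γ b) *
          ∫ x, (starRingEnd ℂ) (ψ a τ x) * ψ b τ x =
        ∑ b, ((starRingEnd ℂ) (γ a) * γ b) * ip D (ψ a) (ψ b) := by
      intro a
      rw [Finset.sum_comm]
      refine Finset.sum_congr rfl fun b _ => ?_
      unfold ip
      rw [Finset.mul_sum]
    rw [Finset.sum_congr rfl fun a _ => h4 a]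
    push_cast
    refine Finset.sum_congr rfl fun a _ => ?_
    rw [Finset.sum_eq_single a]
    · rw [hψ.2 a a, if_pos rfl, mul_one, Complex.conj_mul']
    · intro b _ hb
      rw [hψ.2 a b, if_neg (Ne.symm hb), mul_zero]
    · intro h
      exact absurd (Finset.mem_univ a) h
  exact_mod_cast h1

theorem cu_nrm2_one (ℓ : ℝ) {k : ℕ} (ψ : Fin k → Wave D I) (hψ : Ortho D sp ℓ ψ) (j : Fin k) :
    nrm2 D (ψ j) = 1 := by
  have h := cu_nrm2_ip D (ψ j)
  rw [hψ.2 j j, if_pos rfl] at h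
  exact_mod_cast h

theorem cu_nrm2_nonneg (Ψ : Wave D I) : 0 ≤ nrm2 D Ψ :=
  Finset.sum_nonneg fun τ _ => integral_nonneg fun x => by positivity

theorem cu_int_ind (r : ℝ) (x0 : E3) (g : (I → E3) → ℝ) (hg : Integrable g) :
    Integrable (fun x : I → E3 =>
      (∑ i, Set.indicator (Metric.ball x0 (2 * r)) (fun _ => (1 : ℝ)) (x i)) * g x) := by
  refine hg.bdd_mul (c := (Fintype.card I : ℝ)) ?_ ?_
  · refine Measurable.aestronglyMeasurable ?_
    refine Finset.measurable_sum _ fun i _ => ?_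
    exact (measurable_const.indicator Metric.isOpen_ball.measurableSet).comp
      (measurable_pi_apply i)
  · refine Filter.Eventually.of_forall fun x => ?_
    rw [Real.norm_eq_abs, abs_of_nonneg]
    · calc ∑ i, Set.indicator (Metric.ball x0 (2 * r)) (fun _ => (1 : ℝ)) (x i)
          ≤ ∑ i : I, (1 : ℝ) := Finset.sum_le_sum fun i _ => by
            by_cases h : x i ∈ Metric.ball x0 (2 * r)
            · rw [Set.indicator_of_mem h]
            · rw [Set.indicator_of_notMem h]; exact zero_le_one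
        _ = (Fintype.card I : ℝ) := by simp
    · refine Finset.sum_nonneg fun i _ => ?_
      exact Set.indicator_nonneg (fun _ _ => zero_le_one) _

theorem cu_eq_zero (ℓ : ℝ) (Ψ : Wave D I) (hΨ : IsState D sp ℓ Ψ) (h : nrm2 D Ψ = 0) :
    energy D sp Ψ = 0 := by
  have h0 : Ψ = 0 := by
    by_contra hne
    exact absurd h (nrm2_pos D sp ℓ Ψ hΨ hne).ne'
  subst h0
  unfold energy
  refine Finset.sum_eq_zero fun τ _ => ?_
  have : ∀ x : I → E3, (∑ i, kin D sp i ((0 : Wave D I) τ) x) +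
      coul D sp x * ‖(0 : Wave D I) τ x‖ ^ 2 = 0 := by
    intro x
    have h1 : ∀ i, kin D sp i ((0 : Wave D I) τ) x = 0 := by
      intro i
      unfold kin
      have : fderiv ℝ ((0 : Wave D I) τ) x = 0 := by
        have : ((0 : Wave D I) τ) = fun _ => (0 : ℂ) := rfl
        rw [this]
        exact fderiv_const_apply _
      rw [this]
      simp
    rw [Finset.sum_eq_zero fun i _ => h1 i]
    simp
  simp_rw [this]
  simp

/-- convexity -/
theorem cu_conv (p q a b ν T : ℝ) (hT : 0 < T) (hp : 0 ≤ p) (hq : 0 ≤ q) (hpq : p + q = 1)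
    (ha : q = 0 → a = 0) (hb : p = 0 → b = 0) :
    Real.exp ((-a - b + ν * p) / T) ≤
      q * Real.exp (-a / (q * T)) + Real.exp (ν / T) * (p * Real.exp (-b / (p * T))) := by
  rcases eq_or_lt_of_le hq with hq0 | hq0
  · have h1 : p = 1 := by linarith
    have h2 := ha hq0.symm
    subst h2
    rw [← hq0, h1]
    rw [zero_mul, zero_add, one_mul, one_mul, ← Real.exp_add]
    apply le_of_eq
    congr 1
    field_simp
    ring
  rcases eq_or_lt_of_le hp with hp0 | hp0
  · have h1 : q = 1 := by linarith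
    have h2 := hb hp0.symm
    subst h2
    rw [← hp0, h1]
    rw [zero_mul, mul_zero, add_zero, one_mul, one_mul]
    apply le_of_eq
    congr 1
    ring
  have hc := convexOn_exp.2 (Set.mem_univ (-a / (q * T))) (Set.mem_univ (ν / T + -b / (p * T)))
    hq hp (by linarith)
  simp only [smul_eq_mul] at hc
  have e1 : (-a - b + ν * p) / T = q * (-a / (q * T)) + p * (ν / T + -b / (p * T)) := by
    field_simp
    ring
  rw [e1]
  refine hc.trans (le_of_eq ?_)
  rw [Real.exp_add]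
  ring

end CUaux

section CUins

variable {S : Type} [DecidableEq S] (D : Species S) {I : Type} [Fintype I] [DecidableEq I]
  (sp : I → S)

theorem cu_insN_lin (s : S) (σ0 : Fin D.g) (φ : E3 → ℝ) {k : ℕ} (v : Fin k → Wave D I)
    (γ : Fin k → ℂ) :
    insN D sp s σ0 φ (fun τ x => ∑ a, γ a * v a τ x) =
      fun τ x => ∑ a, γ a * insN D sp s σ0 φ (v a) τ x := by
  funext τ x
  unfold insN ins1
  have h0 : ∀ (τ : Option I → Fin D.g) (x : Option I → E3),
      ins0 D σ0 φ (fun τ x => ∑ a, γ a * v a τ x) τ x = ∑ a, γ a * ins0 D σ0 φ (v a) τ x := by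
    intro τ x
    unfold ins0
    by_cases h : τ none = σ0
    · simp only [h, if_true]
      rw [Finset.mul_sum]
      refine Finset.sum_congr rfl fun a _ => ?_
      ring
    · simp only [h, if_false, mul_zero, Finset.sum_const_zero]
  simp only [h0]
  have h1 : ∀ i : I, (if sp i = s then
      exch D s * ∑ a, γ a * ins0 D σ0 φ (v a) (fun k => τ (Equiv.swap none (some i) k))
        (fun k => x (Equiv.swap none (some i) k)) else 0) =
      ∑ a, γ a * (if sp i = s then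
      exch D s * ins0 D σ0 φ (v a) (fun k => τ (Equiv.swap none (some i) k))
        (fun k => x (Equiv.swap none (some i) k)) else 0) := by
    intro i
    by_cases h : sp i = s
    · simp only [h, if_true]
      rw [Finset.mul_sum]
      refine Finset.sum_congr rfl fun a _ => ?_
      ring
    · simp only [h, if_false, mul_zero, Finset.sum_const_zero]
  rw [Finset.sum_congr rfl fun i _ => h1 i, Finset.sum_comm, ← Finset.sum_add_distrib,
    Finset.mul_sum]
  refine Finset.sum_congr rfl fun a _ => ?_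
  rw [← Finset.mul_sum]
  ring

end CUins


section CUmain

variable {S : Type} [Fintype S] [DecidableEq S] (D : Species S) {I : Type} [Fintype I]
  [DecidableEq I] (sp : I → S)

/-- mass bound -/
theorem cu_mass (hD : D.Valid) (s : S) :
    0 < 1 / (2 * D.mass s) ∧ 1 / (2 * D.mass s) ≤ ∑ s, 1 / (2 * D.mass s) := by
  have hpos : ∀ s, 0 < 1 / (2 * D.mass s) := fun s => by
    have := hD.mass_pos s
    positivity
  exact ⟨hpos s, Finset.single_le_sum (f := fun s => 1 / (2 * D.mass s))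
    (fun i _ => (hpos i).le) (Finset.mem_univ s)⟩

/-- the insertion of a pair -/
theorem cu_pair (hD : D.Valid) (r : ℝ) (a b : S) (hab : D.charge b = -D.charge a)
    (ℓ : ℝ) (x0 : E3) (hx0 : Metric.closedBall x0 r ⊆ cube ℓ) (φ : E3 → ℝ)
    (hφ : ContDiff ℝ SM φ) (hφc : HasCompactSupport φ)
    (hφs : tsupport φ ⊆ Metric.closedBall x0 r) (hφ1 : ∫ z, φ z ^ 2 = 1) (Tb : ℝ)
    (hTb : grad2 φ ≤ Tb) (σa σb : Fin D.g) (hσa : σa ∈ D.spin a) (hσb : σb ∈ D.spin b)
    (Ψ : Wave D I) (hΨ : IsState D sp ℓ Ψ)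
    (hv : ∀ τ x i, x i ∈ Metric.closedBall x0 r → Ψ τ x = 0) :
    IsState D (fun o : Option (Option I) => o.elim b (fun o' => o'.elim a sp)) ℓ
      (insN D (fun o' : Option I => o'.elim a sp) b σb φ (insN D sp a σa φ Ψ)) ∧
    nrm2 D (insN D (fun o' : Option I => o'.elim a sp) b σb φ (insN D sp a σa φ Ψ)) =
      nrm2 D Ψ ∧
    energy D (fun o : Option (Option I) => o.elim b (fun o' => o'.elim a sp))
      (insN D (fun o' : Option I => o'.elim a sp) b σb φ (insN D sp a σa φ Ψ)) ≤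
      energy D sp Ψ + 2 * (∑ s, 1 / (2 * D.mass s)) * Tb * nrm2 D Ψ := by
  have hne : b ≠ a := by
    intro h
    subst h
    have h1 := hD.charge_ne b
    apply h1
    linarith
  obtain ⟨h1, h2, h3, h4, h5⟩ := insN_props D hD sp ℓ a σa hσa φ hφ hφc (hφs.trans hx0) hφ1 Ψ hΨ
    (fun τ x i _ hx => hv τ x i (hφs hx))
  obtain ⟨g1, g2, g3, g4, g5⟩ := insN_props D hD (fun o' : Option I => o'.elim a sp) ℓ b σb hσb φ
    hφ hφc (hφs.trans hx0) hφ1 (insN D sp a σa φ Ψ) h1 (by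
      intro τ x i hi hx
      cases i with
      | none => exact absurd hi.symm hne
      | some i =>
        exact h5 b hne (tsupport φ) (fun τ x i _ hx => hv τ x i (hφs hx)) τ x i hi hx)
  refine ⟨g1, g2.trans h2, ?_⟩
  have hm := h4 (pot φ) (pot_props φ hφ hφc).1
  have hp0 : 0 ≤ ∫ z, pot φ z * φ z ^ 2 :=
    integral_nonneg fun z => mul_nonneg ((pot_props φ hφ hφc).2 z) (sq_nonneg _)
  have hn := cu_nrm2_nonneg D Ψ
  have hma := cu_mass D hD a
  have hmb := cu_mass D hD b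
  have hg0 : 0 ≤ grad2 φ := integral_nonneg fun z => Finset.sum_nonneg fun k _ => sq_nonneg _
  rw [g3, hm, h3, h2, hab]
  have e1 : (1 / (2 * D.mass a)) * grad2 φ * nrm2 D Ψ ≤
      (∑ s, 1 / (2 * D.mass s)) * Tb * nrm2 D Ψ := by
    refine mul_le_mul_of_nonneg_right ?_ hn
    exact mul_le_mul hma.2 hTb hg0 (hma.1.le.trans hma.2)
  have e2 : (1 / (2 * D.mass b)) * grad2 φ * nrm2 D Ψ ≤
      (∑ s, 1 / (2 * D.mass s)) * Tb * nrm2 D Ψ := by
    refine mul_le_mul_of_nonneg_right ?_ hn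
    exact mul_le_mul hmb.2 hTb hg0 (hmb.1.le.trans hmb.2)
  have e3 : 0 ≤ D.charge a ^ 2 * (∫ z, pot φ z * φ z ^ 2) * nrm2 D Ψ := by positivity
  nlinarith [e1, e2, e3]

end CUmain

/-- the inequality at one centre, adding a pair -/
theorem center_upper {S : Type} [Fintype S] [DecidableEq S] (D : Species S) (hD : D.Valid)
    (r T : ℝ) (hr : 0 < r) (hT : 0 < T) : ∃ C : ℝ, 1 ≤ C ∧ ∀ (a b : S),
      D.charge b = -D.charge a → ∀ {I : Type} [Fintype I] [DecidableEq I] (sp : I → S)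
        (ℓ : ℝ) (x0 : E3), Metric.closedBall x0 r ⊆ cube ℓ → ∀ Z Z' : ℝ,
        (∀ z ∈ peierls D sp ℓ T, z ≤ Z) →
        (∀ z ∈ peierls D (fun o : Option (Option I) => o.elim b (fun o' => o'.elim a sp)) ℓ T,
          z ≤ Z') →
        ∀ {k : ℕ} (ψ : Fin k → Wave D I), Ortho D sp ℓ ψ → ∀ ν : ℝ, 0 ≤ ν →
          ∑ j, Real.exp ((-(energy D sp (ψ j)) - C - (ν + C) * near D r x0 (ψ j) + ν) / T) ≤
            C * Z + C * Real.exp (C * ν / T) * Z' := by
  obtain ⟨Cc, hCc, hcut⟩ := exists_cut r hr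
  obtain ⟨Tb, hTb, hbump⟩ := exists_bump r hr
  set M : ℝ := ∑ s, 1 / (2 * D.mass s) with hM
  have hM0 : 0 ≤ M := Finset.sum_nonneg fun s _ => by
    have := hD.mass_pos s
    positivity
  have hC1 : 0 ≤ Cc * M := by positivity
  have hC2 : 0 ≤ 2 * M * Tb := by positivity
  refine ⟨1 + Cc * M + 2 * M * Tb, by linarith, ?_⟩
  set C : ℝ := 1 + Cc * M + 2 * M * Tb with hC
  intro a b hab I _ _ sp ℓ x0 hx0 Z Z' hZ hZ' k ψ hψ ν hν
  obtain ⟨θ, hθ, hθs, hθ1, hθ2, hθ3⟩ := hcut (I := I) x0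
  obtain ⟨φ, hφ, hφc, hφs, hφ1, hφT⟩ := hbump x0
  obtain ⟨σa, hσa⟩ := hD.spin_nonempty a
  obtain ⟨σb, hσb⟩ := hD.spin_nonempty b
  have hZ0 : 0 ≤ Z := hZ 0 ⟨0, Fin.elim0, ⟨fun i => i.elim0, fun i => i.elim0⟩, by simp⟩
  have hZ0' : 0 ≤ Z' := hZ' 0 ⟨0, Fin.elim0, ⟨fun i => i.elim0, fun i => i.elim0⟩, by simp⟩
  -- the operations
  let V : Wave D I → Wave D I := fun Ψ τ x => ((Real.cos (θ x) : ℝ) : ℂ) * Ψ τ x
  let W : Wave D I → Wave D I := fun Ψ τ x => ((Real.sin (θ x) : ℝ) : ℂ) * Ψ τ x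
  let P : Wave D I → Wave D (Option (Option I)) := fun Ψ =>
    insN D (fun o' : Option I => o'.elim a sp) b σb φ (insN D sp a σa φ (V Ψ))
  have hims := fun (Ψ : Wave D I) (hΨ : IsState D sp ℓ Ψ) => ims D sp ℓ Ψ hΨ θ hθ hθs
  have hVv : ∀ (Ψ : Wave D I) τ x i, x i ∈ Metric.closedBall x0 r → V Ψ τ x = 0 := by
    intro Ψ τ x i hx
    have h1 := hθ1 x i hx
    show ((Real.cos (θ x) : ℝ) : ℂ) * Ψ τ x = 0
    rw [h1, Real.cos_pi_div_two]
    simp
  have hP : ∀ Ψ : Wave D I, IsState D sp ℓ Ψ →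
      IsState D (fun o : Option (Option I) => o.elim b (fun o' => o'.elim a sp)) ℓ (P Ψ) ∧
      nrm2 D (P Ψ) = nrm2 D (V Ψ) ∧
      energy D (fun o : Option (Option I) => o.elim b (fun o' => o'.elim a sp)) (P Ψ) ≤
        energy D sp (V Ψ) + 2 * M * Tb * nrm2 D (V Ψ) := fun Ψ hΨ =>
    cu_pair D sp hD r a b hab ℓ x0 hx0 φ hφ hφc hφs hφ1 Tb hφT σa σb hσa hσb (V Ψ)
      (hims Ψ hΨ).1 (hVv Ψ)
  -- Bessel bounds
  have hBW : ∀ γ : Fin k → ℂ, nrm2 D (fun τ x => ∑ j, γ j * W (ψ j) τ x) ≤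
      1 * ∑ j, ‖γ j‖ ^ 2 := by
    intro γ
    have h1 := (hims _ (state_comb D sp ℓ ψ hψ.1 γ)).2.2.1
    have h2 := cu_comb D sp ℓ ψ hψ γ
    have h3 := cu_nrm2_nonneg D (V (fun τ x => ∑ j, γ j * ψ j τ x))
    have h4 : (fun τ x => ∑ j, γ j * W (ψ j) τ x) = W (fun τ x => ∑ j, γ j * ψ j τ x) := by
      funext τ x
      show ∑ j, γ j * (((Real.sin (θ x) : ℝ) : ℂ) * ψ j τ x) =
        ((Real.sin (θ x) : ℝ) : ℂ) * ∑ j, γ j * ψ j τ x
      rw [Finset.mul_sum]
      exact Finset.sum_congr rfl fun j _ => by ring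
    rw [h4]
    have h5 : nrm2 D (V (fun τ x => ∑ j, γ j * ψ j τ x)) +
        nrm2 D (W (fun τ x => ∑ j, γ j * ψ j τ x)) = nrm2 D (fun τ x => ∑ j, γ j * ψ j τ x) := h1
    linarith
  have hBP : ∀ γ : Fin k → ℂ, nrm2 D (fun τ x => ∑ j, γ j * P (ψ j) τ x) ≤
      1 * ∑ j, ‖γ j‖ ^ 2 := by
    intro γ
    have hst := state_comb D sp ℓ ψ hψ.1 γ
    have h1 := (hims _ hst).2.2.1
    have h2 := cu_comb D sp ℓ ψ hψ γ
    have h3 := cu_nrm2_nonneg D (W (fun τ x => ∑ j, γ j * ψ j τ x))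
    have h4 : (fun τ x => ∑ j, γ j * P (ψ j) τ x) = P (fun τ x => ∑ j, γ j * ψ j τ x) := by
      have h6 : V (fun τ x => ∑ j, γ j * ψ j τ x) = fun τ x => ∑ j, γ j * V (ψ j) τ x := by
        funext τ x
        show ((Real.cos (θ x) : ℝ) : ℂ) * ∑ j, γ j * ψ j τ x =
          ∑ j, γ j * (((Real.cos (θ x) : ℝ) : ℂ) * ψ j τ x)
        rw [Finset.mul_sum]
        exact Finset.sum_congr rfl fun j _ => by ring
      show _ = insN D (fun o' : Option I => o'.elim a sp) b σb φ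
        (insN D sp a σa φ (V (fun τ x => ∑ j, γ j * ψ j τ x)))
      rw [h6, cu_insN_lin D sp a σa φ (fun j => V (ψ j)) γ,
        cu_insN_lin D (fun o' : Option I => o'.elim a sp) b σb φ
          (fun j => insN D sp a σa φ (V (ψ j))) γ]
    rw [h4, (hP _ hst).2.1]
    have h5 : nrm2 D (V (fun τ x => ∑ j, γ j * ψ j τ x)) +
        nrm2 D (W (fun τ x => ∑ j, γ j * ψ j τ x)) = nrm2 D (fun τ x => ∑ j, γ j * ψ j τ x) := h1
    linarith
  have hTW := trace_bound D sp ℓ T hT Z hZ (fun j => W (ψ j))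
    (fun j => (hims _ (hψ.1 j)).2.1) 1 zero_le_one hBW
  have hTP := trace_bound D (fun o : Option (Option I) => o.elim b (fun o' => o'.elim a sp)) ℓ T
    hT Z' hZ' (fun j => P (ψ j)) (fun j => (hP _ (hψ.1 j)).1) 1 zero_le_one hBP
  -- one term
  have hterm : ∀ j, Real.exp ((-(energy D sp (ψ j)) - C - (ν + C) * near D r x0 (ψ j) + ν) / T) ≤
      nrm2 D (W (ψ j)) * Real.exp (-(energy D sp (W (ψ j))) / (nrm2 D (W (ψ j)) * T)) +
      Real.exp (ν / T) * (nrm2 D (P (ψ j)) * Real.exp (-(energy D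
        (fun o : Option (Option I) => o.elim b (fun o' => o'.elim a sp)) (P (ψ j))) /
          (nrm2 D (P (ψ j)) * T))) := by
    intro j
    have hs := hψ.1 j
    obtain ⟨i1, i2, i3, i4⟩ := hims _ hs
    obtain ⟨p1, p2, p3⟩ := hP _ hs
    have hone := cu_nrm2_one D sp ℓ ψ hψ j
    have hVn := cu_nrm2_nonneg D (V (ψ j))
    have hWn := cu_nrm2_nonneg D (W (ψ j))
    have i3' : nrm2 D (V (ψ j)) + nrm2 D (W (ψ j)) = 1 := by rw [← hone]; exact i3
    have hint : ∀ τ, Integrable (fun x => ‖ψ j τ x‖ ^ 2) := fun τ =>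
      (int_state D sp ℓ (ψ j) hs τ).1
    have hq : nrm2 D (W (ψ j)) ≤ near D r x0 (ψ j) := by
      unfold nrm2 near
      refine Finset.sum_le_sum fun τ _ => ?_
      refine integral_mono_of_nonneg (Filter.Eventually.of_forall fun x => by positivity)
        (cu_int_ind r x0 _ (hint τ)) (Filter.Eventually.of_forall fun x => ?_)
      show ‖((Real.sin (θ x) : ℝ) : ℂ) * ψ j τ x‖ ^ 2 ≤ _
      rw [norm_mul, mul_pow, Complex.norm_real, Real.norm_eq_abs, sq_abs]
      exact mul_le_mul_of_nonneg_right (hθ2 x) (by positivity)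
    have hK : ∑ τ, ∫ x, (∑ i, (1 / (2 * D.mass (sp i))) * ∑ k : Fin 3,
        (fderiv ℝ θ x (Pi.single i (EuclideanSpace.single k (1 : ℝ)))) ^ 2) * ‖ψ j τ x‖ ^ 2 ≤
        Cc * M * near D r x0 (ψ j) := by
      unfold near
      rw [Finset.mul_sum]
      refine Finset.sum_le_sum fun τ _ => ?_
      rw [← integral_const_mul]
      refine integral_mono_of_nonneg (Filter.Eventually.of_forall fun x => ?_)
        ((cu_int_ind r x0 _ (hint τ)).const_mul _) (Filter.Eventually.of_forall fun x => ?_)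
      · refine mul_nonneg (Finset.sum_nonneg fun i _ => mul_nonneg ?_ ?_) (by positivity)
        · exact (cu_mass D hD (sp i)).1.le
        · exact Finset.sum_nonneg fun k _ => sq_nonneg _
      · show (∑ i, (1 / (2 * D.mass (sp i))) * ∑ k : Fin 3,
          (fderiv ℝ θ x (Pi.single i (EuclideanSpace.single k (1 : ℝ)))) ^ 2) * ‖ψ j τ x‖ ^ 2 ≤
          Cc * M * ((∑ i, Set.indicator (Metric.ball x0 (2 * r)) (fun _ => (1 : ℝ)) (x i)) *
            ‖ψ j τ x‖ ^ 2)
        rw [← mul_assoc]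
        refine mul_le_mul_of_nonneg_right ?_ (by positivity)
        rw [Finset.mul_sum]
        refine Finset.sum_le_sum fun i _ => ?_
        have hm := cu_mass D hD (sp i)
        have h3 := hθ3 x i
        have h0 : 0 ≤ ∑ k : Fin 3,
          (fderiv ℝ θ x (Pi.single i (EuclideanSpace.single k (1 : ℝ)))) ^ 2 :=
          Finset.sum_nonneg fun k _ => sq_nonneg _
        calc (1 / (2 * D.mass (sp i))) * ∑ k : Fin 3,
            (fderiv ℝ θ x (Pi.single i (EuclideanSpace.single k (1 : ℝ)))) ^ 2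
            ≤ M * (Cc * Set.indicator (Metric.ball x0 (2 * r)) (fun _ => (1 : ℝ)) (x i)) :=
              mul_le_mul hm.2 h3 h0 hM0
          _ = _ := by ring
    have hnear0 : 0 ≤ near D r x0 (ψ j) := hWn.trans hq
    have i4' : energy D sp (V (ψ j)) + energy D sp (W (ψ j)) ≤
        energy D sp (ψ j) + Cc * M * near D r x0 (ψ j) := by
      have h7 : energy D sp (V (ψ j)) + energy D sp (W (ψ j)) = energy D sp (ψ j) +
        ∑ τ, ∫ x, (∑ i, (1 / (2 * D.mass (sp i))) * ∑ k : Fin 3,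
        (fderiv ℝ θ x (Pi.single i (EuclideanSpace.single k (1 : ℝ)))) ^ 2) * ‖ψ j τ x‖ ^ 2 := i4
      rw [h7]
      linarith
    have hconv := cu_conv (nrm2 D (P (ψ j))) (nrm2 D (W (ψ j)))
      (energy D sp (W (ψ j)))
      (energy D (fun o : Option (Option I) => o.elim b (fun o' => o'.elim a sp)) (P (ψ j))) ν T hT
      (by rw [p2]; exact hVn) hWn (by rw [p2]; exact i3')
      (fun h => cu_eq_zero D sp ℓ _ i2 h) (fun h => cu_eq_zero D _ ℓ _ p1 h)
    refine le_trans (Real.exp_le_exp.2 ?_) hconv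
    refine div_le_div_of_nonneg_right ?_ hT.le
    rw [p2]
    have hp1 : nrm2 D (V (ψ j)) ≤ 1 := by linarith
    have hn1 : 2 * M * Tb * nrm2 D (V (ψ j)) ≤ 2 * M * Tb * 1 :=
      mul_le_mul_of_nonneg_left hp1 hC2
    have hn2 : ν * (1 - near D r x0 (ψ j)) ≤ ν * nrm2 D (V (ψ j)) :=
      mul_le_mul_of_nonneg_left (by linarith) hν
    have hn3 : 0 ≤ (1 + 2 * M * Tb) * near D r x0 (ψ j) := by positivity
    have hCe : C * near D r x0 (ψ j) = Cc * M * near D r x0 (ψ j) +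
      (1 + 2 * M * Tb) * near D r x0 (ψ j) := by rw [hC]; ring
    nlinarith [hn1, hn2, hn3, hCe, i4', p3]
  have hE1 : Real.exp (ν / T) ≤ C * Real.exp (C * ν / T) := by
    have h1 : Real.exp (ν / T) ≤ Real.exp (C * ν / T) := by
      refine Real.exp_le_exp.2 (div_le_div_of_nonneg_right ?_ hT.le)
      have : 1 ≤ C := by rw [hC]; linarith
      nlinarith
    have h2 : 1 * Real.exp (C * ν / T) ≤ C * Real.exp (C * ν / T) :=
      mul_le_mul_of_nonneg_right (by rw [hC]; linarith) (Real.exp_pos _).le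
    linarith
  calc ∑ j, Real.exp ((-(energy D sp (ψ j)) - C - (ν + C) * near D r x0 (ψ j) + ν) / T)
      ≤ ∑ j, (nrm2 D (W (ψ j)) * Real.exp (-(energy D sp (W (ψ j))) / (nrm2 D (W (ψ j)) * T)) +
      Real.exp (ν / T) * (nrm2 D (P (ψ j)) * Real.exp (-(energy D
        (fun o : Option (Option I) => o.elim b (fun o' => o'.elim a sp)) (P (ψ j))) /
          (nrm2 D (P (ψ j)) * T)))) := Finset.sum_le_sum fun j _ => hterm j
    _ ≤ 1 * Z + Real.exp (ν / T) * (1 * Z') := by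
      rw [Finset.sum_add_distrib, ← Finset.mul_sum]
      exact add_le_add hTW (mul_le_mul_of_nonneg_left hTP (Real.exp_pos _).le)
    _ ≤ C * Z + C * Real.exp (C * ν / T) * Z' := by
      have h1 : 1 * Z ≤ C * Z := mul_le_mul_of_nonneg_right (by rw [hC]; linarith) hZ0
      have h2 : Real.exp (ν / T) * Z' ≤ C * Real.exp (C * ν / T) * Z' :=
        mul_le_mul_of_nonneg_right hE1 hZ0'
      linarith

end Pool.Agent.Helper985.CP
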