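import Pool.Agent.Helper985.CP.M_exists_bump
import Pool.Agent.Helper985.CP.M_exists_cut
import Pool.Agent.Helper985.CP.M_ims
import Pool.Agent.Helper985.CP.M_int_state
import Pool.Agent.Helper985.CP.M_nrm2_pos
import Pool.Agent.Helper985.CP.M_pot_props
import Pool.Agent.Helper985.CT.M_center_upper
import Pool.Agent.Helper985.CT.M_insN_props
import Pool.Agent.Helper985.CT.M_near_grid
import Pool.Agent.Helper985.CT.M_state_comb
import Pool.Agent.Helper985.CT.M_trace_bound
import Pool.Agent.Helper985.CT.Defs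

set_option autoImplicit false

open MeasureTheory
open scoped Topology

namespace Pool.Agent.Helper985.CP













-- auxiliary for multi_upper
theorem mu_supp_b {S : Type} [DecidableEq S] (D : Species S) {I : Type} [Fintype I] [DecidableEq I]
    (sp1 : I → S) (b : S) (σ : Fin D.g) (φ : E3 → ℝ) (K : Set E3) (hφs : tsupport φ ⊆ K)
    (hb : ∀ i, sp1 i ≠ b) (Φ : Wave D I) (τ : Option I → Fin D.g) (x : Option I → E3)
    (h : x none ∉ K) : insN D sp1 b σ φ Φ τ x = 0 := by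
  have h0 : φ (x none) = 0 := by
    by_contra hne
    exact h (hφs (subset_tsupport φ hne))
  have e0 : ins0 D σ φ Φ τ x = 0 := by
    unfold ins0
    split_ifs
    · rw [h0]; simp
    · rfl
  unfold insN ins1
  rw [e0]
  have e1 : ∀ i : I, (if sp1 i = b then
    exch D b * ins0 D σ φ Φ (fun k => τ (Equiv.swap none (some i) k))
      (fun k => x (Equiv.swap none (some i) k)) else 0) = 0 := fun i => if_neg (hb i)
  rw [Finset.sum_eq_zero fun i _ => e1 i]
  simp

theorem mu_supp_a {S : Type} [DecidableEq S] (D : Species S) {I : Type} [Fintype I] [DecidableEq I]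
    (sp : I → S) (a b : S) (hab : a ≠ b) (σa σb : Fin D.g) (φ : E3 → ℝ) (K : Set E3)
    (hφs : tsupport φ ⊆ K) (ha : ∀ i, sp i ≠ a) (Ψ : Wave D I)
    (τ : Option (Option I) → Fin D.g) (x : Option (Option I) → E3) (h : x (some none) ∉ K) :
    insN D (fun o' : Option I => o'.elim a sp) b σb φ (insN D sp a σa φ Ψ) τ x = 0 := by
  have hin : ∀ (τ' : Option I → Fin D.g) (x' : Option I → E3), x' none ∉ K →
      insN D sp a σa φ Ψ τ' x' = 0 := fun τ' x' h' =>
    mu_supp_b D sp a σa φ K hφs ha Ψ τ' x' h'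
  have e0 : ins0 D σb φ (insN D sp a σa φ Ψ) τ x = 0 := by
    unfold ins0
    split_ifs
    · rw [hin _ _ h]; simp
    · rfl
  unfold insN at e0 ⊢
  unfold ins1 at e0 ⊢
  rw [show ins0 D σb φ (fun τ x => ((1 / Real.sqrt ((cnt sp a : ℝ) + 1) : ℝ) : ℂ) *
      (ins0 D σa φ Ψ τ x + ∑ i, if sp i = a then
    exch D a * ins0 D σa φ Ψ (fun k => τ (Equiv.swap none (some i) k))
      (fun k => x (Equiv.swap none (some i) k)) else 0)) τ x = 0 from e0]
  rw [Finset.sum_eq_zero, add_zero, mul_zero]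
  intro i _
  cases i with
  | none =>
    rw [if_neg]
    exact hab
  | some i =>
    split_ifs with hi
    · have e1 : ins0 D σb φ (insN D sp a σa φ Ψ) (fun k => τ (Equiv.swap none (some (some i)) k))
        (fun k => x (Equiv.swap none (some (some i)) k)) = 0 := by
        unfold ins0
        split_ifs
        · rw [hin]
          · simp
          · have : Equiv.swap (none : Option (Option I)) (some (some i)) (some none) = some none :=
              Equiv.swap_apply_of_ne_of_ne (by simp) (by simp)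
            show x (Equiv.swap none (some (some i)) (some none)) ∉ K
            rw [this]
            exact h
        · rfl
      unfold insN at e1
      unfold ins1 at e1
      rw [e1, mul_zero]
    · rfl

theorem mu_center {S : Type} [Fintype S] [DecidableEq S] (D : Species S) (hD : D.Valid)
    (r T : ℝ) (hr : 0 < r) (hT : 0 < T) : ∃ C : ℝ, 1 ≤ C ∧ ∀ (a b : S),
      D.charge b = -D.charge a → ∀ {I : Type} [Fintype I] [DecidableEq I] (sp : I → S)
        (ℓ : ℝ) (x0 : E3), Metric.closedBall x0 r ⊆ cube ℓ → 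
        ∀ {k : ℕ} (ψ : Fin k → Wave D I), Ortho D sp ℓ ψ → ∀ ν : ℝ, 0 ≤ ν →
          ∃ (W' : Fin k → Wave D I) (P' : Fin k → Wave D (Option (Option I))),
            (∀ j, IsState D sp ℓ (W' j)) ∧
            (∀ j, IsState D (fun o : Option (Option I) => o.elim b (fun o' => o'.elim a sp)) ℓ (P' j)) ∧
            (∀ γ : Fin k → ℂ, nrm2 D (fun τ x => ∑ j, γ j * W' j τ x) ≤ 1 * ∑ j, ‖γ j‖ ^ 2) ∧
            (∀ γ : Fin k → ℂ, nrm2 D (fun τ x => ∑ j, γ j * P' j τ x) ≤ 1 * ∑ j, ‖γ j‖ ^ 2) ∧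
            (∀ j, Real.exp ((-(energy D sp (ψ j)) - C - (ν + C) * near D r x0 (ψ j) + ν) / T) ≤
              nrm2 D (W' j) * Real.exp (-(energy D sp (W' j)) / (nrm2 D (W' j) * T)) +
              Real.exp (ν / T) * (nrm2 D (P' j) * Real.exp (-(energy D
                (fun o : Option (Option I) => o.elim b (fun o' => o'.elim a sp)) (P' j)) /
                  (nrm2 D (P' j) * T)))) ∧
            ((∀ i, sp i ≠ a) → ∀ j τ x, x (some none) ∉ Metric.closedBall x0 r → P' j τ x = 0) ∧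
            ((∀ i, sp i ≠ b) → ∀ j τ x, x none ∉ Metric.closedBall x0 r → P' j τ x = 0) := by
  obtain ⟨Cc, hCc, hcut⟩ := exists_cut r hr
  obtain ⟨Tb, hTb, hbump⟩ := exists_bump r hr
  set M : ℝ := ∑ s, 1 / (2 * D.mass s) with hM
  have hM0 : 0 ≤ M := Finset.sum_nonneg fun s _ => by
    have := hD.mass_pos s
    positivity
  have hC1 : 0 ≤ Cc * M := by positivity
  have hC2 : 0 ≤ 2 * M * Tb := by positivity
  refine ⟨1 + Cc * M + 2 * M * Tb, by linarith, ?_⟩
  set C : ℝ := 1 + Cc * M + 2 * M * Tb with hC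
  intro a b hab I _ _ sp ℓ x0 hx0 k ψ hψ ν hν
  obtain ⟨θ, hθ, hθs, hθ1, hθ2, hθ3⟩ := hcut (I := I) x0
  obtain ⟨φ, hφ, hφc, hφs, hφ1, hφT⟩ := hbump x0
  obtain ⟨σa, hσa⟩ := hD.spin_nonempty a
  obtain ⟨σb, hσb⟩ := hD.spin_nonempty b
  -- the operations
  let V : Wave D I → Wave D I := fun Ψ τ x => ((Real.cos (θ x) : ℝ) : ℂ) * Ψ τ x
  let W : Wave D I → Wave D I := fun Ψ τ x => ((Real.sin (θ x) : ℝ) : ℂ) * Ψ τ x
  let P : Wave D I → Wave D (Option (Option I)) := fun Ψ =>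
    insN D (fun o' : Option I => o'.elim a sp) b σb φ (insN D sp a σa φ (V Ψ))
  have hims := fun (Ψ : Wave D I) (hΨ : IsState D sp ℓ Ψ) => ims D sp ℓ Ψ hΨ θ hθ hθs
  have hVv : ∀ (Ψ : Wave D I) τ x i, x i ∈ Metric.closedBall x0 r → V Ψ τ x = 0 := by
    intro Ψ τ x i hx
    have h1 := hθ1 x i hx
    show ((Real.cos (θ x) : ℝ) : ℂ) * Ψ τ x = 0
    rw [h1, Real.cos_pi_div_two]
    simp
  have hP : ∀ Ψ : Wave D I, IsState D sp ℓ Ψ →
      IsState D (fun o : Option (Option I) => o.elim b (fun o' => o'.elim a sp)) ℓ (P Ψ) ∧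
      nrm2 D (P Ψ) = nrm2 D (V Ψ) ∧
      energy D (fun o : Option (Option I) => o.elim b (fun o' => o'.elim a sp)) (P Ψ) ≤
        energy D sp (V Ψ) + 2 * M * Tb * nrm2 D (V Ψ) := fun Ψ hΨ =>
    cu_pair D sp hD r a b hab ℓ x0 hx0 φ hφ hφc hφs hφ1 Tb hφT σa σb hσa hσb (V Ψ)
      (hims Ψ hΨ).1 (hVv Ψ)
  -- Bessel bounds
  have hBW : ∀ γ : Fin k → ℂ, nrm2 D (fun τ x => ∑ j, γ j * W (ψ j) τ x) ≤
      1 * ∑ j, ‖γ j‖ ^ 2 := by
    intro γ
    have h1 := (hims _ (state_comb D sp ℓ ψ hψ.1 γ)).2.2.1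
    have h2 := cu_comb D sp ℓ ψ hψ γ
    have h3 := cu_nrm2_nonneg D (V (fun τ x => ∑ j, γ j * ψ j τ x))
    have h4 : (fun τ x => ∑ j, γ j * W (ψ j) τ x) = W (fun τ x => ∑ j, γ j * ψ j τ x) := by
      funext τ x
      show ∑ j, γ j * (((Real.sin (θ x) : ℝ) : ℂ) * ψ j τ x) =
        ((Real.sin (θ x) : ℝ) : ℂ) * ∑ j, γ j * ψ j τ x
      rw [Finset.mul_sum]
      exact Finset.sum_congr rfl fun j _ => by ring
    rw [h4]
    have h5 : nrm2 D (V (fun τ x => ∑ j, γ j * ψ j τ x)) +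
        nrm2 D (W (fun τ x => ∑ j, γ j * ψ j τ x)) = nrm2 D (fun τ x => ∑ j, γ j * ψ j τ x) := h1
    linarith
  have hBP : ∀ γ : Fin k → ℂ, nrm2 D (fun τ x => ∑ j, γ j * P (ψ j) τ x) ≤
      1 * ∑ j, ‖γ j‖ ^ 2 := by
    intro γ
    have hst := state_comb D sp ℓ ψ hψ.1 γ
    have h1 := (hims _ hst).2.2.1
    have h2 := cu_comb D sp ℓ ψ hψ γ
    have h3 := cu_nrm2_nonneg D (W (fun τ x => ∑ j, γ j * ψ j τ x))
    have h4 : (fun τ x => ∑ j, γ j * P (ψ j) τ x) = P (fun τ x => ∑ j, γ j * ψ j τ x) := by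
      have h6 : V (fun τ x => ∑ j, γ j * ψ j τ x) = fun τ x => ∑ j, γ j * V (ψ j) τ x := by
        funext τ x
        show ((Real.cos (θ x) : ℝ) : ℂ) * ∑ j, γ j * ψ j τ x =
          ∑ j, γ j * (((Real.cos (θ x) : ℝ) : ℂ) * ψ j τ x)
        rw [Finset.mul_sum]
        exact Finset.sum_congr rfl fun j _ => by ring
      show _ = insN D (fun o' : Option I => o'.elim a sp) b σb φ
        (insN D sp a σa φ (V (fun τ x => ∑ j, γ j * ψ j τ x)))
      rw [h6, cu_insN_lin D sp a σa φ (fun j => V (ψ j)) γ,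
        cu_insN_lin D (fun o' : Option I => o'.elim a sp) b σb φ
          (fun j => insN D sp a σa φ (V (ψ j))) γ]
    rw [h4, (hP _ hst).2.1]
    have h5 : nrm2 D (V (fun τ x => ∑ j, γ j * ψ j τ x)) +
        nrm2 D (W (fun τ x => ∑ j, γ j * ψ j τ x)) = nrm2 D (fun τ x => ∑ j, γ j * ψ j τ x) := h1
    linarith
  -- one term
  have hterm : ∀ j, Real.exp ((-(energy D sp (ψ j)) - C - (ν + C) * near D r x0 (ψ j) + ν) / T) ≤
      nrm2 D (W (ψ j)) * Real.exp (-(energy D sp (W (ψ j))) / (nrm2 D (W (ψ j)) * T)) +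
      Real.exp (ν / T) * (nrm2 D (P (ψ j)) * Real.exp (-(energy D
        (fun o : Option (Option I) => o.elim b (fun o' => o'.elim a sp)) (P (ψ j))) /
          (nrm2 D (P (ψ j)) * T))) := by
    intro j
    have hs := hψ.1 j
    obtain ⟨i1, i2, i3, i4⟩ := hims _ hs
    obtain ⟨p1, p2, p3⟩ := hP _ hs
    have hone := cu_nrm2_one D sp ℓ ψ hψ j
    have hVn := cu_nrm2_nonneg D (V (ψ j))
    have hWn := cu_nrm2_nonneg D (W (ψ j))
    have i3' : nrm2 D (V (ψ j)) + nrm2 D (W (ψ j)) = 1 := by rw [← hone]; exact i3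
    have hint : ∀ τ, Integrable (fun x => ‖ψ j τ x‖ ^ 2) := fun τ =>
      (int_state D sp ℓ (ψ j) hs τ).1
    have hq : nrm2 D (W (ψ j)) ≤ near D r x0 (ψ j) := by
      unfold nrm2 near
      refine Finset.sum_le_sum fun τ _ => ?_
      refine integral_mono_of_nonneg (Filter.Eventually.of_forall fun x => by positivity)
        (cu_int_ind r x0 _ (hint τ)) (Filter.Eventually.of_forall fun x => ?_)
      show ‖((Real.sin (θ x) : ℝ) : ℂ) * ψ j τ x‖ ^ 2 ≤ _
      rw [norm_mul, mul_pow, Complex.norm_real, Real.norm_eq_abs, sq_abs]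
      exact mul_le_mul_of_nonneg_right (hθ2 x) (by positivity)
    have hK : ∑ τ, ∫ x, (∑ i, (1 / (2 * D.mass (sp i))) * ∑ k : Fin 3,
        (fderiv ℝ θ x (Pi.single i (EuclideanSpace.single k (1 : ℝ)))) ^ 2) * ‖ψ j τ x‖ ^ 2 ≤
        Cc * M * near D r x0 (ψ j) := by
      unfold near
      rw [Finset.mul_sum]
      refine Finset.sum_le_sum fun τ _ => ?_
      rw [← integral_const_mul]
      refine integral_mono_of_nonneg (Filter.Eventually.of_forall fun x => ?_)
        ((cu_int_ind r x0 _ (hint τ)).const_mul _) (Filter.Eventually.of_forall fun x => ?_)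
      · refine mul_nonneg (Finset.sum_nonneg fun i _ => mul_nonneg ?_ ?_) (by positivity)
        · exact (cu_mass D hD (sp i)).1.le
        · exact Finset.sum_nonneg fun k _ => sq_nonneg _
      · show (∑ i, (1 / (2 * D.mass (sp i))) * ∑ k : Fin 3,
          (fderiv ℝ θ x (Pi.single i (EuclideanSpace.single k (1 : ℝ)))) ^ 2) * ‖ψ j τ x‖ ^ 2 ≤
          Cc * M * ((∑ i, Set.indicator (Metric.ball x0 (2 * r)) (fun _ => (1 : ℝ)) (x i)) *
            ‖ψ j τ x‖ ^ 2)
        rw [← mul_assoc]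
        refine mul_le_mul_of_nonneg_right ?_ (by positivity)
        rw [Finset.mul_sum]
        refine Finset.sum_le_sum fun i _ => ?_
        have hm := cu_mass D hD (sp i)
        have h3 := hθ3 x i
        have h0 : 0 ≤ ∑ k : Fin 3,
          (fderiv ℝ θ x (Pi.single i (EuclideanSpace.single k (1 : ℝ)))) ^ 2 :=
          Finset.sum_nonneg fun k _ => sq_nonneg _
        calc (1 / (2 * D.mass (sp i))) * ∑ k : Fin 3,
            (fderiv ℝ θ x (Pi.single i (EuclideanSpace.single k (1 : ℝ)))) ^ 2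
            ≤ M * (Cc * Set.indicator (Metric.ball x0 (2 * r)) (fun _ => (1 : ℝ)) (x i)) :=
              mul_le_mul hm.2 h3 h0 hM0
          _ = _ := by ring
    have hnear0 : 0 ≤ near D r x0 (ψ j) := hWn.trans hq
    have i4' : energy D sp (V (ψ j)) + energy D sp (W (ψ j)) ≤
        energy D sp (ψ j) + Cc * M * near D r x0 (ψ j) := by
      have h7 : energy D sp (V (ψ j)) + energy D sp (W (ψ j)) = energy D sp (ψ j) +
        ∑ τ, ∫ x, (∑ i, (1 / (2 * D.mass (sp i))) * ∑ k : Fin 3,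
        (fderiv ℝ θ x (Pi.single i (EuclideanSpace.single k (1 : ℝ)))) ^ 2) * ‖ψ j τ x‖ ^ 2 := i4
      rw [h7]
      linarith
    have hconv := cu_conv (nrm2 D (P (ψ j))) (nrm2 D (W (ψ j)))
      (energy D sp (W (ψ j)))
      (energy D (fun o : Option (Option I) => o.elim b (fun o' => o'.elim a sp)) (P (ψ j))) ν T hT
      (by rw [p2]; exact hVn) hWn (by rw [p2]; exact i3')
      (fun h => cu_eq_zero D sp ℓ _ i2 h) (fun h => cu_eq_zero D _ ℓ _ p1 h)
    refine le_trans (Real.exp_le_exp.2 ?_) hconv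
    refine div_le_div_of_nonneg_right ?_ hT.le
    rw [p2]
    have hp1 : nrm2 D (V (ψ j)) ≤ 1 := by linarith
    have hn1 : 2 * M * Tb * nrm2 D (V (ψ j)) ≤ 2 * M * Tb * 1 :=
      mul_le_mul_of_nonneg_left hp1 hC2
    have hn2 : ν * (1 - near D r x0 (ψ j)) ≤ ν * nrm2 D (V (ψ j)) :=
      mul_le_mul_of_nonneg_left (by linarith) hν
    have hn3 : 0 ≤ (1 + 2 * M * Tb) * near D r x0 (ψ j) := by positivity
    have hCe : C * near D r x0 (ψ j) = Cc * M * near D r x0 (ψ j) +
      (1 + 2 * M * Tb) * near D r x0 (ψ j) := by rw [hC]; ring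
    nlinarith [hn1, hn2, hn3, hCe, i4', p3]
  have hne : a ≠ b := by
    intro h
    subst h
    exact hD.charge_ne a (by linarith)
  refine ⟨fun j => W (ψ j), fun j => P (ψ j), fun j => (hims _ (hψ.1 j)).2.1,
    fun j => (hP _ (hψ.1 j)).1, hBW, hBP, hterm, ?_, ?_⟩
  · intro ha j τ x hx
    exact mu_supp_a D sp a b hne σa σb φ _ hφs ha _ τ x hx
  · intro hb j τ x hx
    refine mu_supp_b D (fun o' : Option I => o'.elim a sp) b σb φ _ hφs ?_ _ τ x hx
    intro i
    cases i with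
    | none => exact hne
    | some i => exact hb i

theorem mu_point {A : Type} [Fintype A] (f : A → ℂ)
    (hf : ∀ a b, f a ≠ 0 → f b ≠ 0 → a = b) : ‖∑ a, f a‖ ^ 2 = ∑ a, ‖f a‖ ^ 2 := by
  by_cases h : ∃ a0, f a0 ≠ 0
  · obtain ⟨a0, h0⟩ := h
    have hz : ∀ b, b ≠ a0 → f b = 0 := by
      intro b hb
      by_contra hne
      exact hb (hf b a0 hne h0)
    rw [Finset.sum_eq_single a0 (fun b _ hb => hz b hb) (fun h => absurd (Finset.mem_univ _) h),
      Finset.sum_eq_single a0 (fun b _ hb => by rw [hz b hb]; simp)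
        (fun h => absurd (Finset.mem_univ _) h)]
  · push Not at h
    rw [Finset.sum_eq_zero (fun a _ => h a), Finset.sum_eq_zero (fun a _ => by rw [h a]; simp)]
    simp

/-- adding a pair at many centres at once, when there is no particle of species `a` (or `b`) -/
theorem multi_upper {S : Type} [Fintype S] [DecidableEq S] (D : Species S) (hD : D.Valid)
    (r T : ℝ) (hr : 0 < r) (hT : 0 < T) : ∃ C : ℝ, 1 ≤ C ∧ ∀ (a b : S),
      D.charge b = -D.charge a → ∀ {I : Type} [Fintype I] [DecidableEq I] (sp : I → S),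
        ((∀ i, sp i ≠ a) ∨ (∀ i, sp i ≠ b)) → ∀ (ℓ : ℝ) (G : Finset E3),
        (∀ x0 ∈ G, Metric.closedBall x0 r ⊆ cube ℓ) →
        (∀ y : E3, ∑ x0 ∈ G, Set.indicator (Metric.ball x0 (2 * r)) (fun _ => (1 : ℝ)) y ≤ 1) →
        ∀ Z Z' : ℝ, (∀ z ∈ peierls D sp ℓ T, z ≤ Z) →
        (∀ z ∈ peierls D (fun o : Option (Option I) => o.elim b (fun o' => o'.elim a sp)) ℓ T,
          z ≤ Z') →
        ∀ {k : ℕ} (ψ : Fin k → Wave D I), Ortho D sp ℓ ψ → ∀ ν : ℝ, 0 ≤ ν →
          ∑ x0 ∈ G, ∑ j, Real.exp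
            ((-(energy D sp (ψ j)) - C - (ν + C) * near D r x0 (ψ j) + ν) / T) ≤
            C * G.card * Z + C * Real.exp (C * ν / T) * Z' := by
  obtain ⟨C, hC, hcen⟩ := mu_center D hD r T hr hT
  refine ⟨C, hC, ?_⟩
  intro a b hab I _ _ sp hsp ℓ G hGc hG Z Z' hZ hZ' k ψ hψ ν hν
  have hZ0 : 0 ≤ Z := hZ 0 ⟨0, Fin.elim0, ⟨fun i => i.elim0, fun i => i.elim0⟩, by simp⟩
  have hZ0' : 0 ≤ Z' := hZ' 0 ⟨0, Fin.elim0, ⟨fun i => i.elim0, fun i => i.elim0⟩, by simp⟩
  have hx := fun x0 : {x // x ∈ G} => hcen a b hab sp ℓ x0.1 (hGc x0.1 x0.2) ψ hψ ν hν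
  choose W' P' hW1 hP1 hBW hBP hterm hsa hsb using hx
  -- location
  obtain ⟨loc, hloc⟩ : ∃ loc : (Option (Option I) → E3) → E3, ∀ (x0 : {x // x ∈ G}) j τ x,
      loc x ∉ Metric.closedBall x0.1 r → P' x0 j τ x = 0 := by
    rcases hsp with h | h
    · exact ⟨fun x => x (some none), fun x0 j τ x hx => hsa x0 h j τ x hx⟩
    · exact ⟨fun x => x none, fun x0 j τ x hx => hsb x0 h j τ x hx⟩
  have huniq : ∀ (y : E3) (x0 x1 : {x // x ∈ G}), y ∈ Metric.closedBall x0.1 r →
      y ∈ Metric.closedBall x1.1 r → x0 = x1 := by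
    intro y x0 x1 h0 h1
    by_contra hne
    have hne' : x0.1 ≠ x1.1 := fun h => hne (Subtype.ext h)
    have b0 : y ∈ Metric.ball x0.1 (2 * r) := by
      rw [Metric.mem_closedBall] at h0; rw [Metric.mem_ball]; linarith
    have b1 : y ∈ Metric.ball x1.1 (2 * r) := by
      rw [Metric.mem_closedBall] at h1; rw [Metric.mem_ball]; linarith
    have h2 := hG y
    have h3 : ∑ z ∈ ({x0.1, x1.1} : Finset E3), Set.indicator (Metric.ball z (2 * r)) (fun _ => (1 : ℝ)) y ≤
        ∑ z ∈ G, Set.indicator (Metric.ball z (2 * r)) (fun _ => (1 : ℝ)) y := by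
      apply Finset.sum_le_sum_of_subset_of_nonneg
      · intro z hz
        rw [Finset.mem_insert, Finset.mem_singleton] at hz
        rcases hz with rfl | rfl
        · exact x0.2
        · exact x1.2
      · intro z _ _
        exact Set.indicator_nonneg (fun _ _ => zero_le_one) _
    rw [Finset.sum_pair hne', Set.indicator_of_mem b0, Set.indicator_of_mem b1] at h3
    linarith
  have hBP2 : ∀ γ : {x // x ∈ G} × Fin k → ℂ,
      nrm2 D (fun τ x => ∑ p, γ p * P' p.1 p.2 τ x) ≤ 1 * ∑ p, ‖γ p‖ ^ 2 := by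
    intro γ
    have e1 : nrm2 D (fun τ x => ∑ p, γ p * P' p.1 p.2 τ x) =
        ∑ x0 : {x // x ∈ G}, nrm2 D (fun τ x => ∑ j, γ (x0, j) * P' x0 j τ x) := by
      unfold nrm2
      rw [Finset.sum_comm]
      refine Finset.sum_congr rfl fun τ _ => ?_
      rw [← integral_finset_sum]
      · congr 1
        funext x
        show ‖∑ p : {x // x ∈ G} × Fin k, γ p * P' p.1 p.2 τ x‖ ^ 2 =
          ∑ x0 : {x // x ∈ G}, ‖∑ j, γ (x0, j) * P' x0 j τ x‖ ^ 2
        rw [Fintype.sum_prod_type]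
        apply mu_point
        intro x0 x1 h0 h1
        have k0 : loc x ∈ Metric.closedBall x0.1 r := by
          by_contra hn
          exact h0 (Finset.sum_eq_zero fun j _ => by rw [hloc x0 j τ x hn, mul_zero])
        have k1 : loc x ∈ Metric.closedBall x1.1 r := by
          by_contra hn
          exact h1 (Finset.sum_eq_zero fun j _ => by rw [hloc x1 j τ x hn, mul_zero])
        exact huniq _ _ _ k0 k1
      · intro x0 _
        exact (int_state D _ ℓ _ (state_comb D _ ℓ (P' x0) (hP1 x0) (fun j => γ (x0, j))) τ).1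
    rw [e1, Fintype.sum_prod_type, one_mul]
    refine Finset.sum_le_sum fun x0 _ => ?_
    have := hBP x0 (fun j => γ (x0, j))
    rwa [one_mul] at this
  have hTP := trace_bound D (fun o : Option (Option I) => o.elim b (fun o' => o'.elim a sp)) ℓ T
    hT Z' hZ' (fun p : {x // x ∈ G} × Fin k => P' p.1 p.2) (fun p => hP1 p.1 p.2) 1 zero_le_one hBP2
  have hTW : ∀ x0 : {x // x ∈ G}, ∑ j, nrm2 D (W' x0 j) *
      Real.exp (-(energy D sp (W' x0 j)) / (nrm2 D (W' x0 j) * T)) ≤ 1 * Z := fun x0 =>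
    trace_bound D sp ℓ T hT Z hZ (W' x0) (hW1 x0) 1 zero_le_one (hBW x0)
  have hE1 : Real.exp (ν / T) ≤ C * Real.exp (C * ν / T) := by
    have h1 : Real.exp (ν / T) ≤ Real.exp (C * ν / T) := by
      refine Real.exp_le_exp.2 (div_le_div_of_nonneg_right ?_ hT.le)
      nlinarith
    have h2 : 1 * Real.exp (C * ν / T) ≤ C * Real.exp (C * ν / T) :=
      mul_le_mul_of_nonneg_right hC (Real.exp_pos _).le
    linarith
  rw [Fintype.sum_prod_type] at hTP
  have hatt : ∑ x0 ∈ G, ∑ j, Real.exp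
            ((-(energy D sp (ψ j)) - C - (ν + C) * near D r x0 (ψ j) + ν) / T) =
      ∑ x0 : {x // x ∈ G}, ∑ j, Real.exp
            ((-(energy D sp (ψ j)) - C - (ν + C) * near D r x0.1 (ψ j) + ν) / T) := by
    rw [← Finset.sum_coe_sort G]
  rw [hatt]
  calc ∑ x0 : {x // x ∈ G}, ∑ j, Real.exp
            ((-(energy D sp (ψ j)) - C - (ν + C) * near D r x0.1 (ψ j) + ν) / T)
      ≤ ∑ x0 : {x // x ∈ G}, ∑ j, (nrm2 D (W' x0 j) *
          Real.exp (-(energy D sp (W' x0 j)) / (nrm2 D (W' x0 j) * T)) +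
        Real.exp (ν / T) * (nrm2 D (P' x0 j) * Real.exp (-(energy D
          (fun o : Option (Option I) => o.elim b (fun o' => o'.elim a sp)) (P' x0 j)) /
            (nrm2 D (P' x0 j) * T)))) :=
        Finset.sum_le_sum fun x0 _ => Finset.sum_le_sum fun j _ => hterm x0 j
    _ = (∑ x0 : {x // x ∈ G}, ∑ j, nrm2 D (W' x0 j) *
          Real.exp (-(energy D sp (W' x0 j)) / (nrm2 D (W' x0 j) * T))) +
        Real.exp (ν / T) * ∑ x0 : {x // x ∈ G}, ∑ j, (nrm2 D (P' x0 j) * Real.exp (-(energy D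
          (fun o : Option (Option I) => o.elim b (fun o' => o'.elim a sp)) (P' x0 j)) /
            (nrm2 D (P' x0 j) * T))) := by
        simp only [Finset.sum_add_distrib, Finset.mul_sum]
    _ ≤ (∑ x0 : {x // x ∈ G}, 1 * Z) + Real.exp (ν / T) * (1 * Z') :=
        add_le_add (Finset.sum_le_sum fun x0 _ => hTW x0)
          (mul_le_mul_of_nonneg_left hTP (Real.exp_pos _).le)
    _ = (G.card : ℝ) * Z + Real.exp (ν / T) * Z' := by
        rw [Finset.sum_const, Finset.card_univ, Fintype.card_coe, nsmul_eq_mul, one_mul, one_mul]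
    _ ≤ C * G.card * Z + C * Real.exp (C * ν / T) * Z' := by
        have h1 : (G.card : ℝ) * Z ≤ C * (G.card * Z) := by
          have : 0 ≤ (G.card : ℝ) * Z := by positivity
          nlinarith
        have h2 : Real.exp (ν / T) * Z' ≤ C * Real.exp (C * ν / T) * Z' :=
          mul_le_mul_of_nonneg_right hE1 hZ0'
        linarith


end Pool.Agent.Helper985.CP
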