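import Pool.Agent.Helper985.CT.M_grid_avg2
import Pool.Agent.Helper985.CT.M_multi_upper
import Pool.Agent.Helper985.CT.M_peierls_bdd
import Pool.Agent.Helper985.CT.M_peierls_pos
import Pool.Agent.Helper985.CT.Defs

set_option autoImplicit false

open MeasureTheory
open scoped Topology

namespace Pool.Agent.Helper985.CP






theorem upperT_rare {S : Type} [Fintype S] [DecidableEq S] (D : Species S) (hD : D.Valid)
    (hst : HStable D) (r T : ℝ) (hr : 0 < r) (hT : 0 < T) :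
    ∃ K : ℝ, 0 < K ∧ ∀ (a b : S), D.charge b = -D.charge a →
      ∀ {I : Type} [Fintype I] [DecidableEq I] (sp : I → S),
      ((∀ i, sp i ≠ a) ∨ (∀ i, sp i ≠ b)) → ∀ (ℓ : ℝ),
      8 * r ≤ ℓ → (Fintype.card I : ℝ) * (1024 * r ^ 3) ≤ ℓ ^ 3 →
      (Fintype.card I : ℝ) * sSup (peierls D sp ℓ T) ≤ K * sSup (peierls D
        (fun o : Option (Option I) => o.elim b (fun o' => o'.elim a sp)) ℓ T) := by
  obtain ⟨C, hC, hmu⟩ := multi_upper D hD r T hr hT
  obtain ⟨K, hK, hgr⟩ := grid_avg2 C T hC hT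
  refine ⟨K, hK, ?_⟩
  intro a b hab I _ _ sp hsp ℓ h8 hcard
  have hℓ : 0 < ℓ := by linarith
  refine hgr D sp ℓ r (sSup (peierls D
        (fun o : Option (Option I) => o.elim b (fun o' => o'.elim a sp)) ℓ T)) hr h8 hcard
        (peierls_pos D hD hst (fun o : Option (Option I) => o.elim b (fun o' => o'.elim a sp)) ℓ T hℓ hT).2.le
        (peierls_bdd D hD hst sp ℓ T hℓ hT) ?_
  intro G hG1 hG2 k ψ hψ ν hν
  exact hmu a b hab sp hsp ℓ G hG1 hG2 _ _
    (fun z hz => le_csSup (peierls_bdd D hD hst sp ℓ T hℓ hT) hz)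
    (fun z hz => le_csSup (peierls_bdd D hD hst
      (fun o : Option (Option I) => o.elim b (fun o' => o'.elim a sp)) ℓ T hℓ hT) hz) ψ hψ ν hν

end Pool.Agent.Helper985.CP
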