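import Pool.Agent.Helper985.CT.Final
import Pool.Agent.Helper985.CT.M_upperT_rare
import Pool.Agent.Helper985.CT.M_neutral_dickson

set_option autoImplicit false

open MeasureTheory
open scoped Topology

namespace Pool.Agent.Helper985.CP

theorem rareT_final {S : Type} [Fintype S] [DecidableEq S] (D : Species S) (hD : D.Valid)
    (hst : HStable D) (a b : S) (hb : D.charge b = -D.charge a) (ρ T : ℝ) (hρ : 0 < ρ)
    (hT : 0 < T) :
    ∃ C : ℝ, ∀ n : S → ℕ, 1 ≤ ∑ s, (n s : ℝ) → (n a = 0 ∨ n b = 0) →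
      freeEnergy D (((∑ s, (n s : ℝ)) / ρ) ^ (1 / 3 : ℝ)) T (addPair n a b) ≤
        freeEnergy D (((∑ s, (n s : ℝ)) / ρ) ^ (1 / 3 : ℝ)) T n -
          T * Real.log (∑ s, (n s : ℝ)) + C := by
  obtain ⟨K, hK, h⟩ := upperT_rare D hD hst ((1 / (4096 * ρ)) ^ (1 / 3 : ℝ)) T (by positivity)
    hT
  refine ⟨T * Real.log K, fun n hn hrare => ?_⟩
  obtain ⟨h0, h1, h2⟩ := final_radius (∑ s, (n s : ℝ)) ρ hn hρ
  have hr : (∀ i : (Σ s, Fin (n s)), i.1 ≠ a) ∨ (∀ i : (Σ s, Fin (n s)), i.1 ≠ b) := by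
    rcases hrare with h3 | h3
    · left
      rintro ⟨s, k⟩ hs
      simp only at hs
      subst hs
      rw [h3] at k
      exact k.elim0
    · right
      rintro ⟨s, k⟩ hs
      simp only at hs
      subst hs
      rw [h3] at k
      exact k.elim0
  have h3 := h a b hb (fun i : (Σ s, Fin (n s)) => i.1) hr _ h1
    (by rw [card_sigma]; exact h2 _ (by linarith))
  obtain ⟨e, he⟩ := addPair_equiv n a b
  rw [(peierls_relabel D e _ (fun i => i.1) he _ T).1, card_sigma] at h3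
  have hN : 0 < ∑ s, (n s : ℝ) := by linarith
  have hℓ : 0 < ((∑ s, (n s : ℝ)) / ρ) ^ (1 / 3 : ℝ) := by
    have : 0 < (∑ s, (n s : ℝ)) / ρ := by positivity
    positivity
  have p1 := (peierls_pos D hD hst (fun i : (Σ s, Fin (n s)) => i.1) _ T hℓ hT).2
  have p2 := (peierls_pos D hD hst (fun i : (Σ s, Fin (addPair n a b s)) => i.1) _ T hℓ hT).2
  have h4 := Real.log_le_log (mul_pos hN p1) h3
  rw [Real.log_mul hK.ne' p2.ne', Real.log_mul hN.ne' p1.ne'] at h4
  unfold freeEnergy partition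
  nlinarith

end Pool.Agent.Helper985.CP
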