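import Pool.Agent.Helper985.CP.M_int_coul
import Pool.Agent.Helper985.CP.M_int_state
import Pool.Agent.Helper985.CP.M_slice_basic
import Pool.Agent.Helper985.CP.M_slice_energy
import Pool.Agent.Helper985.CP.M_slice_pe
import Pool.Agent.Helper985.CT.M_psl_deriv
import Pool.Agent.Helper985.CT.M_psl_nrm
import Pool.Agent.Helper985.CT.M_psl_state
import Pool.Agent.Helper985.CT.M_psl_weight
import Pool.Agent.Helper985.CT.Defs

set_option autoImplicit false

open MeasureTheory
open scoped Topology

namespace Pool.Agent.Helper985.CP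











theorem psl_energy_sum {I : Type} [Fintype I] [DecidableEq I] {g : ℕ}
    (f : (Option I → Fin g) → ℝ) :
    ∑ σ : Fin g, ∑ τ : I → Fin g, f (fun o => o.elim σ τ) = ∑ T, f T := by
  rw [← Fintype.sum_prod_type' (f := fun (σ : Fin g) (τ : I → Fin g) => f (fun o => o.elim σ τ))]
  refine Fintype.sum_equiv (Equiv.piOptionEquivProd (β := fun _ : Option I => Fin g)).symm _ _ ?_
  rintro ⟨σ, τ⟩
  have h3 : (Equiv.piOptionEquivProd (β := fun _ : Option I => Fin g)).symm (σ, τ) =
      fun o => o.elim σ τ := by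
    funext o
    cases o <;> rfl
  rw [h3]

theorem psl_energy_w {S : Type} (D : Species S) {I : Type} [Fintype I] [DecidableEq I]
    (sp : Option I → S) (ℓ : ℝ) (hℓ : 0 < ℓ) (Φ : Wave D (Option I)) (hΦ : IsState D sp ℓ Φ)
    (w : (I → E3) → ℝ) (hwm : Measurable w)
    (hw : ∀ T, Integrable (fun x : Option I → E3 => w (fun i => x (some i)) * ‖Φ T x‖ ^ 2)) :
    HasSum (fun m => ∑ σ, ∑ τ, ∫ x : I → E3, w x * ‖psl D (pwave ℓ m) σ Φ τ x‖ ^ 2)
      (∑ T, ∫ x : Option I → E3, w (fun i => x (some i)) * ‖Φ T x‖ ^ 2) := by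
  rw [← psl_energy_sum]
  refine hasSum_sum fun σ _ => hasSum_sum fun τ _ => ?_
  exact (psl_weight ℓ hℓ (Φ (fun o => o.elim σ τ)) (hΦ.smooth _) (hΦ.compact _)
    ((hΦ.support _).trans (fun x hx => hx none)) w hwm (hw _)).1

theorem psl_energy_sq {J : Type} [Fintype J] (F : (J → E3) → ℂ) (hF : Continuous F)
    (hc : HasCompactSupport F) : Integrable (fun x => ‖F x‖ ^ 2) := by
  apply Continuous.integrable_of_hasCompactSupport (hF.norm.pow 2)
  refine hc.mono ?_
  intro x hx
  rw [Function.mem_support] at hx ⊢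
  intro h0
  apply hx
  show ‖F x‖ ^ 2 = 0
  rw [h0, norm_zero]
  ring

theorem psl_energy_kint {S : Type} (D : Species S) {J : Type} [Fintype J] [DecidableEq J]
    (sp : J → S) (j : J) (F : (J → E3) → ℂ) (hF : ContDiff ℝ SM F) (hc : HasCompactSupport F) :
    ∫ x, kin D sp j F x = (1 / (2 * D.mass (sp j))) * ∑ k : Fin 3,
      ∫ x, ‖fderiv ℝ F x (Pi.single j (EuclideanSpace.single k (1 : ℝ)))‖ ^ 2 := by
  unfold kin
  rw [integral_const_mul, integral_finsetSum]
  intro k _
  apply psl_energy_sq
  · exact ((hF.fderiv_right (m := SM) le_rfl).clm_apply contDiff_const).continuous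
  · exact hc.fderiv_apply ℝ _

theorem psl_energy_pw (ℓ : ℝ) (m : Fin 3 → ℤ) : Continuous (pwave ℓ m) := by
  unfold pwave
  fun_prop

theorem psl_energy_k {S : Type} (D : Species S) {I : Type} [Fintype I] [DecidableEq I]
    (sp : Option I → S) (ℓ : ℝ) (hℓ : 0 < ℓ) (Φ : Wave D (Option I)) (hΦ : IsState D sp ℓ Φ)
    (j : I) :
    HasSum (fun m => ∑ σ, ∑ τ, ∫ x : I → E3,
        kin D (fun i => sp (some i)) j (psl D (pwave ℓ m) σ Φ τ) x)
      (∑ T, ∫ x : Option I → E3, kin D sp (some j) (Φ T) x) := by
  rw [← psl_energy_sum]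
  refine hasSum_sum fun σ _ => hasSum_sum fun τ _ => ?_
  obtain ⟨T, hT⟩ : ∃ T : Option I → Fin D.g, T = fun o => o.elim σ τ := ⟨_, rfl⟩
  have hd := fun m => psl_deriv ℓ (Φ T) (hΦ.smooth T) (hΦ.compact T) (hΦ.support T) (pwave ℓ m)
    (psl_energy_pw ℓ m)
  have e0 : ∀ m, psl D (pwave ℓ m) σ Φ τ =
      fun x : I → E3 => ∫ z, (starRingEnd ℂ) (pwave ℓ m z) * (Φ T) (fun o => o.elim z x) := by
    intro m
    rw [hT]
    rfl
  have e1 : ∀ m, ∫ x : I → E3, kin D (fun i => sp (some i)) j (psl D (pwave ℓ m) σ Φ τ) x =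
      (1 / (2 * D.mass (sp (some j)))) * ∑ k : Fin 3, ∫ x : I → E3,
        1 * ‖∫ z, (starRingEnd ℂ) (pwave ℓ m z) * fderiv ℝ (Φ T) (fun o => o.elim z x)
          (Pi.single (some j) (EuclideanSpace.single k (1 : ℝ)))‖ ^ 2 := by
    intro m
    rw [e0 m, psl_energy_kint D (fun i => sp (some i)) j _ (hd m).1 (hd m).2.1]
    congr 1
    refine Finset.sum_congr rfl fun k _ => ?_
    congr 1
    funext x
    rw [one_mul, (hd m).2.2.2 x j (EuclideanSpace.single k (1 : ℝ))]
  rw [← hT]
  rw [psl_energy_kint D sp (some j) _ (hΦ.smooth T) (hΦ.compact T)]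
  simp only [e1]
  apply HasSum.mul_left
  refine hasSum_sum fun k _ => ?_
  have hFs : ContDiff ℝ SM (fun X : Option I → E3 => fderiv ℝ (Φ T) X
      (Pi.single (some j) (EuclideanSpace.single k (1 : ℝ)))) :=
    ((hΦ.smooth T).fderiv_right (m := SM) le_rfl).clm_apply contDiff_const
  have hFc : HasCompactSupport (fun X : Option I → E3 => fderiv ℝ (Φ T) X
      (Pi.single (some j) (EuclideanSpace.single k (1 : ℝ)))) :=
    (hΦ.compact T).fderiv_apply ℝ _
  have hFt : tsupport (fun X : Option I → E3 => fderiv ℝ (Φ T) X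
      (Pi.single (some j) (EuclideanSpace.single k (1 : ℝ)))) ⊆ {x | x none ∈ cube ℓ} :=
    ((tsupport_fderiv_apply_subset ℝ _).trans (hΦ.support T)).trans (fun x hx => hx none)
  have hsq := psl_energy_sq _ hFs.continuous hFc
  have h := (psl_weight ℓ hℓ _ hFs hFc hFt (fun _ => (1 : ℝ)) measurable_const
    (by simpa only [one_mul] using hsq)).1
  simp only [one_mul] at h ⊢
  exact h

theorem psl_energy_cm {S : Type} (D : Species S) {J : Type} [Fintype J] [DecidableEq J]
    (sp : J → S) (i j : J) :
    Measurable (fun x : J → E3 => if i = j then (0 : ℝ) else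
      D.charge (sp i) * D.charge (sp j) / ‖x i - x j‖) := by
  split_ifs
  · exact measurable_const
  · exact measurable_const.div ((measurable_pi_apply i).sub (measurable_pi_apply j)).norm

/-- splitting of the Coulomb energy -/
theorem psl_energy_coul {S : Type} (D : Species S) {I : Type} [Fintype I] [DecidableEq I]
    (sp : Option I → S) (X : Option I → E3) :
    coul D sp X = coul D (fun i => sp (some i)) (fun i => X (some i)) +
        (∑ j, if none = j then 0 else D.charge (sp none) * D.charge (sp j) / ‖X none - X j‖) := by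
  unfold coul
  simp only [Fintype.sum_option, Option.some_inj, if_true, reduceCtorEq, if_false, zero_add]
  rw [Finset.sum_add_distrib]
  have e2 : ∑ x : I, D.charge (sp (some x)) * D.charge (sp none) / ‖X (some x) - X none‖ =
      ∑ x : I, D.charge (sp none) * D.charge (sp (some x)) / ‖X none - X (some x)‖ := by
    refine Finset.sum_congr rfl fun i _ => ?_
    rw [norm_sub_rev, mul_comm (D.charge (sp (some i)))]
  rw [e2]
  ring

theorem psl_energy_vint {S : Type} (D : Species S) {J : Type} [Fintype J] [DecidableEq J]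
    (sp : J → S) (ℓ : ℝ) (Φ : Wave D J) (hΦ : IsState D sp ℓ Φ) (i : J) (T : J → Fin D.g) :
    Integrable (fun X : J → E3 => (∑ j, if i = j then 0 else
      D.charge (sp i) * D.charge (sp j) / ‖X i - X j‖) * ‖Φ T X‖ ^ 2) := by
  obtain ⟨-, -, -, hp, -⟩ := int_state D sp ℓ Φ hΦ T
  have h5 : (fun X : J → E3 => (∑ j, if i = j then 0 else
      D.charge (sp i) * D.charge (sp j) / ‖X i - X j‖) * ‖Φ T X‖ ^ 2) =
      fun X => ∑ j, (if i = j then 0 else
      D.charge (sp i) * D.charge (sp j) / ‖X i - X j‖ * ‖Φ T X‖ ^ 2) := by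
    funext X
    rw [Finset.sum_mul]
    refine Finset.sum_congr rfl (fun k _ => ?_)
    split_ifs
    · exact zero_mul _
    · rfl
  rw [h5]
  refine integrable_finsetSum _ (fun k _ => ?_)
  by_cases hk : i = k
  · simp only [if_pos hk]
    exact integrable_zero _ _ _
  · simp only [if_neg hk]
    exact hp i k hk

theorem psl_energy {S : Type} (D : Species S) {I : Type} [Fintype I] [DecidableEq I]
    (sp : Option I → S) (ℓ : ℝ) (hℓ : 0 < ℓ) (Φ : Wave D (Option I)) (hΦ : IsState D sp ℓ Φ) :
    HasSum (fun m => ∑ σ, energy D (fun i => sp (some i)) (psl D (pwave ℓ m) σ Φ))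
      (energy D sp Φ - pe D sp none Φ) ∧
    (∀ u : E3 → ℝ, Continuous u →
      HasSum (fun m => ∑ σ, mean D (fun i => sp (some i)) (psl D (pwave ℓ m) σ Φ) u)
        (mean D sp Φ u - ∑ τ, ∫ x, D.charge (sp none) * u (x none) * ‖Φ τ x‖ ^ 2)) ∧
    (∀ j : I, HasSum (fun m => ∑ σ, pe D (fun i => sp (some i)) j (psl D (pwave ℓ m) σ Φ))
      (pe D sp (some j) Φ - ∑ τ, ∫ x, D.charge (sp none) * D.charge (sp (some j)) /
          ‖x none - x (some j)‖ * ‖Φ τ x‖ ^ 2)) := by
  have hst : ∀ m σ, IsState D (fun i => sp (some i)) ℓ (psl D (pwave ℓ m) σ Φ) :=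
    fun m σ => psl_state D sp ℓ Φ hΦ _ (psl_energy_pw ℓ m) σ
  have hV := fun T => psl_energy_vint D sp ℓ Φ hΦ none T
  refine ⟨?_, ?_, ?_⟩
  · have eW : ∀ T, (fun X : Option I → E3 =>
        coul D (fun i => sp (some i)) (fun i => X (some i)) * ‖Φ T X‖ ^ 2) =
        fun X => coul D sp X * ‖Φ T X‖ ^ 2 - (∑ j, if none = j then 0 else
          D.charge (sp none) * D.charge (sp j) / ‖X none - X j‖) * ‖Φ T X‖ ^ 2 := by
      intro T
      funext X
      rw [psl_energy_coul D sp X]
      ring
    have hW : ∀ T, Integrable (fun X : Option I → E3 =>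
        coul D (fun i => sp (some i)) (fun i => X (some i)) * ‖Φ T X‖ ^ 2) := by
      intro T
      rw [eW T]
      exact (int_state D sp ℓ Φ hΦ T).2.2.1.sub (hV T)
    have hm : Measurable (coul D (fun i : I => sp (some i))) := by
      unfold coul
      exact (Finset.measurable_sum _ fun i _ => Finset.measurable_sum _ fun j _ =>
        psl_energy_cm D (fun i : I => sp (some i)) i j).const_mul _
    have hw := psl_energy_w D sp ℓ hℓ Φ hΦ (coul D (fun i => sp (some i))) hm hW
    have hk := hasSum_sum (s := Finset.univ) fun (i : I) _ => psl_energy_k D sp ℓ hℓ Φ hΦ i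
    have hs := hk.add hw
    convert hs using 1
    · funext m
      rw [Finset.sum_comm, ← Finset.sum_add_distrib]
      refine Finset.sum_congr rfl fun σ _ => ?_
      rw [Finset.sum_comm, ← Finset.sum_add_distrib]
      unfold energy
      refine Finset.sum_congr rfl fun τ _ => ?_
      obtain ⟨-, h2, h3, -, -⟩ := int_state D (fun i => sp (some i)) ℓ _ (hst m σ) τ
      rw [integral_add (integrable_finsetSum _ fun i _ => h2 i) h3,
        integral_finsetSum _ fun i _ => h2 i]
    · rw [Finset.sum_comm, ← Finset.sum_add_distrib]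
      unfold energy pe
      rw [← Finset.sum_sub_distrib]
      refine Finset.sum_congr rfl fun T _ => ?_
      obtain ⟨-, h2, h3, h4, -⟩ := int_state D sp ℓ Φ hΦ T
      rw [integral_add (integrable_finsetSum _ fun i _ => h2 i) h3,
        integral_finsetSum _ fun i _ => h2 i, integral_add (h2 none) (hV T), Fintype.sum_option,
        eW T, integral_sub h3 (hV T)]
      ring
  · intro u hu
    have hB : ∀ T, Integrable (fun x : Option I → E3 =>
        D.charge (sp none) * u (x none) * ‖Φ T x‖ ^ 2) := by
      intro T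
      have hc : Continuous (Φ T) := (hΦ.smooth T).continuous
      apply Continuous.integrable_of_hasCompactSupport
      · have h1 : Continuous (fun x : Option I → E3 => u (x none)) :=
          hu.comp (continuous_apply none)
        exact (continuous_const.mul h1).mul (hc.norm.pow 2)
      · refine (hΦ.compact T).mono ?_
        intro x hx
        rw [Function.mem_support] at hx ⊢
        intro h0
        apply hx
        rw [h0, norm_zero]
        ring
    have hA : ∀ T, Integrable (fun x : Option I → E3 =>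
        (∑ i, D.charge (sp i) * u (x i)) * ‖Φ T x‖ ^ 2) :=
      fun T => (int_state D sp ℓ Φ hΦ T).2.2.2.2 u hu
    have hC : ∀ T, (fun x : Option I → E3 =>
        (∑ i : I, D.charge (sp (some i)) * u (x (some i))) * ‖Φ T x‖ ^ 2) =
        fun x => (∑ i, D.charge (sp i) * u (x i)) * ‖Φ T x‖ ^ 2 -
          D.charge (sp none) * u (x none) * ‖Φ T x‖ ^ 2 := by
      intro T
      funext x
      rw [Fintype.sum_option]
      ring
    have hF : ∀ T, Integrable (fun x : Option I → E3 =>
        (∑ i : I, D.charge (sp (some i)) * u (x (some i))) * ‖Φ T x‖ ^ 2) := by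
      intro T
      rw [hC T]
      exact (hA T).sub (hB T)
    have hm : Measurable (fun x : I → E3 => ∑ i : I, D.charge (sp (some i)) * u (x i)) :=
      Finset.measurable_sum _ fun i _ =>
        ((hu.measurable.comp (measurable_pi_apply i)).const_mul _)
    have hw := psl_energy_w D sp ℓ hℓ Φ hΦ _ hm hF
    have hval : mean D sp Φ u - ∑ τ, ∫ x, D.charge (sp none) * u (x none) * ‖Φ τ x‖ ^ 2 =
        ∑ T, ∫ x : Option I → E3, (∑ i : I, D.charge (sp (some i)) * u (x (some i))) *
          ‖Φ T x‖ ^ 2 := by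
      unfold mean
      rw [← Finset.sum_sub_distrib]
      refine Finset.sum_congr rfl (fun T _ => ?_)
      rw [← integral_sub (hA T) (hB T)]
      exact congrArg (fun f => ∫ x, f x) (hC T).symm
    rw [hval]
    exact hw
  · intro j
    have e1 : ∀ X : Option I → E3, (∑ k, if some j = k then 0 else
        D.charge (sp (some j)) * D.charge (sp k) / ‖X (some j) - X k‖) =
        D.charge (sp none) * D.charge (sp (some j)) / ‖X none - X (some j)‖ +
          ∑ k : I, if j = k then 0 else
            D.charge (sp (some j)) * D.charge (sp (some k)) / ‖X (some j) - X (some k)‖ := by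
      intro X
      rw [Fintype.sum_option]
      simp only [Option.some_inj, reduceCtorEq, if_false]
      rw [norm_sub_rev (X (some j)) (X none), mul_comm (D.charge (sp (some j))) (D.charge (sp none))]
    have hP := fun T => (int_state D sp ℓ Φ hΦ T).2.2.2.1 none (some j) (by simp)
    have hVj := fun T => psl_energy_vint D sp ℓ Φ hΦ (some j) T
    have eW : ∀ T, (fun X : Option I → E3 => (∑ k : I, if j = k then 0 else
            D.charge (sp (some j)) * D.charge (sp (some k)) / ‖X (some j) - X (some k)‖) *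
              ‖Φ T X‖ ^ 2) =
        fun X => (∑ k, if some j = k then 0 else
          D.charge (sp (some j)) * D.charge (sp k) / ‖X (some j) - X k‖) * ‖Φ T X‖ ^ 2 -
          D.charge (sp none) * D.charge (sp (some j)) / ‖X none - X (some j)‖ * ‖Φ T X‖ ^ 2 := by
      intro T
      funext X
      rw [e1 X]
      ring
    have hW : ∀ T, Integrable (fun X : Option I → E3 => (∑ k : I, if j = k then 0 else
            D.charge (sp (some j)) * D.charge (sp (some k)) / ‖X (some j) - X (some k)‖) *
              ‖Φ T X‖ ^ 2) := by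
      intro T
      rw [eW T]
      exact (hVj T).sub (hP T)
    have hm : Measurable (fun x : I → E3 => ∑ k : I, if j = k then 0 else
            D.charge (sp (some j)) * D.charge (sp (some k)) / ‖x j - x k‖) :=
      Finset.measurable_sum _ fun k _ => psl_energy_cm D (fun i : I => sp (some i)) j k
    have hw := psl_energy_w D sp ℓ hℓ Φ hΦ _ hm hW
    have hk := psl_energy_k D sp ℓ hℓ Φ hΦ j
    have hs := hk.add hw
    convert hs using 1
    · funext m
      rw [← Finset.sum_add_distrib]
      refine Finset.sum_congr rfl fun σ _ => ?_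
      rw [← Finset.sum_add_distrib]
      unfold pe
      refine Finset.sum_congr rfl fun τ _ => ?_
      have h2 := (int_state D (fun i => sp (some i)) ℓ _ (hst m σ) τ).2.1 j
      have h3 := psl_energy_vint D (fun i => sp (some i)) ℓ _ (hst m σ) j τ
      rw [integral_add h2 h3]
    · rw [← Finset.sum_add_distrib]
      unfold pe
      rw [← Finset.sum_sub_distrib]
      refine Finset.sum_congr rfl fun T _ => ?_
      have h2 := (int_state D sp ℓ Φ hΦ T).2.1 (some j)
      rw [integral_add h2 (hVj T), eW T, integral_sub (hVj T) (hP T)]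
      ring

end Pool.Agent.Helper985.CP
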