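import Pool.Agent.Helper985.CP.M_int_state
import Pool.Agent.Helper985.CP.M_nrm2_pos
import Pool.Agent.Helper985.CT.M_psl_deriv
import Pool.Agent.Helper985.CT.M_psl_nrm
import Pool.Agent.Helper985.CT.M_psl_state
import Pool.Agent.Helper985.CT.M_psl_weight
import Pool.Agent.Helper985.CT.M_state_comb
import Pool.Agent.Helper985.CT.Defs

set_option autoImplicit false

open MeasureTheory
open scoped Topology

namespace Pool.Agent.Helper985.CP










/-- permuted wave function -/
noncomputable def rbAct {S : Type} (D : Species S) {J : Type} (π : Equiv.Perm J) (F : Wave D J) :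
    Wave D J :=
  fun τ x => F (fun k => τ (π k)) (fun k => x (π k))

/-- (cut-off plane wave, spin `σ`) tensor `χ` -/
noncomputable def rbX {S : Type} (D : Species S) {I : Type} (ℓ : ℝ) (m : Fin 3 → ℤ)
    (σ : Fin D.g) (χ : Wave D I) : Wave D (Option I) :=
  fun τ x => if τ none = σ then (Set.indicator (cube ℓ) (pwave ℓ m) (x none)) *
    χ (fun i => τ (some i)) (fun i => x (some i)) else 0

/-- bounded measurable functions of bounded support -/
def rbNice {J : Type} [Fintype J] (f : (J → E3) → ℂ) : Prop :=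
  Measurable f ∧ (∃ C : ℝ, ∀ x, ‖f x‖ ≤ C) ∧ ∃ R : ℝ, ∀ x, f x ≠ 0 → ‖x‖ ≤ R


/-! ### rb_nice_int -/
theorem rb_nice_int {J : Type} [Fintype J] (f : (J → E3) → ℂ) (h : rbNice f) : Integrable f := by
  obtain ⟨hm, ⟨C, hC⟩, R, hR⟩ := h
  have h1 : IntegrableOn f (Metric.closedBall 0 R) := by
    apply Measure.integrableOn_of_bounded (M := C)
    · exact (isCompact_closedBall _ _).measure_lt_top.ne
    · exact hm.aestronglyMeasurable
    · exact Filter.Eventually.of_forall hC
  rw [integrableOn_iff_integrable_of_support_subset] at h1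
  · exact h1
  · intro x hx
    have := hR x hx
    simpa using this

/-! ### rb_nice_state -/
theorem rb_nice_state {S : Type} (D : Species S) {I : Type} [Fintype I] [DecidableEq I]
    (sp : I → S) (ℓ : ℝ) (Ψ : Wave D I) (hΨ : IsState D sp ℓ Ψ) (τ : I → Fin D.g) :
    rbNice (Ψ τ) := by
  have hc : Continuous (Ψ τ) := (hΨ.smooth τ).continuous
  refine ⟨hc.measurable, (hΨ.compact τ).exists_bound_of_continuous hc, ?_⟩
  obtain ⟨R, hR⟩ := (hΨ.compact τ).isBounded.exists_norm_le
  exact ⟨R, fun x hx => hR x (subset_tsupport _ hx)⟩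

/-! ### rb_nice_alg -/
theorem rb_nice_alg {J : Type} [Fintype J] (f g : (J → E3) → ℂ) (hf : rbNice f) (hg : rbNice g) (c : ℂ) :
    rbNice (fun x => f x + g x) ∧ rbNice (fun x => c * f x) ∧
    rbNice (fun x => (starRingEnd ℂ) (f x) * g x) := by
  obtain ⟨hf1, ⟨C1, hC1⟩, R1, hR1⟩ := hf
  obtain ⟨hg1, ⟨C2, hC2⟩, R2, hR2⟩ := hg
  refine ⟨⟨hf1.add hg1, ⟨C1 + C2, fun x =>
      (norm_add_le _ _).trans (add_le_add (hC1 x) (hC2 x))⟩, max R1 R2, fun x hx => ?_⟩,
    ⟨hf1.const_mul c, ⟨‖c‖ * C1, fun x => ?_⟩, R1, fun x hx => ?_⟩,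
    ⟨(Complex.continuous_conj.measurable.comp hf1).mul hg1,
      ⟨C1 * C2, fun x => ?_⟩, R1, fun x hx => ?_⟩⟩
  · by_cases h : f x = 0
    · exact (hR2 x (fun h2 => hx (by simp [h, h2]))).trans (le_max_right _ _)
    · exact (hR1 x h).trans (le_max_left _ _)
  · rw [norm_mul]
    exact mul_le_mul_of_nonneg_left (hC1 x) (norm_nonneg _)
  · exact hR1 x (fun h => hx (by simp [h]))
  · rw [norm_mul, RCLike.norm_conj]
    exact mul_le_mul (hC1 x) (hC2 x) (norm_nonneg _) ((norm_nonneg _).trans (hC1 x))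
  · exact hR1 x (fun h => hx (by simp [h]))

/-! ### rb_nice_act -/
theorem rb_nice_act {S : Type} (D : Species S) {J : Type} [Fintype J] (π : Equiv.Perm J)
    (F : Wave D J) (hF : ∀ τ, rbNice (F τ)) (τ : J → Fin D.g) : rbNice (rbAct D π F τ) := by
  obtain ⟨h1, ⟨C, hC⟩, ⟨R, hR⟩⟩ := hF (fun k => τ (π k))
  refine ⟨?_, ⟨C, fun x => hC _⟩, ⟨R, ?_⟩⟩
  · have hm : Measurable (fun x : J → E3 => (fun k => x (π k))) :=
      measurable_pi_lambda _ fun k => measurable_pi_apply _
    exact h1.comp hm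
  · intro x hx
    have h2 : ‖(fun k => x (π k))‖ ≤ R := hR _ hx
    have hR0 : 0 ≤ R := (norm_nonneg _).trans h2
    rw [pi_norm_le_iff_of_nonneg hR0]
    intro i
    have h3 := (pi_norm_le_iff_of_nonneg hR0).1 h2 (π.symm i)
    simpa using h3

/-! ### rb_nice_X -/
theorem rb_nice_X {S : Type} (D : Species S) {I : Type} [Fintype I] (ℓ : ℝ) (m : Fin 3 → ℤ)
    (σ : Fin D.g) (χ : Wave D I) (hχ : ∀ τ, rbNice (χ τ)) (τ : Option I → Fin D.g) :
    rbNice (rbX D ℓ m σ χ τ) := by
  obtain ⟨hm, ⟨C, hC⟩, R, hR⟩ := hχ (fun i => τ (some i))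
  by_cases hτ : τ none = σ
  · have hX : rbX D ℓ m σ χ τ = fun x : Option I → E3 =>
        (Set.indicator (cube ℓ) (pwave ℓ m) (x none)) *
          χ (fun i => τ (some i)) (fun i => x (some i)) := by
      funext x
      simp only [rbX, if_pos hτ]
    have hopen : IsOpen (cube ℓ) := by
      have : cube ℓ = ⋂ k : Fin 3, {y : E3 | 0 < y k ∧ y k < ℓ} := by
        ext y
        simp [cube]
      rw [this]
      apply isOpen_iInter_of_finite
      intro k
      have h1 : Continuous (fun y : E3 => y k) := by fun_prop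
      exact (isOpen_lt continuous_const h1).inter (isOpen_lt h1 continuous_const)
    have hpc : Continuous (pwave ℓ m) := by
      unfold pwave
      apply Continuous.div_const
      apply Complex.continuous_exp.comp
      apply Continuous.div_const
      apply Continuous.mul continuous_const
      apply Complex.continuous_ofReal.comp
      fun_prop
    have hpn : ∀ z, ‖pwave ℓ m z‖ ≤ 1 / |Real.sqrt (ℓ ^ 3)| := by
      intro z
      unfold pwave
      rw [norm_div, Complex.norm_real, Real.norm_eq_abs]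
      have h1 : (2 * Real.pi * Complex.I * ((∑ i, (m i : ℝ) * z i : ℝ) : ℂ) / (ℓ : ℂ)) =
          (((2 * Real.pi * (∑ i, (m i : ℝ) * z i) / ℓ : ℝ)) : ℂ) * Complex.I := by
        push_cast
        ring
      rw [h1, Complex.norm_exp_ofReal_mul_I]
    have hgn : ∀ y, ‖Set.indicator (cube ℓ) (pwave ℓ m) y‖ ≤ 1 / |Real.sqrt (ℓ ^ 3)| := by
      intro y
      by_cases hy : y ∈ cube ℓ
      · rw [Set.indicator_of_mem hy]; exact hpn y
      · rw [Set.indicator_of_notMem hy, norm_zero]; positivity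
    have hgm : Measurable (Set.indicator (cube ℓ) (pwave ℓ m)) :=
      hpc.measurable.indicator hopen.measurableSet
    rw [hX]
    refine ⟨?_, ⟨1 / |Real.sqrt (ℓ ^ 3)| * C, fun x => ?_⟩,
      Real.sqrt (∑ _k : Fin 3, ℓ ^ 2) + |R|, fun x hx => ?_⟩
    · apply Measurable.mul
      · exact hgm.comp (measurable_pi_apply none)
      · apply hm.comp
        exact measurable_pi_lambda _ fun i => measurable_pi_apply (some i)
    · rw [norm_mul]
      exact mul_le_mul (hgn _) (hC _) (norm_nonneg _) (by positivity)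
    · have h1 : x none ∈ cube ℓ := by
        by_contra h
        apply hx
        beta_reduce
        rw [Set.indicator_of_notMem h, zero_mul]
      have h2 : χ (fun i => τ (some i)) (fun i => x (some i)) ≠ 0 := by
        intro h
        apply hx
        beta_reduce
        rw [h, mul_zero]
      have h3 := hR _ h2
      rw [pi_norm_le_iff_of_nonneg (by positivity)]
      intro o
      cases o with
      | none =>
        have h4 : ‖x none‖ ≤ Real.sqrt (∑ _k : Fin 3, ℓ ^ 2) := by
          rw [EuclideanSpace.norm_eq]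
          apply Real.sqrt_le_sqrt
          apply Finset.sum_le_sum
          intro k _
          have := h1 k
          rw [Real.norm_eq_abs, sq_abs]
          nlinarith [this.1, this.2]
        have := abs_nonneg R
        linarith
      | some i =>
        have h4 : ‖x (some i)‖ ≤ ‖fun i => x (some i)‖ := norm_le_pi_norm (fun i => x (some i)) i
        have h5 := le_abs_self R
        have h6 := Real.sqrt_nonneg (∑ _k : Fin 3, ℓ ^ 2)
        linarith
  · have hX : rbX D ℓ m σ χ τ = fun _ => 0 := by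
      funext x
      simp only [rbX, if_neg hτ]
    rw [hX]
    exact ⟨measurable_const, ⟨0, fun x => by simp⟩, 0, fun x hx => absurd rfl hx⟩

/-! ### rb_ip_act -/
theorem rb_ip_act {S : Type} (D : Species S) {J : Type} [Fintype J] [DecidableEq J]
    (π : Equiv.Perm J) (F G : Wave D J) : ip D (rbAct D π F) (rbAct D π G) = ip D F G := by
  unfold ip
  rw [← Equiv.sum_comp (Equiv.arrowCongr π.symm (Equiv.refl (Fin D.g)))
    (fun τ => ∫ x, (starRingEnd ℂ) (F τ x) * G τ x)]
  apply Finset.sum_congr rfl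
  intro τ _
  have mp := (volume_measurePreserving_piCongrLeft (fun _ : J => E3) π).symm
  have h := mp.integral_comp' (g := fun x : J → E3 =>
    (starRingEnd ℂ) (F (fun k => τ (π k)) x) * G (fun k => τ (π k)) x)
  exact h

/-! ### rb_ip_X -/
theorem rb_ip_X {S : Type} (D : Species S) {I : Type} [Fintype I] [DecidableEq I]
    (sp : Option I → S) (ℓ : ℝ) (m : Fin 3 → ℤ) (σ : Fin D.g) (χ : Wave D I)
    (hχ : ∀ τ, rbNice (χ τ)) (Φ : Wave D (Option I)) (hΦ : IsState D sp ℓ Φ) :
    ip D (rbX D ℓ m σ χ) Φ = ip D χ (psl D (pwave ℓ m) σ Φ) := by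
  -- change of variables
  let eqv : ((o : Option I) → E3) ≃ᵐ (I → E3) × E3 :=
    MeasurableEquiv.piOptionEquivProd (fun _ : Option I => E3)
  have hmp : Measure.map eqv.symm
      ((volume : Measure (I → E3)).prod (volume : Measure E3)) =
      (volume : Measure (Option I → E3)) :=
    Measure.pi_map_piOptionEquivProd (fun _ : Option I => (volume : Measure E3))
  have hsymm : ∀ p : (I → E3) × E3, eqv.symm p = fun o => o.elim p.2 p.1 := by
    intro p
    funext o
    cases o <;> rfl
  have hcov : ∀ f : (Option I → E3) → ℂ, rbNice f →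
      ∫ x, f x = ∫ y : I → E3, ∫ z : E3, f (fun o => o.elim z y) := by
    intro f hf
    have hint2 : Integrable (fun x => f (eqv.symm x))
        ((volume : Measure (I → E3)).prod (volume : Measure E3)) :=
      (integrable_map_equiv eqv.symm f).mp (by rw [hmp]; exact rb_nice_int f hf)
    rw [← hmp, integral_map_equiv, integral_prod _ hint2]
    refine integral_congr_ae (Filter.Eventually.of_forall fun y => ?_)
    refine integral_congr_ae (Filter.Eventually.of_forall fun z => ?_)
    show f (eqv.symm (y, z)) = _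
    rw [hsymm]
  have hsum : ∀ F : (Option I → Fin D.g) → ℂ, (∀ τ, τ none ≠ σ → F τ = 0) →
      ∑ τ, F τ = ∑ τ' : I → Fin D.g, F (fun o => o.elim σ τ') := by
    intro F hF
    rw [← (Equiv.piOptionEquivProd (β := fun _ : Option I => Fin D.g)).symm.sum_comp F,
      Fintype.sum_prod_type, Finset.sum_eq_single σ]
    · refine Finset.sum_congr rfl fun τ' _ => ?_
      congr 1
      funext o
      cases o <;> rfl
    · intro s _ hs
      refine Finset.sum_eq_zero fun τ' _ => hF _ ?_
      exact hs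
    · intro h; exact absurd (Finset.mem_univ _) h
  unfold ip
  rw [hsum]
  · refine Finset.sum_congr rfl fun τ' _ => ?_
    have hX := rb_nice_X D ℓ m σ χ hχ (fun o => o.elim σ τ')
    have hP := rb_nice_state D sp ℓ Φ hΦ (fun o => o.elim σ τ')
    rw [hcov _ (rb_nice_alg _ _ hX hP 0).2.2]
    refine integral_congr_ae (Filter.Eventually.of_forall fun y => ?_)
    show ∫ z : E3, (starRingEnd ℂ) (rbX D ℓ m σ χ (fun o => o.elim σ τ') (fun o => o.elim z y)) *
        Φ (fun o => o.elim σ τ') (fun o => o.elim z y) =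
      (starRingEnd ℂ) (χ τ' y) * ∫ z, (starRingEnd ℂ) (pwave ℓ m z) *
        Φ (fun o => o.elim σ τ') (fun o => o.elim z y)
    rw [← integral_const_mul]
    refine integral_congr_ae (Filter.Eventually.of_forall fun z => ?_)
    show (starRingEnd ℂ) (rbX D ℓ m σ χ (fun o => o.elim σ τ') (fun o => o.elim z y)) *
        Φ (fun o => o.elim σ τ') (fun o => o.elim z y) =
      (starRingEnd ℂ) (χ τ' y) * ((starRingEnd ℂ) (pwave ℓ m z) *
        Φ (fun o => o.elim σ τ') (fun o => o.elim z y))
    have e1 : rbX D ℓ m σ χ (fun o => o.elim σ τ') (fun o => o.elim z y) =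
        Set.indicator (cube ℓ) (pwave ℓ m) z * χ τ' y := by
      simp [rbX]
    rw [e1]
    by_cases hz : z ∈ cube ℓ
    · rw [Set.indicator_of_mem hz, map_mul]; ring
    · have h0 : Φ (fun o => o.elim σ τ') (fun o => o.elim z y) = 0 := by
        by_contra hne
        have := hΦ.support (fun o => o.elim σ τ') (subset_tsupport _ hne) none
        exact hz this
      rw [h0]; ring
  · intro τ hτ
    have : ∀ x, rbX D ℓ m σ χ τ x = 0 := by
      intro x; simp [rbX, hτ]
    simp [this]

/-! ### rb_ip_XX -/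
-- helper lemmas
theorem rb_ip_XX_prod {I : Type} [Fintype I] (f : (I → E3) → ℂ) (g : E3 → ℂ) :
    ∫ x : Option I → E3, f (fun i => x (some i)) * g (x none) = (∫ y, f y) * ∫ z, g z := by
  have h := Measure.pi_map_piOptionEquivProd (β := fun _ : Option I => E3)
    (fun _ => (volume : Measure E3))
  have hv : (volume : Measure (Option I → E3)) = Measure.pi (fun _ => volume) := rfl
  rw [hv, ← h, (MeasurableEquiv.measurableEmbedding _).integral_map]
  exact integral_prod_mul f g

theorem rb_ip_XX_vol (ℓ : ℝ) (hℓ : 0 < ℓ) : volume (cube ℓ) = ENNReal.ofReal (ℓ ^ 3) := by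
  have h1 : cube ℓ = (@WithLp.ofLp 2 (Fin 3 → ℝ)) ⁻¹'
      (Set.pi Set.univ (fun _ : Fin 3 => Set.Ioo (0:ℝ) ℓ)) := by
    ext y
    simp [cube, Set.mem_pi]
  rw [h1, (PiLp.volume_preserving_ofLp (Fin 3)).measure_preimage
    (MeasurableSet.univ_pi fun _ => measurableSet_Ioo).nullMeasurableSet,
    Real.volume_pi_Ioo]
  simp [ENNReal.ofReal_pow hℓ.le]

theorem rb_ip_XX_meas (ℓ : ℝ) : MeasurableSet (cube ℓ) := by
  have h1 : cube ℓ = ⋂ k : Fin 3, {y : E3 | 0 < y k} ∩ {y : E3 | y k < ℓ} := by
    ext y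
    simp [cube]
  rw [h1]
  refine MeasurableSet.iInter fun k => MeasurableSet.inter ?_ ?_
  · exact (isOpen_lt continuous_const (by fun_prop)).measurableSet
  · exact (isOpen_lt (by fun_prop) continuous_const).measurableSet

theorem rb_ip_XX_one (ℓ : ℝ) (hℓ : 0 < ℓ) (m : Fin 3 → ℤ) :
    ∫ z, (starRingEnd ℂ) (Set.indicator (cube ℓ) (pwave ℓ m) z) *
      Set.indicator (cube ℓ) (pwave ℓ m) z = 1 := by
  have h3 : 0 < ℓ ^ 3 := by positivity
  have hn : ∀ z, ‖pwave ℓ m z‖ ^ 2 = 1 / ℓ ^ 3 := by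
    intro z
    unfold pwave
    have e : (2 * (Real.pi : ℂ) * Complex.I * ((∑ i, (m i : ℝ) * z i : ℝ) : ℂ) / (ℓ : ℂ))
        = ((2 * Real.pi * (∑ i, (m i : ℝ) * z i) / ℓ : ℝ) : ℂ) * Complex.I := by
      push_cast; ring
    rw [e, norm_div, Complex.norm_exp_ofReal_mul_I, Complex.norm_real, Real.norm_eq_abs,
      abs_of_nonneg (Real.sqrt_nonneg _), div_pow, one_pow, Real.sq_sqrt h3.le]
  have h : ∀ z, (starRingEnd ℂ) (Set.indicator (cube ℓ) (pwave ℓ m) z) *
      Set.indicator (cube ℓ) (pwave ℓ m) z =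
      Set.indicator (cube ℓ) (fun _ => ((1 / ℓ ^ 3 : ℝ) : ℂ)) z := by
    intro z
    rw [Complex.conj_mul']
    by_cases hz : z ∈ cube ℓ
    · rw [Set.indicator_of_mem hz, Set.indicator_of_mem hz, ← hn z]
      push_cast; rfl
    · rw [Set.indicator_of_notMem hz, Set.indicator_of_notMem hz]
      simp
  rw [integral_congr_ae (Filter.Eventually.of_forall h), integral_indicator (rb_ip_XX_meas ℓ),
    setIntegral_const, Measure.real, rb_ip_XX_vol ℓ hℓ, ENNReal.toReal_ofReal h3.le]
  rw [Complex.real_smul, ← Complex.ofReal_mul]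
  have : ℓ ^ 3 * (1 / ℓ ^ 3) = 1 := by field_simp
  rw [this]; simp


theorem rb_ip_XX {S : Type} (D : Species S) {I : Type} [Fintype I] [DecidableEq I]
    (ℓ : ℝ) (hℓ : 0 < ℓ) (m : Fin 3 → ℤ) (σ : Fin D.g) (χ : Wave D I)
    (hχ : ∀ τ, rbNice (χ τ)) :
    ip D (rbX D ℓ m σ χ) (rbX D ℓ m σ χ) = ip D χ χ := by
  unfold ip
  rw [Fintype.sum_equiv (Equiv.piOptionEquivProd (β := fun _ : Option I => Fin D.g))
    (fun τ : Option I → Fin D.g => ∫ x, (starRingEnd ℂ) (rbX D ℓ m σ χ τ x) *
      rbX D ℓ m σ χ τ x)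
    (fun p : Fin D.g × (I → Fin D.g) => if p.1 = σ then
      ∫ x, (starRingEnd ℂ) (χ p.2 x) * χ p.2 x else 0) ?_]
  · rw [Fintype.sum_prod_type, Finset.sum_eq_single σ]
    · simp
    · intro b _ hb
      simp [hb]
    · intro h
      exact absurd (Finset.mem_univ σ) h
  · intro τ
    have e1 : (Equiv.piOptionEquivProd (β := fun _ : Option I => Fin D.g) τ).1 = τ none := rfl
    have e2 : (Equiv.piOptionEquivProd (β := fun _ : Option I => Fin D.g) τ).2
        = fun i => τ (some i) := rfl
    rw [e1, e2]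
    by_cases hτ : τ none = σ
    · rw [if_pos hτ]
      have h : ∀ x : Option I → E3, (starRingEnd ℂ) (rbX D ℓ m σ χ τ x) * rbX D ℓ m σ χ τ x =
          (fun y : I → E3 => (starRingEnd ℂ) (χ (fun i => τ (some i)) y) *
            χ (fun i => τ (some i)) y) (fun i => x (some i)) *
          (fun z : E3 => (starRingEnd ℂ) (Set.indicator (cube ℓ) (pwave ℓ m) z) *
            Set.indicator (cube ℓ) (pwave ℓ m) z) (x none) := by
        intro x
        unfold rbX
        rw [if_pos hτ, map_mul]
        ring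
      rw [integral_congr_ae (Filter.Eventually.of_forall h)]
      refine (rb_ip_XX_prod (fun y : I → E3 => (starRingEnd ℂ) (χ (fun i => τ (some i)) y) *
            χ (fun i => τ (some i)) y)
          (fun z : E3 => (starRingEnd ℂ) (Set.indicator (cube ℓ) (pwave ℓ m) z) *
            Set.indicator (cube ℓ) (pwave ℓ m) z)).trans ?_
      rw [rb_ip_XX_one ℓ hℓ m, mul_one]
    · rw [if_neg hτ]
      unfold rbX
      simp [hτ]

/-! ### rb_ip_swap -/
theorem rbs_sum_opt {α β : Type} [Fintype α] [DecidableEq α] [Fintype β]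
    (f : (Option α → β) → ℂ) :
    ∑ τ, f τ = ∑ b : β, ∑ τ' : α → β, f (fun o => o.elim b τ') := by
  rw [← Fintype.sum_prod_type' (f := fun (b : β) (τ' : α → β) => f (fun o => o.elim b τ'))]
  refine Fintype.sum_equiv (Equiv.piOptionEquivProd (β := fun _ : Option α => β)) _ _ fun τ => ?_
  congr 1
  funext o
  cases o <;> rfl

theorem rbs_fub {J : Type} [Fintype J] (f : (Option J → E3) → ℂ) (hf : Integrable f) :
    Integrable (fun w : J → E3 => ∫ z : E3, f (fun o => o.elim z w)) ∧
    ∫ x, f x = ∫ w : J → E3, ∫ z : E3, f (fun o => o.elim z w) := by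
  have h := Measure.pi_map_piOptionEquivProd (ι := J) (β := fun _ => E3)
    (fun _ => (volume : Measure E3))
  have hv : (volume : Measure (Option J → E3)) =
      Measure.map (MeasurableEquiv.piOptionEquivProd (fun _ : Option J => E3)).symm
        ((volume : Measure (J → E3)).prod (volume : Measure E3)) := h.symm
  have he : ∀ p : (J → E3) × E3,
      (MeasurableEquiv.piOptionEquivProd (fun _ : Option J => E3)).symm p =
        (fun o => o.elim p.2 p.1) := by
    intro p
    funext o
    cases o <;> rfl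
  have hint : Integrable (fun p : (J → E3) × E3 => f (fun o => o.elim p.2 p.1))
      ((volume : Measure (J → E3)).prod (volume : Measure E3)) := by
    rw [hv] at hf
    have h2 := (integrable_map_equiv
      (MeasurableEquiv.piOptionEquivProd (fun _ : Option J => E3)).symm f).1 hf
    refine h2.congr (ae_of_all _ fun p => ?_)
    simp only [Function.comp]
    rw [he p]
  refine ⟨hint.integral_prod_left, ?_⟩
  rw [hv, integral_map_equiv]
  rw [← integral_prod (fun p : (J → E3) × E3 => f (fun o => o.elim p.2 p.1)) hint]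
  refine integral_congr_ae (ae_of_all _ fun p => ?_)
  simp only []
  rw [he p]


theorem rb_ip_swap {S : Type} (D : Species S) {J : Type} [Fintype J] [DecidableEq J]
    (sp : Option J → S) (ℓ : ℝ) (m : Fin 3 → ℤ) (σ : Fin D.g) (χ : Wave D (Option J))
    (hχ : IsState D sp ℓ χ) :
    ip D (rbX D ℓ m σ χ) (rbAct D (Equiv.swap none (some none)) (rbX D ℓ m σ χ)) =
      ((∑ τ : J → Fin D.g, ∫ w : J → E3, ‖∫ z, (starRingEnd ℂ) (pwave ℓ m z) *
        χ (fun o => o.elim σ τ) (fun o => o.elim z w)‖ ^ 2 : ℝ) : ℂ) := by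
  classical
  have hu : ∀ (τ : Option J → Fin D.g) (z : E3) (w : J → E3),
      (starRingEnd ℂ) (Set.indicator (cube ℓ) (pwave ℓ m) z) * χ τ (fun o => o.elim z w) =
        (starRingEnd ℂ) (pwave ℓ m z) * χ τ (fun o => o.elim z w) := by
    intro τ z w
    by_cases hz : z ∈ cube ℓ
    · rw [Set.indicator_of_mem hz]
    · have h0 : χ τ (fun o => o.elim z w) = 0 := by
        by_contra hne
        have hm : (fun o : Option J => o.elim z w) ∈ tsupport (χ τ) :=
          subset_tsupport _ (by simpa [Function.mem_support] using hne)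
        exact hz (hχ.support τ hm none)
      rw [h0, mul_zero, mul_zero]
  have hnX : ∀ τ, rbNice (rbX D ℓ m σ χ τ) :=
    rb_nice_X D ℓ m σ χ (rb_nice_state D sp ℓ χ hχ)
  have hint : ∀ τ, Integrable (fun x => (starRingEnd ℂ) (rbX D ℓ m σ χ τ x) *
      rbAct D (Equiv.swap none (some none)) (rbX D ℓ m σ χ) τ x) := fun τ =>
    rb_nice_int _ (rb_nice_alg _ _ (hnX τ) (rb_nice_act D _ (rbX D ℓ m σ χ) hnX τ) 0).2.2
  unfold ip
  rw [rbs_sum_opt, Finset.sum_eq_single σ, rbs_sum_opt, Finset.sum_eq_single σ]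
  · push_cast
    refine Finset.sum_congr rfl fun τ _ => ?_
    rw [← integral_complex_ofReal]
    obtain ⟨h1, h2⟩ := rbs_fub _ (hint (fun o => o.elim σ (fun o => o.elim σ τ)))
    obtain ⟨_, h4⟩ := rbs_fub _ h1
    rw [h2, h4]
    refine integral_congr_ae (ae_of_all _ fun w => ?_)
    have hpt : ∀ z y : E3,
        (starRingEnd ℂ) (rbX D ℓ m σ χ (fun o => o.elim σ (fun o => o.elim σ τ))
          (fun o => o.elim y (fun o => o.elim z w))) *
        rbAct D (Equiv.swap none (some none)) (rbX D ℓ m σ χ)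
          (fun o => o.elim σ (fun o => o.elim σ τ))
          (fun o => o.elim y (fun o => o.elim z w)) =
        (starRingEnd ℂ) ((starRingEnd ℂ) (pwave ℓ m z) *
            χ (fun o => o.elim σ τ) (fun o => o.elim z w)) *
          ((starRingEnd ℂ) (pwave ℓ m y) *
            χ (fun o => o.elim σ τ) (fun o => o.elim y w)) := by
      intro z y
      rw [← hu, ← hu]
      have e1 : (fun i : Option J => ((fun o : Option (Option J) =>
          o.elim σ (fun o => o.elim σ τ)) ((Equiv.swap none (some none)) (some i)))) =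
          (fun o => o.elim σ τ) := by
        funext i
        cases i with
        | none => simp
        | some j => rw [Equiv.swap_apply_of_ne_of_ne (by simp) (by simp)]; rfl
      have e2 : (fun i : Option J => ((fun o : Option (Option J) =>
          o.elim y (fun o => o.elim z w)) ((Equiv.swap none (some none)) (some i)))) =
          (fun o => o.elim y w) := by
        funext i
        cases i with
        | none => simp
        | some j => rw [Equiv.swap_apply_of_ne_of_ne (by simp) (by simp)]; rfl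
      simp only [rbX, rbAct]
      rw [e1, e2]
      simp only [Option.elim_none, Option.elim_some, Equiv.swap_apply_left, if_true, map_mul,
        Complex.conj_conj]
      ring
    simp only [hpt]
    simp only [integral_const_mul, integral_mul_const]
    rw [integral_conj]
    rw [← Complex.normSq_eq_conj_mul_self, Complex.normSq_eq_norm_sq]
  · intro b _ hb
    refine Finset.sum_eq_zero fun τ _ => ?_
    have : ∀ x : Option (Option J) → E3, (starRingEnd ℂ) (rbX D ℓ m σ χ
        (fun o => o.elim σ (fun o => o.elim b τ)) x) *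
        rbAct D (Equiv.swap none (some none)) (rbX D ℓ m σ χ)
          (fun o => o.elim σ (fun o => o.elim b τ)) x = 0 := by
      intro x
      simp [rbAct, rbX, hb]
    simp only [this, integral_zero]
  · intro h; exact absurd (Finset.mem_univ _) h
  · intro b _ hb
    refine Finset.sum_eq_zero fun τ _ => ?_
    have : ∀ x : Option (Option J) → E3, (starRingEnd ℂ) (rbX D ℓ m σ χ
        (fun o => o.elim b τ) x) *
        rbAct D (Equiv.swap none (some none)) (rbX D ℓ m σ χ)
          (fun o => o.elim b τ) x = 0 := by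
      intro x
      simp [rbX, hb]
    simp only [this, integral_zero]
  · intro h; exact absurd (Finset.mem_univ _) h

/-! ### rb_bessel0 -/
theorem rb_bessel0 {S : Type} (D : Species S) {J : Type} [Fintype J] [DecidableEq J]
    (sp : Option J → S) (ℓ : ℝ) (hℓ : 0 < ℓ) (K : Finset (Fin 3 → ℤ)) (σ : Fin D.g)
    (χ : Wave D (Option J)) (hχ : IsState D sp ℓ χ) :
    ∑ m ∈ K, ‖ip D (rbX D ℓ m σ χ) (rbAct D (Equiv.swap none (some none))
      (rbX D ℓ m σ χ))‖ ≤ nrm2 D χ := by
  classical
  have h1 : ∀ m, ‖ip D (rbX D ℓ m σ χ) (rbAct D (Equiv.swap none (some none))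
      (rbX D ℓ m σ χ))‖ = ∑ τ : J → Fin D.g, ∫ w : J → E3, ‖∫ z, (starRingEnd ℂ) (pwave ℓ m z) *
        χ (fun o => o.elim σ τ) (fun o => o.elim z w)‖ ^ 2 := by
    intro m
    rw [rb_ip_swap D sp ℓ m σ χ hχ, Complex.norm_real, Real.norm_of_nonneg]
    exact Finset.sum_nonneg fun τ _ => integral_nonneg fun w => by positivity
  simp only [h1]
  rw [Finset.sum_comm]
  have h2 : ∀ τ : J → Fin D.g, ∑ m ∈ K, ∫ w : J → E3, ‖∫ z, (starRingEnd ℂ) (pwave ℓ m z) *
        χ (fun o => o.elim σ τ) (fun o => o.elim z w)‖ ^ 2 ≤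
      ∫ x : Option J → E3, ‖χ (fun o => o.elim σ τ) x‖ ^ 2 := by
    intro τ
    have hw := (int_state D sp ℓ χ hχ (fun o => o.elim σ τ)).1
    have h3 := (psl_weight ℓ hℓ (χ (fun o => o.elim σ τ)) (hχ.smooth _) (hχ.compact _)
      (fun x hx => hχ.support _ hx none) (fun _ => (1 : ℝ)) measurable_const
      (by simpa using hw)).1
    simp only [one_mul] at h3
    exact sum_le_hasSum K (fun m _ => integral_nonneg fun w => by positivity) h3
  refine (Finset.sum_le_sum fun τ _ => h2 τ).trans ?_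
  let e : (J → Fin D.g) ↪ (Option J → Fin D.g) :=
    ⟨fun τ o => o.elim σ τ, fun τ1 τ2 h => by
      funext j
      have := congrFun h (some j)
      simpa using this⟩
  have h4 : ∑ τ : J → Fin D.g, ∫ x : Option J → E3, ‖χ (fun o => o.elim σ τ) x‖ ^ 2 =
      ∑ τ' ∈ Finset.univ.map e, ∫ x : Option J → E3, ‖χ τ' x‖ ^ 2 := by
    rw [Finset.sum_map]
    rfl
  rw [h4, nrm2]
  exact Finset.sum_le_sum_of_subset_of_nonneg (Finset.subset_univ _)
    fun τ _ _ => integral_nonneg fun x => by positivity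

/-! ### rb_bessel -/
theorem rb833_int {A B : Type} [Fintype A] [Fintype B] (e : A ≃ B) {G : Type}
    [NormedAddCommGroup G] [NormedSpace ℝ G] (f : (B → E3) → G) :
    ∫ x : A → E3, f (fun b => x (e.symm b)) = ∫ y : B → E3, f y := by
  have h := (volume_measurePreserving_piCongrLeft (fun _ : B => E3) e).integral_comp' f
  rw [← h]
  congr 1
  funext x
  congr 1
  funext b
  obtain ⟨a, rfl⟩ := e.surjective b
  rw [Equiv.symm_apply_apply, MeasurableEquiv.coe_piCongrLeft, Equiv.piCongrLeft_apply_apply]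

theorem rb833_sum {A B : Type} [Fintype A] [DecidableEq A] [Fintype B] [DecidableEq B]
    (e : A ≃ B) {g : ℕ} {G : Type} [AddCommMonoid G] (f : (B → Fin g) → G) :
    ∑ x : A → Fin g, f (fun b => x (e.symm b)) = ∑ y : B → Fin g, f y := by
  refine Fintype.sum_equiv (Equiv.arrowCongr e (Equiv.refl _)) _ _ ?_
  intro x
  rfl

theorem rb833_ip {S : Type} (D : Species S) {I J : Type} [Fintype I] [DecidableEq I] [Fintype J]
    [DecidableEq J] (e : I ≃ J) (Φ Ψ : Wave D I) :
    ip D (relab D e Φ) (relab D e Ψ) = ip D Φ Ψ := by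
  unfold ip
  have h1 := rb833_sum (g := D.g) e.symm
    (fun τ : I → Fin D.g => ∫ x, (starRingEnd ℂ) (Φ τ x) * Ψ τ x)
  rw [← h1]
  refine Finset.sum_congr rfl fun τ _ => ?_
  have h2 := rb833_int e.symm (fun x : I → E3 =>
    (starRingEnd ℂ) (Φ (fun b => τ (e.symm.symm b)) x) * Ψ (fun b => τ (e.symm.symm b)) x)
  rw [← h2]
  rfl

theorem rb833_nrm {S : Type} (D : Species S) {I J : Type} [Fintype I] [DecidableEq I] [Fintype J]
    [DecidableEq J] (e : I ≃ J) (Ψ : Wave D I) :
    nrm2 D (relab D e Ψ) = nrm2 D Ψ := by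
  unfold nrm2
  have h1 := rb833_sum (g := D.g) e.symm
    (fun τ : I → Fin D.g => ∫ x, ‖Ψ τ x‖ ^ 2)
  rw [← h1]
  refine Finset.sum_congr rfl fun τ _ => ?_
  have h2 := rb833_int e.symm (fun x : I → E3 => ‖Ψ (fun b => τ (e.symm.symm b)) x‖ ^ 2)
  rw [← h2]
  rfl

theorem rb833_state {S : Type} (D : Species S) {I J : Type} [Fintype I] [DecidableEq I]
    [Fintype J] [DecidableEq J] (e : I ≃ J) (sp : I → S) (ℓ : ℝ) (Ψ : Wave D I)
    (h : IsState D sp ℓ Ψ) : IsState D (fun j => sp (e.symm j)) ℓ (relab D e Ψ) := by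
  obtain ⟨L, hL⟩ : ∃ L : (J → E3) ≃L[ℝ] (I → E3), ∀ x i, L x i = x (e i) :=
    ⟨(LinearEquiv.funCongrLeft ℝ E3 e).toContinuousLinearEquiv, fun x i => rfl⟩
  have hrel : ∀ τ, relab D e Ψ τ = (Ψ (fun i => τ (e i))) ∘ L := by
    intro τ
    funext x
    show Ψ (fun i => τ (e i)) (fun i => x (e i)) = Ψ (fun i => τ (e i)) (L x)
    congr 1
    funext i
    exact (hL x i).symm
  constructor
  · intro τ
    rw [hrel]
    exact (h.smooth _).comp L.contDiff
  · intro τ
    rw [hrel]
    exact (h.compact _).comp_homeomorph L.toHomeomorph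
  · intro τ x hx j
    rw [hrel] at hx
    have h1 : L x ∈ tsupport (Ψ (fun i => τ (e i))) :=
      tsupport_comp_subset_preimage (Ψ (fun i => τ (e i))) L.continuous hx
    have h2 := h.support _ h1 (e.symm j)
    rw [hL, Equiv.apply_symm_apply] at h2
    exact h2
  · intro τ hτ j
    have h1 : Ψ (fun i => τ (e i)) ≠ 0 := by
      intro h0
      apply hτ
      rw [hrel, h0]
      rfl
    have h2 := h.spin _ h1 (e.symm j)
    simpa using h2
  · intro i j hij hs τ x
    have h1 := h.symm (e.symm i) (e.symm j) (fun h0 => hij (e.symm.injective h0)) hs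
      (fun k => τ (e k)) (fun k => x (e k))
    have h3 : ∀ k, e (Equiv.swap (e.symm i) (e.symm j) k) = Equiv.swap i j (e k) := by
      intro k
      have := e.injective.swap_apply (e.symm i) (e.symm j) k
      rw [Equiv.apply_symm_apply, Equiv.apply_symm_apply] at this
      exact this.symm
    have h4 : (fun k => τ (e (Equiv.swap (e.symm i) (e.symm j) k))) =
        fun k => τ (Equiv.swap i j (e k)) := by
      funext k
      rw [h3]
    have h5 : (fun k => x (e (Equiv.swap (e.symm i) (e.symm j) k))) =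
        fun k => x (Equiv.swap i j (e k)) := by
      funext k
      rw [h3]
    have h6 : Ψ (fun k => τ (e (Equiv.swap (e.symm i) (e.symm j) k)))
        (fun k => x (e (Equiv.swap (e.symm i) (e.symm j) k))) =
        exch D (sp (e.symm i)) * Ψ (fun k => τ (e k)) (fun k => x (e k)) := h1
    rw [h4, h5] at h6
    exact h6

theorem rb833_X {S : Type} (D : Species S) {I J : Type} [Fintype I] [DecidableEq I]
    [Fintype J] [DecidableEq J] (e : I ≃ J) (ℓ : ℝ) (m : Fin 3 → ℤ) (σ : Fin D.g)
    (χ : Wave D I) :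
    rbX D ℓ m σ (relab D e χ) = relab D (Equiv.optionCongr e) (rbX D ℓ m σ χ) := by
  funext τ x
  rfl

theorem rb833_act {S : Type} (D : Species S) {I J : Type} [Fintype I] [DecidableEq I]
    [Fintype J] [DecidableEq J] (E : I ≃ J) (a b : I) (F : Wave D I) :
    rbAct D (Equiv.swap (E a) (E b)) (relab D E F) = relab D E (rbAct D (Equiv.swap a b) F) := by
  funext τ x
  have h3 : ∀ k, Equiv.swap (E a) (E b) (E k) = E (Equiv.swap a b k) := by
    intro k
    exact E.injective.swap_apply a b k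
  show F (fun k => τ (Equiv.swap (E a) (E b) (E k))) (fun k => x (Equiv.swap (E a) (E b) (E k))) =
    F (fun k => τ (E (Equiv.swap a b k))) (fun k => x (E (Equiv.swap a b k)))
  have h4 : (fun k => τ (Equiv.swap (E a) (E b) (E k))) = fun k => τ (E (Equiv.swap a b k)) := by
    funext k
    rw [h3]
  have h5 : (fun k => x (Equiv.swap (E a) (E b) (E k))) = fun k => x (E (Equiv.swap a b k)) := by
    funext k
    rw [h3]
  rw [h4, h5]


theorem rb_bessel {S : Type} (D : Species S) {I : Type} [Fintype I] [DecidableEq I]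
    (sp : I → S) (ℓ : ℝ) (hℓ : 0 < ℓ) (K : Finset (Fin 3 → ℤ)) (σ : Fin D.g)
    (χ : Wave D I) (hχ : IsState D sp ℓ χ) (i : I) :
    ∑ m ∈ K, ‖ip D (rbX D ℓ m σ χ) (rbAct D (Equiv.swap none (some i))
      (rbX D ℓ m σ χ))‖ ≤ nrm2 D χ := by
  obtain ⟨e, he⟩ : ∃ e : I ≃ Option {j // j ≠ i}, e i = none :=
    ⟨(Equiv.optionSubtypeNe i).symm, Equiv.optionSubtypeNe_symm_self i⟩
  have hst := rb833_state D e sp ℓ χ hχ
  have h0 := rb_bessel0 D (fun j => sp (e.symm j)) ℓ hℓ K σ (relab D e χ) hst
  rw [rb833_nrm] at h0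
  refine le_trans (le_of_eq ?_) h0
  refine Finset.sum_congr rfl fun m _ => ?_
  congr 1
  have h1 : (Equiv.optionCongr e) none = none := rfl
  have h2 : (Equiv.optionCongr e) (some i) = some none := by
    show some (e i) = some none
    rw [he]
  have h3 := rb833_act D (Equiv.optionCongr e) none (some i) (rbX D ℓ m σ χ)
  rw [h1, h2] at h3
  rw [rb833_X, h3, rb833_ip]

/-! ### rb_act_X -/
theorem rb_act_X {S : Type} (D : Species S) {I : Type} [Fintype I] [DecidableEq I]
    (sp : I → S) (ℓ : ℝ) (m : Fin 3 → ℤ) (σ : Fin D.g) (χ : Wave D I) (hχ : IsState D sp ℓ χ)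
    (a b : I) (hab : a ≠ b) (hs : sp a = sp b) :
    rbAct D (Equiv.swap (some a) (some b)) (rbX D ℓ m σ χ) =
      fun τ x => exch D (sp a) * rbX D ℓ m σ χ τ x := by
  funext τ x
  have h0 : Equiv.swap (some a) (some b) (none : Option I) = none :=
    Equiv.swap_apply_of_ne_of_ne (by simp) (by simp)
  have h1 : ∀ i : I, Equiv.swap (some a) (some b) (some i) = some (Equiv.swap a b i) := by
    intro i
    simp only [Equiv.swap_apply_def, Option.some.injEq]
    split_ifs <;> rfl
  have h2 := hχ.symm a b hab hs (fun i => τ (some i)) (fun i => x (some i))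
  simp only [rbAct, rbX, h0, h1]
  by_cases h : τ none = σ
  · rw [if_pos h, if_pos h]
    have h3 : χ (fun i => τ (some (Equiv.swap a b i))) (fun i => x (some (Equiv.swap a b i))) =
        exch D (sp a) * χ (fun i => τ (some i)) (fun i => x (some i)) := h2
    rw [h3]
    ring
  · rw [if_neg h, if_neg h, mul_zero]

/-! ### rb_perm -/
theorem rb_perm {I : Type} [DecidableEq I] (a b : I) (hab : a ≠ b) :
    (Equiv.swap none (some a) : Equiv.Perm (Option I)) * Equiv.swap none (some b) =
      Equiv.swap none (some b) * Equiv.swap (some a) (some b) := by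
  refine Equiv.ext (fun k => ?_)
  have hab' : (some a : Option I) ≠ some b := fun h => hab (Option.some_injective _ h)
  have hab'' : (some b : Option I) ≠ some a := fun h => hab' h.symm
  have ha : (some a : Option I) ≠ none := Option.some_ne_none a
  have hb : (some b : Option I) ≠ none := Option.some_ne_none b
  by_cases h1 : k = none
  · subst h1
    rw [Equiv.Perm.mul_apply, Equiv.Perm.mul_apply, Equiv.swap_apply_left,
      Equiv.swap_apply_of_ne_of_ne hb hab'', Equiv.swap_apply_of_ne_of_ne ha.symm hb.symm,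
      Equiv.swap_apply_left]
  · by_cases h2 : k = some a
    · subst h2
      rw [Equiv.Perm.mul_apply, Equiv.Perm.mul_apply, Equiv.swap_apply_of_ne_of_ne ha hab',
        Equiv.swap_apply_right, Equiv.swap_apply_left, Equiv.swap_apply_right]
    · by_cases h3 : k = some b
      · subst h3
        rw [Equiv.Perm.mul_apply, Equiv.Perm.mul_apply, Equiv.swap_apply_right,
          Equiv.swap_apply_left, Equiv.swap_apply_right, Equiv.swap_apply_of_ne_of_ne ha hab']
      · rw [Equiv.Perm.mul_apply, Equiv.Perm.mul_apply, Equiv.swap_apply_of_ne_of_ne h1 h3,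
          Equiv.swap_apply_of_ne_of_ne h1 h2, Equiv.swap_apply_of_ne_of_ne h2 h3,
          Equiv.swap_apply_of_ne_of_ne h1 h3]

/-! ### rb_ip_lin -/
theorem rb_ip_lin {S : Type} (D : Species S) {J : Type} [Fintype J] [DecidableEq J] {A : Type}
    (s : Finset A) (c : A → ℂ) (F : A → Wave D J) (G : Wave D J)
    (hF : ∀ a τ, rbNice (F a τ)) (hG : ∀ τ, rbNice (G τ)) :
    ip D (fun τ x => ∑ a ∈ s, c a * F a τ x) G = ∑ a ∈ s, (starRingEnd ℂ) (c a) * ip D (F a) G ∧
    ip D G (fun τ x => ∑ a ∈ s, c a * F a τ x) = ∑ a ∈ s, c a * ip D G (F a) ∧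
    (∀ τ, rbNice (fun x => ∑ a ∈ s, c a * F a τ x)) := by
  classical
  have hint1 : ∀ a τ, Integrable (fun x => (starRingEnd ℂ) (F a τ x) * G τ x) := fun a τ =>
    rb_nice_int _ (rb_nice_alg (F a τ) (G τ) (hF a τ) (hG τ) 0).2.2
  have hint2 : ∀ a τ, Integrable (fun x => (starRingEnd ℂ) (G τ x) * F a τ x) := fun a τ =>
    rb_nice_int _ (rb_nice_alg (G τ) (F a τ) (hG τ) (hF a τ) 0).2.2
  refine ⟨?_, ?_, ?_⟩
  · unfold ip
    simp_rw [Finset.mul_sum]
    rw [Finset.sum_comm]
    apply Finset.sum_congr rfl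
    intro τ _
    have e1 : (fun x => (starRingEnd ℂ) (∑ a ∈ s, c a * F a τ x) * G τ x) =
        fun x => ∑ a ∈ s, (starRingEnd ℂ) (c a) * ((starRingEnd ℂ) (F a τ x) * G τ x) := by
      funext x
      rw [map_sum, Finset.sum_mul]
      apply Finset.sum_congr rfl
      intro a _
      rw [map_mul]
      ring
    rw [e1, integral_finset_sum]
    · apply Finset.sum_congr rfl
      intro a _
      rw [integral_const_mul]
    · intro a _
      exact (hint1 a τ).const_mul _
  · unfold ip
    simp_rw [Finset.mul_sum]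
    rw [Finset.sum_comm]
    apply Finset.sum_congr rfl
    intro τ _
    have e1 : (fun x => ∑ a ∈ s, (starRingEnd ℂ) (G τ x) * (c a * F a τ x)) =
        fun x => ∑ a ∈ s, c a * ((starRingEnd ℂ) (G τ x) * F a τ x) := by
      funext x
      apply Finset.sum_congr rfl
      intro a _
      ring
    rw [e1, integral_finset_sum]
    · apply Finset.sum_congr rfl
      intro a _
      rw [integral_const_mul]
    · intro a _
      exact (hint2 a τ).const_mul _
  · intro τ
    induction s using Finset.induction_on with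
    | empty =>
      simp only [Finset.sum_empty]
      exact ⟨measurable_const, ⟨0, fun x => by simp⟩, ⟨0, fun x hx => absurd rfl hx⟩⟩
    | insert a s ha ih =>
      have h1 := (rb_nice_alg (F a τ) (F a τ) (hF a τ) (hF a τ) (c a)).2.1
      have h2 := (rb_nice_alg _ _ h1 ih 0).1
      have e1 : (fun x => ∑ b ∈ insert a s, c b * F b τ x) =
          fun x => c a * F a τ x + ∑ b ∈ s, c b * F b τ x := by
        funext x
        rw [Finset.sum_insert ha]
      rw [e1]
      exact h2

/-! ### rb_nrm_cs -/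
theorem rb_nrm_cs {S : Type} (D : Species S) {J : Type} [Fintype J] [DecidableEq J]
    (F G : Wave D J) :
    nrm2 D F = (ip D F F).re ∧ (ip D F F).im = 0 ∧ ip D G F = (starRingEnd ℂ) (ip D F G) ∧
    ((∀ τ, rbNice (F τ)) → (∀ τ, rbNice (G τ)) → ∀ t : ℝ, 0 < t →
      2 * ‖ip D F G‖ ≤ t * nrm2 D F + (1 / t) * nrm2 D G) := by
  have h1 : ip D F F = ((nrm2 D F : ℝ) : ℂ) := by
    unfold ip nrm2
    rw [Complex.ofReal_sum]
    refine Finset.sum_congr rfl fun τ _ => ?_
    rw [← integral_complex_ofReal]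
    refine integral_congr_ae (Filter.Eventually.of_forall fun x => ?_)
    simp only [Complex.conj_mul']
    push_cast
    rfl
  refine ⟨?_, ?_, ?_, ?_⟩
  · rw [h1, Complex.ofReal_re]
  · rw [h1, Complex.ofReal_im]
  · unfold ip
    rw [map_sum]
    refine Finset.sum_congr rfl fun τ _ => ?_
    rw [← integral_conj]
    refine integral_congr_ae (Filter.Eventually.of_forall fun x => ?_)
    simp only [map_mul, Complex.conj_conj]
    ring
  · intro hF hG t ht
    have key : ∀ τ : J → Fin D.g, 2 * ‖∫ x, (starRingEnd ℂ) (F τ x) * G τ x‖ ≤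
        t * (∫ x, ‖F τ x‖ ^ 2) + (1 / t) * ∫ x, ‖G τ x‖ ^ 2 := by
      intro τ
      have hn : ∀ f : (J → E3) → ℂ, rbNice f → Integrable (fun x => ‖f x‖ ^ 2) := by
        intro f hf
        have h2 := (rb_nice_int _ (rb_nice_alg f f hf hf 1).2.2).norm
        refine h2.congr (Filter.Eventually.of_forall fun x => ?_)
        simp [pow_two]
      have hFi := hn _ (hF τ)
      have hGi := hn _ (hG τ)
      have hm := (rb_nice_int _ (rb_nice_alg (F τ) (G τ) (hF τ) (hG τ) 1).2.2).norm
      calc 2 * ‖∫ x, (starRingEnd ℂ) (F τ x) * G τ x‖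
          ≤ 2 * ∫ x, ‖(starRingEnd ℂ) (F τ x) * G τ x‖ := by
            have := norm_integral_le_integral_norm (μ := volume)
              (fun x => (starRingEnd ℂ) (F τ x) * G τ x)
            linarith
        _ = ∫ x, 2 * ‖(starRingEnd ℂ) (F τ x) * G τ x‖ := (integral_const_mul _ _).symm
        _ ≤ ∫ x, (t * ‖F τ x‖ ^ 2 + (1 / t) * ‖G τ x‖ ^ 2) := by
            refine integral_mono (hm.const_mul 2) ((hFi.const_mul t).add (hGi.const_mul (1 / t))) ?_
            intro x
            simp only [norm_mul, RCLike.norm_conj]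
            have h3 : 0 ≤ (1 / t) * (t * ‖F τ x‖ - ‖G τ x‖) ^ 2 := by positivity
            have h4 : (1 / t) * (t * ‖F τ x‖ - ‖G τ x‖) ^ 2 =
                t * ‖F τ x‖ ^ 2 - 2 * (‖F τ x‖ * ‖G τ x‖) + (1 / t) * ‖G τ x‖ ^ 2 := by
              field_simp
              ring
            linarith
        _ = t * (∫ x, ‖F τ x‖ ^ 2) + (1 / t) * ∫ x, ‖G τ x‖ ^ 2 := by
            rw [integral_add (hFi.const_mul t) (hGi.const_mul (1 / t)), integral_const_mul,
              integral_const_mul]
    unfold ip nrm2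
    calc 2 * ‖∑ τ : J → Fin D.g, ∫ x, (starRingEnd ℂ) (F τ x) * G τ x‖
        ≤ 2 * ∑ τ : J → Fin D.g, ‖∫ x, (starRingEnd ℂ) (F τ x) * G τ x‖ := by
          have := norm_sum_le (Finset.univ : Finset (J → Fin D.g))
            (fun τ => ∫ x, (starRingEnd ℂ) (F τ x) * G τ x)
          linarith
      _ = ∑ τ : J → Fin D.g, 2 * ‖∫ x, (starRingEnd ℂ) (F τ x) * G τ x‖ := Finset.mul_sum _ _ _
      _ ≤ ∑ τ : J → Fin D.g, (t * (∫ x, ‖F τ x‖ ^ 2) + (1 / t) * ∫ x, ‖G τ x‖ ^ 2) :=
          Finset.sum_le_sum fun τ _ => key τ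
      _ = t * (∑ τ : J → Fin D.g, ∫ x, ‖F τ x‖ ^ 2) +
          (1 / t) * ∑ τ : J → Fin D.g, ∫ x, ‖G τ x‖ ^ 2 := by
          rw [Finset.sum_add_distrib, Finset.mul_sum, Finset.mul_sum]

/-- the annihilation operators of the plane waves, weighted, are bounded as a row -/
theorem row_bound {S : Type} [DecidableEq S] (D : Species S) {I : Type} [Fintype I]
    [DecidableEq I] (sp : Option I → S) (ℓ : ℝ) (hℓ : 0 < ℓ) (p : (Fin 3 → ℤ) → ℝ)
    (hp : ∀ m, 0 ≤ p m) (K : Finset (Fin 3 → ℤ)) (hp1 : ∑ m ∈ K, p m ≤ 1) (M : ℝ)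
    (hM : ∀ m, p m * (cnt sp (sp none) : ℝ) ≤ M) (σ : Fin D.g)
    (Φ : (Fin 3 → ℤ) → Wave D (Option I)) (hΦ : ∀ m, IsState D sp ℓ (Φ m)) :
    nrm2 D (fun τ x => ∑ m ∈ K, ((Real.sqrt (p m) : ℝ) : ℂ) *
      psl D (pwave ℓ m) σ (Φ m) τ x) ≤
      ((1 + M) / (cnt sp (sp none) : ℝ)) * ∑ m ∈ K, nrm2 D (Φ m) := by
  classical
  obtain ⟨n, hn⟩ : ∃ n : ℕ, n = cnt sp (sp none) := ⟨_, rfl⟩
  obtain ⟨ε, hε⟩ : ∃ ε : ℂ, ε = exch D (sp none) := ⟨_, rfl⟩
  have hεc : (starRingEnd ℂ) ε = ε := by rw [hε, exch]; split_ifs <;> simp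
  have hεn : ‖ε‖ = 1 := by rw [hε, exch]; split_ifs <;> simp
  obtain ⟨A, hA⟩ : ∃ A : Finset (Option I), A = Finset.univ.filter (fun i => sp i = sp none) :=
    ⟨_, rfl⟩
  have hAn : A.card = n := by rw [hA, hn, cnt]
  have hnoneA : none ∈ A := by rw [hA]; simp
  have hn0 : (0:ℝ) < n := by
    rw [← hAn]; exact_mod_cast Finset.card_pos.2 ⟨none, hnoneA⟩
  obtain ⟨χ, hχ⟩ : ∃ χ : Wave D I, χ = (fun τ x => ∑ m ∈ K, ((Real.sqrt (p m) : ℝ) : ℂ) *
    psl D (pwave ℓ m) σ (Φ m) τ x) := ⟨_, rfl⟩
  have hpc : ∀ m, Continuous (pwave ℓ m) := fun m => by unfold pwave; fun_prop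
  have hpsl : ∀ m, IsState D (fun i => sp (some i)) ℓ (psl D (pwave ℓ m) σ (Φ m)) :=
    fun m => psl_state D sp ℓ (Φ m) (hΦ m) _ (hpc m) σ
  have hχs : IsState D (fun i => sp (some i)) ℓ χ := by
    have := state_comb D (fun i => sp (some i)) ℓ (A := {m // m ∈ K})
      (fun m => psl D (pwave ℓ m.1) σ (Φ m.1)) (fun m => hpsl m.1)
      (fun m => ((Real.sqrt (p m.1) : ℝ) : ℂ))
    have e : χ = fun τ x => ∑ a : {m // m ∈ K}, ((Real.sqrt (p a.1) : ℝ) : ℂ) *
        psl D (pwave ℓ a.1) σ (Φ a.1) τ x := by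
      rw [hχ]; funext τ x
      exact (Finset.sum_coe_sort K (fun m => ((Real.sqrt (p m) : ℝ) : ℂ) *
        psl D (pwave ℓ m) σ (Φ m) τ x)).symm
    rw [e]; exact this
  have hχn : ∀ τ, rbNice (χ τ) := fun τ => rb_nice_state D _ ℓ χ hχs τ
  have hΦn : ∀ m τ, rbNice (Φ m τ) := fun m τ => rb_nice_state D _ ℓ _ (hΦ m) τ
  have hpsln : ∀ m τ, rbNice (psl D (pwave ℓ m) σ (Φ m) τ) :=
    fun m τ => rb_nice_state D _ ℓ _ (hpsl m) τ
  obtain ⟨X, hX⟩ : ∃ X : (Fin 3 → ℤ) → Wave D (Option I), X = fun m => rbX D ℓ m σ χ := ⟨_, rfl⟩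
  have hXm : ∀ m, rbX D ℓ m σ χ = X m := fun m => by rw [hX]
  have hXn : ∀ m τ, rbNice (X m τ) := fun m τ => by
    rw [← hXm]; exact rb_nice_X D ℓ m σ χ hχn τ
  have hAXn : ∀ m (a : Option I) τ, rbNice (rbAct D (Equiv.swap none a) (X m) τ) :=
    fun m a τ => rb_nice_act D _ _ (hXn m) τ
  have hself : ∀ m, rbAct D (Equiv.swap none none) (X m) = X m := by
    intro m; funext τ x; simp [rbAct]
  obtain ⟨N, hN⟩ : ∃ N : ℝ, N = nrm2 D χ := ⟨_, rfl⟩
  have hNip : ip D χ χ = (N : ℂ) := by
    apply Complex.ext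
    · rw [← (rb_nrm_cs D χ χ).1, hN]; simp
    · rw [(rb_nrm_cs D χ χ).2.1]; simp
  have hN0 : 0 ≤ N := by
    rw [hN, nrm2]
    exact Finset.sum_nonneg fun τ _ => integral_nonneg fun x => by positivity
  -- step 1
  have h1 : (N : ℂ) = ∑ m ∈ K, ((Real.sqrt (p m) : ℝ) : ℂ) * ip D (X m) (Φ m) := by
    rw [← hNip]
    have h := (rb_ip_lin D K (fun m => ((Real.sqrt (p m) : ℝ) : ℂ))
      (fun m => psl D (pwave ℓ m) σ (Φ m)) χ hpsln hχn).2.1
    rw [← hχ] at h
    rw [h]
    refine Finset.sum_congr rfl fun m _ => ?_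
    rw [← hXm, rb_ip_X D sp ℓ m σ χ hχn (Φ m) (hΦ m)]
  -- coefficients
  obtain ⟨c, hc⟩ : ∃ c : Option I → ℂ, c = fun a => if a = none then 1 else ε := ⟨_, rfl⟩
  have hcn : ∀ a, ‖c a‖ = 1 := by
    intro a; rw [hc]; simp only; split_ifs
    · simp
    · exact hεn
  -- step 2
  have h2 : ∀ m, ∀ a ∈ A, (starRingEnd ℂ) (c a) *
      ip D (rbAct D (Equiv.swap none a) (X m)) (Φ m) = ip D (X m) (Φ m) := by
    intro m a ha
    rcases a with _ | i
    · rw [hself, hc]; simp
    · have hsi : sp (some i) = sp none := by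
        rw [hA] at ha; simpa using ha
      have e1 : rbAct D (Equiv.swap none (some i)) (Φ m) =
          fun τ x => ∑ _a ∈ ({()} : Finset Unit), ε * Φ m τ x := by
        funext τ x
        simp only [Finset.sum_singleton]
        rw [hε]
        exact (hΦ m).symm none (some i) (by simp) hsi.symm τ x
      have e2 := rb_ip_act D (Equiv.swap none (some i)) (X m) (Φ m)
      rw [e1, (rb_ip_lin D ({()} : Finset Unit) (fun _ => ε) (fun _ => Φ m)
        (rbAct D (Equiv.swap none (some i)) (X m)) (fun _ => hΦn m) (hAXn m (some i))).2.1] at e2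
      simp only [Finset.sum_singleton] at e2
      rw [hc]
      simp only [reduceCtorEq, if_false, hεc]
      exact e2
  obtain ⟨Y, hY⟩ : ∃ Y : (Fin 3 → ℤ) → Wave D (Option I), Y = fun m τ x =>
    ∑ a ∈ A, c a * rbAct D (Equiv.swap none a) (X m) τ x := ⟨_, rfl⟩
  have hYm : ∀ m, Y m = fun τ x => ∑ a ∈ A, c a * rbAct D (Equiv.swap none a) (X m) τ x :=
    fun m => by rw [hY]
  have hYn : ∀ m τ, rbNice (Y m τ) := fun m => by
    rw [hYm]
    exact (rb_ip_lin D A c (fun a => rbAct D (Equiv.swap none a) (X m)) (Φ m)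
      (fun a => hAXn m a) (hΦn m)).2.2
  have h2' : ∀ m, ip D (Y m) (Φ m) = (n : ℂ) * ip D (X m) (Φ m) := by
    intro m
    rw [hYm, (rb_ip_lin D A c (fun a => rbAct D (Equiv.swap none a) (X m)) (Φ m)
      (fun a => hAXn m a) (hΦn m)).1, Finset.sum_congr rfl (h2 m), Finset.sum_const, hAn]
    simp
  -- step 4
  have hdiag : ∀ m a, ‖ip D (rbAct D (Equiv.swap none a) (X m))
      (rbAct D (Equiv.swap none a) (X m))‖ = N := by
    intro m a
    rw [rb_ip_act, ← hXm, rb_ip_XX D ℓ hℓ m σ χ hχn, hNip]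
    simp [abs_of_nonneg hN0]
  have hbes : ∀ i : I, ∑ m ∈ K, ‖ip D (X m) (rbAct D (Equiv.swap none (some i)) (X m))‖ ≤ N := by
    intro i
    have := rb_bessel D (fun i => sp (some i)) ℓ hℓ K σ χ hχs i
    simp only [hXm] at this
    rw [hN]; exact this
  have hoff : ∀ a ∈ A, ∀ b ∈ A, a ≠ b → ∑ m ∈ K, ‖ip D (rbAct D (Equiv.swap none a) (X m))
      (rbAct D (Equiv.swap none b) (X m))‖ ≤ N := by
    intro a ha b hb hab
    rcases a with _ | i
    · rcases b with _ | j
      · exact absurd rfl hab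
      · simp only [hself]; exact hbes j
    · rcases b with _ | j
      · simp only [hself]
        have : ∀ m, ‖ip D (rbAct D (Equiv.swap none (some i)) (X m)) (X m)‖ =
            ‖ip D (X m) (rbAct D (Equiv.swap none (some i)) (X m))‖ := by
          intro m
          rw [(rb_nrm_cs D (X m) (rbAct D (Equiv.swap none (some i)) (X m))).2.2.1]
          exact RCLike.norm_conj _
        simp only [this]; exact hbes i
      · have hij : i ≠ j := fun h => hab (by rw [h])
        have hsi : sp (some i) = sp none := by rw [hA] at ha; simpa using ha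
        have hsj : sp (some j) = sp none := by rw [hA] at hb; simpa using hb
        have key : ∀ m, ‖ip D (rbAct D (Equiv.swap none (some i)) (X m))
            (rbAct D (Equiv.swap none (some j)) (X m))‖ =
            ‖ip D (X m) (rbAct D (Equiv.swap none (some j)) (X m))‖ := by
          intro m
          have e1 : rbAct D (Equiv.swap none (some j)) (X m) =
              rbAct D (Equiv.swap none (some i)) (rbAct D
                (Equiv.swap none (some i) * Equiv.swap none (some j)) (X m)) := by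
            have : rbAct D (Equiv.swap none (some i)) (rbAct D
                (Equiv.swap none (some i) * Equiv.swap none (some j)) (X m)) =
                rbAct D (Equiv.swap none (some i) *
                (Equiv.swap none (some i) * Equiv.swap none (some j))) (X m) := rfl
            rw [this, ← mul_assoc, Equiv.swap_mul_self, one_mul]
          have e2 : rbAct D (Equiv.swap none (some i) * Equiv.swap none (some j)) (X m) =
              fun τ x => ∑ _a ∈ ({()} : Finset Unit), ε *
                rbAct D (Equiv.swap none (some j)) (X m) τ x := by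
            rw [rb_perm i j hij]
            have e3 : rbAct D (Equiv.swap none (some j) * Equiv.swap (some i) (some j)) (X m) =
                rbAct D (Equiv.swap none (some j)) (rbAct D (Equiv.swap (some i) (some j)) (X m)) :=
              rfl
            have e4 := rb_act_X D (fun i => sp (some i)) ℓ m σ χ hχs i j hij (hsi.trans hsj.symm)
            rw [hXm] at e4
            rw [e3, e4]
            funext τ x
            simp only [Finset.sum_singleton]
            show exch D (sp (some i)) * _ = ε * _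
            rw [hsi, hε]
            rfl
          conv_lhs => rw [e1]
          rw [rb_ip_act, e2, (rb_ip_lin D ({()} : Finset Unit) (fun _ => ε)
            (fun _ => rbAct D (Equiv.swap none (some j)) (X m)) (X m)
            (fun _ => hAXn m (some j)) (hXn m)).2.1]
          simp only [Finset.sum_singleton]
          rw [norm_mul, hεn, one_mul]
        simp only [key]; exact hbes j
  have hYY : ∀ m, nrm2 D (Y m) ≤ ∑ a ∈ A, ∑ b ∈ A, ‖ip D (rbAct D (Equiv.swap none a) (X m))
      (rbAct D (Equiv.swap none b) (X m))‖ := by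
    intro m
    rw [(rb_nrm_cs D (Y m) (Y m)).1]
    refine (Complex.re_le_norm _).trans ?_
    have e1 := (rb_ip_lin D A c (fun a => rbAct D (Equiv.swap none a) (X m)) (Y m)
      (fun a => hAXn m a) (hYn m)).1
    rw [← hYm] at e1
    rw [e1]
    refine (norm_sum_le _ _).trans (Finset.sum_le_sum fun a _ => ?_)
    rw [norm_mul, RCLike.norm_conj, hcn, one_mul]
    have e2 := (rb_ip_lin D A c (fun b => rbAct D (Equiv.swap none b) (X m))
      (rbAct D (Equiv.swap none a) (X m)) (fun b => hAXn m b) (hAXn m a)).2.1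
    rw [← hYm] at e2
    rw [e2]
    refine (norm_sum_le _ _).trans (Finset.sum_le_sum fun b _ => ?_)
    rw [norm_mul, hcn, one_mul]
  have hM0 : 0 ≤ M := le_trans (mul_nonneg (hp 0) (by positivity)) (hM 0)
  have hpM : ∀ m, p m ≤ M / n := by
    intro m
    rw [le_div_iff₀ hn0, hn]; exact hM m
  have h4 : ∑ m ∈ K, p m * nrm2 D (Y m) ≤ n * ((1 + M) * N) := by
    calc ∑ m ∈ K, p m * nrm2 D (Y m) ≤ ∑ m ∈ K, ∑ a ∈ A, ∑ b ∈ A,
          p m * ‖ip D (rbAct D (Equiv.swap none a) (X m))
            (rbAct D (Equiv.swap none b) (X m))‖ := by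
          refine Finset.sum_le_sum fun m _ => ?_
          refine (mul_le_mul_of_nonneg_left (hYY m) (hp m)).trans (le_of_eq ?_)
          simp only [Finset.mul_sum]
      _ = ∑ a ∈ A, ∑ b ∈ A, ∑ m ∈ K, p m * ‖ip D (rbAct D (Equiv.swap none a) (X m))
            (rbAct D (Equiv.swap none b) (X m))‖ := by
          rw [Finset.sum_comm]
          refine Finset.sum_congr rfl fun a _ => ?_
          rw [Finset.sum_comm]
      _ ≤ ∑ a ∈ A, ∑ b ∈ A, ((if a = b then N else 0) + M / n * N) := by
          refine Finset.sum_le_sum fun a ha => Finset.sum_le_sum fun b hb => ?_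
          by_cases hab : a = b
          · subst hab
            rw [if_pos rfl]
            simp only [hdiag]
            rw [← Finset.sum_mul]
            have h5 : (∑ m ∈ K, p m) * N ≤ 1 * N := mul_le_mul_of_nonneg_right hp1 hN0
            have h6 : 0 ≤ M / n * N := by positivity
            linarith
          · rw [if_neg hab, zero_add]
            calc ∑ m ∈ K, p m * ‖ip D (rbAct D (Equiv.swap none a) (X m))
                        (rbAct D (Equiv.swap none b) (X m))‖
                ≤ ∑ m ∈ K, M / n * ‖ip D (rbAct D (Equiv.swap none a) (X m))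
                        (rbAct D (Equiv.swap none b) (X m))‖ :=
                  Finset.sum_le_sum fun m _ => mul_le_mul_of_nonneg_right (hpM m) (norm_nonneg _)
              _ = M / n * ∑ m ∈ K, ‖ip D (rbAct D (Equiv.swap none a) (X m))
                        (rbAct D (Equiv.swap none b) (X m))‖ := by rw [Finset.mul_sum]
              _ ≤ M / n * N := mul_le_mul_of_nonneg_left (hoff a ha b hb hab) (by positivity)
      _ = n * ((1 + M) * N) := by
          have : ∀ a ∈ A, ∑ b ∈ A, ((if a = b then N else 0) + M / n * N) = (1 + M) * N := by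
            intro a ha
            rw [Finset.sum_add_distrib, Finset.sum_ite_eq, if_pos ha, Finset.sum_const, hAn,
              nsmul_eq_mul]
            field_simp
          rw [Finset.sum_congr rfl this, Finset.sum_const, hAn, nsmul_eq_mul]
  -- conclusion
  have h5 : ∀ m, 2 * (Real.sqrt (p m) * ‖ip D (Y m) (Φ m)‖) ≤
      (1 / (1 + M)) * (p m * nrm2 D (Y m)) + (1 + M) * nrm2 D (Φ m) := by
    intro m
    have hΦ0 : 0 ≤ nrm2 D (Φ m) := by
      rw [nrm2]
      exact Finset.sum_nonneg fun τ _ => integral_nonneg fun x => by positivity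
    rcases eq_or_lt_of_le (hp m) with h0 | h0
    · rw [← h0]
      simp only [Real.sqrt_zero, zero_mul, mul_zero, zero_add]
      positivity
    · have hs : 0 < Real.sqrt (p m) := Real.sqrt_pos.2 h0
      have ht : 0 < (1 / (1 + M)) * Real.sqrt (p m) := by positivity
      have h6 := (rb_nrm_cs D (Y m) (Φ m)).2.2.2 (hYn m) (hΦn m) _ ht
      have h7 := mul_le_mul_of_nonneg_left h6 hs.le
      have e1 : Real.sqrt (p m) * (2 * ‖ip D (Y m) (Φ m)‖) =
        2 * (Real.sqrt (p m) * ‖ip D (Y m) (Φ m)‖) := by ring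
      have e2 : Real.sqrt (p m) * (1 / (1 + M) * Real.sqrt (p m) * nrm2 D (Y m) +
          1 / (1 / (1 + M) * Real.sqrt (p m)) * nrm2 D (Φ m)) =
          (1 / (1 + M)) * ((Real.sqrt (p m) * Real.sqrt (p m)) * nrm2 D (Y m)) +
            (1 + M) * nrm2 D (Φ m) := by
        have hM1 : 1 + M ≠ 0 := by positivity
        field_simp
      rw [e1, e2, Real.mul_self_sqrt (hp m)] at h7
      exact h7
  have h8 : (n : ℝ) * N ≤ ∑ m ∈ K, Real.sqrt (p m) * ‖ip D (Y m) (Φ m)‖ := by
    have e1 : ((n : ℝ) : ℂ) * (N : ℂ) = ∑ m ∈ K, ((Real.sqrt (p m) : ℝ) : ℂ) * ip D (Y m) (Φ m) := by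
      rw [h1, Finset.mul_sum]
      refine Finset.sum_congr rfl fun m _ => ?_
      rw [h2']
      push_cast
      ring
    have e2 : (n : ℝ) * N = ‖((n : ℝ) : ℂ) * (N : ℂ)‖ := by
      rw [norm_mul, Complex.norm_real, Complex.norm_real, Real.norm_of_nonneg hn0.le,
        Real.norm_of_nonneg hN0]
    rw [e2, e1]
    refine (norm_sum_le _ _).trans (le_of_eq (Finset.sum_congr rfl fun m _ => ?_))
    rw [norm_mul, Complex.norm_real, Real.norm_of_nonneg (Real.sqrt_nonneg _)]
  have h9 : 2 * ((n : ℝ) * N) ≤ (1 / (1 + M)) * (∑ m ∈ K, p m * nrm2 D (Y m)) +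
      (1 + M) * ∑ m ∈ K, nrm2 D (Φ m) := by
    calc 2 * ((n : ℝ) * N) ≤ ∑ m ∈ K, 2 * (Real.sqrt (p m) * ‖ip D (Y m) (Φ m)‖) := by
          rw [← Finset.mul_sum]; linarith
      _ ≤ ∑ m ∈ K, ((1 / (1 + M)) * (p m * nrm2 D (Y m)) + (1 + M) * nrm2 D (Φ m)) :=
          Finset.sum_le_sum fun m _ => h5 m
      _ = _ := by rw [Finset.sum_add_distrib, ← Finset.mul_sum, ← Finset.mul_sum]
  have h10 : (1 / (1 + M)) * (∑ m ∈ K, p m * nrm2 D (Y m)) ≤ n * N := by
    calc (1 / (1 + M)) * (∑ m ∈ K, p m * nrm2 D (Y m)) ≤ (1 / (1 + M)) * (n * ((1 + M) * N)) :=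
          mul_le_mul_of_nonneg_left h4 (by positivity)
      _ = n * N := by
          have hM1 : 1 + M ≠ 0 := by positivity
          field_simp
  have h11 : (n : ℝ) * N ≤ (1 + M) * ∑ m ∈ K, nrm2 D (Φ m) := by linarith
  rw [← hχ, ← hn, ← hN, div_mul_eq_mul_div, le_div_iff₀ hn0]
  linarith

end Pool.Agent.Helper985.CP
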