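import Pool.Agent.Helper985.CP.M_exists_equiv
import Pool.Agent.Helper985.CP.M_relabel_num
import Pool.Agent.Helper985.CP.M_relabel_state
import Pool.Agent.Helper985.CT.M_moveT_none
import Pool.Agent.Helper985.CT.M_peierls_relabel
import Pool.Agent.Helper985.CT.Defs

set_option autoImplicit false

open MeasureTheory
open scoped Topology

namespace Pool.Agent.Helper985.CP







theorem mta_cnt {S : Type} [DecidableEq S] {I J : Type} [Fintype I] [Fintype J]
    (e : I ≃ J) (sp : I → S) (sp' : J → S) (h : ∀ i, sp' (e i) = sp i) (s : S) :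
    cnt sp' s = cnt sp s := by
  unfold cnt
  symm
  apply Finset.card_bij (fun a _ => e a)
  · intro a ha
    rw [Finset.mem_filter] at ha ⊢
    exact ⟨Finset.mem_univ _, by rw [h a]; exact ha.2⟩
  · intro a _ b _ hab
    exact e.injective hab
  · intro b hb
    rw [Finset.mem_filter] at hb
    refine ⟨e.symm b, ?_, by simp⟩
    rw [Finset.mem_filter]
    refine ⟨Finset.mem_univ _, ?_⟩
    rw [← h (e.symm b), Equiv.apply_symm_apply]
    exact hb.2

theorem moveT_any {S : Type} [DecidableEq S] (D : Species S) (hD : D.Valid) {I : Type}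
    [Fintype I] [DecidableEq I] (sp : I → S) (ℓ T θ : ℝ) (hℓ : 0 < ℓ) (hT : 0 < T)
    (hθ : 0 < θ) (Z : ℝ) (hZ : ∀ z ∈ peierls D sp ℓ T, z ≤ Z) (i : I) (L : ℝ)
    (hL : HasSum (fun m => Real.exp (-(θ / (2 * D.mass (sp i) * T) * pen ℓ m) - L)) 1)
    (M : ℝ) (hM : (cnt sp (sp i) : ℝ) * Real.exp (-L) ≤ M) (φ : E3 → ℝ)
    (hφ : ContDiff ℝ SM φ) (hφc : HasCompactSupport φ) (hφs : tsupport φ ⊆ cube ℓ)
    (hφ1 : ∫ z, φ z ^ 2 = 1) {k : ℕ} (Φ : Fin k → Wave D I)
    (hΦ : ∀ j, IsState D sp ℓ (Φ j)) (hv : ∀ j τ x i, x i ∈ tsupport φ → Φ j τ x = 0)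
    (hB : ∀ γ : Fin k → ℂ, nrm2 D (fun τ x => ∑ j, γ j * Φ j τ x) ≤ ∑ j, ‖γ j‖ ^ 2) :
    ∑ j, nrm2 D (Φ j) * Real.exp (-(energy D sp (Φ j) - pe D sp i (Φ j) +
      θ * kinE D sp i (Φ j) + D.charge (sp i) * mean D sp (Φ j) (pot φ) +
      (1 / (2 * D.mass (sp i))) * grad2 φ * nrm2 D (Φ j)) / (nrm2 D (Φ j) * T) - L +
      Real.log (cnt sp (sp i))) ≤ D.g * (1 + M) * Z := by
  let e : I ≃ Option {k : I // k ≠ i} := (Equiv.optionSubtypeNe i).symm
  let sp' : Option {k : I // k ≠ i} → S := fun o => sp (e.symm o)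
  have h : ∀ a, sp' (e a) = sp a := by
    intro a
    show sp (e.symm (e a)) = sp a
    rw [Equiv.symm_apply_apply]
  have hi : e i = none := Equiv.optionSubtypeNe_symm_self i
  have hn : sp' none = sp i := by rw [← hi, h]
  have hc : ∀ s, cnt sp' s = cnt sp s := mta_cnt e sp sp' h
  have hpr := peierls_relabel D e sp sp' h ℓ T
  have hrn := fun j => relabel_num D e sp sp' h (Φ j)
  have main := moveT_none D hD sp' ℓ T θ hℓ hT hθ Z (by rw [← hpr.1]; exact hZ) L
    (by rw [hn]; exact hL) M (by rw [hn, hc]; exact hM) φ hφ hφc hφs hφ1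
    (fun j => relab D e (Φ j)) (fun j => relabel_state D e sp sp' h ℓ (Φ j) (hΦ j))
    (by
      intro j τ x o ho
      refine hv j _ _ (e.symm o) ?_
      rw [Equiv.apply_symm_apply]
      exact ho)
    (by
      intro γ
      have h1 := (relabel_num D e sp sp' h (fun τ x => ∑ j, γ j * Φ j τ x)).1
      have h2 : nrm2 D (fun τ x => ∑ j, γ j * relab D e (Φ j) τ x) =
        nrm2 D (relab D e (fun τ x => ∑ j, γ j * Φ j τ x)) := rfl
      rw [h2, h1]
      exact hB γ)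
  refine le_trans (le_of_eq ?_) main
  refine Finset.sum_congr rfl fun j _ => ?_
  obtain ⟨a1, a2, a3, a4⟩ := hrn j
  have a3' := a3 i
  have a5 := hpr.2 (Φ j) i
  rw [hi] at a3' a5
  rw [hn, hc, a1, a2, a3', a4, a5]

end Pool.Agent.Helper985.CP
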