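import Pool.Agent.Helper985.CP.M_int_state
import Pool.Agent.Helper985.CP.M_nrm2_pos
import Pool.Agent.Helper985.CT.M_jensen_family
import Pool.Agent.Helper985.CT.M_psl_energy
import Pool.Agent.Helper985.CT.M_psl_nrm
import Pool.Agent.Helper985.CT.M_psl_state
import Pool.Agent.Helper985.CT.M_row_bound
import Pool.Agent.Helper985.CT.M_state_comb
import Pool.Agent.Helper985.CT.M_trace_bound
import Pool.Agent.Helper985.CT.Defs

set_option autoImplicit false

open MeasureTheory
open scoped Topology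

namespace Pool.Agent.Helper985.CP












theorem removeT_pwave_cont (ℓ : ℝ) (m : Fin 3 → ℤ) : Continuous (pwave ℓ m) := by
  unfold pwave
  fun_prop

theorem removeT_int {S : Type} (D : Species S) {I : Type} [Fintype I] [DecidableEq I]
    (sp : Option I → S) (ℓ : ℝ) (Φ : Wave D (Option I)) (hΦ : IsState D sp ℓ Φ) (u : E3 → ℂ)
    (hu : Continuous u) (σ : Fin D.g) (τ : I → Fin D.g) (x : I → E3) :
    Integrable (fun z => (starRingEnd ℂ) (u z) * slice D σ z Φ τ x) := by
  have hg : Continuous (fun z : E3 => (fun o : Option I => o.elim z x)) := by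
    refine continuous_pi fun o => ?_
    cases o with
    | none => exact continuous_id
    | some i => exact continuous_const
  have hs : Continuous (fun z : E3 => slice D σ z Φ τ x) := by
    unfold slice
    exact ((hΦ.smooth _).continuous).comp hg
  have hcomp : HasCompactSupport (fun z : E3 => slice D σ z Φ τ x) := by
    have hK : IsCompact ((fun y : Option I → E3 => y none) ''
        tsupport (Φ (fun o => o.elim σ τ))) :=
      (hΦ.compact _).isCompact.image (continuous_apply none)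
    refine HasCompactSupport.intro hK fun z hz => ?_
    unfold slice
    apply image_eq_zero_of_notMem_tsupport
    intro hmem
    exact hz ⟨_, hmem, rfl⟩
  have hc : Continuous (fun z => (starRingEnd ℂ) (u z) * slice D σ z Φ τ x) :=
    (Complex.continuous_conj.comp hu).mul hs
  exact hc.integrable_of_hasCompactSupport hcomp.mul_left

theorem removeT_psl_lin {S : Type} (D : Species S) {I : Type} [Fintype I] [DecidableEq I]
    (sp : Option I → S) (ℓ : ℝ) {k : ℕ} (Φ : Fin k → Wave D (Option I))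
    (hΦ : ∀ j, IsState D sp ℓ (Φ j)) (u : E3 → ℂ) (hu : Continuous u) (σ : Fin D.g)
    (γ : Fin k → ℂ) (τ : I → Fin D.g) (x : I → E3) :
    psl D u σ (fun τ x => ∑ j, γ j * Φ j τ x) τ x = ∑ j, γ j * psl D u σ (Φ j) τ x := by
  unfold psl
  have e : ∀ z, (starRingEnd ℂ) (u z) * slice D σ z (fun τ x => ∑ j, γ j * Φ j τ x) τ x =
      ∑ j, γ j * ((starRingEnd ℂ) (u z) * slice D σ z (Φ j) τ x) := by
    intro z
    unfold slice
    rw [Finset.mul_sum]
    refine Finset.sum_congr rfl fun j _ => ?_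
    ring
  simp only [e]
  rw [integral_finsetSum]
  · refine Finset.sum_congr rfl fun j _ => ?_
    rw [integral_const_mul]
  · intro j _
    exact (removeT_int D sp ℓ (Φ j) (hΦ j) u hu σ τ x).const_mul _

theorem removeT_state_smul {S : Type} (D : Species S) {I : Type} [Fintype I] [DecidableEq I]
    (sp : I → S) (ℓ : ℝ) (v : Wave D I) (hv : IsState D sp ℓ v) (r : ℂ) :
    IsState D sp ℓ (fun τ x => r * v τ x) := by
  have h := state_comb D sp ℓ (A := Unit) (fun _ => v) (fun _ => hv) (fun _ => r)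
  simpa using h

theorem removeT_nrm_smul {S : Type} (D : Species S) {I : Type} [Fintype I] [DecidableEq I]
    (v : Wave D I) (r : ℝ) : nrm2 D (fun τ x => (r : ℂ) * v τ x) = r ^ 2 * nrm2 D v := by
  unfold nrm2
  rw [Finset.mul_sum]
  refine Finset.sum_congr rfl fun τ _ => ?_
  rw [← integral_const_mul]
  congr 1
  funext x
  rw [norm_mul, Complex.norm_real, mul_pow, Real.norm_eq_abs, sq_abs]

theorem removeT_nrm_nonneg {S : Type} (D : Species S) {I : Type} [Fintype I] [DecidableEq I]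
    (v : Wave D I) : 0 ≤ nrm2 D v := by
  unfold nrm2
  exact Finset.sum_nonneg fun τ _ => integral_nonneg fun x => sq_nonneg _

theorem removeT_kin_smul {S : Type} (D : Species S) {I : Type} [Fintype I] [DecidableEq I]
    (sp : I → S) (i : I) (u : (I → E3) → ℂ) (hu : ContDiff ℝ SM u) (r : ℝ) (x : I → E3) :
    kin D sp i (fun y => (r : ℂ) * u y) x = r ^ 2 * kin D sp i u x := by
  have hd : DifferentiableAt ℝ u x := (hu.differentiable (by simp [SM])) x
  unfold kin
  have e : ∀ w, fderiv ℝ (fun y => (r : ℂ) * u y) x w = (r : ℂ) * fderiv ℝ u x w := by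
    intro w
    rw [fderiv_const_mul hd]
    simp
  simp only [e, norm_mul, Complex.norm_real, mul_pow, Real.norm_eq_abs, sq_abs]
  rw [← Finset.mul_sum]
  ring

theorem removeT_energy_smul {S : Type} (D : Species S) {I : Type} [Fintype I] [DecidableEq I]
    (sp : I → S) (ℓ : ℝ) (v : Wave D I) (hv : IsState D sp ℓ v) (r : ℝ) :
    energy D sp (fun τ x => (r : ℂ) * v τ x) = r ^ 2 * energy D sp v := by
  unfold energy
  rw [Finset.mul_sum]
  refine Finset.sum_congr rfl fun τ _ => ?_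
  rw [← integral_const_mul]
  congr 1
  funext x
  have e : ∀ i, kin D sp i (fun y => (r : ℂ) * v τ y) x = r ^ 2 * kin D sp i (v τ) x := fun i =>
    removeT_kin_smul D sp i (v τ) (hv.smooth τ) r x
  simp only [e, norm_mul, Complex.norm_real, mul_pow, Real.norm_eq_abs, sq_abs]
  rw [← Finset.mul_sum]
  ring

theorem removeT_pe_smul {S : Type} (D : Species S) {I : Type} [Fintype I] [DecidableEq I]
    (sp : I → S) (ℓ : ℝ) (v : Wave D I) (hv : IsState D sp ℓ v) (r : ℝ) (i : I) :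
    pe D sp i (fun τ x => (r : ℂ) * v τ x) = r ^ 2 * pe D sp i v := by
  unfold pe
  rw [Finset.mul_sum]
  refine Finset.sum_congr rfl fun τ _ => ?_
  rw [← integral_const_mul]
  congr 1
  funext x
  rw [removeT_kin_smul D sp i (v τ) (hv.smooth τ) r x]
  simp only [norm_mul, Complex.norm_real, mul_pow, Real.norm_eq_abs, sq_abs]
  ring

theorem removeT_kinE_smul {S : Type} (D : Species S) {I : Type} [Fintype I] [DecidableEq I]
    (sp : I → S) (ℓ : ℝ) (v : Wave D I) (hv : IsState D sp ℓ v) (r : ℝ) (i : I) :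
    kinE D sp i (fun τ x => (r : ℂ) * v τ x) = r ^ 2 * kinE D sp i v := by
  unfold kinE
  rw [Finset.mul_sum]
  refine Finset.sum_congr rfl fun τ _ => ?_
  rw [← integral_const_mul]
  congr 1
  funext x
  rw [removeT_kin_smul D sp i (v τ) (hv.smooth τ) r x]

theorem removeT_jensen_fin {g : ℕ} (w x : Fin g → ℝ) (hw : ∀ i, 0 ≤ w i)
    (h0 : ∀ i, w i = 0 → x i = 0) :
    (∑ i, w i) * Real.exp ((∑ i, x i) / ∑ i, w i) ≤ ∑ i, w i * Real.exp (x i / w i) := by
  have h := jensen_family (ι := Fin g) (k := 1) (fun _ => w) (fun _ => x) (fun _ => ∑ i, w i)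
    (fun _ => ∑ i, x i) (∑ i, w i * Real.exp (x i / w i)) (fun _ i => hw i) (fun _ i => h0 i)
    (fun _ => hasSum_fintype w) (fun _ => hasSum_fintype x) (fun K => by
      rw [Finset.univ_unique, Finset.sum_singleton]
      exact Finset.sum_le_sum_of_subset_of_nonneg (Finset.subset_univ K)
        (fun i _ _ => mul_nonneg (hw i) (Real.exp_pos _).le))
  simpa using h

theorem removeT_pen_nonneg (ℓ : ℝ) (m : Fin 3 → ℤ) : 0 ≤ pen ℓ m := by
  unfold pen
  positivity

theorem removeT_synth {S : Type} [DecidableEq S] (D : Species S) {I : Type}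
    [Fintype I] [DecidableEq I] (sp : Option I → S) (ℓ : ℝ) (hℓ : 0 < ℓ)
    (p : (Fin 3 → ℤ) → ℝ) (hp : ∀ m, 0 ≤ p m) (K : Finset (Fin 3 → ℤ)) (hp1 : ∑ m ∈ K, p m ≤ 1)
    (M : ℝ) (hM0 : 0 ≤ M) (hM : ∀ m, p m * (cnt sp (sp none) : ℝ) ≤ M) (σ : Fin D.g)
    {k : ℕ} (Φ : Fin k → Wave D (Option I)) (hΦ : ∀ j, IsState D sp ℓ (Φ j)) (c : ℝ)
    (hB : ∀ γ : Fin k → ℂ, nrm2 D (fun τ x => ∑ j, γ j * Φ j τ x) ≤ c * ∑ j, ‖γ j‖ ^ 2)
    (γ : Fin k × K → ℂ) :
    nrm2 D (fun τ x => ∑ a : Fin k × K, γ a * (((Real.sqrt (p a.2) : ℝ) : ℂ) *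
      psl D (pwave ℓ a.2) σ (Φ a.1) τ x)) ≤
      ((1 + M) / (cnt sp (sp none) : ℝ) * c) * ∑ a, ‖γ a‖ ^ 2 := by
  obtain ⟨γ', hγ'⟩ : ∃ γ' : (Fin 3 → ℤ) → Fin k → ℂ, ∀ (m : K) j, γ' m j = γ (j, m) :=
    ⟨fun m j => if h : m ∈ K then γ (j, ⟨m, h⟩) else 0, fun m j => by simp⟩
  have hst : ∀ m, IsState D sp ℓ (fun τ x => ∑ j, γ' m j * Φ j τ x) := fun m =>
    state_comb D sp ℓ Φ hΦ (γ' m)
  have h1 := row_bound D sp ℓ hℓ p hp K hp1 M hM σ (fun m => fun τ x => ∑ j, γ' m j * Φ j τ x) hst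
  have e1 : (fun (τ : I → Fin D.g) (x : I → E3) => ∑ a : Fin k × K, γ a * (((Real.sqrt (p a.2) : ℝ) : ℂ) *
      psl D (pwave ℓ a.2) σ (Φ a.1) τ x)) = (fun τ x => ∑ m ∈ K, ((Real.sqrt (p m) : ℝ) : ℂ) *
      psl D (pwave ℓ m) σ (fun τ x => ∑ j, γ' m j * Φ j τ x) τ x) := by
    funext τ x
    rw [Fintype.sum_prod_type, Finset.sum_comm, ← Finset.sum_coe_sort K]
    refine Finset.sum_congr rfl fun m _ => ?_
    rw [removeT_psl_lin D sp ℓ Φ hΦ (pwave ℓ m) (removeT_pwave_cont ℓ m) σ (γ' m) τ x, Finset.mul_sum]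
    refine Finset.sum_congr rfl fun j _ => ?_
    rw [hγ' m j]
    ring
  rw [e1]
  refine h1.trans ?_
  have h2 : ∑ m ∈ K, nrm2 D (fun τ x => ∑ j, γ' m j * Φ j τ x) ≤ c * ∑ a, ‖γ a‖ ^ 2 := by
    rw [Fintype.sum_prod_type, Finset.sum_comm, Finset.mul_sum, ← Finset.sum_coe_sort K]
    refine Finset.sum_le_sum fun m _ => ?_
    refine (hB (γ' m)).trans (le_of_eq ?_)
    congr 1
    exact Finset.sum_congr rfl fun j _ => by rw [hγ' m j]
  have h3 : 0 ≤ (1 + M) / (cnt sp (sp none) : ℝ) := by positivity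
  calc (1 + M) / (cnt sp (sp none) : ℝ) * ∑ m ∈ K, nrm2 D (fun τ x => ∑ j, γ' m j * Φ j τ x)
      ≤ (1 + M) / (cnt sp (sp none) : ℝ) * (c * ∑ a, ‖γ a‖ ^ 2) := mul_le_mul_of_nonneg_left h2 h3
    _ = _ := by ring

theorem removeT_rem1 {S : Type} [DecidableEq S] (D : Species S) (hD : D.Valid) {I : Type}
    [Fintype I] [DecidableEq I] (sp : Option I → S) (ℓ T θ : ℝ) (hℓ : 0 < ℓ)
    (hT : 0 < T) (hθ : 0 < θ) (Z' : ℝ) (Q : Wave D I → ℝ)
    (hQh : ∀ (r : ℝ) (ψ : Wave D I), IsState D (fun i => sp (some i)) ℓ ψ →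
      Q (fun τ x => (r : ℂ) * ψ τ x) = r ^ 2 * Q ψ)
    (hQ : ∀ (A : Type) [Fintype A] (v : A → Wave D I)
      (_ : ∀ a, IsState D (fun i => sp (some i)) ℓ (v a))
      (c : ℝ) (_ : 0 ≤ c)
      (_ : ∀ γ : A → ℂ, nrm2 D (fun τ x => ∑ a, γ a * v a τ x) ≤ c * ∑ a, ‖γ a‖ ^ 2),
      ∑ a, nrm2 D (v a) * Real.exp (-(Q (v a)) / (nrm2 D (v a) * T)) ≤ c * Z')
    (L M : ℝ)
    (hL : HasSum (fun m => Real.exp (-(θ / (2 * D.mass (sp none) * T) * pen ℓ m) - L)) 1)
    (hM : (cnt sp (sp none) : ℝ) * Real.exp (-L) ≤ M)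
    {k : ℕ} (Φ : Fin k → Wave D (Option I)) (hΦ : ∀ j, IsState D sp ℓ (Φ j)) (c : ℝ) (hc : 0 ≤ c)
    (hB : ∀ γ : Fin k → ℂ, nrm2 D (fun τ x => ∑ j, γ j * Φ j τ x) ≤ c * ∑ j, ‖γ j‖ ^ 2)
    (Qb : Fin k → ℝ)
    (hQb : ∀ j, HasSum (fun m => ∑ σ, Q (psl D (pwave ℓ m) σ (Φ j))) (Qb j)) :
    ∑ j, nrm2 D (Φ j) * Real.exp (-(Qb j + θ * kinE D sp none (Φ j)) / (nrm2 D (Φ j) * T) - L
      + Real.log (cnt sp (sp none))) ≤ (D.g * (1 + M)) * (c * Z') := by
  have hmu : 0 < D.mass (sp none) := hD.mass_pos _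
  have hcnt : (0:ℝ) < (cnt sp (sp none) : ℝ) := by
    have : 0 < cnt sp (sp none) := by
      unfold cnt
      exact Finset.card_pos.2 ⟨none, by simp⟩
    exact_mod_cast this
  have hM0 : 0 ≤ M := le_trans (mul_nonneg hcnt.le (Real.exp_pos _).le) hM
  obtain ⟨lp, hlp⟩ : ∃ lp : (Fin 3 → ℤ) → ℝ, ∀ m, lp m =
      -(θ / (2 * D.mass (sp none) * T) * pen ℓ m) - L := ⟨_, fun _ => rfl⟩
  simp only [← hlp] at hL
  have hp1 : ∀ K : Finset (Fin 3 → ℤ), ∑ m ∈ K, Real.exp (lp m) ≤ 1 := fun K =>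
    sum_le_hasSum K (fun i _ => (Real.exp_pos _).le) hL
  have hpM : ∀ m, Real.exp (lp m) * (cnt sp (sp none) : ℝ) ≤ M := by
    intro m
    have h1 : Real.exp (lp m) ≤ Real.exp (-L) := by
      apply Real.exp_le_exp.2
      rw [hlp m]
      have h2 : 0 ≤ θ / (2 * D.mass (sp none) * T) * pen ℓ m := by
        have := removeT_pen_nonneg ℓ m
        positivity
      linarith
    calc Real.exp (lp m) * (cnt sp (sp none) : ℝ) ≤ Real.exp (-L) * (cnt sp (sp none) : ℝ) :=
          mul_le_mul_of_nonneg_right h1 hcnt.le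
      _ ≤ M := by rw [mul_comm]; exact hM
  -- states
  have hψ : ∀ m σ j, IsState D (fun i => sp (some i)) ℓ (psl D (pwave ℓ m) σ (Φ j)) := fun m σ j =>
    psl_state D sp ℓ (Φ j) (hΦ j) (pwave ℓ m) (removeT_pwave_cont ℓ m) σ
  have hQ0 : ∀ ψ : Wave D I, IsState D (fun i => sp (some i)) ℓ ψ → nrm2 D ψ = 0 → Q ψ = 0 := by
    intro ψ hs h0
    have hz : ψ = 0 := by
      by_contra hne
      exact absurd h0 (ne_of_gt (nrm2_pos D _ ℓ ψ hs hne))
    have h1 := hQh 0 ψ hs
    have h2 : (fun (τ : I → Fin D.g) (x : I → E3) => ((0:ℝ) : ℂ) * ψ τ x) = ψ := by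
      rw [hz]; funext τ x; simp
    rw [h2] at h1
    rw [h1]; ring
  obtain ⟨w, hw⟩ : ∃ w : Fin k → (Fin 3 → ℤ) → Fin D.g → ℝ, ∀ j m σ, w j m σ =
    nrm2 D (psl D (pwave ℓ m) σ (Φ j)) := ⟨_, fun _ _ _ => rfl⟩
  obtain ⟨q, hq⟩ : ∃ q : Fin k → (Fin 3 → ℤ) → Fin D.g → ℝ, ∀ j m σ, q j m σ =
    Q (psl D (pwave ℓ m) σ (Φ j)) := ⟨_, fun _ _ _ => rfl⟩
  have hw0 : ∀ j m σ, 0 ≤ w j m σ := fun j m σ => by rw [hw]; exact removeT_nrm_nonneg D _
  have hwq : ∀ j m σ, w j m σ = 0 → q j m σ = 0 := fun j m σ h => by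
    rw [hq]; exact hQ0 _ (hψ m σ j) (by rw [← hw]; exact h)
  -- bound for fixed spin
  have hfix : ∀ (σ : Fin D.g) (K : Finset (Fin 3 → ℤ)), ∑ j, ∑ m ∈ K,
      w j m σ * Real.exp ((-(q j m σ) / T + w j m σ * lp m) / w j m σ) ≤
      ((1 + M) / (cnt sp (sp none) : ℝ) * c) * Z' := by
    intro σ K
    have h1 := hQ (Fin k × K) (fun a => fun τ x => ((Real.sqrt (Real.exp (lp a.2)) : ℝ) : ℂ) *
      psl D (pwave ℓ a.2) σ (Φ a.1) τ x) (fun a => removeT_state_smul D _ ℓ _ (hψ _ _ _) _)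
      ((1 + M) / (cnt sp (sp none) : ℝ) * c) (by positivity)
      (fun γ => removeT_synth D sp ℓ hℓ (fun m => Real.exp (lp m)) (fun m => (Real.exp_pos _).le) K
        (hp1 K) M hM0 hpM σ Φ hΦ c hB γ)
    refine le_trans (le_of_eq ?_) h1
    rw [Fintype.sum_prod_type]
    refine Finset.sum_congr rfl fun j _ => ?_
    rw [← Finset.sum_coe_sort K]
    refine Finset.sum_congr rfl fun m _ => ?_
    rw [removeT_nrm_smul, hQh _ _ (hψ _ _ _), Real.sq_sqrt (Real.exp_pos _).le, ← hw, ← hq]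
    by_cases h0 : w j m σ = 0
    · rw [h0]; simp
    · have e1 : (-(q j m σ) / T + w j m σ * lp m) / w j m σ = -(q j m σ) / (w j m σ * T) + lp m := by
        field_simp
      have e2 : -(Real.exp (lp m) * q j m σ) / (Real.exp (lp m) * w j m σ * T) =
          -(q j m σ) / (w j m σ * T) := by
        have := (Real.exp_pos (lp m)).ne'
        field_simp
      rw [e1, e2, Real.exp_add]
      ring
  -- Jensen over the modes
  have hJ := jensen_family (ι := Fin 3 → ℤ) (k := k) (fun j m => ∑ σ, w j m σ)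
    (fun j m => ∑ σ, (-(q j m σ) / T + w j m σ * lp m)) (fun j => nrm2 D (Φ j))
    (fun j => -(Qb j + θ * kinE D sp none (Φ j)) / T - L * nrm2 D (Φ j))
    (D.g * (((1 + M) / (cnt sp (sp none) : ℝ) * c) * Z'))
    (fun j m => Finset.sum_nonneg fun σ _ => hw0 j m σ)
    (by
      intro j m h
      have h1 := (Finset.sum_eq_zero_iff_of_nonneg (fun σ _ => hw0 j m σ)).1 h
      refine Finset.sum_eq_zero fun σ hσ => ?_
      rw [hwq j m σ (h1 σ hσ), h1 σ hσ]
      simp)
    (by
      intro j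
      simp only [hw]
      exact (psl_nrm D hD sp ℓ hℓ (Φ j) (hΦ j)).1)
    (by
      intro j
      obtain ⟨n1, n2, -⟩ := psl_nrm D hD sp ℓ hℓ (Φ j) (hΦ j)
      have s1 := (hQb j).mul_left (-1 / T)
      have s2 := n2.mul_left (-(θ / (2 * D.mass (sp none) * T)))
      have s3 := n1.mul_left (-L)
      have s4 := (s1.add s2).add s3
      have ef : (fun m => ∑ σ, (-(q j m σ) / T + w j m σ * lp m)) =
          fun b => (-1 / T * ∑ σ, Q (psl D (pwave ℓ b) σ (Φ j)) +
            -(θ / (2 * D.mass (sp none) * T)) * (pen ℓ b * ∑ σ, nrm2 D (psl D (pwave ℓ b) σ (Φ j)))) +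
            -L * ∑ σ, nrm2 D (psl D (pwave ℓ b) σ (Φ j)) := by
        funext m
        rw [Finset.sum_add_distrib]
        simp only [hw, hq, hlp]
        rw [← Finset.sum_mul, Finset.mul_sum]
        have e5 : ∀ σ : Fin D.g, -(Q (psl D (pwave ℓ m) σ (Φ j))) / T =
            -1 / T * Q (psl D (pwave ℓ m) σ (Φ j)) := fun σ => by ring
        simp only [e5]
        ring
      have ev : -(Qb j + θ * kinE D sp none (Φ j)) / T - L * nrm2 D (Φ j) =
          (-1 / T * Qb j + -(θ / (2 * D.mass (sp none) * T)) *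
            (2 * D.mass (sp none) * kinE D sp none (Φ j))) + -L * nrm2 D (Φ j) := by
        have hμ : D.mass (sp none) ≠ 0 := (hD.mass_pos (sp none)).ne'
        have hT' : T ≠ 0 := hT.ne'
        generalize kinE D sp none (Φ j) = kk
        generalize nrm2 D (Φ j) = nn
        field_simp
        ring
      rw [ef, ev]
      exact s4)
    (by
      intro K
      calc ∑ j, ∑ m ∈ K, (∑ σ, w j m σ) * Real.exp ((∑ σ, (-(q j m σ) / T + w j m σ * lp m)) /
            ∑ σ, w j m σ)
          ≤ ∑ j, ∑ m ∈ K, ∑ σ, w j m σ * Real.exp ((-(q j m σ) / T + w j m σ * lp m) / w j m σ) := by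
            refine Finset.sum_le_sum fun j _ => Finset.sum_le_sum fun m _ => ?_
            exact removeT_jensen_fin (w j m) (fun σ => -(q j m σ) / T + w j m σ * lp m) (hw0 j m)
              (fun σ h => by rw [hwq j m σ h, h]; simp)
        _ = ∑ σ, ∑ j, ∑ m ∈ K, w j m σ * Real.exp ((-(q j m σ) / T + w j m σ * lp m) / w j m σ) := by
            rw [Finset.sum_comm' (s := Finset.univ) (t := fun _ => Finset.univ) (t' := Finset.univ)
              (s' := fun _ => Finset.univ) (by simp)]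
            refine Finset.sum_congr rfl fun j _ => ?_
            rw [Finset.sum_comm]
        _ ≤ ∑ _σ : Fin D.g, ((1 + M) / (cnt sp (sp none) : ℝ) * c) * Z' :=
            Finset.sum_le_sum fun σ _ => hfix σ K
        _ = _ := by simp)
  have hfin : ∑ j, nrm2 D (Φ j) * Real.exp (-(Qb j + θ * kinE D sp none (Φ j)) / (nrm2 D (Φ j) * T) - L
      + Real.log (cnt sp (sp none))) = (cnt sp (sp none) : ℝ) * ∑ j, nrm2 D (Φ j) *
        Real.exp ((-(Qb j + θ * kinE D sp none (Φ j)) / T - L * nrm2 D (Φ j)) / nrm2 D (Φ j)) := by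
    rw [Finset.mul_sum]
    refine Finset.sum_congr rfl fun j _ => ?_
    by_cases h0 : nrm2 D (Φ j) = 0
    · rw [h0]; simp
    · have e1 : (-(Qb j + θ * kinE D sp none (Φ j)) / T - L * nrm2 D (Φ j)) / nrm2 D (Φ j) =
          -(Qb j + θ * kinE D sp none (Φ j)) / (nrm2 D (Φ j) * T) - L := by
        field_simp
      rw [e1, Real.exp_add, Real.exp_log hcnt]
      ring
  rw [hfin]
  calc (cnt sp (sp none) : ℝ) * ∑ j, nrm2 D (Φ j) *
        Real.exp ((-(Qb j + θ * kinE D sp none (Φ j)) / T - L * nrm2 D (Φ j)) / nrm2 D (Φ j))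
      ≤ (cnt sp (sp none) : ℝ) * (D.g * (((1 + M) / (cnt sp (sp none) : ℝ) * c) * Z')) :=
        mul_le_mul_of_nonneg_left hJ hcnt.le
    _ = _ := by field_simp

theorem removeT_cnt {S : Type} [DecidableEq S] {I : Type} [Fintype I] [DecidableEq I]
    (sp : Option I → S) (s : S) (hs : sp none ≠ s) :
    cnt (fun i => sp (some i)) s = cnt sp s := by
  unfold cnt
  rw [Finset.card_filter, Finset.card_filter, Fintype.sum_option]
  simp [hs]

theorem removeT_none {S : Type} [DecidableEq S] (D : Species S) (hD : D.Valid) {I : Type}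
    [Fintype I] [DecidableEq I] (sp : Option (Option I) → S) (hne : sp none ≠ sp (some none))
    (hc : D.charge (sp none) * D.charge (sp (some none)) ≤ 0) (ℓ T θ : ℝ) (hℓ : 0 < ℓ)
    (hT : 0 < T) (hθ : 0 < θ) (Z : ℝ)
    (hZ : ∀ z ∈ peierls D (fun i => sp (some (some i))) ℓ T, z ≤ Z) (L L' : ℝ)
    (hL : HasSum (fun m => Real.exp (-(θ / (2 * D.mass (sp none) * T) * pen ℓ m) - L)) 1)
    (hL' : HasSum (fun m => Real.exp (-(θ / (2 * D.mass (sp (some none)) * T) * pen ℓ m) - L')) 1)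
    (M : ℝ) (hM : (cnt sp (sp none) : ℝ) * Real.exp (-L) ≤ M)
    (hM' : (cnt sp (sp (some none)) : ℝ) * Real.exp (-L') ≤ M) {k : ℕ}
    (Φ : Fin k → Wave D (Option (Option I)))
    (hΦ : ∀ j, IsState D sp ℓ (Φ j))
    (hB : ∀ γ : Fin k → ℂ, nrm2 D (fun τ x => ∑ j, γ j * Φ j τ x) ≤ ∑ j, ‖γ j‖ ^ 2) :
    ∑ j, nrm2 D (Φ j) * Real.exp (-(energy D sp (Φ j) - pe D sp none (Φ j) -
      pe D sp (some none) (Φ j) + θ * kinE D sp none (Φ j) +
      θ * kinE D sp (some none) (Φ j)) / (nrm2 D (Φ j) * T) - L - L' +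
      Real.log (cnt sp (sp none)) + Real.log (cnt sp (sp (some none)))) ≤
      (D.g * (1 + M)) ^ 2 * Z := by
  have hcn : cnt (fun i => sp (some i)) (sp (some none)) = cnt sp (sp (some none)) :=
    removeT_cnt sp _ hne
  -- inner step
  have hin : ∀ (A : Type) [Fintype A] (v : A → Wave D (Option I))
      (_ : ∀ a, IsState D (fun i => sp (some i)) ℓ (v a))
      (c : ℝ) (_ : 0 ≤ c)
      (_ : ∀ γ : A → ℂ, nrm2 D (fun τ x => ∑ a, γ a * v a τ x) ≤ c * ∑ a, ‖γ a‖ ^ 2),
      ∑ a, nrm2 D (v a) * Real.exp (-(energy D (fun i => sp (some i)) (v a) -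
        pe D (fun i => sp (some i)) none (v a) + θ * kinE D (fun i => sp (some i)) none (v a)) /
        (nrm2 D (v a) * T)) ≤ c * ((D.g * (1 + M)) * Z *
          Real.exp (L' - Real.log (cnt sp (sp (some none))))) := by
    intro A _ v hv c hc0 hBv
    have e : A ≃ Fin (Fintype.card A) := Fintype.equivFin A
    have h1 := removeT_rem1 D hD (fun i => sp (some i)) ℓ T θ hℓ hT hθ Z
      (fun ψ => energy D (fun i => sp (some (some i))) ψ)
      (fun r ψ hψ => removeT_energy_smul D _ ℓ ψ hψ r)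
      (fun B _ u hu c' hc' hBu => trace_bound D (fun i => sp (some (some i))) ℓ T hT Z hZ u hu c'
        hc' hBu)
      L' M hL' (by rw [hcn]; exact hM') (fun j => v (e.symm j)) (fun j => hv _) c hc0
      (by
        intro γ
        have h2 := hBv (fun a => γ (e a))
        have e1 : ∀ (τ : Option I → Fin D.g) (x : Option I → E3),
            ∑ j, γ j * v (e.symm j) τ x = ∑ a, γ (e a) * v a τ x := by
          intro τ x
          rw [← Equiv.sum_comp e]
          simp
        have e2 : ∑ j, ‖γ j‖ ^ 2 = ∑ a, ‖γ (e a)‖ ^ 2 := by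
          rw [← Equiv.sum_comp e]
        simp only [e1]
        rw [e2]
        exact h2)
      (fun j => energy D (fun i => sp (some i)) (v (e.symm j)) -
        pe D (fun i => sp (some i)) none (v (e.symm j)))
      (fun j => (psl_energy D (fun i => sp (some i)) ℓ hℓ (v (e.symm j)) (hv _)).1)
    have h3 : ∑ a, nrm2 D (v a) * Real.exp (-(energy D (fun i => sp (some i)) (v a) -
        pe D (fun i => sp (some i)) none (v a) + θ * kinE D (fun i => sp (some i)) none (v a)) /
        (nrm2 D (v a) * T)) = (∑ j, nrm2 D (v (e.symm j)) *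
          Real.exp (-(energy D (fun i => sp (some i)) (v (e.symm j)) -
          pe D (fun i => sp (some i)) none (v (e.symm j)) +
          θ * kinE D (fun i => sp (some i)) none (v (e.symm j))) /
        (nrm2 D (v (e.symm j)) * T) - L' + Real.log (cnt sp (sp (some none))))) *
          Real.exp (L' - Real.log (cnt sp (sp (some none)))) := by
      rw [← Equiv.sum_comp e (fun j => nrm2 D (v (e.symm j)) *
          Real.exp (-(energy D (fun i => sp (some i)) (v (e.symm j)) -
          pe D (fun i => sp (some i)) none (v (e.symm j)) +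
          θ * kinE D (fun i => sp (some i)) none (v (e.symm j))) /
        (nrm2 D (v (e.symm j)) * T) - L' + Real.log (cnt sp (sp (some none))))), Finset.sum_mul]
      refine Finset.sum_congr rfl fun a _ => ?_
      rw [Equiv.symm_apply_apply, mul_assoc, ← Real.exp_add]
      congr 2
      ring
    rw [h3]
    have h4 : ∀ x : ℝ, x ≤ (D.g * (1 + M)) * (c * Z) →
        x * Real.exp (L' - Real.log (cnt sp (sp (some none)))) ≤ c * ((D.g * (1 + M)) * Z *
          Real.exp (L' - Real.log (cnt sp (sp (some none))))) := by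
      intro x hx
      calc x * Real.exp (L' - Real.log (cnt sp (sp (some none))))
          ≤ ((D.g * (1 + M)) * (c * Z)) * Real.exp (L' - Real.log (cnt sp (sp (some none)))) :=
            mul_le_mul_of_nonneg_right hx (Real.exp_pos _).le
        _ = _ := by ring
    refine h4 _ ?_
    rw [hcn] at h1
    exact h1
  -- outer step
  obtain ⟨V, hV⟩ : ∃ V : Fin k → ℝ, ∀ j, V j = ∑ τ, ∫ x, D.charge (sp none) *
      D.charge (sp (some none)) / ‖x none - x (some none)‖ * ‖Φ j τ x‖ ^ 2 := ⟨_, fun _ => rfl⟩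
  have hV0 : ∀ j, V j ≤ 0 := by
    intro j
    rw [hV]
    refine Finset.sum_nonpos fun τ _ => integral_nonpos fun x => ?_
    exact mul_nonpos_of_nonpos_of_nonneg (div_nonpos_of_nonpos_of_nonneg hc (norm_nonneg _))
      (sq_nonneg _)
  have h5 := removeT_rem1 D hD sp ℓ T θ hℓ hT hθ ((D.g * (1 + M)) * Z *
          Real.exp (L' - Real.log (cnt sp (sp (some none)))))
      (fun ψ => energy D (fun i => sp (some i)) ψ -
        pe D (fun i => sp (some i)) none ψ + θ * kinE D (fun i => sp (some i)) none ψ)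
      (fun r ψ hψ => by
        rw [removeT_energy_smul D _ ℓ ψ hψ r, removeT_pe_smul D _ ℓ ψ hψ r none,
          removeT_kinE_smul D _ ℓ ψ hψ r none]
        ring)
      hin L M hL hM Φ hΦ 1 zero_le_one (fun γ => by rw [one_mul]; exact hB γ)
      (fun j => (energy D sp (Φ j) - pe D sp none (Φ j)) - (pe D sp (some none) (Φ j) - V j) +
        θ * kinE D sp (some none) (Φ j))
      (fun j => by
        obtain ⟨a1, -, a3⟩ := psl_energy D sp ℓ hℓ (Φ j) (hΦ j)
        obtain ⟨-, -, b3⟩ := psl_nrm D hD sp ℓ hℓ (Φ j) (hΦ j)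
        have s1 := (a1.sub (a3 none)).add ((b3 none).mul_left θ)
        rw [← hV j] at s1
        have ef : (fun m => ∑ σ, (energy D (fun i => sp (some i)) (psl D (pwave ℓ m) σ (Φ j)) -
            pe D (fun i => sp (some i)) none (psl D (pwave ℓ m) σ (Φ j)) +
            θ * kinE D (fun i => sp (some i)) none (psl D (pwave ℓ m) σ (Φ j)))) =
            fun m => ((∑ σ, energy D (fun i => sp (some i)) (psl D (pwave ℓ m) σ (Φ j))) -
            ∑ σ, pe D (fun i => sp (some i)) none (psl D (pwave ℓ m) σ (Φ j))) +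
            θ * ∑ σ, kinE D (fun i => sp (some i)) none (psl D (pwave ℓ m) σ (Φ j)) := by
          funext m
          rw [Finset.sum_add_distrib, Finset.sum_sub_distrib, Finset.mul_sum]
        rw [ef]
        exact s1)
  have h6 : ∀ j, nrm2 D (Φ j) * Real.exp (-(energy D sp (Φ j) - pe D sp none (Φ j) -
      pe D sp (some none) (Φ j) + θ * kinE D sp none (Φ j) +
      θ * kinE D sp (some none) (Φ j)) / (nrm2 D (Φ j) * T) - L - L' +
      Real.log (cnt sp (sp none)) + Real.log (cnt sp (sp (some none)))) ≤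
      (nrm2 D (Φ j) * Real.exp (-((energy D sp (Φ j) - pe D sp none (Φ j)) -
        (pe D sp (some none) (Φ j) - V j) +
        θ * kinE D sp (some none) (Φ j) + θ * kinE D sp none (Φ j)) / (nrm2 D (Φ j) * T) - L +
        Real.log (cnt sp (sp none)))) *
        Real.exp (-L' + Real.log (cnt sp (sp (some none)))) := by
    intro j
    have hn := removeT_nrm_nonneg D (Φ j)
    rw [mul_assoc, ← Real.exp_add]
    refine mul_le_mul_of_nonneg_left (Real.exp_le_exp.2 ?_) hn
    have h7 : -(energy D sp (Φ j) - pe D sp none (Φ j) -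
      pe D sp (some none) (Φ j) + θ * kinE D sp none (Φ j) +
      θ * kinE D sp (some none) (Φ j)) / (nrm2 D (Φ j) * T) ≤
        -((energy D sp (Φ j) - pe D sp none (Φ j)) -
        (pe D sp (some none) (Φ j) - V j) +
        θ * kinE D sp (some none) (Φ j) + θ * kinE D sp none (Φ j)) / (nrm2 D (Φ j) * T) := by
      apply div_le_div_of_nonneg_right _ (mul_nonneg hn hT.le)
      have := hV0 j
      linarith
    linarith
  calc _ ≤ ∑ j, (nrm2 D (Φ j) * Real.exp (-((energy D sp (Φ j) - pe D sp none (Φ j)) -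
        (pe D sp (some none) (Φ j) - V j) +
        θ * kinE D sp (some none) (Φ j) + θ * kinE D sp none (Φ j)) / (nrm2 D (Φ j) * T) - L +
        Real.log (cnt sp (sp none)))) *
        Real.exp (-L' + Real.log (cnt sp (sp (some none)))) :=
        Finset.sum_le_sum fun j _ => h6 j
    _ = (∑ j, nrm2 D (Φ j) * Real.exp (-((energy D sp (Φ j) - pe D sp none (Φ j)) -
        (pe D sp (some none) (Φ j) - V j) +
        θ * kinE D sp (some none) (Φ j) + θ * kinE D sp none (Φ j)) / (nrm2 D (Φ j) * T) - L +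
        Real.log (cnt sp (sp none)))) *
        Real.exp (-L' + Real.log (cnt sp (sp (some none)))) := by rw [Finset.sum_mul]
    _ ≤ ((D.g * (1 + M)) * (1 * ((D.g * (1 + M)) * Z *
          Real.exp (L' - Real.log (cnt sp (sp (some none))))))) *
        Real.exp (-L' + Real.log (cnt sp (sp (some none)))) :=
        mul_le_mul_of_nonneg_right h5 (Real.exp_pos _).le
    _ = (D.g * (1 + M)) ^ 2 * Z * (Real.exp (L' - Real.log (cnt sp (sp (some none)))) *
        Real.exp (-L' + Real.log (cnt sp (sp (some none))))) := by ring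
    _ = _ := by
        rw [← Real.exp_add]
        have : L' - Real.log (cnt sp (sp (some none)) : ℝ) +
          (-L' + Real.log (cnt sp (sp (some none)) : ℝ)) = 0 := by ring
        rw [this, Real.exp_zero, mul_one]

end Pool.Agent.Helper985.CP
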