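import Pool.Agent.Helper985.CP.M_exists_equiv
import Pool.Agent.Helper985.CP.M_relabel_num
import Pool.Agent.Helper985.CP.M_relabel_state
import Pool.Agent.Helper985.CT.M_peierls_relabel
import Pool.Agent.Helper985.CT.M_removeT_none
import Pool.Agent.Helper985.CT.Defs

set_option autoImplicit false

open MeasureTheory
open scoped Topology

namespace Pool.Agent.Helper985.CP







/-- species of the particles with two extra ones -/
def rmvT_sp {S J : Type} (a b : S) (sp' : J → S) : Option (Option J) → S :=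
  fun o => match o with
    | none => a
    | some none => b
    | some (some j) => sp' j

theorem rmvT_cnt {S J : Type} [DecidableEq S] [Fintype J] (a b : S) (sp' : J → S) (s : S) :
    cnt (rmvT_sp a b sp') s = cnt sp' s + (if s = a then 1 else 0) + (if s = b then 1 else 0) := by
  unfold cnt
  rw [Finset.card_filter, Fintype.sum_option, Fintype.sum_option, Finset.card_filter]
  have h1 : (if rmvT_sp a b sp' none = s then 1 else 0) = if s = a then 1 else 0 := by
    show (if a = s then 1 else 0) = if s = a then 1 else 0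
    by_cases h : a = s
    · rw [if_pos h, if_pos h.symm]
    · rw [if_neg h, if_neg (fun h' => h h'.symm)]
  have h2 : (if rmvT_sp a b sp' (some none) = s then 1 else 0) = if s = b then 1 else 0 := by
    show (if b = s then 1 else 0) = if s = b then 1 else 0
    by_cases h : b = s
    · rw [if_pos h, if_pos h.symm]
    · rw [if_neg h, if_neg (fun h' => h h'.symm)]
  have h3 : ∀ j, (if rmvT_sp a b sp' (some (some j)) = s then 1 else 0) = if sp' j = s then 1 else 0 := by
    intro j
    rfl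
  rw [h1, h2]
  simp only [h3]
  ring

theorem rmvT_swap {S X : Type} [DecidableEq X] (f : X → S) (p q : X) (h : f p = f q) (x : X) :
    f (Equiv.swap p q x) = f x := by
  rcases eq_or_ne x p with rfl | hp
  · rw [Equiv.swap_apply_left, h]
  · rcases eq_or_ne x q with rfl | hq
    · rw [Equiv.swap_apply_right, h]
    · rw [Equiv.swap_apply_of_ne_of_ne hp hq]

theorem rmvT_equiv {S : Type} [DecidableEq S] {I J : Type}
    [Fintype I] [DecidableEq I] [Fintype J] [DecidableEq J] (sp : I → S) (sp' : J → S)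
    (a b : S) (hab : a ≠ b)
    (hcnt : ∀ s, cnt sp s = cnt sp' s + (if s = a then 1 else 0) + (if s = b then 1 else 0))
    (i j : I) (hi : sp i = a) (hj : sp j = b) :
    ∃ e : I ≃ Option (Option J), (∀ x, rmvT_sp a b sp' (e x) = sp x) ∧ e i = none ∧ e j = some none := by
  obtain ⟨e0, he0⟩ := exists_equiv sp (rmvT_sp a b sp') (fun s => by rw [hcnt, rmvT_cnt])
  let e1 : I ≃ Option (Option J) := e0.trans (Equiv.swap (e0 i) none)
  have he1 : ∀ x, rmvT_sp a b sp' (e1 x) = sp x := by
    intro x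
    show rmvT_sp a b sp' (Equiv.swap (e0 i) none (e0 x)) = sp x
    rw [rmvT_swap (rmvT_sp a b sp') (e0 i) none ((he0 i).trans hi), he0]
  have he1i : e1 i = none := by
    show Equiv.swap (e0 i) none (e0 i) = none
    rw [Equiv.swap_apply_left]
  have hjne : e1 j ≠ none := by
    intro hcon
    have := he1 j
    rw [hcon, hj] at this
    exact hab this
  let e2 : I ≃ Option (Option J) := e1.trans (Equiv.swap (e1 j) (some none))
  refine ⟨e2, ?_, ?_, ?_⟩
  · intro x
    show rmvT_sp a b sp' (Equiv.swap (e1 j) (some none) (e1 x)) = sp x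
    rw [rmvT_swap (rmvT_sp a b sp') (e1 j) (some none) ((he1 j).trans hj), he1]
  · show Equiv.swap (e1 j) (some none) (e1 i) = none
    rw [he1i, Equiv.swap_apply_of_ne_of_ne hjne.symm (by simp)]
  · show Equiv.swap (e1 j) (some none) (e1 j) = some none
    rw [Equiv.swap_apply_left]

theorem removeT_any {S : Type} [DecidableEq S] (D : Species S) (hD : D.Valid) {I J : Type}
    [Fintype I] [DecidableEq I] [Fintype J] [DecidableEq J] (sp : I → S) (sp' : J → S)
    (a b : S) (hab : a ≠ b) (hc : D.charge a * D.charge b ≤ 0)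
    (hcnt : ∀ s, cnt sp s = cnt sp' s + (if s = a then 1 else 0) + (if s = b then 1 else 0))
    (ℓ T θ : ℝ) (hℓ : 0 < ℓ) (hT : 0 < T) (hθ : 0 < θ) (Z : ℝ)
    (hZ : ∀ z ∈ peierls D sp' ℓ T, z ≤ Z) (L L' : ℝ)
    (hL : HasSum (fun m => Real.exp (-(θ / (2 * D.mass a * T) * pen ℓ m) - L)) 1)
    (hL' : HasSum (fun m => Real.exp (-(θ / (2 * D.mass b * T) * pen ℓ m) - L')) 1)
    (M : ℝ) (hM : (cnt sp a : ℝ) * Real.exp (-L) ≤ M)
    (hM' : (cnt sp b : ℝ) * Real.exp (-L') ≤ M) (i j : I) (hi : sp i = a) (hj : sp j = b)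
    {k : ℕ} (Φ : Fin k → Wave D I) (hΦ : ∀ q, IsState D sp ℓ (Φ q))
    (hB : ∀ γ : Fin k → ℂ, nrm2 D (fun τ x => ∑ q, γ q * Φ q τ x) ≤ ∑ q, ‖γ q‖ ^ 2) :
    ∑ q, nrm2 D (Φ q) * Real.exp (-(energy D sp (Φ q) - pe D sp i (Φ q) -
      pe D sp j (Φ q) + θ * kinE D sp i (Φ q) + θ * kinE D sp j (Φ q)) /
      (nrm2 D (Φ q) * T) - L - L' + Real.log (cnt sp a) + Real.log (cnt sp b)) ≤
      (D.g * (1 + M)) ^ 2 * Z := by
  obtain ⟨e, he, hei, hej⟩ := rmvT_equiv sp sp' a b hab hcnt i j hi hj
  have hca : cnt (rmvT_sp a b sp') a = cnt sp a := by rw [hcnt, rmvT_cnt]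
  have hcb : cnt (rmvT_sp a b sp') b = cnt sp b := by rw [hcnt, rmvT_cnt]
  have hlin : ∀ γ : Fin k → ℂ, (fun τ x => ∑ q, γ q * relab D e (Φ q) τ x)
      = relab D e (fun τ x => ∑ q, γ q * Φ q τ x) := by
    intro γ
    rfl
  have hmain := removeT_none D hD (rmvT_sp a b sp') hab hc ℓ T θ hℓ hT hθ Z hZ L L' hL hL' M
    (by
      show (cnt (rmvT_sp a b sp') a : ℝ) * Real.exp (-L) ≤ M
      rw [hca]; exact hM)
    (by
      show (cnt (rmvT_sp a b sp') b : ℝ) * Real.exp (-L') ≤ M
      rw [hcb]; exact hM')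
    (fun q => relab D e (Φ q))
    (fun q => relabel_state D e sp (rmvT_sp a b sp') he ℓ (Φ q) (hΦ q))
    (by
      intro γ
      have h1 := (relabel_num D e sp (rmvT_sp a b sp') he (fun τ x => ∑ q, γ q * Φ q τ x)).1
      have h2 := hB γ
      rw [← h1] at h2
      exact h2)
  refine le_trans (le_of_eq ?_) hmain
  apply Finset.sum_congr rfl
  intro q _
  obtain ⟨hn, hE, hpe, _⟩ := relabel_num D e sp (rmvT_sp a b sp') he (Φ q)
  have hk := (peierls_relabel D e sp (rmvT_sp a b sp') he ℓ T).2 (Φ q)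
  have hpi := hpe i
  have hpj := hpe j
  have hki := hk i
  have hkj := hk j
  rw [hei] at hpi hki
  rw [hej] at hpj hkj
  rw [hn, hE, hpi, hpj, hki, hkj]
  show _ = nrm2 D (Φ q) * Real.exp (-(energy D sp (Φ q) - pe D sp i (Φ q) -
      pe D sp j (Φ q) + θ * kinE D sp i (Φ q) + θ * kinE D sp j (Φ q)) /
      (nrm2 D (Φ q) * T) - L - L' + Real.log (cnt (rmvT_sp a b sp') a)
        + Real.log (cnt (rmvT_sp a b sp') b))
  rw [hca, hcb]

end Pool.Agent.Helper985.CP
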