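import Pool.Agent.Helper985.CP.M_exists_bump
import Pool.Agent.Helper985.CP.M_exists_cut
import Pool.Agent.Helper985.CP.M_ims
import Pool.Agent.Helper985.CP.M_int_state
import Pool.Agent.Helper985.CP.M_nrm2_pos
import Pool.Agent.Helper985.CP.M_pot_props
import Pool.Agent.Helper985.CP.M_stable_any
import Pool.Agent.Helper985.CT.M_lz_bounds
import Pool.Agent.Helper985.CT.M_moveT_any
import Pool.Agent.Helper985.CT.M_pe_symm
import Pool.Agent.Helper985.CT.M_removeT_any
import Pool.Agent.Helper985.CT.M_state_comb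
import Pool.Agent.Helper985.CT.M_sum_pe_half
import Pool.Agent.Helper985.CT.M_trace_bound
import Pool.Agent.Helper985.CT.Defs

set_option autoImplicit false

open MeasureTheory
open scoped Topology

namespace Pool.Agent.Helper985.CP
















theorem cl_nrm2_nonneg {S : Type} (D : Species S) {I : Type} [Fintype I] [DecidableEq I]
    (Ψ : Wave D I) : 0 ≤ nrm2 D Ψ := by
  unfold nrm2
  exact Finset.sum_nonneg fun τ _ => integral_nonneg fun x => by positivity

theorem cl_nrm2_one {S : Type} (D : Species S) {I : Type} [Fintype I] [DecidableEq I]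
    (sp : I → S) (ℓ : ℝ) {k : ℕ} (ψ : Fin k → Wave D I) (h : Ortho D sp ℓ ψ) (j : Fin k) :
    nrm2 D (ψ j) = 1 := by
  have h1 := h.2 j j
  rw [if_pos rfl] at h1
  have h2 : ip D (ψ j) (ψ j) = ((nrm2 D (ψ j) : ℝ) : ℂ) := by
    unfold ip nrm2
    rw [Complex.ofReal_sum]
    refine Finset.sum_congr rfl fun τ _ => ?_
    rw [← integral_complex_ofReal]
    refine integral_congr_ae (Filter.Eventually.of_forall fun x => ?_)
    simp only
    rw [← Complex.normSq_eq_conj_mul_self, Complex.normSq_eq_norm_sq]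
  rw [h2] at h1
  exact_mod_cast h1

theorem cl_ortho_norm {S : Type} (D : Species S) {I : Type} [Fintype I] [DecidableEq I]
    (sp : I → S) (ℓ : ℝ) {k : ℕ} (ψ : Fin k → Wave D I) (h : Ortho D sp ℓ ψ) (γ : Fin k → ℂ) :
    nrm2 D (fun τ x => ∑ j, γ j * ψ j τ x) = ∑ j, ‖γ j‖ ^ 2 := by
  have hint : ∀ (τ : I → Fin D.g) (i j : Fin k),
      Integrable (fun x => (starRingEnd ℂ) (ψ i τ x) * ψ j τ x) := by
    intro τ i j
    have hc1 : Continuous (ψ i τ) := ((h.1 i).smooth τ).continuous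
    have hc2 : Continuous (ψ j τ) := ((h.1 j).smooth τ).continuous
    refine Continuous.integrable_of_hasCompactSupport
      ((Complex.continuous_conj.comp hc1).mul hc2) ?_
    exact ((h.1 j).compact τ).mul_left
  have h2 : ((nrm2 D (fun τ x => ∑ j, γ j * ψ j τ x) : ℝ) : ℂ) =
      ∑ i, ∑ j, (starRingEnd ℂ) (γ i) * γ j * ip D (ψ i) (ψ j) := by
    unfold ip nrm2
    rw [Complex.ofReal_sum]
    have h3 : ∀ τ : I → Fin D.g, ((∫ x, ‖∑ j, γ j * ψ j τ x‖ ^ 2 : ℝ) : ℂ) =
        ∑ i, ∑ j, (starRingEnd ℂ) (γ i) * γ j * ∫ x, (starRingEnd ℂ) (ψ i τ x) * ψ j τ x := by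
      intro τ
      rw [← integral_complex_ofReal]
      have h4 : ∀ x : I → E3, (((‖∑ j, γ j * ψ j τ x‖ ^ 2 : ℝ)) : ℂ) =
          ∑ i, ∑ j, (starRingEnd ℂ) (γ i) * γ j * ((starRingEnd ℂ) (ψ i τ x) * ψ j τ x) := by
        intro x
        rw [← Complex.normSq_eq_norm_sq, Complex.normSq_eq_conj_mul_self, map_sum,
          Finset.sum_mul_sum]
        refine Finset.sum_congr rfl fun i _ => Finset.sum_congr rfl fun j _ => ?_
        rw [map_mul]
        ring
      simp_rw [h4]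
      rw [integral_finsetSum _ (fun i _ => integrable_finsetSum _ fun j _ =>
        (hint τ i j).const_mul _)]
      refine Finset.sum_congr rfl fun i _ => ?_
      rw [integral_finsetSum _ (fun j _ => (hint τ i j).const_mul _)]
      refine Finset.sum_congr rfl fun j _ => ?_
      rw [integral_const_mul]
    simp_rw [h3]
    rw [Finset.sum_comm]
    refine Finset.sum_congr rfl fun i _ => ?_
    rw [Finset.sum_comm]
    refine Finset.sum_congr rfl fun j _ => ?_
    rw [Finset.mul_sum]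
  have h5 : (∑ i, ∑ j, (starRingEnd ℂ) (γ i) * γ j * ip D (ψ i) (ψ j)) =
      ((∑ j, ‖γ j‖ ^ 2 : ℝ) : ℂ) := by
    rw [Complex.ofReal_sum]
    refine Finset.sum_congr rfl fun i _ => ?_
    rw [Finset.sum_eq_single i]
    · rw [h.2 i i, if_pos rfl, mul_one, ← Complex.normSq_eq_conj_mul_self,
        Complex.normSq_eq_norm_sq]
    · intro j _ hj
      rw [h.2 i j, if_neg (Ne.symm hj), mul_zero]
    · intro hi; exact absurd (Finset.mem_univ i) hi
  rw [h5] at h2
  exact_mod_cast h2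

theorem cl_zero {S : Type} (D : Species S) {I : Type} [Fintype I] [DecidableEq I]
    (sp : I → S) (ℓ : ℝ) (Ψ : Wave D I) (hΨ : IsState D sp ℓ Ψ) (h0 : nrm2 D Ψ = 0) : Ψ = 0 := by
  by_contra h
  have := nrm2_pos D sp ℓ Ψ hΨ h
  linarith

theorem cl_kin_zero {S : Type} (D : Species S) {I : Type} [Fintype I] [DecidableEq I]
    (sp : I → S) (i : I) (x : I → E3) : kin D sp i (0 : (I → E3) → ℂ) x = 0 := by
  unfold kin
  simp

theorem cl_energy_zero {S : Type} (D : Species S) {I : Type} [Fintype I] [DecidableEq I]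
    (sp : I → S) : energy D sp (0 : Wave D I) = 0 := by
  unfold energy
  simp [cl_kin_zero]

theorem cl_pe_zero {S : Type} (D : Species S) {I : Type} [Fintype I] [DecidableEq I]
    (sp : I → S) (i : I) : pe D sp i (0 : Wave D I) = 0 := by
  unfold pe
  simp [cl_kin_zero]

theorem cl_kinE_zero {S : Type} (D : Species S) {I : Type} [Fintype I] [DecidableEq I]
    (sp : I → S) (i : I) : kinE D sp i (0 : Wave D I) = 0 := by
  unfold kinE
  simp [cl_kin_zero]

theorem cl_mean_zero {S : Type} (D : Species S) {I : Type} [Fintype I] [DecidableEq I]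
    (sp : I → S) (u : E3 → ℝ) : mean D sp (0 : Wave D I) u = 0 := by
  unfold mean
  simp

theorem cl_conv {S : Type} [Fintype S] (p q β : ℝ) (α : S → ℝ) (hp : 0 ≤ p) (hq : 0 ≤ q)
    (hpq : p + q = 1) (hα : ∀ s, 0 ≤ α s) (hβ : 0 ≤ β) (hs : ∑ s, α s + β = 1)
    (A0 : ℝ) (B : S → ℝ) (B' : ℝ) :
    Real.exp (q * A0 + ∑ s, p * α s * B s + p * β * B') ≤
      q * Real.exp A0 + ∑ s, α s * (p * Real.exp (B s)) + β * (p * Real.exp B') := by
  have h1 := convexOn_exp.map_sum_le (t := (Finset.univ : Finset (Option S)))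
    (w := fun o => o.elim β α) (p := fun o => o.elim B' B)
    (by intro o _; cases o with
        | none => exact hβ
        | some s => exact hα s)
    (by rw [Fintype.sum_option]; simp only [Option.elim]; linarith) (by intro o _; trivial)
  rw [Fintype.sum_option, Fintype.sum_option] at h1
  simp only [Option.elim, smul_eq_mul] at h1
  have h2 := convexOn_exp.2 (Set.mem_univ A0) (Set.mem_univ (β * B' + ∑ s, α s * B s)) hq hp
    (by linarith)
  simp only [smul_eq_mul] at h2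
  have e1 : q * A0 + ∑ s, p * α s * B s + p * β * B' = q * A0 + p * (β * B' + ∑ s, α s * B s) := by
    rw [mul_add, Finset.mul_sum, add_assoc, add_comm (∑ s, p * α s * B s)]
    congr 1
    congr 1
    · ring
    · exact Finset.sum_congr rfl fun s _ => by ring
  rw [e1]
  refine h2.trans ?_
  have e2 : q * Real.exp A0 + ∑ s, α s * (p * Real.exp (B s)) + β * (p * Real.exp B') =
      q * Real.exp A0 + p * (β * Real.exp B' + ∑ s, α s * Real.exp (B s)) := by
    rw [mul_add, Finset.mul_sum, add_assoc, add_comm (∑ s, α s * (p * Real.exp (B s)))]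
    congr 1
    congr 1
    · ring
    · exact Finset.sum_congr rfl fun s _ => by ring
  rw [e2]
  have := mul_le_mul_of_nonneg_left h1 hp
  linarith

theorem cl_ind_int {S : Type} (D : Species S) {I : Type} [Fintype I] [DecidableEq I]
    (sp : I → S) (ℓ r : ℝ) (x0 : E3) (Ψ : Wave D I) (hΨ : IsState D sp ℓ Ψ) (τ : I → Fin D.g) :
    Integrable (fun x : I → E3 =>
      (∑ i, Set.indicator (Metric.ball x0 (2 * r)) (fun _ => (1 : ℝ)) (x i)) *
      ‖Ψ τ x‖ ^ 2) := by
  have h1 := (int_state D sp ℓ Ψ hΨ τ).1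
  refine h1.bdd_mul (c := (Fintype.card I : ℝ)) ?_ ?_
  · refine Measurable.aestronglyMeasurable ?_
    refine Finset.measurable_sum _ fun i _ => ?_
    exact (measurable_const.indicator measurableSet_ball).comp (measurable_pi_apply i)
  · refine Filter.Eventually.of_forall fun x => ?_
    have h2 : ∀ i, 0 ≤ Set.indicator (Metric.ball x0 (2 * r)) (fun _ => (1 : ℝ)) (x i) := by
      intro i; exact Set.indicator_nonneg (fun _ _ => zero_le_one) _
    rw [Real.norm_of_nonneg (Finset.sum_nonneg fun i _ => h2 i)]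
    calc ∑ i, Set.indicator (Metric.ball x0 (2 * r)) (fun _ => (1 : ℝ)) (x i)
        ≤ ∑ _i : I, (1 : ℝ) := by
          refine Finset.sum_le_sum fun i _ => ?_
          refine Set.indicator_apply_le' (fun _ => le_rfl) (fun _ => zero_le_one)
      _ = (Fintype.card I : ℝ) := by simp

theorem cl_near_nonneg {S : Type} (D : Species S) {I : Type} [Fintype I] [DecidableEq I]
    (r : ℝ) (x0 : E3) (Ψ : Wave D I) : 0 ≤ near D r x0 Ψ := by
  unfold near
  refine Finset.sum_nonneg fun τ _ => integral_nonneg fun x => ?_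
  refine mul_nonneg (Finset.sum_nonneg fun i _ => ?_) (by positivity)
  exact Set.indicator_nonneg (fun _ _ => zero_le_one) _

theorem cl_sin {S : Type} (D : Species S) {I : Type} [Fintype I] [DecidableEq I]
    (sp : I → S) (ℓ r : ℝ) (x0 : E3) (Ψ : Wave D I) (hΨ : IsState D sp ℓ Ψ)
    (θ : (I → E3) → ℝ)
    (hθ : ∀ x, Real.sin (θ x) ^ 2 ≤
        ∑ i, Set.indicator (Metric.ball x0 (2 * r)) (fun _ => (1 : ℝ)) (x i)) :
    nrm2 D (fun τ x => ((Real.sin (θ x) : ℝ) : ℂ) * Ψ τ x) ≤ near D r x0 Ψ := by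
  unfold nrm2 near
  refine Finset.sum_le_sum fun τ _ => ?_
  refine integral_mono_of_nonneg (Filter.Eventually.of_forall fun x => by positivity)
    (cl_ind_int D sp ℓ r x0 Ψ hΨ τ) (Filter.Eventually.of_forall fun x => ?_)
  simp only
  rw [norm_mul, mul_pow, Complex.norm_real, Real.norm_eq_abs, sq_abs]
  exact mul_le_mul_of_nonneg_right (hθ x) (by positivity)

theorem cl_loc {S : Type} (D : Species S) {I : Type} [Fintype I] [DecidableEq I]
    (sp : I → S) (ℓ r : ℝ) (x0 : E3) (Ψ : Wave D I) (hΨ : IsState D sp ℓ Ψ)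
    (θ : (I → E3) → ℝ) (C1 mm : ℝ) (hC1 : 0 ≤ C1) (hm : ∀ s, 0 ≤ 1 / (2 * D.mass s))
    (hmm : ∀ s, 1 / (2 * D.mass s) ≤ mm)
    (hθ : ∀ x i, ∑ k : Fin 3, (fderiv ℝ θ x (Pi.single i (EuclideanSpace.single k (1 : ℝ)))) ^ 2 ≤
        C1 * Set.indicator (Metric.ball x0 (2 * r)) (fun _ => (1 : ℝ)) (x i)) :
    ∑ τ, ∫ x, (∑ i, (1 / (2 * D.mass (sp i))) * ∑ k : Fin 3,
        (fderiv ℝ θ x (Pi.single i (EuclideanSpace.single k (1 : ℝ)))) ^ 2) * ‖Ψ τ x‖ ^ 2 ≤
      mm * C1 * near D r x0 Ψ := by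
  unfold near
  rw [Finset.mul_sum]
  refine Finset.sum_le_sum fun τ _ => ?_
  rw [← integral_const_mul]
  refine integral_mono_of_nonneg (Filter.Eventually.of_forall fun x => ?_)
    ((cl_ind_int D sp ℓ r x0 Ψ hΨ τ).const_mul _) (Filter.Eventually.of_forall fun x => ?_)
  · simp only [Pi.zero_apply]
    refine mul_nonneg (Finset.sum_nonneg fun i _ => mul_nonneg (hm _) ?_) (by positivity)
    exact Finset.sum_nonneg fun k _ => sq_nonneg _
  · simp only
    rw [← mul_assoc]
    refine mul_le_mul_of_nonneg_right ?_ (by positivity)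
    rw [Finset.mul_sum]
    refine Finset.sum_le_sum fun i _ => ?_
    have h0 : 0 ≤ Set.indicator (Metric.ball x0 (2 * r)) (fun _ => (1 : ℝ)) (x i) :=
      Set.indicator_nonneg (fun _ _ => zero_le_one) _
    calc (1 / (2 * D.mass (sp i))) * ∑ k : Fin 3,
        (fderiv ℝ θ x (Pi.single i (EuclideanSpace.single k (1 : ℝ)))) ^ 2
        ≤ (1 / (2 * D.mass (sp i))) *
          (C1 * Set.indicator (Metric.ball x0 (2 * r)) (fun _ => (1 : ℝ)) (x i)) :=
          mul_le_mul_of_nonneg_left (hθ x i) (hm _)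
      _ ≤ mm * (C1 * Set.indicator (Metric.ball x0 (2 * r)) (fun _ => (1 : ℝ)) (x i)) :=
          mul_le_mul_of_nonneg_right (hmm _) (mul_nonneg hC1 h0)
      _ = _ := by ring

theorem cl_ent (n : ℕ) (L W : ℝ) (hL : Real.exp L ≤ W) : -W ≤ (n : ℝ) * (Real.log n - L) := by
  have hW : 0 < W := lt_of_lt_of_le (Real.exp_pos L) hL
  rcases Nat.eq_zero_or_pos n with h | h
  · subst h; simp; exact hW.le
  · have hn : (0 : ℝ) < n := by exact_mod_cast h
    have h1 : Real.log n - L = Real.log ((n : ℝ) / Real.exp L) := by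
      rw [Real.log_div hn.ne' (Real.exp_pos L).ne', Real.log_exp]
    have h2 := Real.one_sub_inv_le_log_of_pos (x := (n : ℝ) / Real.exp L)
      (div_pos hn (Real.exp_pos L))
    rw [← h1, inv_div] at h2
    have h3 := mul_le_mul_of_nonneg_left h2 hn.le
    have h4 : (n : ℝ) * (1 - Real.exp L / n) = n - Real.exp L := by field_simp
    rw [h4] at h3
    linarith

theorem cl_alpha {S : Type} [Fintype S] [DecidableEq S] (a b : S) (n : S → ℕ) (lam β : ℝ)
    (g : S → ℝ) :
    ∑ s, (lam * (n s : ℝ) - (if s = a then β else 0) - (if s = b then β else 0)) * g s =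
      lam * ∑ s, (n s : ℝ) * g s - β * g a - β * g b := by
  simp only [sub_mul, ite_mul, zero_mul, Finset.sum_sub_distrib, Finset.sum_ite_eq',
    Finset.mem_univ, if_true]
  rw [Finset.mul_sum]
  simp only [mul_assoc]

theorem cl_fib {S I : Type} [Fintype S] [DecidableEq S] [Fintype I] [DecidableEq I]
    (sp : I → S) (f : I → ℝ) (F : S → ℝ) (h : ∀ i, f i = F (sp i)) :
    ∑ i, f i = ∑ s, ((Finset.univ.filter (fun i => sp i = s)).card : ℝ) * F s := by
  rw [← Finset.sum_fiberwise Finset.univ sp f]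
  refine Finset.sum_congr rfl fun s _ => ?_
  rw [← nsmul_eq_mul, ← Finset.sum_const]
  refine Finset.sum_congr rfl fun i hi => ?_
  rw [h i, (Finset.mem_filter.1 hi).2]

theorem cl_real {S : Type} [Fintype S] [DecidableEq S] (a b : S) (hab : a ≠ b) (n : S → ℕ)
    (N β lam : ℝ) (hN : 0 < N) (hn : ∑ s, (n s : ℝ) = N) (hβ0 : 0 < β) (hβ1 : β ≤ 1 / 2)
    (hlam : lam = (1 + β) / N) (hna : β * N ≤ n a) (hnb : β * N ≤ n b) (ch mi : S → ℝ)
    (hch : ∑ s, (n s : ℝ) * ch s = 0) (hchab : ch b = -ch a) (mm : ℝ) (hmi0 : ∀ s, 0 ≤ mi s)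
    (hmi : ∀ s, mi s ≤ mm) (hmm : 0 ≤ mm) (L : S → ℝ) (W : ℝ) (hW : 0 ≤ W)
    (hL : ∀ s, Real.exp (L s) ≤ W * N)
    (A G G1 C1 C T ν : ℝ) (hA : 0 ≤ A) (hG : G ≤ G1) (hG1 : 0 ≤ G1) (hT : 0 < T) (hν : 0 ≤ ν)
    (hC1 : mm * C1 ≤ C) (hC2 : 12 * A + G1 * mm + T * (2 * W * Fintype.card S) ≤ C)
    (E Ev Ew nr p q mn : ℝ) (pe ke : S → ℝ) (hp : 0 ≤ p) (hq : 0 ≤ q) (hpq : p + q = 1)
    (hqn : q ≤ nr) (hE : Ev + Ew ≤ E + mm * C1 * nr)
    (hst : -(8 * A) * N * p ≤ ∑ s, (n s : ℝ) * (pe s - 1 / 2 * ke s))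
    (hp0 : p = 0 → Ev = 0 ∧ (∀ s, pe s = 0 ∧ ke s = 0) ∧ mn = 0) (hq0 : q = 0 → Ew = 0) :
    Real.exp ((-E - C - (ν + C) * nr + ν) / T) ≤
      q * Real.exp (-Ew / (q * T)) +
      ∑ s, (lam * (n s : ℝ) - (if s = a then β else 0) - (if s = b then β else 0)) *
        (p * Real.exp (-(Ev - pe s + 1 / 2 * ke s + ch s * mn + mi s * G * p) / (p * T) - L s +
          Real.log (n s))) +
      β * (p * Real.exp (-(Ev - pe a - pe b + 1 / 2 * ke a + 1 / 2 * ke b) / (p * T) - L a - L b +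
          Real.log (n a) + Real.log (n b) + ν / (β * T))) := by
  set α : S → ℝ := fun s =>
    lam * (n s : ℝ) - (if s = a then β else 0) - (if s = b then β else 0) with hαd
  have hal : ∀ g : S → ℝ, ∑ s, α s * g s = lam * ∑ s, (n s : ℝ) * g s - β * g a - β * g b :=
    fun g => cl_alpha a b n lam β g
  have hlN : lam * N = 1 + β := by rw [hlam]; field_simp
  have hlam0 : 0 ≤ lam := by rw [hlam]; positivity
  have hα0 : ∀ s, 0 ≤ α s := by
    intro s
    simp only [hαd]
    have key : ∀ m : ℝ, β * N ≤ m → β ≤ lam * m := by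
      intro m hm
      have h1 : lam * (β * N) ≤ lam * m := mul_le_mul_of_nonneg_left hm hlam0
      have h2 : lam * (β * N) = (1 + β) * β := by rw [← hlN]; ring
      nlinarith
    have hnn : 0 ≤ lam * (n s : ℝ) := by positivity
    by_cases h1 : s = a
    · rw [if_pos h1, if_neg (by rw [h1]; exact hab)]
      have := key (n s) (by rw [h1]; exact hna)
      linarith
    · by_cases h2 : s = b
      · rw [if_neg h1, if_pos h2]
        have := key (n s) (by rw [h2]; exact hnb)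
        linarith
      · rw [if_neg h1, if_neg h2]
        linarith
  have hsum : ∑ s, α s + β = 1 := by
    have h1 := hal (fun _ => 1)
    simp only [mul_one] at h1
    rw [h1, hn, hlN]; ring
  refine le_trans ?_ (cl_conv p q β α hp hq hpq hα0 hβ0.le hsum (-Ew / (q * T))
    (fun s => -(Ev - pe s + 1 / 2 * ke s + ch s * mn + mi s * G * p) / (p * T) - L s +
          Real.log (n s))
    (-(Ev - pe a - pe b + 1 / 2 * ke a + 1 / 2 * ke b) / (p * T) - L a - L b +
          Real.log (n a) + Real.log (n b) + ν / (β * T)))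
  rw [Real.exp_le_exp]
  have hX : ∀ (P X : ℝ), (P = 0 → X = 0) → P * (-X / (P * T)) = -X / T := by
    intro P X h
    by_cases hP : P = 0
    · rw [h hP]; simp
    · field_simp
  have e1 : q * (-Ew / (q * T)) = -Ew / T := hX q Ew hq0
  have e2 : ∀ s, p * α s * (-(Ev - pe s + 1 / 2 * ke s + ch s * mn + mi s * G * p) / (p * T) -
      L s + Real.log (n s)) =
      α s * (-(Ev - pe s + 1 / 2 * ke s + ch s * mn + mi s * G * p) / T) +
      p * (α s * (Real.log (n s) - L s)) := by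
    intro s
    rw [← hX p (Ev - pe s + 1 / 2 * ke s + ch s * mn + mi s * G * p) (by
      intro h; obtain ⟨h1, h2, h3⟩ := hp0 h
      rw [h1, (h2 s).1, (h2 s).2, h3, h]; ring)]
    ring
  have e3 : p * β * (-(Ev - pe a - pe b + 1 / 2 * ke a + 1 / 2 * ke b) / (p * T) - L a - L b +
          Real.log (n a) + Real.log (n b) + ν / (β * T)) =
      β * (-(Ev - pe a - pe b + 1 / 2 * ke a + 1 / 2 * ke b) / T) +
      p * (β * (Real.log (n a) - L a) + β * (Real.log (n b) - L b)) + p * ν / T := by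
    rw [← hX p (Ev - pe a - pe b + 1 / 2 * ke a + 1 / 2 * ke b) (by
      intro h; obtain ⟨h1, h2, h3⟩ := hp0 h
      rw [h1, (h2 a).1, (h2 a).2, (h2 b).1, (h2 b).2]; ring)]
    have : p * β * (ν / (β * T)) = p * ν / T := by field_simp
    linear_combination this
  simp only [e2, e3, e1]
  rw [Finset.sum_add_distrib, ← Finset.mul_sum]
  have i1 : ∑ s, α s * (-(Ev - pe s + 1 / 2 * ke s + ch s * mn + mi s * G * p) / T) =
      -((Ev * (1 - β) - (lam * ∑ s, (n s : ℝ) * (pe s - 1 / 2 * ke s) -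
        β * (pe a - 1 / 2 * ke a) - β * (pe b - 1 / 2 * ke b)) +
        G * p * ∑ s, α s * mi s)) / T := by
    have h1 := hal (fun s => pe s - 1 / 2 * ke s)
    have h2 := hal ch
    rw [hch, hchab] at h2
    have h3 : ∑ s, α s * Ev = Ev * (1 - β) := by
      rw [← Finset.sum_mul]
      have : ∑ s, α s = 1 - β := by linarith
      rw [this]; ring
    have h4 : ∑ s, α s * (-(Ev - pe s + 1 / 2 * ke s + ch s * mn + mi s * G * p) / T) =
        -(∑ s, α s * Ev - ∑ s, α s * (pe s - 1 / 2 * ke s) + mn * ∑ s, α s * ch s +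
          G * p * ∑ s, α s * mi s) / T := by
      rw [Finset.mul_sum, Finset.mul_sum, ← Finset.sum_sub_distrib, ← Finset.sum_add_distrib,
        ← Finset.sum_add_distrib, ← Finset.sum_neg_distrib, Finset.sum_div]
      refine Finset.sum_congr rfl fun s _ => ?_
      ring
    rw [h4, h3, h1, h2]
    ring
  have i2 := hal (fun s => Real.log (n s) - L s)
  have i3 : -(W * N * Fintype.card S) ≤ ∑ s, (n s : ℝ) * (Real.log (n s) - L s) := by
    calc -(W * N * Fintype.card S) = ∑ _s : S, -(W * N) := by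
          simp; ring
      _ ≤ _ := Finset.sum_le_sum fun s _ => cl_ent (n s) (L s) (W * N) (hL s)
  have i4 : ∑ s, α s * mi s ≤ mm := by
    calc ∑ s, α s * mi s ≤ ∑ s, α s * mm :=
          Finset.sum_le_sum fun s _ => mul_le_mul_of_nonneg_left (hmi s) (hα0 s)
      _ = (∑ s, α s) * mm := by rw [Finset.sum_mul]
      _ ≤ 1 * mm := mul_le_mul_of_nonneg_right (by linarith) hmm
      _ = mm := one_mul _
  have i4' : 0 ≤ ∑ s, α s * mi s := Finset.sum_nonneg fun s _ => mul_nonneg (hα0 s) (hmi0 s)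
  rw [i1, i2]
  have p1 : p ≤ 1 := by linarith
  have j1 : G * p * ∑ s, α s * mi s ≤ G1 * mm := by
    calc G * p * ∑ s, α s * mi s ≤ G1 * p * ∑ s, α s * mi s :=
          mul_le_mul_of_nonneg_right (mul_le_mul_of_nonneg_right hG hp) i4'
      _ ≤ G1 * p * mm := mul_le_mul_of_nonneg_left i4 (by positivity)
      _ ≤ G1 * 1 * mm := by
          refine mul_le_mul_of_nonneg_right ?_ hmm
          exact mul_le_mul_of_nonneg_left p1 hG1
      _ = G1 * mm := by ring
  have j2 : -(12 * A) ≤ lam * ∑ s, (n s : ℝ) * (pe s - 1 / 2 * ke s) := by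
    have h1 := mul_le_mul_of_nonneg_left hst hlam0
    have h2 : lam * (-(8 * A) * N * p) = -(8 * A) * p * (1 + β) := by rw [← hlN]; ring
    rw [h2] at h1
    have h3 : A * p * (1 + β) ≤ A * 1 * (3 / 2) := by
      refine mul_le_mul (mul_le_mul_of_nonneg_left p1 hA) (by linarith) (by linarith)
        (by linarith)
    nlinarith
  have j3 : -(2 * W * Fintype.card S) ≤
      p * (lam * ∑ s, (n s : ℝ) * (Real.log (n s) - L s)) := by
    have h1 := mul_le_mul_of_nonneg_left i3 hlam0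
    have h2 : lam * -(W * N * Fintype.card S) = -((1 + β) * (W * Fintype.card S)) := by
      rw [← hlN]; ring
    rw [h2] at h1
    have hc0 : (0 : ℝ) ≤ W * Fintype.card S := by positivity
    have h3 : -(2 * W * Fintype.card S) ≤ lam * ∑ s, (n s : ℝ) * (Real.log (n s) - L s) := by
      nlinarith
    have h4 : p * (-(2 * W * Fintype.card S)) ≤
        p * (lam * ∑ s, (n s : ℝ) * (Real.log (n s) - L s)) :=
      mul_le_mul_of_nonneg_left h3 hp
    nlinarith
  have hnr : 0 ≤ nr := le_trans hq hqn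
  have j4 : (-E - C - (ν + C) * nr + ν) ≤ -Ev - Ew - C + ν * p := by
    have h1 : mm * C1 * nr ≤ C * nr := mul_le_mul_of_nonneg_right hC1 hnr
    have h2 : ν * q ≤ ν * nr := mul_le_mul_of_nonneg_left hqn hν
    have h3 : ν * p = ν - ν * q := by have : p = 1 - q := by linarith
                                      rw [this]; ring
    nlinarith
  rw [div_le_iff₀ hT]
  have k1 : ∀ x y z : ℝ, (-Ew / T + (-x / T + p * (lam * ∑ s, (n s : ℝ) *
      (Real.log (n s) - L s) - β * (Real.log (n a) - L a) - β * (Real.log (n b) - L b))) +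
      (β * (-y / T) + p * (β * (Real.log (n a) - L a) + β * (Real.log (n b) - L b)) +
        p * ν / T)) * T = -Ew - x - β * y + p * ν + T * (p * (lam * ∑ s, (n s : ℝ) *
      (Real.log (n s) - L s))) := by
    intro x y z
    field_simp
    ring
  rw [k1 _ _ 0]
  have j5 := mul_le_mul_of_nonneg_left j3 hT.le
  nlinarith

theorem cl_bess {S : Type} (D : Species S) {I : Type} [Fintype I] [DecidableEq I]
    (sp : I → S) (ℓ : ℝ) {k : ℕ} (ψ : Fin k → Wave D I) (h : Ortho D sp ℓ ψ)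
    (θ : (I → E3) → ℝ) (hθ : ContDiff ℝ SM θ)
    (hs : ∀ i j x, θ (fun k => x (Equiv.swap i j k)) = θ x) (γ : Fin k → ℂ) :
    nrm2 D (fun τ x => ∑ j, γ j * (((Real.cos (θ x) : ℝ) : ℂ) * ψ j τ x)) ≤ ∑ j, ‖γ j‖ ^ 2 ∧
    nrm2 D (fun τ x => ∑ j, γ j * (((Real.sin (θ x) : ℝ) : ℂ) * ψ j τ x)) ≤
      ∑ j, ‖γ j‖ ^ 2 := by
  have h1 := state_comb D sp ℓ ψ h.1 γ
  have h2 := (ims D sp ℓ _ h1 θ hθ hs).2.2.1
  rw [cl_ortho_norm D sp ℓ ψ h γ] at h2
  have e1 : (fun (τ : I → Fin D.g) (x : I → E3) =>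
      ∑ j, γ j * (((Real.cos (θ x) : ℝ) : ℂ) * ψ j τ x)) =
      fun τ x => ((Real.cos (θ x) : ℝ) : ℂ) * ∑ j, γ j * ψ j τ x := by
    funext τ x
    rw [Finset.mul_sum]
    exact Finset.sum_congr rfl fun j _ => by ring
  have e2 : (fun (τ : I → Fin D.g) (x : I → E3) =>
      ∑ j, γ j * (((Real.sin (θ x) : ℝ) : ℂ) * ψ j τ x)) =
      fun τ x => ((Real.sin (θ x) : ℝ) : ℂ) * ∑ j, γ j * ψ j τ x := by
    funext τ x
    rw [Finset.mul_sum]
    exact Finset.sum_congr rfl fun j _ => by ring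
  rw [e1, e2]
  have h3 := cl_nrm2_nonneg D (fun (τ : I → Fin D.g) (x : I → E3) =>
    ((Real.cos (θ x) : ℝ) : ℂ) * ∑ j, γ j * ψ j τ x)
  have h4 := cl_nrm2_nonneg D (fun (τ : I → Fin D.g) (x : I → E3) =>
    ((Real.sin (θ x) : ℝ) : ℂ) * ∑ j, γ j * ψ j τ x)
  constructor <;> linarith

theorem cl_Z {S : Type} (D : Species S) {I : Type} [Fintype I] [DecidableEq I]
    (sp : I → S) (ℓ T Z : ℝ) (hZ : ∀ z ∈ peierls D sp ℓ T, z ≤ Z) : 0 ≤ Z := by
  refine hZ 0 ⟨0, fun i => i.elim0, ⟨fun i => i.elim0, fun i => i.elim0⟩, ?_⟩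
  simp

/-- the inequality at one centre, removing a pair -/
theorem center_lower {S : Type} [Fintype S] [DecidableEq S] (D : Species S) (hD : D.Valid)
    (hst : HStable D) (r T c V : ℝ) (hr : 0 < r) (hT : 0 < T) (hc : 0 < c) (hV : 0 < V) :
    ∃ C : ℝ, 1 ≤ C ∧ ∀ (a b : S), D.charge b = -D.charge a → a ≠ b →
      ∀ {I J : Type} [Fintype I] [DecidableEq I] [Fintype J] [DecidableEq J] (sp : I → S)
        (sp' : J → S) (ℓ : ℝ), 8 * r ≤ ℓ → (Fintype.card I : ℝ) * (1024 * r ^ 3) ≤ ℓ ^ 3 →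
      ℓ ^ 3 ≤ V * (Fintype.card I : ℝ) →
      (∑ i, D.charge (sp i) = 0) →
      (∀ s, cnt sp s = cnt sp' s + (if s = a then 1 else 0) + (if s = b then 1 else 0)) →
      c * (Fintype.card I : ℝ) ≤ cnt sp a → c * (Fintype.card I : ℝ) ≤ cnt sp b →
      ∀ x0 : E3, Metric.closedBall x0 r ⊆ cube ℓ → ∀ Z Z' : ℝ,
        (∀ z ∈ peierls D sp ℓ T, z ≤ Z) → (∀ z ∈ peierls D sp' ℓ T, z ≤ Z') →
        ∀ {k : ℕ} (ψ : Fin k → Wave D I), Ortho D sp ℓ ψ → ∀ ν : ℝ, 0 ≤ ν →
          ∑ j, Real.exp ((-(energy D sp (ψ j)) - C - (ν + C) * near D r x0 (ψ j) + ν) / T) ≤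
            C * Z + C * Real.exp (C * ν / T) * Z' := by
  obtain ⟨A0, hA0⟩ := hst
  set A : ℝ := max A0 0 with hAd
  have hA00 : A0 ≤ A := le_max_left _ _
  have hApos : 0 ≤ A := le_max_right _ _
  have hA : ∀ ℓ : ℝ, 0 < ℓ → ∀ (n : S → ℕ) (Ψ : Wave D (Σ s, Fin (n s))),
      IsState D (fun i : (Σ s, Fin (n s)) => i.1) ℓ Ψ →
        -A * (∑ s, (n s : ℝ)) * nrm2 D Ψ ≤ energy D (fun i : (Σ s, Fin (n s)) => i.1) Ψ := by
    intro ℓ hℓ n Ψ hΨ
    refine le_trans ?_ (hA0 ℓ hℓ n Ψ hΨ)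
    have h1 : 0 ≤ (∑ s, (n s : ℝ)) * nrm2 D Ψ :=
      mul_nonneg (Finset.sum_nonneg fun s _ => Nat.cast_nonneg _) (cl_nrm2_nonneg D Ψ)
    nlinarith [mul_le_mul_of_nonneg_right hA00 h1]
  obtain ⟨C1, hC1, hcut⟩ := exists_cut r hr
  obtain ⟨T1, hT1, hbump⟩ := exists_bump r hr
  have hmi0 : ∀ s, 0 ≤ 1 / (2 * D.mass s) := fun s => by
    have := hD.mass_pos s; positivity
  set mm : ℝ := ∑ s, 1 / (2 * D.mass s) with hmmd
  have hmm : 0 ≤ mm := Finset.sum_nonneg fun s _ => hmi0 s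
  have hmi : ∀ s, 1 / (2 * D.mass s) ≤ mm := fun s =>
    Finset.single_le_sum (f := fun s => 1 / (2 * D.mass s)) (fun t _ => hmi0 t)
      (Finset.mem_univ s)
  have hlz : ∀ s, ∃ C : ℝ, 0 < C ∧ ∀ ℓ : ℝ, 8 * r ≤ ℓ →
    HasSum (fun m => Real.exp (-((1 / 2) / (2 * D.mass s * T) * pen ℓ m) -
      lz ℓ ((1 / 2) / (2 * D.mass s * T)))) 1 ∧
    Real.exp (lz ℓ ((1 / 2) / (2 * D.mass s * T))) ≤ C * ℓ ^ 3 ∧
    ℓ ^ 3 ≤ C * Real.exp (lz ℓ ((1 / 2) / (2 * D.mass s * T))) := fun s =>
    lz_bounds _ _ (by have := hD.mass_pos s; positivity) (by positivity)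
  choose C2 hC2p hC2 using hlz
  set K : ℝ := ∑ s, C2 s with hKd
  have hK : 0 ≤ K := Finset.sum_nonneg fun s _ => (hC2p s).le
  have hKs : ∀ s, C2 s ≤ K := fun s =>
    Finset.single_le_sum (f := C2) (fun t _ => (hC2p t).le) (Finset.mem_univ s)
  set W : ℝ := K * V with hWd
  have hW : 0 ≤ W := by positivity
  set M : ℝ := K / (1024 * r ^ 3) with hMd
  have hM0 : 0 ≤ M := by positivity
  set g1 : ℝ := (D.g : ℝ) * (1 + M) with hg1
  have hg0 : 0 ≤ g1 := by positivity
  set C : ℝ := 1 + mm * C1 + (12 * A + T1 * mm + T * (2 * W * Fintype.card S)) + g1 + g1 ^ 2 +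
    1 / c with hCd
  have t1 : 0 ≤ mm * C1 := by positivity
  have t2 : 0 ≤ 12 * A + T1 * mm + T * (2 * W * Fintype.card S) := by positivity
  have t3 : 0 ≤ g1 ^ 2 := by positivity
  have t4 : 0 < 1 / c := by positivity
  refine ⟨C, by linarith, ?_⟩
  intro a b hchab hab I J _ _ _ _ sp sp' ℓ hℓ8 hNl hlV hneu hcnt hca hcb x0 hball Z Z' hZ hZ'
    k ψ hψ ν hν
  obtain ⟨θ, hθs, hθsym, hθball, hθsin, hθgrad⟩ := hcut (I := I) x0
  obtain ⟨φ, hφ, hφc, hφs, hφ1, hφg⟩ := hbump x0
  have hℓ : 0 < ℓ := lt_of_lt_of_le (by positivity) hℓ8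
  have hcnta : cnt sp a ≠ 0 := by
    have := hcnt a
    rw [if_pos rfl] at this
    omega
  have hcntb : cnt sp b ≠ 0 := by
    have := hcnt b
    rw [if_pos rfl] at this
    omega
  have hex : ∀ s, cnt sp s ≠ 0 → ∃ i, sp i = s := by
    intro s hs
    unfold cnt at hs
    obtain ⟨i, hi⟩ := Finset.card_pos.1 (Nat.pos_of_ne_zero hs)
    exact ⟨i, (Finset.mem_filter.1 hi).2⟩
  obtain ⟨ia, hia⟩ := hex a hcnta
  have hrep : ∀ s, ∃ i, cnt sp s ≠ 0 → sp i = s := by
    intro s
    by_cases hs : cnt sp s = 0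
    · exact ⟨ia, fun h => absurd hs h⟩
    · obtain ⟨i, hi⟩ := hex s hs
      exact ⟨i, fun _ => hi⟩
  choose rep hrep using hrep
  have hNpos : 0 < (Fintype.card I : ℝ) := by
    exact_mod_cast Fintype.card_pos_iff.2 ⟨ia⟩
  have hn : ∑ s, (cnt sp s : ℝ) = (Fintype.card I : ℝ) := by
    have h1 := cl_fib sp (fun _ => (1 : ℝ)) (fun _ => 1) (fun _ => rfl)
    simp only [mul_one, Finset.sum_const, Finset.card_univ, nsmul_eq_mul] at h1
    rw [h1]
    rfl
  have hc2 : c ≤ 1 / 2 := by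
    have h1 : (cnt sp a : ℝ) + cnt sp b ≤ ∑ s, (cnt sp s : ℝ) := by
      rw [← Finset.sum_pair (f := fun s => (cnt sp s : ℝ)) hab]
      exact Finset.sum_le_sum_of_subset_of_nonneg (Finset.subset_univ _)
        fun s _ _ => Nat.cast_nonneg _
    rw [hn] at h1
    by_contra hcon
    push Not at hcon
    nlinarith
  have hch : ∑ s, (cnt sp s : ℝ) * D.charge s = 0 := by
    rw [← hneu]
    exact (cl_fib sp (fun i => D.charge (sp i)) D.charge (fun _ => rfl)).symm
  have hcle : ∀ s, (cnt sp s : ℝ) ≤ Fintype.card I := by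
    intro s
    unfold cnt
    exact_mod_cast Finset.card_le_univ _
  set L : S → ℝ := fun s => lz ℓ ((1 / 2) / (2 * D.mass s * T)) with hLd
  have hLW : ∀ s, Real.exp (L s) ≤ W * (Fintype.card I : ℝ) := by
    intro s
    calc Real.exp (L s) ≤ C2 s * ℓ ^ 3 := (hC2 s ℓ hℓ8).2.1
      _ ≤ K * ℓ ^ 3 := mul_le_mul_of_nonneg_right (hKs s) (by positivity)
      _ ≤ K * (V * (Fintype.card I : ℝ)) := mul_le_mul_of_nonneg_left hlV hK
      _ = W * (Fintype.card I : ℝ) := by rw [hWd]; ring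
  have hLM : ∀ s, (cnt sp s : ℝ) * Real.exp (-(L s)) ≤ M := by
    intro s
    have h1 : (cnt sp s : ℝ) * (1024 * r ^ 3) ≤ K * Real.exp (L s) := by
      calc (cnt sp s : ℝ) * (1024 * r ^ 3) ≤ (Fintype.card I : ℝ) * (1024 * r ^ 3) :=
            mul_le_mul_of_nonneg_right (hcle s) (by positivity)
        _ ≤ ℓ ^ 3 := hNl
        _ ≤ C2 s * Real.exp (L s) := (hC2 s ℓ hℓ8).2.2
        _ ≤ K * Real.exp (L s) := mul_le_mul_of_nonneg_right (hKs s) (Real.exp_pos _).le
    rw [Real.exp_neg, ← div_eq_mul_inv, div_le_iff₀ (Real.exp_pos _), hMd, div_mul_eq_mul_div,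
      le_div_iff₀ (by positivity)]
    exact h1
  have hHS : ∀ s, HasSum (fun m => Real.exp (-((1 / 2) / (2 * D.mass s * T) * pen ℓ m) - L s)) 1 :=
    fun s => (hC2 s ℓ hℓ8).1
  set v : Fin k → Wave D I := fun j τ x => ((Real.cos (θ x) : ℝ) : ℂ) * ψ j τ x with hvd
  set w : Fin k → Wave D I := fun j τ x => ((Real.sin (θ x) : ℝ) : ℂ) * ψ j τ x with hwd
  have hims := fun j => ims D sp ℓ (ψ j) (hψ.1 j) θ hθs hθsym
  have hvs : ∀ j, IsState D sp ℓ (v j) := fun j => (hims j).1
  have hws : ∀ j, IsState D sp ℓ (w j) := fun j => (hims j).2.1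
  have hvB : ∀ γ : Fin k → ℂ, nrm2 D (fun τ x => ∑ j, γ j * v j τ x) ≤ ∑ j, ‖γ j‖ ^ 2 :=
    fun γ => (cl_bess D sp ℓ ψ hψ θ hθs hθsym γ).1
  have hwB : ∀ γ : Fin k → ℂ, nrm2 D (fun τ x => ∑ j, γ j * w j τ x) ≤ ∑ j, ‖γ j‖ ^ 2 :=
    fun γ => (cl_bess D sp ℓ ψ hψ θ hθs hθsym γ).2
  have hv0 : ∀ j τ x i, x i ∈ tsupport φ → v j τ x = 0 := by
    intro j τ x i hx
    simp only [hvd]
    rw [hθball x i (hφs hx), Real.cos_pi_div_two]
    simp
  set lam : ℝ := (1 + c) / (Fintype.card I : ℝ) with hlam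
  set α : S → ℝ := fun s => lam * (cnt sp s : ℝ) - (if s = a then c else 0) -
    (if s = b then c else 0) with hαd
  -- the bounds for the three kinds of sums
  have b1 : ∑ j, nrm2 D (w j) * Real.exp (-(energy D sp (w j)) / (nrm2 D (w j) * T)) ≤ Z := by
    have := trace_bound D sp ℓ T hT Z hZ w hws 1 zero_le_one (fun γ => by
      rw [one_mul]; exact hwB γ)
    rwa [one_mul] at this
  have b2 : ∀ s, cnt sp s ≠ 0 → ∑ j, nrm2 D (v j) * Real.exp (-(energy D sp (v j) -
      pe D sp (rep s) (v j) + 1 / 2 * kinE D sp (rep s) (v j) +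
      D.charge s * mean D sp (v j) (pot φ) + (1 / (2 * D.mass s)) * grad2 φ * nrm2 D (v j)) /
      (nrm2 D (v j) * T) - L s + Real.log (cnt sp s)) ≤ g1 * Z := by
    intro s hs
    have hsp := hrep s hs
    have := moveT_any D hD sp ℓ T (1 / 2) hℓ hT (by norm_num) Z hZ (rep s) (L s)
      (by rw [hsp]; exact hHS s) M (by rw [hsp]; exact hLM s) φ hφ hφc
      (hφs.trans hball) hφ1 v hvs hv0 hvB
    rw [hsp] at this
    exact this
  have b3 : ∑ j, nrm2 D (v j) * Real.exp (-(energy D sp (v j) -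
      pe D sp (rep a) (v j) - pe D sp (rep b) (v j) + 1 / 2 * kinE D sp (rep a) (v j) +
      1 / 2 * kinE D sp (rep b) (v j)) / (nrm2 D (v j) * T) - L a - L b +
      Real.log (cnt sp a) + Real.log (cnt sp b)) ≤ g1 ^ 2 * Z' := by
    exact removeT_any D hD sp sp' a b hab (by rw [hchab]; nlinarith [sq_nonneg (D.charge a)])
      hcnt ℓ T (1 / 2) hℓ hT (by norm_num) Z' hZ' (L a) (L b) (hHS a) (hHS b) M (hLM a) (hLM b)
      (rep a) (rep b) (hrep a hcnta) (hrep b hcntb) v hvs hvB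
  have hper : ∀ j, Real.exp ((-(energy D sp (ψ j)) - C - (ν + C) * near D r x0 (ψ j) + ν) / T) ≤
      nrm2 D (w j) * Real.exp (-(energy D sp (w j)) / (nrm2 D (w j) * T)) +
      ∑ s, α s * (nrm2 D (v j) * Real.exp (-(energy D sp (v j) -
      pe D sp (rep s) (v j) + 1 / 2 * kinE D sp (rep s) (v j) +
      D.charge s * mean D sp (v j) (pot φ) + (1 / (2 * D.mass s)) * grad2 φ * nrm2 D (v j)) /
      (nrm2 D (v j) * T) - L s + Real.log (cnt sp s))) +
      c * (nrm2 D (v j) * Real.exp (-(energy D sp (v j) -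
      pe D sp (rep a) (v j) - pe D sp (rep b) (v j) + 1 / 2 * kinE D sp (rep a) (v j) +
      1 / 2 * kinE D sp (rep b) (v j)) / (nrm2 D (v j) * T) - L a - L b +
      Real.log (cnt sp a) + Real.log (cnt sp b) + ν / (c * T))) := by
    intro j
    have hone : nrm2 D (v j) + nrm2 D (w j) = 1 := by
      rw [← cl_nrm2_one D sp ℓ ψ hψ j]; exact (hims j).2.2.1
    have hEE : energy D sp (v j) + energy D sp (w j) ≤ energy D sp (ψ j) +
        mm * C1 * near D r x0 (ψ j) := by
      rw [(hims j).2.2.2]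
      have := cl_loc D sp ℓ r x0 (ψ j) (hψ.1 j) θ C1 mm hC1.le hmi0 hmi hθgrad
      linarith
    have hstj : -(8 * A) * (Fintype.card I : ℝ) * nrm2 D (v j) ≤
        ∑ s, (cnt sp s : ℝ) * (pe D sp (rep s) (v j) - 1 / 2 * kinE D sp (rep s) (v j)) := by
      have h1 := sum_pe_half D hD A sp (fun ℓ' hℓ' Ψ hΨ =>
        stable_any D A hA sp ℓ' hℓ' Ψ hΨ) ℓ hℓ (v j) (hvs j)
      rw [cl_fib sp (fun i => pe D sp i (v j) - (1 / 2) * kinE D sp i (v j))
        (fun s => pe D sp (rep s) (v j) - 1 / 2 * kinE D sp (rep s) (v j)) ?_] at h1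
      · exact h1
      · intro i
        have hne : cnt sp (sp i) ≠ 0 := by
          unfold cnt
          exact Finset.card_ne_zero_of_mem (a := i) (by simp)
        have h2 := pe_symm D sp ℓ (v j) (hvs j) i (rep (sp i)) (hrep (sp i) hne).symm
        rw [h2.1, h2.2]
    exact cl_real a b hab (cnt sp) (Fintype.card I : ℝ) c lam hNpos hn hc hc2 hlam hca hcb
      D.charge (fun s => 1 / (2 * D.mass s)) hch hchab mm hmi0 hmi hmm L W hW hLW
      A (grad2 φ) T1 C1 C T ν hApos hφg hT1.le hT hν (by linarith) (by linarith)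
      (energy D sp (ψ j)) (energy D sp (v j)) (energy D sp (w j)) (near D r x0 (ψ j))
      (nrm2 D (v j)) (nrm2 D (w j)) (mean D sp (v j) (pot φ))
      (fun s => pe D sp (rep s) (v j)) (fun s => kinE D sp (rep s) (v j))
      (cl_nrm2_nonneg D _) (cl_nrm2_nonneg D _) hone
      (cl_sin D sp ℓ r x0 (ψ j) (hψ.1 j) θ hθsin) hEE hstj
      (fun h => by
        have h0 := cl_zero D sp ℓ (v j) (hvs j) h
        rw [h0]
        exact ⟨cl_energy_zero D sp, fun s => ⟨cl_pe_zero D sp _, cl_kinE_zero D sp _⟩,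
          cl_mean_zero D sp _⟩)
      (fun h => by
        have h0 := cl_zero D sp ℓ (w j) (hws j) h
        rw [h0]
        exact cl_energy_zero D sp)
  have hZ0 := cl_Z D sp ℓ T Z hZ
  have hZ0' := cl_Z D sp' ℓ T Z' hZ'
  have hlam0 : 0 ≤ lam := by rw [hlam]; positivity
  have hlN : lam * (Fintype.card I : ℝ) = 1 + c := by rw [hlam]; field_simp
  have hα0 : ∀ s, 0 ≤ α s := by
    intro s
    simp only [hαd]
    have key : ∀ m : ℝ, c * (Fintype.card I : ℝ) ≤ m → c ≤ lam * m := by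
      intro m hm
      have h1 : lam * (c * (Fintype.card I : ℝ)) ≤ lam * m := mul_le_mul_of_nonneg_left hm hlam0
      have h2 : lam * (c * (Fintype.card I : ℝ)) = (1 + c) * c := by rw [← hlN]; ring
      nlinarith
    have hnn : 0 ≤ lam * (cnt sp s : ℝ) := by positivity
    by_cases h1 : s = a
    · rw [if_pos h1, if_neg (by rw [h1]; exact hab)]
      have := key (cnt sp s) (by rw [h1]; exact hca)
      linarith
    · by_cases h2 : s = b
      · rw [if_neg h1, if_pos h2]
        have := key (cnt sp s) (by rw [h2]; exact hcb)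
        linarith
      · rw [if_neg h1, if_neg h2]
        linarith
  have hαs : ∑ s, α s ≤ 1 := by
    have h1 := cl_alpha a b (cnt sp) lam c (fun _ => 1)
    simp only [mul_one] at h1
    simp only [hαd]
    rw [h1, hn, hlN]; linarith
  have hα1 : ∀ s, cnt sp s = 0 → α s = 0 := by
    intro s hs
    simp only [hαd]
    rw [hs, if_neg (by rintro rfl; exact hcnta hs), if_neg (by rintro rfl; exact hcntb hs)]
    simp
  calc ∑ j, Real.exp ((-(energy D sp (ψ j)) - C - (ν + C) * near D r x0 (ψ j) + ν) / T)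
      ≤ _ := Finset.sum_le_sum fun j _ => hper j
    _ ≤ Z + g1 * Z + Real.exp (ν / (c * T)) * (g1 ^ 2 * Z') := by
        rw [Finset.sum_add_distrib, Finset.sum_add_distrib, Finset.sum_comm]
        refine add_le_add (add_le_add b1 ?_) ?_
        · calc ∑ s, ∑ j, α s * (nrm2 D (v j) * Real.exp (-(energy D sp (v j) -
              pe D sp (rep s) (v j) + 1 / 2 * kinE D sp (rep s) (v j) +
              D.charge s * mean D sp (v j) (pot φ) +
              (1 / (2 * D.mass s)) * grad2 φ * nrm2 D (v j)) /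
              (nrm2 D (v j) * T) - L s + Real.log (cnt sp s)))
              ≤ ∑ s, α s * (g1 * Z) := by
                refine Finset.sum_le_sum fun s _ => ?_
                rw [← Finset.mul_sum]
                by_cases hs : cnt sp s = 0
                · rw [hα1 s hs, zero_mul, zero_mul]
                · exact mul_le_mul_of_nonneg_left (b2 s hs) (hα0 s)
            _ = (∑ s, α s) * (g1 * Z) := by rw [Finset.sum_mul]
            _ ≤ 1 * (g1 * Z) := mul_le_mul_of_nonneg_right hαs (by positivity)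
            _ = g1 * Z := one_mul _
        · simp only [Real.exp_add _ (ν / (c * T))]
          have e : ∀ j, c * (nrm2 D (v j) * (Real.exp (-(energy D sp (v j) -
              pe D sp (rep a) (v j) - pe D sp (rep b) (v j) + 1 / 2 * kinE D sp (rep a) (v j) +
              1 / 2 * kinE D sp (rep b) (v j)) / (nrm2 D (v j) * T) - L a - L b +
              Real.log (cnt sp a) + Real.log (cnt sp b)) * Real.exp (ν / (c * T)))) =
              (c * Real.exp (ν / (c * T))) * (nrm2 D (v j) * Real.exp (-(energy D sp (v j) -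
              pe D sp (rep a) (v j) - pe D sp (rep b) (v j) + 1 / 2 * kinE D sp (rep a) (v j) +
              1 / 2 * kinE D sp (rep b) (v j)) / (nrm2 D (v j) * T) - L a - L b +
              Real.log (cnt sp a) + Real.log (cnt sp b))) := fun j => by ring
          rw [Finset.sum_congr rfl fun j _ => e j, ← Finset.mul_sum]
          calc _ ≤ (c * Real.exp (ν / (c * T))) * (g1 ^ 2 * Z') :=
                mul_le_mul_of_nonneg_left b3 (by positivity)
            _ ≤ (1 * Real.exp (ν / (c * T))) * (g1 ^ 2 * Z') := by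
                refine mul_le_mul_of_nonneg_right ?_ (by positivity)
                exact mul_le_mul_of_nonneg_right (by linarith) (Real.exp_pos _).le
            _ = _ := by rw [one_mul]
    _ ≤ C * Z + C * Real.exp (C * ν / T) * Z' := by
        have h1 : Z + g1 * Z ≤ C * Z := by
          have : (1 + g1) * Z ≤ C * Z := mul_le_mul_of_nonneg_right (by linarith) hZ0
          linarith
        have h2 : Real.exp (ν / (c * T)) ≤ Real.exp (C * ν / T) := by
          rw [Real.exp_le_exp]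
          have h3 : ν / (c * T) = (1 / c) * ν / T := by field_simp
          rw [h3]
          refine div_le_div_of_nonneg_right ?_ hT.le
          exact mul_le_mul_of_nonneg_right (by linarith) hν
        have h4 : Real.exp (ν / (c * T)) * (g1 ^ 2 * Z') ≤
            C * Real.exp (C * ν / T) * Z' := by
          calc Real.exp (ν / (c * T)) * (g1 ^ 2 * Z')
              ≤ Real.exp (C * ν / T) * (C * Z') := by
                refine mul_le_mul h2 ?_ (by positivity) (Real.exp_pos _).le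
                exact mul_le_mul_of_nonneg_right (by linarith) hZ0'
            _ = _ := by ring
        linarith

end Pool.Agent.Helper985.CP
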