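import Pool.Agent.Helper985.CT.Defs

set_option autoImplicit false

open MeasureTheory
open scoped Topology

namespace Pool.Agent.Helper985.CP


theorem exists_grid_coord_aux (y x : E3) (i : Fin 3) : |y i - x i| ≤ dist y x := by
  have h := PiLp.norm_apply_le (y - x) i
  rw [dist_eq_norm]
  simpa [Real.norm_eq_abs] using h

/-- a grid of centres -/
theorem exists_grid (ℓ r : ℝ) (hr : 0 < r) (hℓ : 8 * r ≤ ℓ) (N : ℕ)
    (hN : (N : ℝ) * (1024 * r ^ 3) ≤ ℓ ^ 3) : ∃ G : Finset E3, G.Nonempty ∧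
      (2 * N : ℝ) ≤ G.card ∧ (∀ x0 ∈ G, Metric.closedBall x0 r ⊆ cube ℓ) ∧
      ∀ y : E3, ∑ x0 ∈ G, Set.indicator (Metric.ball x0 (2 * r)) (fun _ => (1 : ℝ)) y ≤ 1 := by
  classical
  have h4r : (0:ℝ) < 4 * r := by linarith
  obtain ⟨m, hm⟩ : ∃ m : ℕ, m = ⌊ℓ / (4 * r)⌋₊ := ⟨_, rfl⟩
  have hq2 : (2 : ℝ) ≤ ℓ / (4 * r) := by
    rw [le_div_iff₀ h4r]; linarith
  have hm1 : (m : ℝ) ≤ ℓ / (4 * r) := by
    rw [hm]; exact Nat.floor_le (by linarith)
  have hm2 : ℓ / (4 * r) < m + 1 := by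
    rw [hm]; exact Nat.lt_floor_add_one _
  have hmpos : (1 : ℝ) < m := by linarith
  have hm0 : (0 : ℝ) < m := by linarith
  have hℓpos : 0 < ℓ := by linarith
  have hm1' : 4 * r * m ≤ ℓ := by
    rw [le_div_iff₀ h4r] at hm1; linarith
  have hm2' : ℓ ≤ 8 * r * m := by
    rw [div_lt_iff₀ h4r] at hm2
    nlinarith
  obtain ⟨q, hq⟩ : ∃ q : ℝ, q = ℓ / m := ⟨_, rfl⟩
  have hqm : q * m = ℓ := by rw [hq]; field_simp
  have hq4 : 4 * r ≤ q := by
    rw [hq, le_div_iff₀ hm0]; linarith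
  have hqpos : 0 < q := by linarith
  let c : (Fin 3 → Fin m) → E3 := fun k => WithLp.toLp 2 (fun i => (((k i : ℕ) : ℝ) + 1 / 2) * q)
  have hc : ∀ k i, c k i = (((k i : ℕ) : ℝ) + 1 / 2) * q := fun k i => rfl
  have hclose : ∀ k k' : Fin 3 → Fin m, (∀ i, |c k i - c k' i| < q) → k = k' := by
    intro k k' h
    funext i
    have h1 := h i
    rw [hc, hc] at h1
    have h2 : (((k i : ℕ) : ℝ) + 1 / 2) * q - (((k' i : ℕ) : ℝ) + 1 / 2) * q
        = (((k i : ℕ) : ℝ) - ((k' i : ℕ) : ℝ)) * q := by ring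
    rw [h2, abs_mul, abs_of_pos hqpos] at h1
    have h3 : |((k i : ℕ) : ℝ) - ((k' i : ℕ) : ℝ)| < 1 := by
      by_contra hcon
      push_neg at hcon
      nlinarith
    rw [abs_lt] at h3
    have h4 : ((k i : ℕ) : ℝ) < ((k' i : ℕ) : ℝ) + 1 := by linarith [h3.2]
    have h5 : ((k' i : ℕ) : ℝ) < ((k i : ℕ) : ℝ) + 1 := by linarith [h3.1]
    have h6 : (k i : ℕ) < (k' i : ℕ) + 1 := by exact_mod_cast h4
    have h7 : (k' i : ℕ) < (k i : ℕ) + 1 := by exact_mod_cast h5
    apply Fin.ext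
    omega
  have hinj : Function.Injective c := by
    intro k k' h
    apply hclose
    intro i
    rw [h]; simpa using hqpos
  have hcard : (Finset.univ.image c).card = m ^ 3 := by
    rw [Finset.card_image_of_injective _ hinj, Finset.card_univ, Fintype.card_fun,
      Fintype.card_fin, Fintype.card_fin]
  refine ⟨Finset.univ.image c, ?_, ?_, ?_, ?_⟩
  · rw [← Finset.card_pos, hcard]
    have : 0 < m := by exact_mod_cast hm0
    positivity
  · rw [hcard]
    push_cast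
    have h1 : ℓ ^ 3 ≤ (8 * r * m) ^ 3 := pow_le_pow_left₀ hℓpos.le hm2' 3
    have h2 : (N : ℝ) * (1024 * r ^ 3) ≤ (8 * r * m) ^ 3 := hN.trans h1
    have h3 : (2 * (N : ℝ)) * (512 * r ^ 3) ≤ (m : ℝ) ^ 3 * (512 * r ^ 3) := by nlinarith
    exact le_of_mul_le_mul_right h3 (by positivity)
  · intro x0 hx0 y hy i
    rw [Finset.mem_image] at hx0
    obtain ⟨k, _, rfl⟩ := hx0
    rw [Metric.mem_closedBall] at hy
    have h1 := (exists_grid_coord_aux y (c k) i).trans hy
    rw [hc, abs_le] at h1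
    have h2 : (0 : ℝ) ≤ ((k i : ℕ) : ℝ) := Nat.cast_nonneg _
    have h3 : ((k i : ℕ) : ℝ) + 1 ≤ m := by exact_mod_cast (k i).isLt
    constructor
    · nlinarith [mul_nonneg h2 hqpos.le]
    · nlinarith [mul_le_mul_of_nonneg_right h3 hqpos.le]
  · intro y
    by_cases hex : ∃ x0 ∈ Finset.univ.image c, y ∈ Metric.ball x0 (2 * r)
    · obtain ⟨x0, hx0, hy⟩ := hex
      rw [Finset.sum_eq_single x0]
      · rw [Set.indicator_of_mem hy]
      · intro x1 hx1 hne
        apply Set.indicator_of_notMem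
        intro hy1
        apply hne
        rw [Finset.mem_image] at hx0 hx1
        obtain ⟨k, _, rfl⟩ := hx0
        obtain ⟨k', _, rfl⟩ := hx1
        congr 1
        apply hclose
        intro i
        rw [Metric.mem_ball] at hy hy1
        have h1 := (exists_grid_coord_aux y (c k) i).trans_lt hy
        have h2 := (exists_grid_coord_aux y (c k') i).trans_lt hy1
        rw [abs_lt] at h1 h2 ⊢
        constructor <;> linarith [h1.1, h1.2, h2.1, h2.2]
      · intro h; exact absurd hx0 h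
    · push_neg at hex
      rw [Finset.sum_eq_zero]
      · exact zero_le_one
      · intro x0 hx0
        exact Set.indicator_of_notMem (hex x0 hx0) _

end Pool.Agent.Helper985.CP
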