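import Pool.Agent.Helper985.CT.M_exists_grid
import Pool.Agent.Helper985.CT.M_grid_avg
import Pool.Agent.Helper985.CT.M_near_grid
import Pool.Agent.Helper985.CT.Defs

set_option autoImplicit false

open MeasureTheory
open scoped Topology

namespace Pool.Agent.Helper985.CP




/-- averaging over the grid of centres, many centres at once -/
theorem grid_avg2 (C T : ℝ) (hC : 1 ≤ C) (hT : 0 < T) : ∃ K : ℝ, 0 < K ∧
    ∀ {S : Type} (D : Species S) {I : Type} [Fintype I] [DecidableEq I] (sp : I → S)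
      (ℓ r Z' : ℝ), 0 < r → 8 * r ≤ ℓ → (Fintype.card I : ℝ) * (1024 * r ^ 3) ≤ ℓ ^ 3 → 0 ≤ Z' →
      BddAbove (peierls D sp ℓ T) →
      (∀ G : Finset E3, (∀ x0 ∈ G, Metric.closedBall x0 r ⊆ cube ℓ) →
        (∀ y : E3, ∑ x0 ∈ G, Set.indicator (Metric.ball x0 (2 * r)) (fun _ => (1 : ℝ)) y ≤ 1) →
        ∀ {k : ℕ} (ψ : Fin k → Wave D I), Ortho D sp ℓ ψ → ∀ ν : ℝ, 0 ≤ ν →
          ∑ x0 ∈ G, ∑ j, Real.exp
            ((-(energy D sp (ψ j)) - C - (ν + C) * near D r x0 (ψ j) + ν) / T) ≤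
            C * G.card * sSup (peierls D sp ℓ T) + C * Real.exp (C * ν / T) * Z') →
      (Fintype.card I : ℝ) * sSup (peierls D sp ℓ T) ≤ K * Z' := by
  have hlog : 0 ≤ Real.log (2 * C) := Real.log_nonneg (by linarith)
  have hν : 0 ≤ 2 * T * Real.log (2 * C) + 3 * C := by positivity
  generalize hνd : 2 * T * Real.log (2 * C) + 3 * C = ν at hν
  refine ⟨Real.exp (C * ν / T), Real.exp_pos _, ?_⟩
  intro S D I _ _ sp ℓ r Z' hr hℓ hN hZ' hB hineq
  obtain ⟨G, hGne, hGc, hGsub, hGcov⟩ := exists_grid ℓ r hr hℓ (Fintype.card I) hN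
  have hGpos : (0 : ℝ) < G.card := by exact_mod_cast hGne.card_pos
  have h0mem : (0 : ℝ) ∈ peierls D sp ℓ T :=
    ⟨0, fun i => i.elim0, ⟨fun i => i.elim0, fun i => i.elim0⟩, by simp⟩
  have hne : (peierls D sp ℓ T).Nonempty := ⟨0, h0mem⟩
  have hZs0 : 0 ≤ sSup (peierls D sp ℓ T) := le_csSup hB h0mem
  generalize hZs : sSup (peierls D sp ℓ T) = Zs at hineq hZs0 ⊢
  have key : ∀ z ∈ peierls D sp ℓ T,
      z ≤ (G.card * Zs + Real.exp (C * ν / T) * Z') / (2 * G.card) := by
    rintro z ⟨k, ψ, hψ, rfl⟩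
    have hn : ∀ j, nrm2 D (ψ j) = 1 := by
      intro j
      have h1 := hψ.2 j j
      rw [if_pos rfl] at h1
      have h2 : ip D (ψ j) (ψ j) = ((nrm2 D (ψ j) : ℝ) : ℂ) := by
        unfold ip nrm2
        rw [Complex.ofReal_sum]
        refine Finset.sum_congr rfl fun τ _ => ?_
        rw [← integral_complex_ofReal]
        refine integral_congr_ae (Filter.Eventually.of_forall fun x => ?_)
        change (starRingEnd ℂ) (ψ j τ x) * ψ j τ x = ((‖ψ j τ x‖ ^ 2 : ℝ) : ℂ)
        rw [mul_comm, Complex.mul_conj, Complex.normSq_eq_norm_sq]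
      rw [h2] at h1
      exact_mod_cast h1
    -- lower bound for each j
    have hj : ∀ j, (G.card : ℝ) * (2 * C * Real.exp (-(energy D sp (ψ j)) / T)) ≤
        ∑ x0 ∈ G, Real.exp ((-(energy D sp (ψ j)) - C - (ν + C) * near D r x0 (ψ j) + ν) / T) := by
      intro j
      obtain ⟨hs, _⟩ := near_grid D sp ℓ r G hGcov (ψ j) (hψ.1 j)
      rw [hn j, mul_one] at hs
      have hb : 0 ≤ (ν + C) / T := by positivity
      have hexp : Real.exp ((-(energy D sp (ψ j)) - C + ν) / T - (ν + C) / T / 2)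
          = 2 * C * Real.exp (-(energy D sp (ψ j)) / T) := by
        rw [show (-(energy D sp (ψ j)) - C + ν) / T - (ν + C) / T / 2
            = Real.log (2 * C) + -(energy D sp (ψ j)) / T by
          rw [← hνd]; field_simp; ring]
        rw [Real.exp_add, Real.exp_log (by linarith)]
      have hterm : ∀ x0 ∈ G, 2 * C * Real.exp (-(energy D sp (ψ j)) / T) *
          ((ν + C) / T / 2 - (ν + C) / T * near D r x0 (ψ j) + 1) ≤
          Real.exp ((-(energy D sp (ψ j)) - C - (ν + C) * near D r x0 (ψ j) + ν) / T) := by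
        intro x0 _
        rw [← hexp]
        have h3 : (-(energy D sp (ψ j)) - C - (ν + C) * near D r x0 (ψ j) + ν) / T
            = ((-(energy D sp (ψ j)) - C + ν) / T - (ν + C) / T / 2)
              + ((ν + C) / T / 2 - (ν + C) / T * near D r x0 (ψ j)) := by
          field_simp
          ring
        rw [h3, Real.exp_add]
        exact mul_le_mul_of_nonneg_left (Real.add_one_le_exp _) (Real.exp_pos _).le
      refine le_trans ?_ (Finset.sum_le_sum hterm)
      rw [← Finset.mul_sum, Finset.sum_add_distrib, Finset.sum_sub_distrib, ← Finset.mul_sum,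
        Finset.sum_const, Finset.sum_const, nsmul_eq_mul, nsmul_eq_mul, mul_one, mul_comm]
      have hpos : 0 ≤ 2 * C * Real.exp (-(energy D sp (ψ j)) / T) := by positivity
      refine mul_le_mul_of_nonneg_left ?_ hpos
      have h4 : (ν + C) / T * ∑ x0 ∈ G, near D r x0 (ψ j) ≤ (ν + C) / T * ((G.card : ℝ) / 2) := by
        refine mul_le_mul_of_nonneg_left ?_ hb
        linarith
      nlinarith [h4]
    have hsum : (G.card : ℝ) * (2 * C * ∑ j, Real.exp (-(energy D sp (ψ j)) / T)) ≤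
        C * G.card * Zs + C * Real.exp (C * ν / T) * Z' := by
      calc (G.card : ℝ) * (2 * C * ∑ j, Real.exp (-(energy D sp (ψ j)) / T))
          = ∑ j, (G.card : ℝ) * (2 * C * Real.exp (-(energy D sp (ψ j)) / T)) := by
            rw [Finset.mul_sum, Finset.mul_sum]
        _ ≤ ∑ j, ∑ x0 ∈ G, Real.exp ((-(energy D sp (ψ j)) - C
              - (ν + C) * near D r x0 (ψ j) + ν) / T) := Finset.sum_le_sum fun j _ => hj j
        _ = ∑ x0 ∈ G, ∑ j, Real.exp ((-(energy D sp (ψ j)) - C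
              - (ν + C) * near D r x0 (ψ j) + ν) / T) := Finset.sum_comm
        _ ≤ C * G.card * Zs + C * Real.exp (C * ν / T) * Z' := hineq G hGsub hGcov ψ hψ ν hν
    have h6 : C * (∑ j, Real.exp (-(energy D sp (ψ j)) / T) * (2 * G.card)) ≤
        C * (G.card * Zs + Real.exp (C * ν / T) * Z') := by
      calc C * (∑ j, Real.exp (-(energy D sp (ψ j)) / T) * (2 * G.card))
          = (G.card : ℝ) * (2 * C * ∑ j, Real.exp (-(energy D sp (ψ j)) / T)) := by
            rw [← Finset.sum_mul]; ring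
        _ ≤ C * G.card * Zs + C * Real.exp (C * ν / T) * Z' := hsum
        _ = C * (G.card * Zs + Real.exp (C * ν / T) * Z') := by ring
    have h7 := le_of_mul_le_mul_left h6 (by linarith)
    rw [← Finset.sum_mul] at h7
    rw [le_div_iff₀ (by positivity)]
    exact h7
  have hfin := csSup_le hne key
  rw [hZs, le_div_iff₀ (by positivity)] at hfin
  have h8 : (G.card : ℝ) * Zs ≤ Real.exp (C * ν / T) * Z' := by nlinarith
  have h9 : (Fintype.card I : ℝ) ≤ G.card := by
    have : (0:ℝ) ≤ (Fintype.card I : ℝ) := Nat.cast_nonneg _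
    linarith
  exact (mul_le_mul_of_nonneg_right h9 hZs0).trans h8

end Pool.Agent.Helper985.CP
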